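import Pool.Agent.Lib.MP_c02c19_gt.Limit

/-!
Finite limit sets, bands of periodic leaves, and the tame lemma in vertical position.
-/

namespace Pool.Agent.Lib.MP_c02c19_gt

open Set Filter Topology Metric Complex

variable {E : Type*} [TopologicalSpace E] {H : Type*} [Group H] [MulAction H E]

theorem exists_gap_of_finite {A : Set ℝ} (hA : A.Finite) :
    ∃ ε > 0, ∀ x ∈ A, |x| < ε → x = 0 := by
  have h1 : IsClosed (A \ {0}) := (hA.subset sdiff_subset).isClosed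
  have h2 : (A \ {0})ᶜ ∈ 𝓝 (0 : ℝ) := h1.isOpen_compl.mem_nhds (by simp)
  obtain ⟨ε, hε, hb⟩ := Metric.mem_nhds_iff.1 h2
  refine ⟨ε, hε, fun x hx hxε => ?_⟩
  by_contra hne
  exact hb (by simpa using hxε) ⟨hx, hne⟩

namespace Fam

variable {S : Surf E H} {T : Transv S} {ι : Type*} (Φ : Fam T ι)

theorem eventually_near {U : Set ℝ} (hU : IsOpen U) (h : Φ.N ∩ Icc (-T.w) T.w ⊆ U) :
    ∀ᶠ x in Φ.limF, x.2.2.2 ∈ Icc (-T.w) T.w → x.2.2.2 ∈ U := by
  by_contra hc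
  rw [not_eventually] at hc
  have hne := frequently_iff_neBot.1 hc
  set l := Φ.limF ⊓ 𝓟 {x : ι × ℝ × H × ℝ | ¬ (x.2.2.2 ∈ Icc (-T.w) T.w → x.2.2.2 ∈ U)}
  have hK : IsCompact (Icc (-T.w) T.w \ U) := isCompact_Icc.diff hU
  have hle : map (fun x : ι × ℝ × H × ℝ => x.2.2.2) l ≤ 𝓟 (Icc (-T.w) T.w \ U) := by
    rw [le_principal_iff, mem_map]
    refine eventually_inf_principal.2 (Eventually.of_forall fun x hx => ?_)
    exact Classical.not_imp.1 hx
  obtain ⟨u, hu, hcl⟩ := hK.exists_clusterPt hle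
  exact hu.2 (h ⟨hcl.mono (map_mono inf_le_left), hu.1⟩)

theorem pair_rel {a : ι} {s s' : ℝ} {η η' : H} {u u' : ℝ} (hu : u ∈ T.J) (hu' : u' ∈ T.J)
    (h1 : Φ.σ a s = η • T.j u) (h2 : Φ.σ a s' = η' • T.j u') :
    Seg S.dev (T.j u) ((η⁻¹ * η') • T.j u') ∧
      (u' : ℂ) + S.τ (η⁻¹ * η') = u + (s' - s : ℝ) * (Φ.δ a + I) := by
  obtain ⟨l1, l2⟩ := Φ.line_at (x := (a, s, η, u)) hu h1
  have e1 : η⁻¹ • Φ.σ a (s + (s' - s)) = (η⁻¹ * η') • T.j u' := by
    rw [add_sub_cancel, h2, mul_smul]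
  have e2 := l1.2 (s' - s)
  simp only at e2 l2
  rw [e1, T.dev_smul_j hu'] at e2
  refine ⟨?_, e2⟩
  have := l1.seg S.et 0 (s' - s)
  simp only at this
  rwa [l2, e1] at this

theorem finite_case (hfin : (Φ.N ∩ Icc (-T.w) T.w).Finite)
    (hdeep : ∀ m : ℝ, ∃ᶠ a in Φ.F, ∃ s, Icc (s - m) (s + m) ⊆ Φ.W a) :
    ∃ Hm : ℝ, ∀ ε > 0, ∃ᶠ a in Φ.F, ∃ c ∈ Φ.N ∩ Icc (-T.w) T.w, ∃ (η η₁ : H) (s h d : ℝ),
      0 < h ∧ h ≤ Hm ∧ S.τ η = h * I ∧ |d| < ε ∧ |d + h * Φ.δ a| < ε ∧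
      (Φ.δ a ≠ 0 → 0 < d * (d + h * Φ.δ a)) ∧ Φ.σ a s = η₁ • T.j (c + d) ∧
      Φ.σ a (s + h) = (η₁ * η) • T.j (c + d + h * Φ.δ a) := by
  classical
  set C := Φ.N ∩ Icc (-T.w) T.w with hC
  set r := hfin.toFinset.card with hr
  have hL := T.L_nonneg
  set Hm : ℝ := (3 * r + 1) * (T.L + 1) with hHm
  have hHm0 : 0 < Hm := by positivity
  have hA := S.finite_types T.bd_J T.bd_J (2 * Hm)
  set A := {η : H | ∃ q ∈ T.j '' T.J, ∃ q' ∈ T.j '' T.J,
      Seg S.dev q (η • q') ∧ ‖S.dev (η • q') - S.dev q‖ ≤ 2 * Hm}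
  obtain ⟨ε₁, hε₁, hgap⟩ := exists_gap_of_finite
    (((hfin.prod hfin).prod hA).image fun p : (ℝ × ℝ) × H => p.1.2 - p.1.1 + (S.τ p.2).re)
  refine ⟨Hm, fun ε hε => ?_⟩
  set ε' := min ε (ε₁ / 3) with hε'
  have hε'0 : 0 < ε' := lt_min hε (by linarith)
  obtain ⟨m₀, hm₀⟩ := Φ.eventually_limF.1 (Φ.eventually_near (U := ⋃ c ∈ C, ball c ε')
    (isOpen_biUnion fun _ _ => isOpen_ball) fun c hc => mem_biUnion hc (mem_ball_self hε'0))
  have hδ1 : ∀ᶠ a in Φ.F, |Φ.δ a| < min 1 (ε₁ / 3 / Hm) := by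
    have : ∀ᶠ y : ℝ in 𝓝 0, |y| < min 1 (ε₁ / 3 / Hm) := by
      filter_upwards [ball_mem_nhds (0 : ℝ) (lt_min one_pos (by positivity : 0 < ε₁ / 3 / Hm))]
        with y hy using by simpa using hy
    exact Φ.δ_lim.eventually this
  refine ((hdeep (|m₀| + Hm)).and_eventually (hm₀.and hδ1)).mono ?_
  rintro a ⟨⟨s₀, hs₀⟩, hnear, hδ⟩
  have hδa : |Φ.δ a| ≤ 1 := (hδ.trans_le (min_le_left _ _)).le
  have hδb : |Φ.δ a| * Hm < ε₁ / 3 :=
    (lt_div_iff₀ hHm0).1 (hδ.trans_le (min_le_right _ _))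
  have key : ∀ i : ℕ, ∃ s : ℝ, ∃ η : H, ∃ u c : ℝ, i < 3 * r + 1 →
      s ∈ Icc (s₀ + i * (T.L + 1)) (s₀ + i * (T.L + 1) + T.L) ∧ u ∈ Icc (-T.w) T.w ∧
      Φ.σ a s = η • T.j u ∧ c ∈ C ∧ |u - c| < ε' := by
    intro i
    by_cases hi : i < 3 * r + 1
    · have hi' : (i : ℝ) ≤ 3 * r := by exact_mod_cast Nat.lt_succ_iff.1 hi
      have hi0 : (0 : ℝ) ≤ i * (T.L + 1) := by positivity
      have hi1 : i * (T.L + 1) + T.L ≤ Hm := by rw [hHm]; nlinarith
      obtain ⟨s, hs, η, u, hu, he⟩ := Φ.ret a (s₀ + i * (T.L + 1))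
        (Subset.trans (Icc_subset_Icc (by linarith [abs_nonneg m₀])
          (by linarith [abs_nonneg m₀])) hs₀)
      have := hnear s η u (Subset.trans (Icc_subset_Icc
        (by linarith [le_abs_self m₀, hs.1]) (by linarith [le_abs_self m₀, hs.2])) hs₀)
        (T.mem_J_of_Icc hu) he hu
      obtain ⟨c, hc, hb⟩ := mem_iUnion₂.1 this
      exact ⟨s, η, u, c, fun _ => ⟨hs, hu, he, hc, by simpa [Real.dist_eq] using hb⟩⟩
    · exact ⟨0, 1, 0, 0, fun h => absurd h hi⟩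
  choose s η u c hk using key
  have main : ∀ i i', i < i' → i' < 3 * r + 1 → c i = c i' →
      SignType.sign (u i - c i) = SignType.sign (u i' - c i') →
      ∃ c ∈ C, ∃ (η η₁ : H) (s h d : ℝ),
      0 < h ∧ h ≤ Hm ∧ S.τ η = h * I ∧ |d| < ε ∧ |d + h * Φ.δ a| < ε ∧
      (Φ.δ a ≠ 0 → 0 < d * (d + h * Φ.δ a)) ∧ Φ.σ a s = η₁ • T.j (c + d) ∧
      Φ.σ a (s + h) = (η₁ * η) • T.j (c + d + h * Φ.δ a) := by
    intro i i' hii' hi' hcc hsg
    obtain ⟨a1, a2, a3, a4, a5⟩ := hk i (hii'.trans hi')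
    obtain ⟨b1, b2, b3, b4, b5⟩ := hk i' hi'
    obtain ⟨p1, p2⟩ := Φ.pair_rel (T.mem_J_of_Icc a2) (T.mem_J_of_Icc b2) a3 b3
    have i1 : (i : ℝ) + 1 ≤ i' := by exact_mod_cast hii'
    have i2 : (i' : ℝ) ≤ 3 * r := by exact_mod_cast Nat.lt_succ_iff.1 hi'
    have i0 : (0 : ℝ) ≤ i := Nat.cast_nonneg i
    have h0 : 0 < s i' - s i := by nlinarith [a1.2, b1.1]
    have h1 : s i' - s i ≤ Hm := by rw [hHm]; nlinarith [a1.1, b1.2]
    have hmem : (η i)⁻¹ * η i' ∈ A := by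
      refine ⟨_, ⟨_, T.mem_J_of_Icc a2, rfl⟩, _, ⟨_, T.mem_J_of_Icc b2, rfl⟩, p1, ?_⟩
      rw [T.dev_smul_j (T.mem_J_of_Icc b2), p2, T.dev_j _ (T.mem_J_of_Icc a2),
        add_sub_cancel_left, norm_mul, norm_real, Real.norm_eq_abs, abs_of_pos h0, mul_comm]
      exact mul_le_mul (norm_slope hδa) h1 h0.le (by norm_num)
    have e3 : (S.τ ((η i)⁻¹ * η i')).im = s i' - s i := by
      have := congrArg im p2
      simpa using this
    have e4 : u i' + (S.τ ((η i)⁻¹ * η i')).re = u i + (s i' - s i) * Φ.δ a := by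
      have := congrArg re p2
      simpa using this
    have hs1 : |(s i' - s i) * Φ.δ a| < ε₁ / 3 := by
      rw [abs_mul, abs_of_pos h0]
      nlinarith [abs_nonneg (Φ.δ a)]
    have e5 := hgap _ ⟨((c i, c i'), (η i)⁻¹ * η i'), ⟨⟨a4, b4⟩, hmem⟩, rfl⟩ (by
      have : c i' - c i + (S.τ ((η i)⁻¹ * η i')).re
          = (u i - c i) - (u i' - c i') + (s i' - s i) * Φ.δ a := by linarith
      simp only
      rw [this, abs_lt]
      have := min_le_right ε (ε₁ / 3)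
      constructor <;> linarith [(abs_lt.1 a5).1, (abs_lt.1 a5).2, (abs_lt.1 b5).1,
        (abs_lt.1 b5).2, (abs_lt.1 hs1).1, (abs_lt.1 hs1).2])
    simp only at e5
    have e6 : (S.τ ((η i)⁻¹ * η i')).re = 0 := by linarith
    have e7 : u i - c i + (s i' - s i) * Φ.δ a = u i' - c i' := by linarith
    refine ⟨c i, a4, (η i)⁻¹ * η i', η i, s i, s i' - s i, u i - c i, h0, h1, ?_,
      a5.trans_le (min_le_left _ _), by rw [e7]; exact b5.trans_le (min_le_left _ _), ?_,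
      by rw [add_sub_cancel]; exact a3, ?_⟩
    · apply Complex.ext <;> simp [e3, e6]
    · intro hδ0
      rw [e7]
      have hne : u i - c i ≠ u i' - c i' := by
        intro h
        rw [← h] at e7
        have : (s i' - s i) * Φ.δ a = 0 := by linarith
        rcases mul_eq_zero.1 this with h | h
        · exact h0.ne' h
        · exact hδ0 h
      rcases lt_trichotomy (u i - c i) 0 with h | h | h
      · rw [sign_neg h, eq_comm, sign_eq_neg_one_iff] at hsg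
        exact mul_pos_of_neg_of_neg h hsg
      · rw [h, sign_zero, eq_comm, sign_eq_zero_iff] at hsg
        exact absurd (h.trans hsg.symm) hne
      · rw [sign_pos h, eq_comm, sign_eq_one_iff] at hsg
        exact mul_pos h hsg
    · rw [add_sub_cancel, mul_inv_cancel_left, add_assoc, e7, hcc, add_sub_cancel]
      exact b3
  obtain ⟨i, hi, i', hi', hne, heq⟩ := Finset.exists_ne_map_eq_of_card_lt_of_maps_to
    (s := Finset.range (3 * r + 1)) (t := hfin.toFinset ×ˢ (Finset.univ : Finset SignType))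
    (f := fun i => (c i, SignType.sign (u i - c i)))
    (by
      rw [Finset.card_product, Finset.card_range, Finset.card_univ, ← hr]
      have : Fintype.card SignType = 3 := rfl
      rw [this]; omega)
    (by
      intro i hi
      have := (hk i (Finset.mem_range.1 hi)).2.2.2.1
      simpa using this)
  rw [Finset.mem_range] at hi hi'
  rcases lt_or_gt_of_ne hne with h | h
  · exact main i i' h hi' (congrArg Prod.fst heq) (congrArg Prod.snd heq)
  · exact main i' i h hi (congrArg Prod.fst heq).symm (congrArg Prod.snd heq).symm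

end Fam

namespace Transv

variable {S : Surf E H} (T : Transv S)

/-- a band of periodic vertical leaves over an interval -/
def Band (p q : ℝ) (h : ℝ) : Prop :=
  0 < h ∧ Ioo p q ⊆ T.J ∧ ∃ η : H, S.τ η = h * I ∧ ∃ χ, IsSec S.dev χ (strip (Ioo p q) h) ∧
    (∀ u ∈ Ioo p q, χ u = T.j u) ∧ ∀ u ∈ Ioo p q, χ (u + h * I) = η • T.j u

theorem band_cross {p q h : ℝ} (hb : T.Band p q h) {σ : ℝ → E} {z : ℂ} {δ : ℝ}
    (hσ : IsLine S.dev σ z (δ + I)) (hδ : δ ≠ 0) {s : ℝ} {η₁ : H} {u₀ : ℝ} (hu₀ : u₀ ∈ Ioo p q)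
    (h0 : σ s = η₁ • T.j u₀) {p' q' : ℝ} (hp : p ≤ p') (hq : q' ≤ q) (hlt : |δ| * h < q' - p') :
    ∃ (s' : ℝ) (η' : H), ∃ u ∈ Ioo p' q', σ s' = η' • T.j u := by
  obtain ⟨hh, hJ, η, hτ, χ, c1, c2, c3⟩ := hb
  have up : ∀ (t : ℝ) (η' : H) (u : ℝ), u ∈ Ioo p q → u + h * δ ∈ Ioo p q → σ t = η' • T.j u →
      σ (t + h) = (η' * η) • T.j (u + h * δ) := by
    intro t η' u hu hu' he
    have l1 := S.isLine_smul (hσ.shift t) η'⁻¹
    have h4 := hσ.2 t
    rw [he, T.dev_smul_j (hJ hu)] at h4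
    rw [← h4, S.τ_inv, add_neg_cancel_right] at l1
    have := l1.follow S.et c1 (a := 0) (b := h) (fun x hx => by
      rw [uIcc_of_le hh.le] at hx
      refine ⟨?_, by simpa using hx⟩
      have : ((u : ℂ) + x * (δ + I)).re = u + x * δ := by simp
      rw [this]
      rcases le_total 0 δ with hd | hd
      · constructor <;> nlinarith [hu.1, hu'.2, hx.1, hx.2]
      · constructor <;> nlinarith [hu'.1, hu.2, hx.1, hx.2])
      (by simp [he, c2 u hu])
    have e : (u : ℂ) + h * (δ + I) = ((u + h * δ : ℝ) : ℂ) + h * I := by push_cast; ring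
    rw [e, c3 _ hu'] at this
    rw [mul_smul, ← this, smul_inv_smul]
  have down : ∀ (t : ℝ) (η' : H) (u : ℝ), u ∈ Ioo p q → u - h * δ ∈ Ioo p q →
      σ t = η' • T.j u → σ (t - h) = (η' * η⁻¹) • T.j (u - h * δ) := by
    intro t η' u hu hu' he
    have l1 := S.isLine_smul (hσ.shift t) (η * η'⁻¹)
    have h4 := hσ.2 t
    rw [he, T.dev_smul_j (hJ hu)] at h4
    have e0 : (u : ℂ) + S.τ η' + S.τ (η * η'⁻¹) = u + h * I := by
      rw [S.τ_mul, S.τ_inv, hτ]; ring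
    rw [← h4, e0] at l1
    have := l1.follow S.et c1 (a := 0) (b := -h) (fun x hx => by
      rw [uIcc_of_ge (by linarith)] at hx
      refine ⟨?_, ?_⟩
      · have : ((u : ℂ) + h * I + x * (δ + I)).re = u + x * δ := by simp
        rw [this]
        rcases le_total 0 δ with hd | hd
        · constructor <;> nlinarith [hu'.1, hu.2, hx.1, hx.2]
        · constructor <;> nlinarith [hu.1, hu'.2, hx.1, hx.2]
      · have : ((u : ℂ) + h * I + x * (δ + I)).im = h + x := by simp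
        rw [this]; constructor <;> linarith [hx.1, hx.2])
      (by simp [he, c3 u hu, mul_smul])
    have e : (u : ℂ) + h * I + (-h : ℝ) * (δ + I) = ((u - h * δ : ℝ) : ℂ) := by push_cast; ring
    rw [e, c2 _ hu'] at this
    rw [mul_smul, ← this, sub_eq_add_neg, ← mul_smul, ← mul_smul]
    simp
  have all : ∀ k : ℤ, u₀ + k * (h * δ) ∈ Ioo p q →
      ∃ (s' : ℝ) (η' : H), σ s' = η' • T.j (u₀ + k * (h * δ)) := by
    intro k
    induction k using Int.induction_on with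
    | zero => intro _; exact ⟨s, η₁, by simpa using h0⟩
    | succ n ih =>
      intro hk
      have hn : (0 : ℝ) ≤ n := Nat.cast_nonneg n
      push_cast at hk ih ⊢
      have hk' : u₀ + n * (h * δ) ∈ Ioo p q := by
        rcases le_total 0 (h * δ) with hd | hd
        · constructor <;> nlinarith [hu₀.1, hk.2]
        · constructor <;> nlinarith [hk.1, hu₀.2]
      obtain ⟨s', η', he⟩ := ih hk'
      have e : u₀ + (n + 1) * (h * δ) = u₀ + n * (h * δ) + h * δ := by ring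
      rw [e] at hk ⊢
      exact ⟨_, _, up _ _ _ hk' hk he⟩
    | pred n ih =>
      intro hk
      have hn : (0 : ℝ) ≤ n := Nat.cast_nonneg n
      push_cast at hk ih ⊢
      have hk' : u₀ + -n * (h * δ) ∈ Ioo p q := by
        rcases le_total 0 (h * δ) with hd | hd
        · constructor <;> nlinarith [hk.1, hu₀.2]
        · constructor <;> nlinarith [hu₀.1, hk.2]
      obtain ⟨s', η', he⟩ := ih hk'
      have e : u₀ + (-n - 1) * (h * δ) = u₀ + -n * (h * δ) - h * δ := by ring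
      rw [e] at hk ⊢
      exact ⟨_, _, down _ _ _ hk' hk he⟩
  have hD : 0 < |h * δ| := abs_pos.2 (mul_ne_zero hh.ne' hδ)
  have hD' : |h * δ| < q' - p' := by rw [abs_mul, abs_of_pos hh, mul_comm]; exact hlt
  obtain ⟨k, hk⟩ : ∃ k : ℤ, u₀ + k * |h * δ| ∈ Ioo p' q' := by
    refine ⟨⌊(p' - u₀) / |h * δ|⌋ + 1, ?_, ?_⟩
    · have := Int.lt_floor_add_one ((p' - u₀) / |h * δ|)
      rw [div_lt_iff₀ hD] at this
      push_cast; linarith
    · have := Int.floor_le ((p' - u₀) / |h * δ|)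
      rw [le_div_iff₀ hD] at this
      push_cast; nlinarith
  obtain ⟨k', hk'⟩ : ∃ k' : ℤ, u₀ + k' * (h * δ) ∈ Ioo p' q' := by
    rcases abs_cases (h * δ) with ⟨e, -⟩ | ⟨e, -⟩
    · exact ⟨k, by rwa [e] at hk⟩
    · exact ⟨-k, by rw [e] at hk; push_cast; rwa [neg_mul, ← mul_neg]⟩
  obtain ⟨s', η', he⟩ := all k' ⟨by linarith [hk'.1], by linarith [hk'.2]⟩
  exact ⟨s', η', _, hk', he⟩

theorem band_of_cycle {c : ℝ} (hc : c ∈ Icc (-T.w) T.w) {η : H} {h : ℝ} (hh : 0 < h)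
    (hs : Seg S.dev (T.j c) (η • T.j c)) (hτ : S.τ η = h * I) :
    ∃ ε > 0, T.Band (c - ε) (c + ε) h := by
  have hw := T.w_pos
  have hc3 : |c| < 3 * T.w := abs_lt.2 ⟨by linarith [hc.1], by linarith [hc.2]⟩
  have hcJ := T.mem_J_of_Icc hc
  have ha : Alive S.dev (T.j c) (h * I) := ⟨_, hs, by rw [S.dev_smul, hτ]⟩
  have t1 : Tendsto (fun u => (T.j u, (h : ℂ) * I)) (𝓝 c) (𝓝 (T.j c, (h : ℂ) * I)) :=
    (T.cont.continuousAt (T.J_nhds hc3)).tendsto.prodMk_nhds tendsto_const_nhds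
  obtain ⟨ε, hε, hb⟩ := Metric.mem_nhds_iff.1
    (Filter.inter_mem (t1.eventually (ha.eventually S.et)) (T.J_nhds hc3))
  rw [Real.ball_eq_Ioo] at hb
  obtain ⟨χ, c1, c2, c3⟩ := T.link_along (convex_Ioo (c - ε) (c + ε)) (fun u hu => (hb hu).2)
    hh.le (fun u hu => (hb hu).1) (a := c) (a' := c) ⟨by linarith, by linarith⟩ hcJ hs
    (by rw [hτ]) (fun u hu => by simpa using (hb hu).2)
  exact ⟨ε, hε, hh, fun u hu => (hb hu).2, η, hτ, χ, c1, c2, fun u hu => by simpa using c3 u hu⟩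

end Transv

namespace Fam

variable {S : Surf E H} {T : Transv S} {ι : Type*} (Φ : Fam T ι)

theorem frequently_of_mem_N {u : ℝ} (hu : u ∈ Φ.N) {U : Set ℝ} (hU : U ∈ 𝓝 u) :
    ∃ᶠ a in Φ.F, ∃ (s : ℝ) (η : H), ∃ u' ∈ U, u' ∈ T.J ∧ Φ.σ a s = η • T.j u' := by
  obtain ⟨l, hl, h1, h2⟩ := Φ.exists_of_mem_N hu
  refine (Φ.limF_fst.mono_left h1).frequently (Eventually.frequently ?_)
  filter_upwards [Φ.limF_cross.filter_mono h1, h2 hU] with x x1 x2
  exact ⟨_, _, _, x2, x1.1, x1.2⟩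

theorem eventually_δ_lt {ε : ℝ} (hε : 0 < ε) : ∀ᶠ a in Φ.F, |Φ.δ a| < ε := by
  have : ∀ᶠ y : ℝ in 𝓝 0, |y| < ε := by
    filter_upwards [ball_mem_nhds (0 : ℝ) hε] with y hy using by simpa using hy
  exact Φ.δ_lim.eventually this

theorem finite_of_no_interior
    (h : {u | u ∈ Φ.N ∧ u ∈ Ioo (-T.w) T.w ∧ u ∉ interior Φ.N}.Finite)
    (hi : ∀ u ∈ Ioo (-T.w) T.w, u ∉ interior Φ.N) : (Φ.N ∩ Icc (-T.w) T.w).Finite := by
  refine (h.union (toFinite {-T.w, T.w})).subset ?_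
  rintro u ⟨h1, h2⟩
  rcases h2.1.eq_or_lt with e | e
  · exact Or.inr (Or.inl e.symm)
  rcases h2.2.eq_or_lt with e' | e'
  · exact Or.inr (Or.inr e')
  exact Or.inl ⟨h1, ⟨e, e'⟩, hi u ⟨e, e'⟩⟩

/-- the tame lemma in vertical position -/
theorem tame_vertical (hδ : ∀ a, Φ.δ a ≠ 0)
    (hdeep : ∀ m : ℝ, ∃ᶠ a in Φ.F, ∃ s, Icc (s - m) (s + m) ⊆ Φ.W a) :
    ∃ p q : ℝ, p < q ∧ Ioo p q ⊆ T.J ∧ ∀ p' q' : ℝ, p ≤ p' → p' < q' → q' ≤ q →
      ∃ᶠ a in Φ.F, ∃ (s : ℝ) (η : H), ∃ u ∈ Ioo p' q', Φ.σ a s = η • T.j u := by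
  have hw := T.w_pos
  by_cases hi : ∃ u ∈ Ioo (-T.w) T.w, u ∈ interior Φ.N
  · obtain ⟨u, -, hu⟩ := hi
    obtain ⟨ε, hε, hb⟩ := Metric.mem_nhds_iff.1 (mem_interior_iff_mem_nhds.1 hu)
    rw [Real.ball_eq_Ioo] at hb
    refine ⟨u - ε, u + ε, by linarith, hb.trans Φ.N_subset_J, fun p' q' h1 h2 h3 => ?_⟩
    have hm : (p' + q') / 2 ∈ Φ.N := hb ⟨by linarith, by linarith⟩
    refine (Φ.frequently_of_mem_N hm (Ioo_mem_nhds (a := p') (b := q') (by linarith)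
      (by linarith))).mono ?_
    rintro a ⟨s, η, u', h4, -, h5⟩
    exact ⟨s, η, u', h4, h5⟩
  push Not at hi
  rcases Φ.cycle_or_finite with ⟨c, h1, h2, η, h, h3, h4, h5⟩ | hfin
  · obtain ⟨ε, hε, hb⟩ := T.band_of_cycle h2 h3 h4 h5
    refine ⟨c - ε, c + ε, by linarith, hb.2.1, fun p' q' g1 g2 g3 => ?_⟩
    refine ((Φ.frequently_of_mem_N h1 (Ioo_mem_nhds (a := c - ε) (b := c + ε) (by linarith)
      (by linarith))).and_eventually
      (Φ.eventually_δ_lt (ε := (q' - p') / h) (div_pos (by linarith) h3))).mono ?_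
    rintro a ⟨⟨s, η', u', g4, -, g5⟩, g6⟩
    exact T.band_cross hb (Φ.line a) (hδ a) g4 g5 g1 g3 ((lt_div_iff₀ h3).1 g6)
  · have hC := Φ.finite_of_no_interior hfin hi
    obtain ⟨Hm, hH⟩ := Φ.finite_case hC hdeep
    obtain ⟨Δ, hΔ, hd⟩ := T.exists_death Hm
    obtain ⟨ε₁, hε₁, hgap⟩ := exists_gap_of_finite
      ((hC.prod hΔ).image fun p : ℝ × ℝ => p.2 - p.1)
    set ε := min ε₁ T.w with hεd
    have hε : 0 < ε := lt_min hε₁ hw
    have hfr : ∃ᶠ a in Φ.F, ∃ pq ∈ (fun c => (c, c + ε)) '' (Φ.N ∩ Icc (-T.w) T.w) ∪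
        (fun c => (c - ε, c)) '' (Φ.N ∩ Icc (-T.w) T.w), ∃ h : ℝ, h ≤ Hm ∧
        T.Band pq.1 pq.2 h ∧ ∃ (s : ℝ) (η₁ : H), ∃ u ∈ Ioo pq.1 pq.2, Φ.σ a s = η₁ • T.j u := by
      refine (hH ε hε).mono ?_
      rintro a ⟨c, hc, η, η₁, s, h, d, a1, a2, a3, a4, a5, a6, a7, a8⟩
      have key : ∀ p q : ℝ, Ioo p q ⊆ Ioo (c - ε) (c + ε) → c ∉ Ioo p q → c + d ∈ Ioo p q →
          c + d + h * Φ.δ a ∈ Ioo p q → T.Band p q h := by
        intro p q b1 b2 b3 b4
        have hJ : Ioo p q ⊆ T.J := fun x hx =>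
          ⟨by linarith [(b1 hx).1, hc.2.1, min_le_right ε₁ T.w],
            by linarith [(b1 hx).2, hc.2.2, min_le_right ε₁ T.w]⟩
        have hal : ∀ x ∈ Ioo p q, Alive S.dev (T.j x) (h * I) := by
          intro x hx
          have hxΔ : x ∉ Δ := by
            intro hm
            have := hgap _ ⟨(c, x), ⟨hc, hm⟩, rfl⟩ (by
              simp only
              rw [abs_lt]
              constructor <;> linarith [(b1 hx).1, (b1 hx).2, min_le_left ε₁ T.w])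
            simp only at this
            exact b2 (by rw [← sub_eq_zero.1 this]; exact hx)
          have hs : h / Hm ∈ Icc (0 : ℝ) 1 :=
            ⟨div_nonneg a1.le (by linarith), div_le_one_of_le₀ a2 (by linarith)⟩
          have := (hd x (hJ hx) hxΔ).mono hs
          rwa [← mul_assoc, ← ofReal_mul, div_mul_cancel₀ _ (by linarith)] at this
        obtain ⟨χ, c1, c2⟩ := S.et.exists_strip (T.cont.mono hJ)
          (fun u hu => T.dev_j u (hJ hu)) a1.le hal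
        refine ⟨a1, hJ, η, a3, χ, c1, c2, fun u hu => ?_⟩
        obtain ⟨p1, p2⟩ := Φ.pair_rel (hJ b3) (hJ b4) a7 a8
        rw [inv_mul_cancel_left] at p1 p2
        have hm0 : ((c + d : ℝ) : ℂ) ∈ strip (Ioo p q) h :=
          ⟨by simpa using b3, by simpa using a1.le⟩
        have hm : ∀ x ∈ Ioo p q, (x : ℂ) + S.τ η ∈ strip (Ioo p q) h := fun x hx => by
          rw [a3]; exact ⟨by simpa using hx, by simpa using a1.le⟩
        have e0 : χ ((c + d + h * Φ.δ a : ℝ) + S.τ η) = η • T.j (c + d + h * Φ.δ a) := by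
          have := c1.seg ((convex_strip (convex_Ioo p q) h).segment_subset hm0 (hm _ b4))
          rw [c2 _ b3] at this
          exact Seg.unique S.et this p1 (by rw [c1.2 _ (hm _ b4), T.dev_smul_j (hJ b4)])
        rw [← a3]
        refine T.agree c1 (fun x hx => ?_) e0
        have hx' : x ∈ Ioo p q := (convex_Ioo p q).ordConnected.uIcc_subset b4 hu hx
        exact ⟨hJ hx', hm x hx'⟩
      have hsg := a6 (hδ a)
      rw [abs_lt] at a4 a5
      rcases lt_trichotomy d 0 with hd0 | hd0 | hd0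
      · have hd1 : d + h * Φ.δ a < 0 := by
          by_contra hcon
          nlinarith [not_lt.1 hcon]
        have b3 : c + d ∈ Ioo (c - ε) c := ⟨by linarith, by linarith⟩
        exact ⟨(c - ε, c), Or.inr ⟨c, hc, rfl⟩, h, a2, key _ _ (Ioo_subset_Ioo le_rfl (by linarith))
          (by simp) b3 ⟨by linarith, by linarith⟩, s, η₁, _, b3, a7⟩
      · rw [hd0] at hsg; simp at hsg
      · have hd1 : 0 < d + h * Φ.δ a := by
          by_contra hcon
          nlinarith [not_lt.1 hcon]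
        have b3 : c + d ∈ Ioo c (c + ε) := ⟨by linarith, by linarith⟩
        exact ⟨(c, c + ε), Or.inl ⟨c, hc, rfl⟩, h, a2, key _ _ (Ioo_subset_Ioo (by linarith) le_rfl)
          (by simp) b3 ⟨by linarith, by linarith⟩, s, η₁, _, b3, a7⟩
    obtain ⟨pq, hpq, hfr'⟩ := (frequently_exists_finite ((hC.image _).union (hC.image _))).1 hfr
    obtain ⟨a₀, h₀, -, hb₀, -⟩ := hfr'.exists
    have hlt : pq.1 < pq.2 := by
      rcases hpq with ⟨c, -, rfl⟩ | ⟨c, -, rfl⟩ <;> simp only <;> linarith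
    refine ⟨pq.1, pq.2, hlt, hb₀.2.1, fun p' q' g1 g2 g3 => ?_⟩
    refine (hfr'.and_eventually
      (Φ.eventually_δ_lt (ε := (q' - p') / (|Hm| + 1)) (div_pos (by linarith) (by positivity)))).mono ?_
    rintro a ⟨⟨h, a1, a2, s, η₁, u, a3, a4⟩, g6⟩
    refine T.band_cross a2 (Φ.line a) (hδ a) a3 a4 g1 g3 ?_
    have := (lt_div_iff₀ (by positivity)).1 g6
    nlinarith [abs_nonneg (Φ.δ a), le_abs_self Hm]

end Fam

end Pool.Agent.Lib.MP_c02c19_gt
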