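import Pool.Agent.Lib.MP_c02c19_gt.Generic

/-!
The tame lemma and the generic lemma for arbitrary directions and compact return sets.
-/

namespace Pool.Agent.Lib.MP_c02c19_gt

open Set Filter Topology Metric Complex

variable {E : Type*} [TopologicalSpace E] {H : Type*} [Group H] [MulAction H E]

namespace Surf

variable (S : Surf E H)

theorem pick {K : Set E} (hK : IsCompact K) {σ : ℕ → ℝ → E} {z : ℕ → ℂ} {δ : ℕ → ℝ}
    (W : ℕ → Set ℝ) {ℓ : ℝ} (hℓ : 0 ≤ ℓ) (hσ : ∀ n, IsLine S.dev (σ n) (z n) (δ n + I))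
    (hδ : ∀ n, |δ n| ≤ 1)
    (h : ∀ M : ℝ, ∃ᶠ n in atTop, ∃ a : ℝ, Icc a (a + M) ⊆ W n ∧
      ∀ s ∈ Icc a (a + M), ∃ s' ∈ Icc s (s + ℓ), ∃ η : H, η • σ n s' ∈ K) :
    ∃ (c : ℂ) (T : Transv (S.affine 1 (-c) norm_one)) (χ : ℂ → E),
      IsSec S.dev χ (ball c (4 * T.w)) ∧ (∀ u : ℝ, T.j u = χ (c + u)) ∧
      ∀ M : ℝ, ∃ᶠ n in atTop, ∃ a : ℝ, Icc a (a + M) ⊆ W n ∧ ∀ s ∈ Icc a (a + M),
        ∃ s' ∈ Icc s (s + T.L), ∃ η : H, ∃ u ∈ Icc (-T.w) T.w, σ n s' = η • T.j u := by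
  choose ε hε χ hχ hq using S.et.exists_chart
  obtain ⟨C, hC⟩ := hK.elim_finite_subcover (fun q => χ q '' ball (S.dev q) (ε q / 8))
    (fun q => ((hχ q).mono (ball_subset_ball (by linarith [hε q]))).isOpen_image S.et isOpen_ball)
    (fun q _ => mem_iUnion.2 ⟨q, S.dev q, mem_ball_self (by linarith [hε q]), hq q⟩)
  obtain ⟨q, -, L', hL', hh⟩ := piecewise_syndetic C
    (fun n q s => ∃ η : H, η • σ n s ∈ χ q '' ball (S.dev q) (ε q / 8)) W hℓ (fun M => by
      refine (h M).mono ?_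
      rintro n ⟨a, a1, a2⟩
      refine ⟨a, a1, fun s hs => ?_⟩
      obtain ⟨s', b1, η, b2⟩ := a2 s hs
      obtain ⟨q, c1, c2⟩ := mem_iUnion₂.1 (hC b2)
      exact ⟨s', b1, q, c1, η, c2⟩)
  have hεq := hε q
  have hb : ∀ u ∈ Icc (-(3 * (ε q / 4))) (3 * (ε q / 4)), S.dev q + (u : ℝ) ∈ ball (S.dev q) (ε q) := by
    intro u hu
    simp only [mem_ball, dist_self_add_left, norm_real, Real.norm_eq_abs, abs_lt]
    constructor <;> linarith [hu.1, hu.2]
  refine ⟨S.dev q, ⟨ε q / 4, L' + ε q / 4, fun u => χ q (S.dev q + u), by linarith, by linarith,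
    (hχ q).1.comp (by fun_prop) hb, fun u hu => ?_⟩, χ q, ?_, fun u => rfl, fun M => ?_⟩
  · change 1 * S.dev (χ q (S.dev q + u)) + -S.dev q = u
    rw [(hχ q).2 _ (hb u hu)]; ring
  · have : 4 * (ε q / 4) = ε q := by ring
    simp only [this]; exact hχ q
  · refine (hh (M + ε q / 4)).mono ?_
    rintro n ⟨a, a1, a2⟩
    refine ⟨a, Subset.trans (Icc_subset_Icc le_rfl (by linarith)) a1, fun s hs => ?_⟩
    obtain ⟨s', b1, η, y, b2, b3⟩ := a2 (s + ε q / 8) ⟨by linarith [hs.1], by linarith [hs.2]⟩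
    have hy : ‖y - S.dev q‖ < ε q / 8 := by rwa [mem_ball, dist_eq_norm] at b2
    have hre := (abs_re_le_norm (y - S.dev q)).trans_lt hy
    have him := (abs_im_le_norm (y - S.dev q)).trans_lt hy
    have l1 := S.isLine_smul ((hσ n).shift s') η
    have e1 : z n + s' * (δ n + I) + S.τ η = y := by
      rw [← (hσ n).2, ← S.dev_smul, ← b3, (hχ q).2 y (ball_subset_ball (by linarith) b2)]
    rw [e1] at l1
    have := l1.follow S.et (hχ q) (a := 0) (b := -(y - S.dev q).im) (fun x hx => by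
      have hx' : |x| ≤ |(y - S.dev q).im| := by
        have := abs_sub_left_of_mem_uIcc hx
        rwa [sub_zero, sub_zero, abs_neg] at this
      rw [mem_ball, dist_eq_norm]
      have e : y + x * (δ n + I) - S.dev q = (y - S.dev q) + x * (δ n + I) := by ring
      rw [e]
      have h1 := norm_add_le (y - S.dev q) (x * (δ n + I))
      rw [norm_mul, norm_real, Real.norm_eq_abs] at h1
      have h2 := Fam.norm_slope (hδ n)
      nlinarith [abs_nonneg x]) (by simp [b3])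
    have e2 : y + ((-(y - S.dev q).im : ℝ) : ℂ) * (δ n + I)
        = S.dev q + (((y - S.dev q).re - (y - S.dev q).im * δ n : ℝ) : ℂ) := by
      apply Complex.ext <;> simp <;> ring
    rw [e2] at this
    have h3 : |(y - S.dev q).im * δ n| ≤ ε q / 8 := by
      rw [abs_mul]; nlinarith [hδ n, abs_nonneg (δ n), abs_nonneg (y - S.dev q).im]
    rw [abs_lt] at hre him
    rw [abs_le] at h3
    refine ⟨s' + -(y - S.dev q).im, ⟨by linarith [b1.1], by simp only; linarith [b1.2]⟩, η⁻¹,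
      (y - S.dev q).re - (y - S.dev q).im * δ n,
      ⟨by simp only; linarith, by simp only; linarith⟩, ?_⟩
    simp only
    rw [← this, inv_smul_smul]

theorem tame {K : Set E} (hK : IsCompact K) {σ : ℕ → ℝ → E} {z θ : ℕ → ℂ} {θ₀ : ℂ}
    (hθ₀ : ‖θ₀‖ = 1) (hσ : ∀ n, IsLine S.dev (σ n) (z n) (θ n))
    (hθ : Tendsto θ atTop (𝓝 θ₀)) (hn : ∀ n, ‖θ n‖ = 1) (hne : ∀ᶠ n in atTop, θ n ≠ θ₀)
    {ℓ : ℝ} (hℓ : 0 ≤ ℓ)
    (h : ∀ n : ℕ, ∀ s ∈ Icc (0 : ℝ) n, ∃ s' ∈ Icc s (s + ℓ), ∃ η : H, η • σ n s' ∈ K) :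
    ∃ Ω, IsOpen Ω ∧ Ω.Nonempty ∧ ∀ Ω' ⊆ Ω, IsOpen Ω' → Ω'.Nonempty →
      ∃ᶠ n in atTop, ∃ (s : ℝ) (η : H), η • σ n s ∈ Ω' := by
  have hθ0 : θ₀ ≠ 0 := by rintro rfl; simp at hθ₀
  set a : ℂ := I / θ₀ with ha
  have ha1 : ‖a‖ = 1 := by rw [ha, norm_div, norm_I, hθ₀, div_one]
  have haθ : Tendsto (fun n => a * θ n) atTop (𝓝 I) := by
    have := hθ.const_mul a
    rwa [ha, div_mul_cancel₀ _ hθ0] at this
  have t_im : Tendsto (fun n => (a * θ n).im) atTop (𝓝 1) :=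
    (continuous_im.tendsto I).comp haθ
  have t_re : Tendsto (fun n => (a * θ n).re) atTop (𝓝 0) :=
    (continuous_re.tendsto I).comp haθ
  have t_δ : Tendsto (fun n => (a * θ n).re / (a * θ n).im) atTop (𝓝 0) := by
    have := t_re.div t_im one_ne_zero
    rwa [zero_div] at this
  obtain ⟨N₀, hN₀⟩ := eventually_atTop.1 (hne.and ((t_im.eventually_const_lt
    (by norm_num : (1 / 2 : ℝ) < 1)).and (t_δ.eventually (Icc_mem_nhds
      (by norm_num : (-1 : ℝ) < 0) (by norm_num : (0 : ℝ) < 1)))))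
  set S' := S.affine a 0 ha1 with hS'
  let r : ℕ → ℝ := fun n => (a * θ (n + N₀)).im
  let δ : ℕ → ℝ := fun n => (a * θ (n + N₀)).re / (a * θ (n + N₀)).im
  have hr : ∀ n, 1 / 2 < r n := fun n => (hN₀ _ (Nat.le_add_left _ _)).2.1
  have hr1 : ∀ n, r n ≤ 1 := fun n => by
    have := (le_abs_self _).trans (abs_im_le_norm (a * θ (n + N₀)))
    rwa [norm_mul, ha1, hn, one_mul] at this
  have hδ1 : ∀ n, |δ n| ≤ 1 := fun n => abs_le.2 (hN₀ _ (Nat.le_add_left _ _)).2.2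
  have hδ0 : ∀ n, δ n ≠ 0 := by
    intro n h0
    have h1 := hr n
    have h2 : (a * θ (n + N₀)).re = 0 := by
      rcases div_eq_zero_iff.1 h0 with h | h
      · exact h
      · simp only [r] at h1; linarith
    have h3 : ‖a * θ (n + N₀)‖ = 1 := by rw [norm_mul, ha1, hn, one_mul]
    have h4 : (a * θ (n + N₀)).im = 1 := by
      have := Complex.sq_norm (a * θ (n + N₀))
      rw [h3, normSq_apply, h2] at this
      simp only [r] at h1
      nlinarith
    have h5 : a * θ (n + N₀) = I := by apply Complex.ext <;> simp only [h2, h4, I_re, I_im]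
    refine (hN₀ _ (Nat.le_add_left N₀ n)).1 ?_
    rw [ha, div_mul_eq_mul_div, div_eq_iff hθ0] at h5
    exact mul_left_cancel₀ I_ne_zero h5
  have hσ' : ∀ n, IsLine S'.dev (fun s => σ (n + N₀) (s * (r n)⁻¹)) (a * z (n + N₀) + 0)
      (δ n + I) := by
    intro n
    have := ((hσ (n + N₀)).affine a 0).scale (r n)⁻¹
    have hr0 : r n ≠ 0 := by linarith [hr n]
    have e : (((r n)⁻¹ : ℝ) : ℂ) * (a * θ (n + N₀)) = δ n + I := by
      apply Complex.ext
      · simp only [re_ofReal_mul, add_re, ofReal_re, I_re, add_zero, δ, r]; field_simp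
      · simp only [im_ofReal_mul, add_im, ofReal_im, I_im, zero_add]
        exact inv_mul_cancel₀ hr0
    rwa [e] at this
  obtain ⟨c, T, χ, c1, c2, c3⟩ := S'.pick hK (fun _ => univ) hℓ hσ' hδ1 (fun M => by
    refine Eventually.frequently ?_
    filter_upwards [tendsto_natCast_atTop_atTop.eventually_ge_atTop (2 * M)] with n hn'
    refine ⟨0, subset_univ _, fun s hs => ?_⟩
    have hr0 : 0 < r n := by linarith [hr n]
    obtain ⟨s', b1, η, b2⟩ := h (n + N₀) (s * (r n)⁻¹) ⟨by have := hs.1; positivity, by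
      rw [← div_eq_mul_inv, div_le_iff₀ hr0]
      have : (0 : ℝ) ≤ N₀ := Nat.cast_nonneg _
      have : (0 : ℝ) ≤ n := Nat.cast_nonneg _
      push_cast
      nlinarith [hs.2, hr n]⟩
    refine ⟨s' * r n, ⟨?_, ?_⟩, η, by rwa [mul_inv_cancel_right₀ hr0.ne']⟩
    · have := mul_le_mul_of_nonneg_right b1.1 hr0.le
      rwa [inv_mul_cancel_right₀ hr0.ne'] at this
    · have := mul_le_mul_of_nonneg_right b1.2 hr0.le
      rw [add_mul, inv_mul_cancel_right₀ hr0.ne'] at this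
      nlinarith [hr1 n])
  have c4 : ∀ M : ℕ, ∃ n ≥ M, ∃ a : ℝ, ∀ s ∈ Icc a (a + M), ∃ s' ∈ Icc s (s + T.L), ∃ η : H,
      ∃ u ∈ Icc (-T.w) T.w, σ (n + N₀) (s' * (r n)⁻¹) = η • T.j u := by
    intro M
    obtain ⟨n, hn1, a, -, a2⟩ := frequently_atTop.1 (c3 M) M
    exact ⟨n, hn1, a, a2⟩
  choose φ hφ b hb using c4
  have tφ : Tendsto φ atTop atTop := tendsto_atTop_mono hφ tendsto_id
  have tφ' : Tendsto (fun M => φ M + N₀) atTop atTop := (tendsto_add_atTop_nat N₀).comp tφ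
  let Φ : Fam T ℕ :=
    { F := atTop, σ := fun M s => σ (φ M + N₀) (s * (r (φ M))⁻¹),
      z := fun M => 1 * (a * z (φ M + N₀) + 0) + -c, δ := fun M => δ (φ M),
      W := fun M => Icc (b M) (b M + M),
      line := fun M => by
        have := (hσ' (φ M)).affine 1 (-c)
        rwa [one_mul ((δ (φ M) : ℂ) + I)] at this
      δ_lim := t_δ.comp tφ'
      ret := fun M s hs => hb M s (hs ⟨le_rfl, by linarith [T.L_nonneg]⟩) }
  obtain ⟨p, q, hpq, hJ, hcr⟩ := Φ.tame_vertical (fun M => hδ0 _) (fun m => by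
    refine Eventually.frequently ?_
    filter_upwards [tendsto_natCast_atTop_atTop.eventually_ge_atTop (2 * m)] with n hn
    exact ⟨b n + m, Icc_subset_Icc (by linarith) (by linarith)⟩)
  have hw := T.w_pos
  let D : Set ℂ := {y | (y - c).re ∈ Ioo p q ∧ (y - c).im ∈ Ioo (-(T.w / 2)) (T.w / 2)}
  have hDo : IsOpen D := (isOpen_Ioo.preimage (by fun_prop)).inter (isOpen_Ioo.preimage (by fun_prop))
  have hDb : D ⊆ ball c (4 * T.w) := by
    intro y hy
    rw [mem_ball, dist_eq_norm]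
    have h1 := norm_le_abs_re_add_abs_im (y - c)
    have h2 : |(y - c).re| ≤ 3 * T.w := abs_le.2 (hJ hy.1)
    have h3 : |(y - c).im| < T.w / 2 := abs_lt.2 hy.2
    linarith
  refine ⟨χ '' D, (c1.mono hDb).isOpen_image S'.et hDo, ⟨_, c + ((p + q) / 2 : ℝ), ⟨?_, ?_⟩, rfl⟩,
    fun Ω' h1 h2 h3 => ?_⟩
  · simp only [add_sub_cancel_left, ofReal_re]; constructor <;> linarith
  · simp only [add_sub_cancel_left, ofReal_im]; constructor <;> linarith
  obtain ⟨m, hm⟩ := h3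
  obtain ⟨y, hy, rfl⟩ := h1 hm
  obtain ⟨ε, hε, hball⟩ := Metric.mem_nhds_iff.1
    ((c1.1.continuousAt (isOpen_ball.mem_nhds (hDb hy))).preimage_mem_nhds (h2.mem_nhds hm))
  refine tφ'.frequently ?_
  refine ((hcr (max p ((y - c).re - ε / 2)) (min q ((y - c).re + ε / 2)) (le_max_left _ _)
    (by
      rw [max_lt_iff, lt_min_iff, lt_min_iff]
      refine ⟨⟨hpq, ?_⟩, ?_, ?_⟩ <;> linarith [hy.1.1, hy.1.2]) (min_le_left _ _)).and_eventually
    (Φ.eventually_δ_lt (ε := ε / T.w) (by positivity))).mono ?_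
  rintro M ⟨⟨s, η, u, g1, g2⟩, g3⟩
  have huI : u ∈ Ioo p q := ⟨(le_max_left _ _).trans_lt g1.1, g1.2.trans_le (min_le_left _ _)⟩
  have hu1 : (y - c).re - ε / 2 < u := (le_max_right _ _).trans_lt g1.1
  have hu2 : u < (y - c).re + ε / 2 := g1.2.trans_le (min_le_right _ _)
  have l1 := S'.isLine_smul ((hσ' (φ M)).shift s) η⁻¹
  have hcu : c + u ∈ ball c (4 * T.w) := hDb ⟨by simpa using huI, by
    simp only [add_sub_cancel_left, ofReal_im]; constructor <;> linarith⟩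
  have e1 : a * z (φ M + N₀) + 0 + s * (δ (φ M) + I) + S'.τ η⁻¹ = c + u := by
    rw [← (hσ' (φ M)).2, ← S'.dev_smul]
    change S'.dev (η⁻¹ • Φ.σ M s) = _
    rw [g2, inv_smul_smul, c2, c1.2 _ hcu]
  rw [e1] at l1
  have him : |(y - c).im| < T.w / 2 := abs_lt.2 hy.2
  have := l1.follow S'.et c1 (a := 0) (b := (y - c).im) (fun x hx => by
    have hx' : |x| ≤ |(y - c).im| := by
      have := abs_sub_left_of_mem_uIcc hx
      simpa using this
    rw [mem_ball, dist_eq_norm]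
    have e : c + u + x * (δ (φ M) + I) - c = u + x * (δ (φ M) + I) := by ring
    rw [e]
    have h1 := norm_add_le (u : ℂ) (x * (δ (φ M) + I))
    rw [norm_mul, norm_real, norm_real, Real.norm_eq_abs, Real.norm_eq_abs] at h1
    have h2 := Fam.norm_slope (hδ1 (φ M))
    have h3 : |u| ≤ 3 * T.w := abs_le.2 (hJ huI)
    nlinarith [abs_nonneg x]) (by
      simp only [add_zero, ofReal_zero, zero_mul]
      change η⁻¹ • Φ.σ M s = _
      rw [g2, inv_smul_smul, c2])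
  refine ⟨(s + (y - c).im) * (r (φ M))⁻¹, η⁻¹, ?_⟩
  rw [this]
  refine hball ?_
  rw [mem_ball, dist_eq_norm]
  have e : c + u + ((y - c).im : ℝ) * (δ (φ M) + I) - y
      = ((u - (y - c).re + (y - c).im * δ (φ M) : ℝ) : ℂ) := by
    apply Complex.ext <;> simp <;> ring
  rw [e, norm_real, Real.norm_eq_abs]
  have g4 : |δ (φ M)| * T.w < ε := (lt_div_iff₀ hw).1 g3
  have g5 : |(y - c).im * δ (φ M)| ≤ ε / 2 := by
    rw [abs_mul]; nlinarith [abs_nonneg (δ (φ M)), abs_nonneg (y - c).im]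
  rw [abs_le] at g5
  rw [abs_lt]
  constructor <;> linarith

theorem generic {K : Set E} (hK : IsCompact K) {θ : ℂ} (hθ : ‖θ‖ = 1)
    (gS : ∀ a ∈ S.Sing, ∀ b ∈ S.Sing, ∀ s : ℝ, a - b = s * θ → a = b)
    (gτ : ∀ (η : H) (s : ℝ), S.τ η = s * θ → S.τ η = 0) {O : Set E} (hOo : IsOpen O)
    (hO : ∀ (η : H), ∀ q ∈ O, η • q ∈ O) {o : ℝ → E} {z : ℂ} (ho : IsLine S.dev o z θ) {ℓ : ℝ}
    (hℓ : 0 ≤ ℓ) (h : ∀ M : ℝ, ∃ a : ℝ, ∀ s ∈ Icc a (a + M), o s ∉ O ∧
      ∃ s' ∈ Icc s (s + ℓ), ∃ η : H, η • o s' ∈ K) :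
    ∃ B, S.Bd B ∧ ∀ q ∈ connectedComponent (o 0), q ∉ O ∧ ∃ η : H, η • q ∈ B := by
  have hθ0 : θ ≠ 0 := by rintro rfl; simp at hθ
  set a : ℂ := I / θ with ha
  have ha1 : ‖a‖ = 1 := by rw [ha, norm_div, norm_I, hθ, div_one]
  have haθ : a * θ = I := by rw [ha, div_mul_cancel₀ _ hθ0]
  have key : ∀ v : ℂ, (a * v).re = 0 → v = (a * v).im * θ := by
    intro v hv
    have : a * v = (a * v).im * I := by
      conv_lhs => rw [← re_add_im (a * v), hv]
      simp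
    have ha0 : a ≠ 0 := by rintro h; rw [h] at ha1; simp at ha1
    refine mul_left_cancel₀ ha0 ?_
    rw [mul_left_comm, haθ]; exact this
  set S' := S.affine a 0 ha1 with hS'
  have ho' : IsLine S'.dev o (a * z + 0) (((0 : ℝ) : ℂ) + I) := by
    have := ho.affine a 0
    rwa [haθ, ← zero_add I, ← ofReal_zero] at this
  obtain ⟨c, T, χ, c1, c2, c3⟩ := S'.pick hK (σ := fun _ => o) (δ := fun _ => 0)
    (fun _ => {s | o s ∉ O}) hℓ (fun _ => ho') (fun _ => by simp) (fun M => by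
      obtain ⟨a, ha⟩ := h M
      exact Eventually.frequently (Eventually.of_forall fun n =>
        ⟨a, fun s hs => (ha s hs).1, fun s hs => (ha s hs).2⟩))
  refine T.generic_vertical hOo hO ?_ ?_ (z := 1 * (a * z + 0) + -c)
    (by
      have := ho'.affine 1 (-c)
      rwa [ofReal_zero, zero_add, mul_comm 1 I, mul_one] at this) fun M => ?_
  · rintro _ ⟨_, ⟨x, hx, rfl⟩, rfl⟩ _ ⟨_, ⟨y, hy, rfl⟩, rfl⟩ he
    have : (a * (x - y)).re = 0 := by
      simp only [one_mul, add_zero, add_re] at he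
      rw [mul_sub, sub_re]; linarith
    rw [gS x hx y hy _ (key _ this)]
  · intro η he
    change (1 * (a * S.τ η)).re = 0 at he
    change 1 * (a * S.τ η) = 0
    rw [one_mul] at he
    rw [gτ η _ (key _ he)]; simp
  · obtain ⟨n, a, a1, a2⟩ := (c3 M).exists
    exact ⟨a, fun s hs => ⟨a1 hs, a2 s hs⟩⟩

end Surf

end Pool.Agent.Lib.MP_c02c19_gt
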