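import Pool.Agent.Lib.MP_c02c19_gt.Crystal3

/-!
TASK A. Discrete reflection group => the polygon is a union of tiles of an integrable tiling.

Paper proof.
(0) `P` is bounded with nonempty interior, so the lines of the sides are not all parallel and do
not all pass through one point (a ray from an interior point leaves `P` through a side).
Let `Λ = {g 0 | g ∈ Gam S, lin g = 1}` (additive subgroup of `ℂ`, invariant under `lin g`,
finite in every ball), `G = (Gam S).map lin` finite of order `N`.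
`Λ ≠ 0`: otherwise `Gam S` is finite (lin injective on it) and fixes a point (average of an
orbit), which then lies on every side line.
(1) Averaging: choose `γ_h ∈ Gam S` with `lin γ_h = h`, put `o = (1/N) ∑ γ_h 0`. Then
`γ o - o ∈ Λ' := (1/N) Λ` for every `γ ∈ Gam S`.  So every side reflection has the form
`z ↦ o + u conj (z - o) + l`, `‖u‖ = 1`, `l ∈ Λ'`, and `Λ'` is invariant under
`z ↦ u conj z`.
(2) Let `e` be a shortest nonzero vector of `Λ'`; rescale by `z ↦ o + e z` so that `o = 0`,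
`e = 1`. Let `C` be the set of unit `ζ` with `ζ Λ' ⊆ Λ'` (group containing `-1`). For
`ζ ∈ C \ {±1}`: `‖ζ - 1‖ ≥ 1`, `‖ζ + 1‖ ≥ 1`, so `|re ζ| ≤ 1/2`; applied to `ζ²` too this gives
`ζ ∈ {±i}` or `re ζ = ±1/2`; and `C` cannot contain both `i` and `ω`.
 * If `i ∈ C`: `Λ' = ℤ[i]` (every point of `ℂ` is at distance `< 1` from `ℤ[i]`), every `u` is a
   shortest vector (`u = u conj 1 ∈ Λ'`), so `u ∈ {±1, ±i}`; all side lines are among
   `x ∈ ℤ/2`, `y ∈ ℤ/2`, `x ± y ∈ ℤ/2`-type lines: use the tile `[0, 1, I]` scaled by a small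
   enough factor (for instance `b = e/4` times a suitable unit, whatever is convenient).
 * If `ω = (1 + √3 i)/2 ∈ C`: `Λ' = ℤ[ω]`, `u ∈ μ₆`; use the 30-60-90 tile.
 * If `C = {±1}`: two side reflections with `u, u'` give `u conj u' ∈ C`, so `u' = ± u`: all
   sides are parallel to two orthogonal directions; there are two different lines in each
   direction, their offsets generate discrete subgroups of `ℝ`
   (`AddSubgroup.dense_or_cyclic`); use a rectangle.
(3) Tiling lemma: let `v` be the vertex list of the chosen `Q = convexHull v`, `Γ_Q` the group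
generated by the reflections in its sides. Tiles are exactly `v.map g`, `g ∈ Γ_Q`
(`reflLine (g a) (g b) (g z) = g (reflLine a b z)`). A family of lines `𝓜` containing all side
lines of `P` is invariant under the generators of `Γ_Q` and misses `interior Q`;
`Γ_Q` lies in (finite set of linear parts) ⋉ (lattice), so only finitely many `g` move a given
point into a given ball; for `z : ℂ` pick `g` minimising `dist (g z) c` (`c` an interior point of
`Q`): then `g z ∈ Q` (else reflecting in a violated wall decreases the distance). Hence tiles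
cover the plane. The interior of a tile is connected and misses `frontier P`, so lies in
`interior P` or outside `P`; `Q = closure (interior Q)` and `P = closure (interior P)` give
`P = ⋃` of the finitely many tiles whose interior lies in `interior P`.
-/

namespace Pool.Agent.Lib.MP_c02c19_gt

open Complex Set

/-- The translation subgroup. -/
def crystalLam (S : Finset (ℂ × ℂ)) : AddSubgroup ℂ where
  carrier := {z | ∃ g ∈ Gam S, lin g = 1 ∧ g 0 = z}
  add_mem' := by
    rintro _ _ ⟨g, hg, h1, rfl⟩ ⟨h, hh, h2, rfl⟩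
    refine ⟨g * h, mul_mem hg hh, by rw [map_mul, h1, h2, mul_one], ?_⟩
    rw [Mot.mul_apply, Mot.translate_of_lin h1, add_comm]
  zero_mem' := ⟨1, one_mem _, map_one _, rfl⟩
  neg_mem' := by
    rintro _ ⟨g, hg, h1, rfl⟩
    have h2 : lin g⁻¹ = 1 := by rw [map_inv, h1, inv_one]
    refine ⟨g⁻¹, inv_mem hg, h2, ?_⟩
    have h3 := Mot.translate_of_lin h2 (g 0)
    rw [Mot.inv_apply_self] at h3
    linear_combination -h3

theorem crystal_lam_lin {S : Finset (ℂ × ℂ)} {γ : Mot} (hγ : γ ∈ Gam S) {z : ℂ}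
    (hz : z ∈ crystalLam S) : lin γ z ∈ crystalLam S := by
  obtain ⟨g, hg, h1, rfl⟩ := hz
  refine ⟨γ * g * γ⁻¹, mul_mem (mul_mem hγ hg) (inv_mem hγ), ?_, ?_⟩
  · rw [map_mul, map_mul, h1, mul_one, ← map_mul, mul_inv_cancel, map_one]
  · rw [Mot.mul_apply, Mot.mul_apply, Mot.translate_of_lin h1, Mot.apply_add,
      Mot.apply_inv_self, zero_add]

theorem crystal_lam_sub {S : Finset (ℂ × ℂ)} {γ δ : Mot} (hγ : γ ∈ Gam S) (hδ : δ ∈ Gam S)
    (h : lin γ = lin δ) : γ 0 - δ 0 ∈ crystalLam S := by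
  have h1 : lin (γ * δ⁻¹) = 1 := by rw [map_mul, map_inv, h, mul_inv_cancel]
  refine ⟨γ * δ⁻¹, mul_mem hγ (inv_mem hδ), h1, ?_⟩
  have h2 := Mot.translate_of_lin h1 (δ 0)
  rw [Mot.mul_apply, Mot.inv_apply_self] at h2
  linear_combination -h2

theorem crystal_average {S : Finset (ℂ × ℂ)}
    (hG : (((Gam S).map lin : Subgroup Ort) : Set Ort).Finite) :
    ∃ (o : ℂ) (N : ℕ), 0 < N ∧ ∀ γ ∈ Gam S, (N : ℂ) * (γ o - o) ∈ crystalLam S := by
  let G := (Gam S).map lin
  have : Finite G := hG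
  let _ : Fintype G := Fintype.ofFinite G
  have h1 : ∀ h : G, ∃ γ ∈ Gam S, lin γ = h := fun h => h.2
  choose c hc hc' using h1
  have hN : (Fintype.card G : ℂ) ≠ 0 := by exact_mod_cast Fintype.card_ne_zero
  refine ⟨((Fintype.card G : ℝ)⁻¹) • ∑ h, c h 0, Fintype.card G, Fintype.card_pos, ?_⟩
  intro γ hγ
  let k : G := ⟨lin γ, γ, hγ, rfl⟩
  have h2 : ∑ h, ((γ * c h) 0 - c (k * h) 0) ∈ crystalLam S := by
    refine sum_mem fun h _ => crystal_lam_sub (mul_mem hγ (hc h)) (hc _) ?_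
    rw [map_mul, hc', hc']
    rfl
  have h3 : ∑ h, c (k * h) 0 = ∑ h, c h 0 := Equiv.sum_comp (Equiv.mulLeft k) fun h => c h 0
  have h4 : ∑ h, (γ * c h) 0 = Fintype.card G * γ 0 + lin γ (∑ h, c h 0) := by
    simp only [Mot.mul_apply, map_sum]
    rw [Finset.sum_congr rfl fun h _ => Mot.apply_eq γ (c h 0), Finset.sum_add_distrib]
    simp
  rw [Finset.sum_sub_distrib, h3, h4] at h2
  rw [Mot.apply_eq γ, map_smul]
  have e : (Fintype.card G : ℂ) * (γ 0 + ((Fintype.card G : ℝ)⁻¹) • lin γ (∑ h, c h 0) -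
      ((Fintype.card G : ℝ)⁻¹) • ∑ h, c h 0) =
      Fintype.card G * γ 0 + lin γ (∑ h, c h 0) - ∑ h, c h 0 := by
    simp only [real_smul, ofReal_inv, ofReal_natCast]
    field_simp
  rw [e]
  exact h2

theorem crystal_lin_refl {a b : ℂ} (h : a ≠ b) (z : ℂ) :
    lin (reflM a b) z = (b - a) / (starRingEnd ℂ) (b - a) * (starRingEnd ℂ) z := by
  have h1 := Mot.apply_sub (reflM a b) (a + z) a
  rw [reflM_apply h, reflM_apply h] at h1
  simpa [reflLine] using h1.symm

theorem crystal_not_cone {P : Set ℂ} (hP : IsCompact P) (hne : (interior P).Nonempty) (o : ℂ)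
    {U : Set ℂ} (hU : U.Finite)
    (hfr : ∀ z ∈ frontier P, ∃ u ∈ U, z - o = u * (starRingEnd ℂ) (z - o)) : False := by
  obtain ⟨z₁, hz₁, hz₁'⟩ : ∃ z ∈ interior P, z ≠ o := by
    obtain ⟨z, hz⟩ := hne
    obtain ⟨y, hy, hy'⟩ := (infinite_of_mem_nhds z (isOpen_interior.mem_nhds hz)).exists_notMem_finite
      (finite_singleton o)
    exact ⟨y, hy, hy'⟩
  obtain ⟨w, hw, rfl⟩ : ∃ w, w ≠ 0 ∧ z₁ = o + w := ⟨z₁ - o, sub_ne_zero.2 hz₁', by ring⟩
  have h1 : {s : ℝ | o + w * (1 + s * I) ∈ interior P} ∈ nhds (0 : ℝ) := by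
    have : Continuous fun s : ℝ => o + w * (1 + s * I) := by fun_prop
    exact this.continuousAt.preimage_mem_nhds (isOpen_interior.mem_nhds (by simpa using hz₁))
  have h2 : (⋃ u ∈ U, {s : ℝ | w * (1 + s * I) =
      u * (starRingEnd ℂ) (w * (1 + s * I))}).Finite := by
    refine hU.biUnion fun u _ => Set.Subsingleton.finite fun s hs t ht => ?_
    simp only [mem_ofPred_eq, map_mul, map_add, map_one, conj_ofReal, conj_I] at hs ht
    by_contra hst
    have h3 : (s : ℂ) - t ≠ 0 := sub_ne_zero.2 (by exact_mod_cast hst)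
    have h4 : ((s : ℂ) - t) * (I * (w + u * (starRingEnd ℂ) w)) = 0 := by
      linear_combination hs - ht
    have h5 : w + u * (starRingEnd ℂ) w = 0 := by
      simpa [h3] using h4
    apply hw
    linear_combination hs / 2 + (1 / 2 - s * I / 2) * h5
  obtain ⟨s, hs, hs'⟩ := (infinite_of_mem_nhds 0 h1).exists_notMem_finite h2
  have hv : w * (1 + s * I) ≠ 0 := mul_ne_zero hw (by simp [Complex.ext_iff])
  simp only [mem_iUnion, mem_ofPred_eq, not_exists] at hs hs'
  generalize w * (1 + s * I) = v at hs hs' hv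
  have h3 : (fun t : ℝ => o + t * v) '' Ici 1 ⊆ interior P := by
    refine (isPreconnected_Ici.image _ (by fun_prop)).subset_left_of_subset_union
      isOpen_interior hP.isClosed.isOpen_compl
      (disjoint_compl_right.mono_left interior_subset) ?_ ⟨o + v, ⟨1, self_mem_Ici, by simp⟩, hs⟩
    rintro _ ⟨t, ht, rfl⟩
    by_contra h5
    simp only [mem_union, mem_compl_iff, not_or, not_not] at h5
    obtain ⟨u, hu, h6⟩ := hfr _ ⟨subset_closure h5.2, h5.1⟩
    have h7 : (t : ℂ) ≠ 0 := by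
      have : (1 : ℝ) ≤ t := ht
      exact_mod_cast (by linarith : t ≠ 0)
    simp only [add_sub_cancel_left, map_mul, conj_ofReal] at h6
    exact hs' u hu (mul_left_cancel₀ h7 (by linear_combination h6))
  obtain ⟨R, hR⟩ := hP.isBounded.exists_norm_le
  have h4 : 0 < ‖v‖ := norm_pos_iff.2 hv
  have h5 : 0 ≤ R := (norm_nonneg _).trans (hR _ (interior_subset hs))
  have h6 : 0 ≤ (R + ‖o‖) / ‖v‖ := by positivity
  have h7 := hR _ (interior_subset (h3 ⟨1 + (R + ‖o‖) / ‖v‖, by simpa using h6, rfl⟩))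
  have h8 := norm_sub_le (o + ((1 + (R + ‖o‖) / ‖v‖ : ℝ) : ℂ) * v) o
  rw [add_sub_cancel_left, norm_mul, norm_real, Real.norm_eq_abs, abs_of_pos (by linarith),
    add_mul, div_mul_cancel₀ _ h4.ne'] at h8
  linarith

theorem almostIntegrable_of_discrete {P : Set ℂ} {S : Finset (ℂ × ℂ)} (hP : IsPolygon P S)
    (hG : (((Gam S).map lin : Subgroup Ort) : Set Ort).Finite)
    (hΛ : ∀ R : ℝ, {z : ℂ | (∃ g ∈ Gam S, lin g = 1 ∧ g 0 = z) ∧ ‖z‖ ≤ R}.Finite) :
    AlmostIntegrable P := by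
  obtain ⟨o, N, hN, ho⟩ := crystal_average hG
  have hN' : (N : ℂ) ≠ 0 := by exact_mod_cast hN.ne'
  let Λ : AddSubgroup ℂ := (crystalLam S).comap (AddMonoidHom.mulLeft (N : ℂ))
  have hmem : ∀ z, z ∈ Λ ↔ (N : ℂ) * z ∈ crystalLam S := fun z => Iff.rfl
  let U : Set ℂ := (fun s : ℂ × ℂ => (s.2 - s.1) / (starRingEnd ℂ) (s.2 - s.1)) '' S
  have hU : ∀ u ∈ U, ‖u‖ = 1 := by
    rintro _ ⟨s, hs, rfl⟩
    exact norm_unit_div (hP.side_ne s hs)
  have hinv : ∀ u ∈ U, ∀ z ∈ Λ, u * (starRingEnd ℂ) z ∈ Λ := by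
    rintro _ ⟨s, hs, rfl⟩ z hz
    have h1 := crystal_lam_lin (reflM_mem_Gam hs) ((hmem z).1 hz)
    rw [crystal_lin_refl (hP.side_ne s hs), map_mul, map_natCast, mul_left_comm] at h1
    exact h1
  have hfr : ∀ z ∈ frontier P, ∃ u ∈ U, z - o - u * (starRingEnd ℂ) (z - o) ∈ Λ := by
    intro z hz
    rw [hP.frontier_eq] at hz
    obtain ⟨s, hs, hz⟩ := mem_iUnion₂.1 hz
    refine ⟨_, ⟨s, hs, rfl⟩, ?_⟩
    have h1 : reflM s.1 s.2 z = z := by
      rw [reflM_apply (hP.side_ne s hs), reflLine_eq_self_iff (hP.side_ne s hs)]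
      rw [segment_eq_image'] at hz
      obtain ⟨t, -, rfl⟩ := hz
      simp [cross]
      ring
    have h2 := Mot.apply_sub (reflM s.1 s.2) z o
    rw [h1, crystal_lin_refl (hP.side_ne s hs)] at h2
    rw [hmem, ← h2, sub_sub_sub_cancel_left]
    exact ho _ (reflM_mem_Gam hs)
  by_cases h0 : ∀ z ∈ Λ, z = 0
  · refine (crystal_not_cone hP.compact hP.connected.nonempty o (U := U) (S.finite_toSet.image _)
      fun z hz => ?_).elim
    obtain ⟨u, hu, h⟩ := hfr z hz
    exact ⟨u, hu, sub_eq_zero.1 (h0 _ h)⟩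
  push Not at h0
  obtain ⟨z₀, hz₀, hz₀'⟩ := h0
  have hfin : {z : ℂ | z ∈ Λ ∧ z ≠ 0 ∧ ‖z‖ ≤ ‖z₀‖}.Finite := by
    refine ((hΛ (N * ‖z₀‖)).preimage (mul_right_injective₀ hN').injOn).subset ?_
    rintro z ⟨h1, -, h2⟩
    refine ⟨h1, ?_⟩
    rw [norm_mul, Complex.norm_natCast]
    gcongr
  obtain ⟨e, ⟨he, he0, he1⟩, hmin⟩ := Set.exists_min_image _ norm hfin ⟨z₀, hz₀, hz₀', le_rfl⟩
  have hmin' : ∀ z ∈ Λ, z ≠ 0 → ‖e‖ ≤ ‖z‖ := by
    intro z h1 h2
    by_cases h3 : ‖z‖ ≤ ‖z₀‖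
    · exact hmin z ⟨h1, h2, h3⟩
    · linarith
  have he2 : (starRingEnd ℂ) e ≠ 0 := by rwa [map_ne_zero]
  have hmem' : ∀ z, z ∈ Λ.comap (AddMonoidHom.mulLeft e) ↔ e * z ∈ Λ := fun z => Iff.rfl
  refine crystal_core hP.compact hP.closure_eq o e he0 (Λ.comap (AddMonoidHom.mulLeft e))
    (by simpa [hmem'] using he) ?_ ((fun u => u * (starRingEnd ℂ) e / e) '' U) ?_ ?_ ?_
  · intro z h1 h2
    have h3 := hmin' _ ((hmem' z).1 h1) (mul_ne_zero he0 h2)
    rw [norm_mul] at h3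
    exact (le_mul_iff_one_le_right (norm_pos_iff.2 he0)).1 h3
  · rintro _ ⟨u, hu, rfl⟩
    simp [hU u hu, he0]
  · rintro _ ⟨u, hu, rfl⟩ z hz
    have h1 := hinv u hu _ ((hmem' z).1 hz)
    rw [hmem']
    rwa [map_mul, show u * ((starRingEnd ℂ) e * (starRingEnd ℂ) z) =
      e * (u * (starRingEnd ℂ) e / e * (starRingEnd ℂ) z) by field_simp] at h1
  · intro Z hZ
    obtain ⟨u, hu, h⟩ := hfr _ hZ
    refine ⟨_, ⟨u, hu, rfl⟩, ?_⟩
    rw [hmem']
    rwa [add_sub_cancel_left, map_mul, show e * Z - u * ((starRingEnd ℂ) e * (starRingEnd ℂ) Z) =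
      e * (Z - u * (starRingEnd ℂ) e / e * (starRingEnd ℂ) Z) by field_simp] at h

end Pool.Agent.Lib.MP_c02c19_gt
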