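import Pool.Agent.Lib.MP_c02c19_gt.Mot

/-!
The tiling lemma: a compact set whose boundary lies on the mirrors is a union of tiles.
-/

namespace Pool.Agent.Lib.MP_c02c19_gt

open Complex Set

theorem crystal_refl_sim (a b : ℂ) (hb : b ≠ 0) (p q z : ℂ) :
    reflLine (a + b * p) (a + b * q) (a + b * z) = a + b * reflLine p q z := by
  have h2 : (starRingEnd ℂ) b ≠ 0 := by rwa [map_ne_zero]
  have e1 : a + b * q - (a + b * p) = b * (q - p) := by ring
  have e2 : a + b * z - (a + b * p) = b * (z - p) := by ring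
  simp only [reflLine, e1, e2, map_mul]
  by_cases h : q - p = 0
  · simp [h]
  · have h3 : (starRingEnd ℂ) (q - p) ≠ 0 := by rwa [map_ne_zero]
    field_simp
    ring

theorem crystal_refl_mot (g : Mot) (p q z : ℂ) :
    reflLine (g p) (g q) (g z) = g (reflLine p q z) := by
  obtain ⟨u, hu, h | h⟩ := Ort.exists_form (lin g)
  · have hu0 : u ≠ 0 := by rintro rfl; simp at hu
    have e : ∀ y, g y = g 0 + u * y := fun y => by rw [Mot.apply_eq g y, h]
    rw [e p, e q, e z, e (reflLine p q z), crystal_refl_sim _ _ hu0]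
  · have hu0 : u ≠ 0 := by rintro rfl; simp at hu
    have e : ∀ y, g y = g 0 + u * (starRingEnd ℂ) y := fun y => by rw [Mot.apply_eq g y, h]
    rw [e p, e q, e z, e (reflLine p q z), crystal_refl_sim _ _ hu0]
    simp only [reflLine, map_add, map_mul, map_div₀, map_sub]

theorem crystal_normSq_refl {a b : ℂ} (h : a ≠ b) (z p : ℂ) :
    normSq (b - a) * (normSq (z - p) - normSq (reflLine a b z - p)) =
      -4 * cross (b - a) (z - a) * cross (b - a) (p - a) := by
  have h1 : b - a ≠ 0 := sub_ne_zero.2 h.symm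
  have h2 : (starRingEnd ℂ) (b - a) ≠ 0 := by rwa [map_ne_zero]
  obtain ⟨ζ, hζ⟩ : ∃ ζ, z = a + (b - a) * ζ := ⟨(z - a) / (b - a), by field_simp; ring⟩
  obtain ⟨η, hη⟩ : ∃ η, p = a + (b - a) * η := ⟨(p - a) / (b - a), by field_simp; ring⟩
  have e : reflLine a b z = a + (b - a) * (starRingEnd ℂ) ζ := by
    rw [hζ]
    simp only [reflLine, add_sub_cancel_left, map_mul]
    field_simp
  rw [e, hζ, hη]
  generalize b - a = d
  simp only [normSq_apply, cross, add_sub_cancel_left, sub_re, sub_im, add_re, add_im, mul_re,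
    mul_im, conj_re, conj_im]
  ring

theorem crystal_norm_le {a b : ℂ} (h : a ≠ b) {z p : ℂ} (hz : cross (b - a) (z - a) < 0)
    (hp : 0 ≤ cross (b - a) (p - a)) : ‖reflLine a b z - p‖ ≤ ‖z - p‖ := by
  have h1 := crystal_normSq_refl h z p
  have h2 : 0 < normSq (b - a) := normSq_pos.2 (sub_ne_zero.2 h.symm)
  have h3 : 0 ≤ normSq (z - p) - normSq (reflLine a b z - p) := by
    by_contra h4
    nlinarith [mul_nonneg (neg_nonneg.2 hz.le) hp]
  rw [normSq_eq_norm_sq, normSq_eq_norm_sq] at h3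
  exact (pow_le_pow_iff_left₀ (norm_nonneg _) (norm_nonneg _) two_ne_zero).1 (by linarith)

theorem crystal_norm_lt {a b : ℂ} (h : a ≠ b) {z p : ℂ} (hz : cross (b - a) (z - a) < 0)
    (hp : 0 < cross (b - a) (p - a)) : ‖reflLine a b z - p‖ < ‖z - p‖ := by
  have h1 := crystal_normSq_refl h z p
  have h2 : 0 < normSq (b - a) := normSq_pos.2 (sub_ne_zero.2 h.symm)
  have h3 : 0 < normSq (z - p) - normSq (reflLine a b z - p) := by
    by_contra h4
    nlinarith [mul_pos (neg_pos.2 hz) hp]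
  rw [normSq_eq_norm_sq, normSq_eq_norm_sq] at h3
  exact (pow_lt_pow_iff_left₀ (norm_nonneg _) (norm_nonneg _) two_ne_zero).1 (by linarith)

theorem crystal_finite_lists {F : Set ℂ} (hF : F.Finite) (n : ℕ) :
    {l : List ℂ | l.length = n ∧ ∀ x ∈ l, x ∈ F}.Finite := by
  induction n with
  | zero =>
    refine (Set.finite_singleton []).subset ?_
    rintro l ⟨h, -⟩
    exact List.length_eq_zero_iff.1 h
  | succ n ih =>
    refine (hF.image2 List.cons ih).subset ?_
    rintro l ⟨h1, h2⟩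
    cases l with
    | nil => simp at h1
    | cons x l =>
      exact ⟨x, h2 x (by simp), l, ⟨by simpa using h1, fun y hy => h2 y (by simp [hy])⟩, rfl⟩

/-- The isometries obtained by successive reflections. -/
inductive CrystalG (w : List ℂ) : Mot → Prop
  | one : CrystalG w 1
  | mul {g : Mot} {e : ℂ × ℂ} : CrystalG w g → e ∈ w.zip (w.rotate 1) →
      CrystalG w (g * reflM e.1 e.2)

theorem crystal_cross_line (d a c z : ℂ) (s : ℝ) :
    cross d (z + s * (c - z) - a) = (1 - s) * cross d (z - a) + s * cross d (c - a) := by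
  simp [cross]
  ring

theorem crystal_tiling (w : List ℂ) (M L : Set ℂ)
    (hne : ∀ e ∈ w.zip (w.rotate 1), e.1 ≠ e.2)
    (hM : ∀ e ∈ w.zip (w.rotate 1), ∀ z ∈ M, reflLine e.1 e.2 z ∈ M)
    (hL : ∀ e ∈ w.zip (w.rotate 1), ∀ z ∈ L, reflLine e.1 e.2 z ∈ L)
    (hwL : ∀ p ∈ w, p ∈ L) (hLf : ∀ R : ℝ, {z | z ∈ L ∧ ‖z‖ ≤ R}.Finite)
    (hin : ∀ z, (∀ e ∈ w.zip (w.rotate 1), 0 ≤ cross (e.2 - e.1) (z - e.1)) →
      z ∈ convexHull ℝ {p | p ∈ w})
    (hv : ∀ e ∈ w.zip (w.rotate 1), ∀ p ∈ w, 0 ≤ cross (e.2 - e.1) (p - e.1))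
    (hv' : ∀ e ∈ w.zip (w.rotate 1), ∃ p ∈ w, 0 < cross (e.2 - e.1) (p - e.1))
    (c : ℂ) (hc : ∀ e ∈ w.zip (w.rotate 1), 0 < cross (e.2 - e.1) (c - e.1))
    (hMQ : ∀ z, (∀ e ∈ w.zip (w.rotate 1), 0 < cross (e.2 - e.1) (z - e.1)) → z ∉ M)
    (P : Set ℂ) (hP : IsCompact P) (hcl : closure (interior P) = P) (hfr : frontier P ⊆ M) :
    ∃ T : Finset (List ℂ), (∀ v ∈ T, IsTile w v) ∧
      P = ⋃ v ∈ T, convexHull ℝ {z | z ∈ v} := by
  classical
  have hT : ∀ g, CrystalG w g → IsTile w (w.map g) := by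
    intro g hg
    induction hg with
    | one =>
      have : w.map (1 : Mot) = w := by
        conv_rhs => rw [← List.map_id w]
        rfl
      rw [this]
      exact Relation.ReflTransGen.refl
    | @mul g e _ he ih =>
      refine Relation.ReflTransGen.tail ih ⟨(g e.1, g e.2), ?_, ?_⟩
      · rw [← List.map_rotate, List.zip_map]
        exact List.mem_map.2 ⟨e, he, rfl⟩
      · rw [List.map_map]
        refine List.map_congr_left fun p _ => ?_
        simp only [Function.comp, Mot.mul_apply, crystal_refl_mot, reflM_apply (hne e he)]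
  have hGM : ∀ g, CrystalG w g → ∀ z, g z ∈ M → z ∈ M := by
    intro g hg
    induction hg with
    | one => exact fun z hz => hz
    | @mul g e _ he ih =>
      intro z hz
      have h1 := hM e he (reflM e.1 e.2 z) (ih _ hz)
      rwa [reflM_apply (hne e he), reflLine_reflLine (hne e he)] at h1
  have hGL : ∀ g, CrystalG w g → ∀ z ∈ L, g z ∈ L := by
    intro g hg
    induction hg with
    | one => exact fun z hz => hz
    | @mul g e _ he ih =>
      intro z hz
      rw [Mot.mul_apply, reflM_apply (hne e he)]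
      exact ih _ (hL e he z hz)
  have hfin : ∀ R : ℝ, {v : List ℂ | (∃ g, CrystalG w g ∧ v = w.map g) ∧
      ∀ x ∈ v, ‖x‖ ≤ R}.Finite := by
    intro R
    refine (crystal_finite_lists (hLf R) w.length).subset ?_
    rintro v ⟨⟨g, hg, rfl⟩, h⟩
    refine ⟨by simp, fun x hx => ⟨?_, h x hx⟩⟩
    obtain ⟨p, hp, rfl⟩ := List.mem_map.1 hx
    exact hGL g hg p (hwL p hp)
  let Q : Set ℂ := {z | ∀ e ∈ w.zip (w.rotate 1), 0 ≤ cross (e.2 - e.1) (z - e.1)}
  let Q0 : Set ℂ := {z | ∀ e ∈ w.zip (w.rotate 1), 0 < cross (e.2 - e.1) (z - e.1)}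
  have hcover : ∀ z, ∃ g, CrystalG w g ∧ g⁻¹ z ∈ Q := by
    intro z
    let F : List ℂ → ℝ := fun v => (v.map fun p => ‖z - p‖).sum
    have hF : ∀ g : Mot, F (w.map g) = (w.map fun p => ‖g⁻¹ z - p‖).sum := by
      intro g
      simp only [F, List.map_map]
      congr 1
      refine List.map_congr_left fun p _ => ?_
      rw [Function.comp, ← Mot.norm_sub g (g⁻¹ z) p, Mot.apply_inv_self]
    let A : Set (List ℂ) := {v | (∃ g, CrystalG w g ∧ v = w.map g) ∧ F v ≤ F (w.map (1 : Mot))}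
    have hA : A.Finite := by
      refine (hfin (‖z‖ + F (w.map (1 : Mot)))).subset ?_
      rintro v ⟨h1, h2⟩
      refine ⟨h1, fun x hx => ?_⟩
      have h3 : ‖z - x‖ ≤ F v :=
        List.single_le_sum (by simp) _ (List.mem_map.2 ⟨x, hx, rfl⟩)
      have h4 : ‖x‖ ≤ ‖z‖ + ‖z - x‖ := by
        simpa using norm_sub_le z (z - x)
      linarith
    obtain ⟨v, ⟨⟨g, hg, rfl⟩, h2⟩, h3⟩ :=
      Set.exists_min_image A F hA ⟨_, ⟨1, CrystalG.one, rfl⟩, le_rfl⟩
    refine ⟨g, hg, fun e he => ?_⟩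
    by_contra h4
    rw [not_le] at h4
    have h5 : F (w.map (g * reflM e.1 e.2)) < F (w.map g) := by
      rw [hF, hF, mul_inv_rev, reflM_inv, Mot.mul_apply, reflM_apply (hne e he)]
      obtain ⟨p, hp, hp'⟩ := hv' e he
      exact List.sum_lt_sum _ _ (fun q hq => crystal_norm_le (hne e he) h4 (hv e he q hq))
        ⟨p, hp, crystal_norm_lt (hne e he) h4 hp'⟩
    exact absurd (h3 _ ⟨⟨_, hg.mul he, rfl⟩, h5.le.trans h2⟩) (not_le.2 h5)
  have hQcl : Q ⊆ closure Q0 := by
    intro z hz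
    have h1 : Filter.Tendsto (fun s : ℝ => z + s * (c - z)) (nhdsWithin 0 (Ioi 0)) (nhds z) := by
      have : Continuous fun s : ℝ => z + s * (c - z) := by fun_prop
      simpa using (this.tendsto 0).mono_left (nhdsWithin_le_nhds (s := Ioi 0))
    refine mem_closure_of_tendsto h1 ?_
    filter_upwards [Ioo_mem_nhdsGT (zero_lt_one' ℝ)] with s hs e he
    rw [crystal_cross_line]
    have := mul_nonneg (sub_nonneg.2 hs.2.le) (hz e he)
    have := mul_pos hs.1 (hc e he)
    linarith
  have hconv : ∀ (x y : ℂ) (s t : ℝ), s + t = 1 → ∀ d a : ℂ,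
      cross d (s • x + t • y - a) = s * cross d (x - a) + t * cross d (y - a) := by
    intro x y s t hst d a
    obtain rfl : s = 1 - t := by linarith
    simp [cross]
    ring
  have hQc : Convex ℝ Q := by
    intro x hx y hy s t hs ht hst e he
    rw [hconv x y s t hst]
    exact add_nonneg (mul_nonneg hs (hx e he)) (mul_nonneg ht (hy e he))
  have hQ0c : Convex ℝ Q0 := by
    intro x hx y hy s t hs ht hst e he
    rw [hconv x y s t hst]
    have h1 := hx e he
    have h2 := hy e he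
    rcases hs.eq_or_lt with rfl | hs'
    · obtain rfl : t = 1 := by linarith
      linarith
    · have := mul_pos hs' h1
      have := mul_nonneg ht h2.le
      linarith
  have hQ : convexHull ℝ {p | p ∈ w} = Q :=
    Subset.antisymm (convexHull_min (fun p hp e he => hv e he p hp) hQc) hin
  have hgQ : ∀ g : Mot, convexHull ℝ {z | z ∈ w.map g} = g '' Q := by
    intro g
    have h1 : {z | z ∈ w.map g} = g.toAffineEquiv.toAffineMap '' {p | p ∈ w} := by
      ext z
      simp
    rw [h1, ← AffineMap.image_convexHull, hQ]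
    rfl
  have hsub : ∀ g : Mot, g '' Q0 ⊆ interior P → g '' Q ⊆ P := by
    intro g hg
    rw [← hcl]
    exact ((image_mono hQcl).trans (image_closure_subset_closure_image g.continuous)).trans
      (closure_mono hg)
  obtain ⟨R, hR⟩ := hP.isBounded.exists_norm_le
  have hB : {v : List ℂ | ∃ g, CrystalG w g ∧ v = w.map g ∧ g '' Q0 ⊆ interior P}.Finite := by
    refine (hfin R).subset ?_
    rintro v ⟨g, hg, rfl, h⟩
    refine ⟨⟨g, hg, rfl⟩, fun x hx => hR x (hsub g h ?_)⟩
    rw [← hgQ]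
    exact subset_convexHull ℝ _ hx
  refine ⟨hB.toFinset, ?_, Subset.antisymm ?_ ?_⟩
  · intro v hv
    obtain ⟨g, hg, rfl, -⟩ := hB.mem_toFinset.1 hv
    exact hT g hg
  · conv_lhs => rw [← hcl]
    refine closure_minimal ?_ ?_
    · intro z hz
      obtain ⟨g, hg, h1⟩ := hcover z
      have h2 : z ∈ g '' Q := ⟨_, h1, Mot.apply_inv_self g z⟩
      have h3 : z ∈ closure (g '' Q0) :=
        image_closure_subset_closure_image g.continuous (image_mono hQcl h2)
      have h4 : g '' Q0 ⊆ interior P := by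
        refine (hQ0c.isPreconnected.image g g.continuous.continuousOn).subset_left_of_subset_union
          isOpen_interior hP.isClosed.isOpen_compl
          (disjoint_compl_right.mono_left interior_subset) ?_ ?_
        · rintro _ ⟨y, hy, rfl⟩
          by_contra h5
          simp only [mem_union, mem_compl_iff, not_or, not_not] at h5
          exact hMQ y hy (hGM g hg y (hfr ⟨subset_closure h5.2, h5.1⟩))
        · obtain ⟨y, hy1, hy2⟩ := mem_closure_iff.1 h3 _ isOpen_interior hz
          exact ⟨y, hy2, hy1⟩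
      refine mem_iUnion₂.2 ⟨w.map g, hB.mem_toFinset.2 ⟨g, hg, rfl, h4⟩, ?_⟩
      rw [hgQ]
      exact h2
    · refine isClosed_biUnion_finset fun v _ => ?_
      exact (List.finite_toSet v).isClosed_convexHull ℝ
  · refine iUnion₂_subset fun v hv => ?_
    obtain ⟨g, -, rfl, h⟩ := hB.mem_toFinset.1 hv
    rw [hgQ]
    exact hsub g h

theorem crystal_transfer (w : List ℂ) (M : Set ℂ) (a b : ℂ) (hb : b ≠ 0)
    (hw : IsIntegrable (w.map fun z => a + b * z))
    (h : ∀ P : Set ℂ, IsCompact P → closure (interior P) = P → frontier P ⊆ M →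
      ∃ T : Finset (List ℂ), (∀ v ∈ T, IsTile w v) ∧ P = ⋃ v ∈ T, convexHull ℝ {z | z ∈ v})
    (P : Set ℂ) (hP : IsCompact P) (hcl : closure (interior P) = P)
    (hfr : ∀ Z, a + b * Z ∈ frontier P → Z ∈ M) : AlmostIntegrable P := by
  classical
  let ψ : ℂ ≃ₜ ℂ := (Homeomorph.mulLeft₀ b hb).trans (Homeomorph.addLeft a)
  have hψ : ∀ z, ψ z = a + b * z := fun z => rfl
  obtain ⟨T, hT, hU⟩ := h (ψ ⁻¹' P) (ψ.isCompact_preimage.2 hP)
    (by rw [← ψ.preimage_interior, ← ψ.preimage_closure, hcl])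
    (by rw [← ψ.preimage_frontier]; exact fun Z hZ => hfr Z hZ)
  refine ⟨_, hw, T.image (List.map fun z => a + b * z), ?_, ?_⟩
  · intro v hv
    obtain ⟨v, hv', rfl⟩ := Finset.mem_image.1 hv
    refine Relation.ReflTransGen.lift (List.map fun z => a + b * z) ?_ _ _ (hT v hv')
    rintro w₁ w₂ ⟨e, he, rfl⟩
    refine ⟨(a + b * e.1, a + b * e.2), ?_, ?_⟩
    · rw [← List.map_rotate, List.zip_map]
      exact List.mem_map.2 ⟨e, he, rfl⟩
    · rw [List.map_map, List.map_map]
      refine List.map_congr_left fun p _ => ?_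
      simp only [Function.comp, crystal_refl_sim a b hb]
  · let f : ℂ →ᵃ[ℝ] ℂ := AffineMap.const ℝ ℂ a + (LinearMap.mulLeft ℝ b).toAffineMap
    have hf : ∀ v : List ℂ, convexHull ℝ {z | z ∈ v.map fun z => a + b * z} =
        ψ '' convexHull ℝ {z | z ∈ v} := by
      intro v
      have h1 : {z | z ∈ v.map fun z => a + b * z} = f '' {p | p ∈ v} := by
        ext z
        simp [f]
      rw [h1, ← AffineMap.image_convexHull]
      rfl
    rw [Finset.set_biUnion_finset_image]
    simp only [hf]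
    rw [← image_iUnion₂, ← hU, image_preimage_eq _ ψ.surjective]

end Pool.Agent.Lib.MP_c02c19_gt
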