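import Pool.Agent.Lib.MP_c02c19_gt.Crystal1

/-!
The three explicit tilings.
-/

namespace Pool.Agent.Lib.MP_c02c19_gt

open Complex Set

theorem crystal_refl_eq {a b z y : ℂ} (h : a ≠ b)
    (hy : (b - a) * (starRingEnd ℂ) (z - a) = (starRingEnd ℂ) (b - a) * (y - a)) :
    reflLine a b z = y := by
  have h1 : b - a ≠ 0 := sub_ne_zero.2 h.symm
  have h2 : (starRingEnd ℂ) (b - a) ≠ 0 := by rwa [map_ne_zero]
  rw [reflLine, div_mul_eq_mul_div, hy]
  field_simp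
  ring

theorem crystal_lat_finite {α β : ℝ} (hα : 0 < α) (hβ : 0 < β) (L : Set ℂ)
    (hL : ∀ z ∈ L, ∃ m n : ℤ, z.re = α * m ∧ z.im = β * n) (R : ℝ) :
    {z | z ∈ L ∧ ‖z‖ ≤ R}.Finite := by
  have h1 : ∀ γ : ℝ, 0 < γ → {m : ℤ | |γ * m| ≤ R}.Finite := by
    intro γ hγ
    refine (Set.finite_Icc (-⌈R / γ⌉) ⌈R / γ⌉).subset fun m hm => ?_
    have h2 : |(m : ℝ)| ≤ R / γ := by
      rw [le_div_iff₀ hγ, mul_comm]
      simpa [abs_mul, abs_of_pos hγ] using hm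
    have h3 : |(m : ℝ)| ≤ (⌈R / γ⌉ : ℝ) := h2.trans (Int.le_ceil _)
    have h4 : |m| ≤ ⌈R / γ⌉ := by exact_mod_cast h3
    exact abs_le.1 h4
  refine (((h1 α hα).image2 (fun m n : ℤ => (⟨α * m, β * n⟩ : ℂ)) (h1 β hβ))).subset ?_
  rintro z ⟨hz, hR⟩
  obtain ⟨m, n, hm, hn⟩ := hL z hz
  refine ⟨m, ?_, n, ?_, Complex.ext hm.symm hn.symm⟩
  · rw [mem_ofPred_eq, ← hm]
    exact (abs_re_le_norm z).trans hR
  · rw [mem_ofPred_eq, ← hn]
    exact (abs_im_le_norm z).trans hR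

theorem crystal_tri {K : Set ℂ} (hK : Convex ℝ K) {p q : ℂ} (h0 : (0 : ℂ) ∈ K) (hp : p ∈ K)
    (hq : q ∈ K) {s t : ℝ} (hs : 0 ≤ s) (ht : 0 ≤ t) (hst : s + t ≤ 1) : s • p + t • q ∈ K := by
  have := hK.sum_mem (t := Finset.univ) (w := ![1 - s - t, s, t]) (z := ![0, p, q])
    (by intro i _; fin_cases i <;> simp [hs, ht]; linarith) (by simp [Fin.sum_univ_three]; ring)
    (by intro i _; fin_cases i <;> simp [h0, hp, hq])
  simpa [Fin.sum_univ_three] using this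

theorem crystal_not_int {x : ℝ} {k m : ℤ} (h1 : (k : ℝ) < x) (h2 : x < k + 1) : x ≠ m := by
  rintro rfl
  have a : k < m := by exact_mod_cast h1
  have b : m < k + 1 := by exact_mod_cast h2
  omega

/-! ### Rectangles -/

def crystalMR (t : ℝ) : Set ℂ := {z | (∃ m : ℤ, z.re = m) ∨ ∃ m : ℤ, z.im = t * m}

theorem crystal_rect (t : ℝ) (ht : 0 < t) (P : Set ℂ) (hP : IsCompact P)
    (hcl : closure (interior P) = P) (hfr : frontier P ⊆ crystalMR t) :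
    ∃ T : Finset (List ℂ), (∀ v ∈ T, IsTile [0, 1, 1 + t * I, t * I] v) ∧
      P = ⋃ v ∈ T, convexHull ℝ {z | z ∈ v} := by
  have n1 : (0 : ℂ) ≠ 1 := zero_ne_one
  have n2 : (1 : ℂ) ≠ 1 + t * I := by simp [ht.ne']
  have n3 : (1 : ℂ) + t * I ≠ t * I := by simp
  have n4 : (t : ℂ) * I ≠ 0 := by simp [ht.ne']
  have r1 : ∀ z, reflLine 0 1 z = ⟨z.re, -z.im⟩ := fun z =>
    crystal_refl_eq n1 (by apply Complex.ext <;> simp)
  have r2 : ∀ z, reflLine 1 (1 + t * I) z = ⟨2 - z.re, z.im⟩ := fun z =>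
    crystal_refl_eq n2 (by apply Complex.ext <;> simp; ring)
  have r3 : ∀ z, reflLine (1 + t * I) (t * I) z = ⟨z.re, 2 * t - z.im⟩ := fun z =>
    crystal_refl_eq n3 (by apply Complex.ext <;> simp; ring)
  have r4 : ∀ z, reflLine (t * I) 0 z = ⟨-z.re, z.im⟩ := fun z =>
    crystal_refl_eq n4 (by apply Complex.ext <;> simp; ring)
  have he : ∀ p : ℂ × ℂ → Prop, (∀ e ∈ [0, 1, 1 + t * I, t * I].zip
      ([0, 1, 1 + t * I, (t : ℂ) * I].rotate 1), p e) ↔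
      p (0, 1) ∧ p (1, 1 + t * I) ∧ p (1 + t * I, t * I) ∧ p (t * I, 0) := by
    intro p
    simp
  refine crystal_tiling _ (crystalMR t) {z | ∃ m n : ℤ, z.re = m ∧ z.im = t * n}
    ((he _).2 ⟨n1, n2, n3, n4⟩) ((he _).2 ⟨?_, ?_, ?_, ?_⟩) ((he _).2 ⟨?_, ?_, ?_, ?_⟩) ?_
    (crystal_lat_finite one_pos ht _ (by simp only [one_mul]; exact fun z hz => hz)) ?_ ?_ ?_
    ⟨1 / 2, t / 2⟩ ?_ ?_ P hP hcl hfr
  · rintro z (⟨m, h⟩ | ⟨m, h⟩) <;> simp only [r1]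
    · exact Or.inl ⟨m, h⟩
    · exact Or.inr ⟨-m, by simp [h]⟩
  · rintro z (⟨m, h⟩ | ⟨m, h⟩) <;> simp only [r2]
    · exact Or.inl ⟨2 - m, by simp [h]⟩
    · exact Or.inr ⟨m, h⟩
  · rintro z (⟨m, h⟩ | ⟨m, h⟩) <;> simp only [r3]
    · exact Or.inl ⟨m, h⟩
    · exact Or.inr ⟨2 - m, by simp [h]; ring⟩
  · rintro z (⟨m, h⟩ | ⟨m, h⟩) <;> simp only [r4]
    · exact Or.inl ⟨-m, by simp [h]⟩
    · exact Or.inr ⟨m, h⟩
  · rintro z ⟨m, n, h1, h2⟩
    exact ⟨m, -n, by simp [r1, h1], by simp [r1, h2]⟩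
  · rintro z ⟨m, n, h1, h2⟩
    exact ⟨2 - m, n, by simp [r2, h1], by simp [r2, h2]⟩
  · rintro z ⟨m, n, h1, h2⟩
    exact ⟨m, 2 - n, by simp [r3, h1], by simp [r3, h2]; ring⟩
  · rintro z ⟨m, n, h1, h2⟩
    exact ⟨-m, n, by simp [r4, h1], by simp [r4, h2]⟩
  · intro p hp
    simp only [List.mem_cons, List.not_mem_nil, or_false] at hp
    rcases hp with rfl | rfl | rfl | rfl
    · exact ⟨0, 0, by simp, by simp⟩
    · exact ⟨1, 0, by simp, by simp⟩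
    · exact ⟨1, 1, by simp, by simp⟩
    · exact ⟨0, 1, by simp, by simp⟩
  · intro z hz
    rw [he] at hz
    simp [cross] at hz
    obtain ⟨h1, h2, h3, h4⟩ := hz
    have hK := convex_convexHull ℝ {p : ℂ | p ∈ [0, 1, 1 + t * I, (t : ℂ) * I]}
    have hs := subset_convexHull ℝ {p : ℂ | p ∈ [0, 1, 1 + t * I, (t : ℂ) * I]}
    have a1 : 0 ≤ z.re := by nlinarith
    have a2 : z.re ≤ 1 := by nlinarith
    have a3 : 0 ≤ z.im / t := div_nonneg h1 ht.le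
    have a4 : z.im / t ≤ 1 := (div_le_one ht).2 (by linarith)
    have b1 := hK (hs (a := 0) (by simp)) (hs (a := t * I) (by simp)) (sub_nonneg.2 a4) a3
      (by ring)
    have b2 := hK (hs (a := 1) (by simp)) (hs (a := 1 + t * I) (by simp)) (sub_nonneg.2 a4) a3
      (by ring)
    have b3 := hK b1 b2 (sub_nonneg.2 a2) a1 (by ring)
    have e : z = (1 - z.re) • ((1 - z.im / t) • (0 : ℂ) + (z.im / t) • (t * I)) +
        z.re • ((1 - z.im / t) • (1 : ℂ) + (z.im / t) • (1 + t * I)) := by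
      apply Complex.ext
      · simp [-ofReal_div]
        ring
      · simp [-ofReal_div]
        field_simp
        ring
    rwa [← e] at b3
  · rw [he]
    simp [cross, ht.le]
  · rw [he]
    simp [cross, ht]
  · rw [he]
    simp [cross, ht]
    linarith
  · intro z hz
    rw [he] at hz
    simp [cross] at hz
    obtain ⟨h1, h2, h3, h4⟩ := hz
    rintro (⟨m, h⟩ | ⟨m, h⟩)
    · exact crystal_not_int (k := 0) (by push_cast; nlinarith) (by push_cast; nlinarith) h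
    · refine crystal_not_int (x := z.im / t) (k := 0) (m := m) ?_ ?_ ?_
      · simpa using div_pos h1 ht
      · simpa using (div_lt_one ht).2 (by linarith)
      · rw [h]; field_simp

/-! ### The right isosceles triangle -/

def crystalMS : Set ℂ := {z | (∃ m : ℤ, z.re = m) ∨ (∃ m : ℤ, z.im = m) ∨
  (∃ m : ℤ, z.re + z.im = 2 * m + 1) ∨ ∃ m : ℤ, z.re - z.im = 2 * m + 1}

theorem crystal_not_odd {x : ℝ} {m : ℤ} (h1 : -1 < x) (h2 : x < 1) : x ≠ 2 * m + 1 := by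
  rintro rfl
  have a : -1 < 2 * m + 1 := by exact_mod_cast h1
  have b : 2 * m + 1 < 1 := by exact_mod_cast h2
  omega

theorem crystal_sq (P : Set ℂ) (hP : IsCompact P)
    (hcl : closure (interior P) = P) (hfr : frontier P ⊆ crystalMS) :
    ∃ T : Finset (List ℂ), (∀ v ∈ T, IsTile [0, 1, I] v) ∧
      P = ⋃ v ∈ T, convexHull ℝ {z | z ∈ v} := by
  have n1 : (0 : ℂ) ≠ 1 := zero_ne_one
  have n2 : (1 : ℂ) ≠ I := by simp [Complex.ext_iff]
  have n3 : I ≠ 0 := I_ne_zero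
  have r1 : ∀ z, reflLine 0 1 z = ⟨z.re, -z.im⟩ := fun z =>
    crystal_refl_eq n1 (by apply Complex.ext <;> simp)
  have r2 : ∀ z, reflLine 1 I z = ⟨1 - z.im, 1 - z.re⟩ := fun z =>
    crystal_refl_eq n2 (by apply Complex.ext <;> simp <;> ring)
  have r3 : ∀ z, reflLine I 0 z = ⟨-z.re, z.im⟩ := fun z =>
    crystal_refl_eq n3 (by apply Complex.ext <;> simp; ring)
  have he : ∀ p : ℂ × ℂ → Prop, (∀ e ∈ [0, 1, I].zip ([0, 1, I].rotate 1), p e) ↔
      p (0, 1) ∧ p (1, I) ∧ p (I, 0) := by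
    intro p
    simp
  refine crystal_tiling _ crystalMS {z | ∃ m n : ℤ, z.re = m ∧ z.im = n}
    ((he _).2 ⟨n1, n2, n3⟩) ((he _).2 ⟨?_, ?_, ?_⟩) ((he _).2 ⟨?_, ?_, ?_⟩) ?_
    (crystal_lat_finite one_pos one_pos _ (by simp only [one_mul]; exact fun z hz => hz)) ?_ ?_ ?_
    ⟨1 / 4, 1 / 4⟩ ?_ ?_ P hP hcl hfr
  · rintro z (⟨m, h⟩ | ⟨m, h⟩ | ⟨m, h⟩ | ⟨m, h⟩) <;> simp only [r1]
    · exact Or.inl ⟨m, h⟩
    · exact Or.inr (Or.inl ⟨-m, by simp [h]⟩)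
    · exact Or.inr (Or.inr (Or.inr ⟨m, by simp only; linarith⟩))
    · exact Or.inr (Or.inr (Or.inl ⟨m, by simp only; linarith⟩))
  · rintro z (⟨m, h⟩ | ⟨m, h⟩ | ⟨m, h⟩ | ⟨m, h⟩) <;> simp only [r2]
    · exact Or.inr (Or.inl ⟨1 - m, by simp [h]⟩)
    · exact Or.inl ⟨1 - m, by simp [h]⟩
    · exact Or.inr (Or.inr (Or.inl ⟨-m, by push_cast; linarith⟩))
    · exact Or.inr (Or.inr (Or.inr ⟨m, by simp only; linarith⟩))
  · rintro z (⟨m, h⟩ | ⟨m, h⟩ | ⟨m, h⟩ | ⟨m, h⟩) <;> simp only [r3]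
    · exact Or.inl ⟨-m, by simp [h]⟩
    · exact Or.inr (Or.inl ⟨m, h⟩)
    · exact Or.inr (Or.inr (Or.inr ⟨-m - 1, by push_cast; linarith⟩))
    · exact Or.inr (Or.inr (Or.inl ⟨-m - 1, by push_cast; linarith⟩))
  · rintro z ⟨m, n, h1, h2⟩
    exact ⟨m, -n, by simp [r1, h1], by simp [r1, h2]⟩
  · rintro z ⟨m, n, h1, h2⟩
    exact ⟨1 - n, 1 - m, by simp [r2, h2], by simp [r2, h1]⟩
  · rintro z ⟨m, n, h1, h2⟩
    exact ⟨-m, n, by simp [r3, h1], by simp [r3, h2]⟩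
  · intro p hp
    simp only [List.mem_cons, List.not_mem_nil, or_false] at hp
    rcases hp with rfl | rfl | rfl
    · exact ⟨0, 0, by simp, by simp⟩
    · exact ⟨1, 0, by simp, by simp⟩
    · exact ⟨0, 1, by simp, by simp⟩
  · intro z hz
    rw [he] at hz
    simp [cross] at hz
    obtain ⟨h1, h2, h3⟩ := hz
    have hK := convex_convexHull ℝ {p : ℂ | p ∈ [0, 1, I]}
    have hs := subset_convexHull ℝ {p : ℂ | p ∈ [0, 1, I]}
    have b := crystal_tri hK (hs (a := 0) (by simp)) (hs (a := 1) (by simp))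
      (hs (a := I) (by simp)) h3 h1 (by linarith)
    have e : z = z.re • (1 : ℂ) + z.im • I := by apply Complex.ext <;> simp
    rwa [← e] at b
  · rw [he]
    simp [cross]
  · rw [he]
    simp [cross]
  · rw [he]
    simp [cross]
    norm_num
  · intro z hz
    rw [he] at hz
    simp [cross] at hz
    obtain ⟨h1, h2, h3⟩ := hz
    rintro (⟨m, h⟩ | ⟨m, h⟩ | ⟨m, h⟩ | ⟨m, h⟩)
    · exact crystal_not_int (k := 0) (by push_cast; linarith) (by push_cast; linarith) h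
    · exact crystal_not_int (k := 0) (by push_cast; linarith) (by push_cast; linarith) h
    · exact crystal_not_odd (by linarith) (by linarith) h
    · exact crystal_not_odd (by linarith) (by linarith) h

/-! ### The triangle with angles 30, 60, 90 -/

def crystalMH (r : ℝ) : Set ℂ := {z | ∃ s : ℝ, z.im = r * s ∧
  ((∃ m : ℤ, s = m) ∨ (∃ m : ℤ, z.re + s = 2 * m + 1) ∨ (∃ m : ℤ, z.re - s = 2 * m + 1) ∨
   (∃ m : ℤ, z.re = 3 * m) ∨ (∃ m : ℤ, z.re + 3 * s = 6 * m + 3) ∨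
   ∃ m : ℤ, z.re - 3 * s = 6 * m + 3)}

theorem crystal_hex (r : ℝ) (h3 : r * r = 3) (h0 : 0 < r) (P : Set ℂ) (hP : IsCompact P)
    (hcl : closure (interior P) = P) (hfr : frontier P ⊆ crystalMH r) :
    ∃ T : Finset (List ℂ), (∀ v ∈ T, IsTile [0, 1, r * I] v) ∧
      P = ⋃ v ∈ T, convexHull ℝ {z | z ∈ v} := by
  have n1 : (0 : ℂ) ≠ 1 := zero_ne_one
  have n2 : (1 : ℂ) ≠ r * I := by simp [Complex.ext_iff]
  have n3 : (r : ℂ) * I ≠ 0 := by simp [h0.ne']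
  have r1 : ∀ z, reflLine 0 1 z = ⟨z.re, -z.im⟩ := fun z =>
    crystal_refl_eq n1 (by apply Complex.ext <;> simp)
  have r2 : ∀ (z : ℂ) (s : ℝ), z.im = r * s →
      reflLine 1 (r * I) z = ⟨(3 - z.re - 3 * s) / 2, r * ((1 + s - z.re) / 2)⟩ := by
    intro z s hs
    refine crystal_refl_eq n2 ?_
    apply Complex.ext
    · simp [hs]
      linear_combination (s / 2 - 1 / 2 + z.re / 2) * h3
    · simp [hs]
      ring
  have r3 : ∀ z, reflLine (r * I) 0 z = ⟨-z.re, z.im⟩ := fun z =>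
    crystal_refl_eq n3 (by apply Complex.ext <;> simp; ring)
  have he : ∀ p : ℂ × ℂ → Prop, (∀ e ∈ [0, 1, r * I].zip ([0, 1, (r : ℂ) * I].rotate 1), p e) ↔
      p (0, 1) ∧ p (1, r * I) ∧ p (r * I, 0) := by
    intro p
    simp
  refine crystal_tiling _ (crystalMH r) {z | ∃ p q : ℤ, z.re = p + q / 2 ∧ z.im = r * (q / 2)}
    ((he _).2 ⟨n1, n2, n3⟩) ((he _).2 ⟨?_, ?_, ?_⟩) ((he _).2 ⟨?_, ?_, ?_⟩) ?_
    (crystal_lat_finite (α := 1 / 2) (β := r / 2) (by norm_num) (by positivity) _ ?_) ?_ ?_ ?_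
    ⟨1 / 4, r / 4⟩ ?_ ?_ P hP hcl hfr
  · rintro z ⟨s, hs, h⟩
    refine ⟨-s, by simp [r1, hs], ?_⟩
    simp only [r1]
    rcases h with ⟨m, h⟩ | ⟨m, h⟩ | ⟨m, h⟩ | ⟨m, h⟩ | ⟨m, h⟩ | ⟨m, h⟩
    · exact Or.inl ⟨-m, by push_cast; linarith⟩
    · exact Or.inr (Or.inr (Or.inl ⟨m, by linarith⟩))
    · exact Or.inr (Or.inl ⟨m, by linarith⟩)
    · exact Or.inr (Or.inr (Or.inr (Or.inl ⟨m, h⟩)))
    · exact Or.inr (Or.inr (Or.inr (Or.inr (Or.inr ⟨m, by linarith⟩))))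
    · exact Or.inr (Or.inr (Or.inr (Or.inr (Or.inl ⟨m, by linarith⟩))))
  · rintro z ⟨s, hs, h⟩
    refine ⟨(1 + s - z.re) / 2, by simp only [r2 z s hs], ?_⟩
    simp only [r2 z s hs]
    rcases h with ⟨m, h⟩ | ⟨m, h⟩ | ⟨m, h⟩ | ⟨m, h⟩ | ⟨m, h⟩ | ⟨m, h⟩
    · exact Or.inr (Or.inr (Or.inl ⟨-m, by push_cast; linarith⟩))
    · exact Or.inr (Or.inl ⟨-m, by push_cast; linarith⟩)
    · exact Or.inl ⟨-m, by push_cast; linarith⟩
    · exact Or.inr (Or.inr (Or.inr (Or.inr (Or.inl ⟨-m, by push_cast; linarith⟩))))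
    · exact Or.inr (Or.inr (Or.inr (Or.inl ⟨-m, by push_cast; linarith⟩)))
    · exact Or.inr (Or.inr (Or.inr (Or.inr (Or.inr ⟨m, by linarith⟩))))
  · rintro z ⟨s, hs, h⟩
    refine ⟨s, by simp [r3, hs], ?_⟩
    simp only [r3]
    rcases h with ⟨m, h⟩ | ⟨m, h⟩ | ⟨m, h⟩ | ⟨m, h⟩ | ⟨m, h⟩ | ⟨m, h⟩
    · exact Or.inl ⟨m, h⟩
    · exact Or.inr (Or.inr (Or.inl ⟨-m - 1, by push_cast; linarith⟩))
    · exact Or.inr (Or.inl ⟨-m - 1, by push_cast; linarith⟩)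
    · exact Or.inr (Or.inr (Or.inr (Or.inl ⟨-m, by push_cast; linarith⟩)))
    · exact Or.inr (Or.inr (Or.inr (Or.inr (Or.inr ⟨-m - 1, by push_cast; linarith⟩))))
    · exact Or.inr (Or.inr (Or.inr (Or.inr (Or.inl ⟨-m - 1, by push_cast; linarith⟩))))
  · rintro z ⟨p, q, h1, h2⟩
    refine ⟨p + q, -q, ?_, ?_⟩
    · simp [r1, h1]; ring
    · simp [r1, h2]; ring
  · rintro z ⟨p, q, h1, h2⟩
    refine ⟨1 - q, 1 - p, ?_, ?_⟩
    · simp only [r2 z _ h2, h1]; push_cast; ring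
    · simp only [r2 z _ h2, h1]; push_cast; ring
  · rintro z ⟨p, q, h1, h2⟩
    refine ⟨-p - q, q, ?_, ?_⟩
    · simp [r3, h1]; ring
    · simp [r3, h2]
  · intro p hp
    simp only [List.mem_cons, List.not_mem_nil, or_false] at hp
    rcases hp with rfl | rfl | rfl
    · exact ⟨0, 0, by simp, by simp⟩
    · exact ⟨1, 0, by simp, by simp⟩
    · exact ⟨-1, 2, by simp, by simp⟩
  · rintro z ⟨p, q, h1, h2⟩
    exact ⟨2 * p + q, q, by rw [h1]; push_cast; ring, by rw [h2]; ring⟩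
  · intro z hz
    rw [he] at hz
    simp [cross] at hz
    obtain ⟨h1, h2, h4⟩ := hz
    have hK := convex_convexHull ℝ {p : ℂ | p ∈ [0, 1, (r : ℂ) * I]}
    have hs := subset_convexHull ℝ {p : ℂ | p ∈ [0, 1, (r : ℂ) * I]}
    have a1 : 0 ≤ z.re := by nlinarith
    have a2 : z.im / r ≤ 1 - z.re := by rw [div_le_iff₀ h0]; linarith
    have b := crystal_tri hK (hs (a := 0) (by simp)) (hs (a := 1) (by simp))
      (hs (a := r * I) (by simp)) a1 (div_nonneg h1 h0.le) (by linarith)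
    have e : z = z.re • (1 : ℂ) + (z.im / r) • (r * I) := by
      apply Complex.ext
      · simp [-ofReal_div]
      · simp [-ofReal_div]
        field_simp
    rwa [← e] at b
  · rw [he]
    simp [cross, h0.le]
  · rw [he]
    simp [cross, h0]
  · rw [he]
    simp [cross, h0]
    linarith
  · intro z hz
    rw [he] at hz
    simp [cross] at hz
    obtain ⟨h1, h2, h4⟩ := hz
    rintro ⟨s, hs, h⟩
    rw [hs] at h1 h2
    have a1 : 0 < z.re := by nlinarith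
    have a2 : 0 < s := by nlinarith
    have a3 : z.re + s < 1 := by nlinarith
    rcases h with ⟨m, h⟩ | ⟨m, h⟩ | ⟨m, h⟩ | ⟨m, h⟩ | ⟨m, h⟩ | ⟨m, h⟩
    · exact crystal_not_int (k := 0) (by push_cast; linarith) (by push_cast; linarith) h
    · exact crystal_not_odd (by linarith) (by linarith) h
    · exact crystal_not_odd (by linarith) (by linarith) h
    · exact crystal_not_int (x := z.re / 3) (k := 0) (m := m) (by push_cast; linarith)
        (by push_cast; linarith) (by linarith)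
    · exact crystal_not_odd (x := (z.re + 3 * s) / 3) (m := m) (by linarith) (by linarith)
        (by linarith)
    · exact crystal_not_odd (x := (z.re - 3 * s) / 3) (m := m) (by linarith) (by linarith)
        (by linarith)

end Pool.Agent.Lib.MP_c02c19_gt
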