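import Pool.Agent.Lib.MP_c02c19_gt.Crystal2

/-!
Classification of the invariant lattices.
-/

namespace Pool.Agent.Lib.MP_c02c19_gt

open Complex Set

theorem crystal_unit {Λ : AddSubgroup ℂ} (h1 : (1 : ℂ) ∈ Λ) (hmin : ∀ z ∈ Λ, z ≠ 0 → 1 ≤ ‖z‖)
    {ζ : ℂ} (hζ : ζ ∈ Λ) (hn : ‖ζ‖ = 1) : ζ = 1 ∨ ζ = -1 ∨ ζ.re ^ 2 ≤ 1 / 4 := by
  by_cases a : ζ = 1
  · exact Or.inl a
  by_cases b : ζ = -1
  · exact Or.inr (Or.inl b)
  have c1 := hmin _ (sub_mem hζ h1) (sub_ne_zero.2 a)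
  have c2 := hmin _ (add_mem hζ h1) (fun h => b (eq_neg_of_add_eq_zero_left h))
  have d1 : 1 ≤ normSq (ζ - 1) := by rw [normSq_eq_norm_sq]; nlinarith
  have d2 : 1 ≤ normSq (ζ + 1) := by rw [normSq_eq_norm_sq]; nlinarith
  have d3 : normSq ζ = 1 := by rw [normSq_eq_norm_sq, hn]; norm_num
  simp only [normSq_apply, sub_re, sub_im, add_re, add_im, one_re, one_im] at d1 d2 d3
  refine Or.inr (Or.inr ?_)
  nlinarith

theorem crystal_small {Λ : AddSubgroup ℂ} (hmin : ∀ z ∈ Λ, z ≠ 0 → 1 ≤ ‖z‖) {z : ℂ}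
    (hz : z ∈ Λ) (h : z.re ^ 2 + z.im ^ 2 < 1) : z = 0 := by
  by_contra h0
  have h1 := hmin z hz h0
  have h2 : 1 ≤ normSq z := by rw [normSq_eq_norm_sq]; nlinarith
  rw [normSq_apply] at h2
  nlinarith

theorem crystal_int_mul {Λ : AddSubgroup ℂ} {z : ℂ} (hz : z ∈ Λ) (m : ℤ) : (m : ℂ) * z ∈ Λ := by
  simpa using Λ.zsmul_mem hz m

theorem crystal_gauss {Λ : AddSubgroup ℂ} (h1 : (1 : ℂ) ∈ Λ)
    (hmin : ∀ z ∈ Λ, z ≠ 0 → 1 ≤ ‖z‖) (hI : I ∈ Λ) {z : ℂ} (hz : z ∈ Λ) :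
    ∃ m n : ℤ, z.re = m ∧ z.im = n := by
  have h2 := sub_mem (sub_mem hz (crystal_int_mul h1 (round z.re))) (crystal_int_mul hI (round z.im))
  have a := abs_le.1 (abs_sub_round z.re)
  have b := abs_le.1 (abs_sub_round z.im)
  have h3 := crystal_small hmin h2 (by simp; nlinarith)
  refine ⟨round z.re, round z.im, ?_, ?_⟩
  · simpa [sub_eq_zero] using congrArg Complex.re h3
  · simpa [sub_eq_zero] using congrArg Complex.im h3

theorem crystal_eis {Λ : AddSubgroup ℂ} (h1 : (1 : ℂ) ∈ Λ)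
    (hmin : ∀ z ∈ Λ, z ≠ 0 → 1 ≤ ‖z‖) {r : ℝ} (h3 : r * r = 3) (h0 : 0 < r)
    (hI : (⟨1 / 2, r / 2⟩ : ℂ) ∈ Λ) {z : ℂ} (hz : z ∈ Λ) :
    ∃ p q : ℤ, z.re = p + q / 2 ∧ z.im = r * (q / 2) := by
  obtain ⟨s, hs⟩ : ∃ s, z.im = r * (s / 2) := ⟨2 * z.im / r, by field_simp⟩
  have h2 := sub_mem (sub_mem hz (crystal_int_mul h1 (round (z.re - round s / 2))))
    (crystal_int_mul hI (round s))
  have a := abs_le.1 (abs_sub_round (z.re - round s / 2))
  have b := abs_le.1 (abs_sub_round s)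
  generalize round (z.re - round s / 2) = p at h2 a
  generalize round s = q at h2 a b
  have h4 := crystal_small hmin h2 (by
    have e1 : (z - (p : ℂ) * 1 - (q : ℂ) * ⟨1 / 2, r / 2⟩).re = z.re - q / 2 - p := by
      simp; ring
    have e2 : (z - (p : ℂ) * 1 - (q : ℂ) * ⟨1 / 2, r / 2⟩).im = r * ((s - q) / 2) := by
      simp [hs]; ring
    rw [e1, e2, mul_pow, sq r, h3]
    nlinarith)
  refine ⟨p, q, ?_, ?_⟩
  · have := congrArg Complex.re h4
    simp at this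
    linarith
  · have := congrArg Complex.im h4
    simp at this
    linarith

theorem crystal_cyclic {Λ : AddSubgroup ℂ} (hmin : ∀ z ∈ Λ, z ≠ 0 → 1 ≤ ‖z‖) {b : ℂ}
    (hb : ‖b‖ = 1) : ∃ α : ℝ, 0 < α ∧ ∀ x : ℝ, b * x ∈ Λ → ∃ m : ℤ, x = α * m := by
  let f : ℝ →+ ℂ := (AddMonoidHom.mulLeft b).comp ofRealHom.toAddMonoidHom
  rcases (Λ.comap f).dense_or_cyclic with h | ⟨a, h⟩
  · obtain ⟨x, hx, hx'⟩ := h.exists_mem_open isOpen_Ioo (nonempty_Ioo.2 (zero_lt_one' ℝ))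
    have h1 : b * x ∈ Λ := hx
    have hb0 : b ≠ 0 := by rintro rfl; simp at hb
    have h2 := hmin _ h1 (mul_ne_zero hb0 (by simpa using hx'.1.ne'))
    rw [norm_mul, hb, one_mul, norm_real, Real.norm_eq_abs, abs_of_pos hx'.1] at h2
    exact absurd hx'.2 (not_lt.2 h2)
  · have h1 : ∀ x : ℝ, b * x ∈ Λ → ∃ m : ℤ, x = a * m := by
      intro x hx
      have h2 : x ∈ Λ.comap f := hx
      rw [h, AddSubgroup.mem_closure_singleton] at h2
      obtain ⟨m, rfl⟩ := h2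
      exact ⟨m, by simp [mul_comm]⟩
    rcases lt_trichotomy a 0 with h2 | rfl | h2
    · refine ⟨-a, neg_pos.2 h2, fun x hx => ?_⟩
      obtain ⟨m, rfl⟩ := h1 x hx
      exact ⟨-m, by simp⟩
    · refine ⟨1, one_pos, fun x hx => ?_⟩
      obtain ⟨m, rfl⟩ := h1 x hx
      exact ⟨0, by simp⟩
    · exact ⟨a, h2, h1⟩

theorem crystal_core {P : Set ℂ} (hP : IsCompact P) (hcl : closure (interior P) = P)
    (o e : ℂ) (he : e ≠ 0) (Λ : AddSubgroup ℂ) (h1 : (1 : ℂ) ∈ Λ)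
    (hmin : ∀ z ∈ Λ, z ≠ 0 → 1 ≤ ‖z‖) (U : Set ℂ) (hU : ∀ u ∈ U, ‖u‖ = 1)
    (hinv : ∀ u ∈ U, ∀ z ∈ Λ, u * (starRingEnd ℂ) z ∈ Λ)
    (hfr : ∀ Z, o + e * Z ∈ frontier P → ∃ u ∈ U, Z - u * (starRingEnd ℂ) Z ∈ Λ) :
    AlmostIntegrable P := by
  have hUΛ : ∀ u ∈ U, u ∈ Λ := fun u hu => by simpa using hinv u hu 1 h1
  have hsq : ∀ u ∈ U, u.re ^ 2 + u.im ^ 2 = 1 := fun u hu => by
    have := normSq_eq_norm_sq u
    rw [hU u hu, normSq_apply] at this
    linarith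
  by_cases hI : I ∈ Λ
  · refine crystal_transfer [0, 1, I] crystalMS (o - e / 2) (e / 2) (by simpa using he)
      ⟨_, _, by simpa using he, _, rfl, Or.inr (Or.inr (Or.inr rfl))⟩ crystal_sq P hP hcl ?_
    intro Z hZ
    have hY : (⟨(Z.re - 1) / 2, Z.im / 2⟩ : ℂ) = (Z - 1) / 2 := by apply Complex.ext <;> simp
    obtain ⟨u, hu, h⟩ := hfr ⟨(Z.re - 1) / 2, Z.im / 2⟩ (by
      rwa [hY, show o + e * ((Z - 1) / 2) = o - e / 2 + e / 2 * Z by ring])
    obtain ⟨a, b, ha, hb⟩ := crystal_gauss h1 hmin hI (hUΛ u hu)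
    obtain ⟨m, n, hm, hn⟩ := crystal_gauss h1 hmin hI h
    have h2 := hsq u hu
    rw [ha, hb] at h2
    have h3 : a ^ 2 + b ^ 2 = 1 := by exact_mod_cast h2
    simp only [sub_re, sub_im, mul_re, mul_im, conj_re, conj_im, ha, hb] at hm hn
    have h4 : -1 ≤ a ∧ a ≤ 1 := by constructor <;> nlinarith
    have h5 : -1 ≤ b ∧ b ≤ 1 := by constructor <;> nlinarith
    obtain ⟨h4, h4'⟩ := h4
    obtain ⟨h5, h5'⟩ := h5
    interval_cases a <;> interval_cases b <;> simp at h3 <;> push_cast at hm hn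
    · exact Or.inl ⟨m + 1, by push_cast; linarith⟩
    · exact Or.inr (Or.inr (Or.inl ⟨m, by linarith⟩))
    · exact Or.inr (Or.inr (Or.inr ⟨m, by linarith⟩))
    · exact Or.inr (Or.inl ⟨n, by linarith⟩)
  have h3 : √3 * √3 = 3 := Real.mul_self_sqrt (by norm_num)
  have h0 : 0 < √3 := Real.sqrt_pos.2 (by norm_num)
  by_cases hω : (⟨1 / 2, √3 / 2⟩ : ℂ) ∈ Λ
  · refine crystal_transfer [0, 1, √3 * I] (crystalMH √3) (o - e / 6 * (√3 * I)) (e / 6)
      (by simpa using he) ⟨_, _, by simpa using he, _, rfl, Or.inr (Or.inr (Or.inl rfl))⟩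
      (crystal_hex _ h3 h0) P hP hcl ?_
    generalize √3 = r at h3 h0 hω
    intro Z hZ
    have hY : (⟨Z.re / 6, (Z.im - r) / 6⟩ : ℂ) = (Z - r * I) / 6 := by
      apply Complex.ext <;> simp
    obtain ⟨u, hu, h⟩ := hfr ⟨Z.re / 6, (Z.im - r) / 6⟩ (by
      rwa [hY, show o + e * ((Z - r * I) / 6) = o - e / 6 * (r * I) + e / 6 * Z by ring])
    obtain ⟨a, b, ha, hb⟩ := crystal_eis h1 hmin h3 h0 hω (hUΛ u hu)
    obtain ⟨m, n, hm, hn⟩ := crystal_eis h1 hmin h3 h0 hω h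
    have h2 := hsq u hu
    rw [ha, hb, mul_pow, sq r, h3] at h2
    have h6 : ((a ^ 2 + a * b + b ^ 2 : ℤ) : ℝ) = 1 := by push_cast; linarith
    have h7 : a ^ 2 + a * b + b ^ 2 = 1 := by exact_mod_cast h6
    obtain ⟨s, hs⟩ : ∃ s, Z.im = r * s := ⟨Z.im / r, by field_simp⟩
    refine ⟨s, hs, ?_⟩
    simp only [sub_re, sub_im, mul_re, mul_im, conj_re, conj_im, ha, hb, hs] at hm hn
    have hm' : Z.re / 6 - ((a + b / 2) * (Z.re / 6) + b * (s - 1) / 4) = m + n / 2 := by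
      linear_combination hm + (b * (s - 1) / 12) * h3
    have hn' : (s - 1) / 6 - (-(a + b / 2) * ((s - 1) / 6) + b / 2 * (Z.re / 6)) = n / 2 := by
      apply mul_left_cancel₀ h0.ne'
      linear_combination hn
    have h4 : -1 ≤ a ∧ a ≤ 1 := by constructor <;> nlinarith [sq_nonneg (a + 2 * b)]
    have h5 : -1 ≤ b ∧ b ≤ 1 := by constructor <;> nlinarith [sq_nonneg (2 * a + b)]
    obtain ⟨h4, h4'⟩ := h4
    obtain ⟨h5, h5'⟩ := h5
    clear hm hn h2 h6 ha hb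
    interval_cases a <;> interval_cases b <;> simp at h7 <;> push_cast at hm' hn'
    · exact Or.inr (Or.inr (Or.inr (Or.inl ⟨m, by linarith⟩)))
    · exact Or.inr (Or.inr (Or.inl ⟨2 * m + n - 1, by push_cast; linarith⟩))
    · exact Or.inr (Or.inl ⟨2 * m + n, by push_cast; linarith⟩)
    · exact Or.inr (Or.inr (Or.inr (Or.inr (Or.inr ⟨2 * m + n - 1, by push_cast; linarith⟩))))
    · exact Or.inr (Or.inr (Or.inr (Or.inr (Or.inl ⟨2 * m + n, by push_cast; linarith⟩))))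
    · exact Or.inl ⟨1 - 3 * m, by push_cast; linarith⟩
  have hpm : ∀ u ∈ U, ∀ v ∈ U, u * (starRingEnd ℂ) v = 1 ∨ u * (starRingEnd ℂ) v = -1 := by
    intro u hu v hv
    have hm : ∀ z ∈ Λ, u * (starRingEnd ℂ) v * z ∈ Λ := by
      intro z hz
      simpa [mul_assoc] using hinv u hu _ (hinv v hv z hz)
    have hn : ‖u * (starRingEnd ℂ) v‖ = 1 := by simp [hU u hu, hU v hv]
    generalize u * (starRingEnd ℂ) v = ζ at hm hn
    have hζ : ζ ∈ Λ := by simpa using hm 1 h1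
    have hs : ζ.re ^ 2 + ζ.im ^ 2 = 1 := by
      have := normSq_eq_norm_sq ζ
      rw [hn, normSq_apply] at this
      linarith
    rcases crystal_unit h1 hmin hζ hn with h | h | h
    · exact Or.inl h
    · exact Or.inr h
    exfalso
    rcases crystal_unit h1 hmin (hm ζ hζ) (by simp [hn]) with h4 | h4 | h4
    · have := congrArg Complex.re h4
      simp only [mul_re, one_re] at this
      nlinarith
    · have h5 : (ζ - I) * (ζ + I) = 0 := by linear_combination h4 - I_mul_I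
      rcases mul_eq_zero.1 h5 with h6 | h6
      · exact hI (sub_eq_zero.1 h6 ▸ hζ)
      · exact hI (by simpa [eq_neg_of_add_eq_zero_left h6] using hζ)
    · simp only [mul_re] at h4
      have h5 : ζ.re ^ 2 = 1 / 4 := by nlinarith
      have h6 : (ζ.re - 1 / 2) * (ζ.re + 1 / 2) = 0 := by linarith
      have h7 : (ζ.im - √3 / 2) * (ζ.im + √3 / 2) = 0 := by linarith
      apply hω
      rcases mul_eq_zero.1 h6 with a | a <;> rcases mul_eq_zero.1 h7 with b | b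
      · have : (⟨1 / 2, √3 / 2⟩ : ℂ) = ζ := Complex.ext (by simp; linarith) (by simp; linarith)
        exact this ▸ hζ
      · have : (⟨1 / 2, √3 / 2⟩ : ℂ) = 1 - ζ :=
          Complex.ext (by simp; linarith) (by simp; linarith)
        exact this ▸ sub_mem h1 hζ
      · have : (⟨1 / 2, √3 / 2⟩ : ℂ) = 1 + ζ :=
          Complex.ext (by simp; linarith) (by simp; linarith)
        exact this ▸ add_mem h1 hζ
      · have : (⟨1 / 2, √3 / 2⟩ : ℂ) = -ζ := Complex.ext (by simp; linarith) (by simp; linarith)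
        exact this ▸ neg_mem hζ
  obtain ⟨v, hv, hv'⟩ : ∃ v : ℂ, ‖v‖ = 1 ∧ ∀ u ∈ U, u = v ∨ u = -v := by
    rcases U.eq_empty_or_nonempty with rfl | ⟨v, hv⟩
    · exact ⟨1, by simp, by simp⟩
    · refine ⟨v, hU v hv, fun u hu => ?_⟩
      have h4 : (starRingEnd ℂ) v * v = 1 := by
        rw [conj_mul', hU v hv]; simp
      rcases hpm u hu v hv with h | h
      · exact Or.inl (by linear_combination v * h - u * h4)
      · exact Or.inr (by linear_combination v * h - u * h4)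
  obtain ⟨b, hb⟩ := IsAlgClosed.exists_pow_nat_eq v two_pos
  have hb1 : ‖b‖ = 1 := by
    rw [← hb, norm_pow] at hv
    exact (pow_eq_one_iff_of_nonneg (norm_nonneg b) two_ne_zero).1 hv
  have hb0 : b ≠ 0 := by rintro rfl; simp at hb1
  have hb2 : (starRingEnd ℂ) b * b = 1 := by rw [conj_mul', hb1]; simp
  obtain ⟨α, hα, hα'⟩ := crystal_cyclic hmin hb1
  obtain ⟨β, hβ, hβ'⟩ := crystal_cyclic hmin (b := b * I) (by simp [hb1])
  have hne : e * b * (α / 2) ≠ 0 := by simp [he, hb0, hα.ne']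
  refine crystal_transfer _ (crystalMR (β / α)) o (e * b * (α / 2)) hne
    ⟨_, _, hne, _, rfl, Or.inl ⟨β / α, div_pos hβ hα, rfl⟩⟩
    (crystal_rect _ (div_pos hβ hα)) P hP hcl ?_
  intro Z hZ
  obtain ⟨u, hu, h⟩ := hfr (b * (α / 2 : ℝ) * Z) (by
    rwa [show o + e * (b * (α / 2 : ℝ) * Z) = o + e * b * (α / 2) * Z by push_cast; ring])
  simp only [map_mul, conj_ofReal] at h
  rcases hv' u hu with rfl | rfl
  · have e1 : b * (α / 2 : ℝ) * Z - u * ((starRingEnd ℂ) b * (α / 2 : ℝ) * (starRingEnd ℂ) Z) =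
        b * I * (α * Z.im : ℝ) := by
      have := sub_conj Z
      push_cast at this ⊢
      linear_combination (b * α / 2) * this + ((starRingEnd ℂ) b * α / 2 * (starRingEnd ℂ) Z) * hb -
        (b * α / 2 * (starRingEnd ℂ) Z) * hb2
    rw [e1] at h
    obtain ⟨m, hm⟩ := hβ' _ h
    exact Or.inr ⟨m, by field_simp; linarith⟩
  · have e1 : b * (α / 2 : ℝ) * Z - -v * ((starRingEnd ℂ) b * (α / 2 : ℝ) * (starRingEnd ℂ) Z) =
        b * (α * Z.re : ℝ) := by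
      have := add_conj Z
      push_cast at this ⊢
      linear_combination (b * α / 2) * this - ((starRingEnd ℂ) b * α / 2 * (starRingEnd ℂ) Z) * hb +
        (b * α / 2 * (starRingEnd ℂ) Z) * hb2
    rw [e1] at h
    obtain ⟨m, hm⟩ := hα' _ h
    exact Or.inl ⟨m, mul_left_cancel₀ hα.ne' hm⟩

end Pool.Agent.Lib.MP_c02c19_gt
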