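import Mathlib

/-!
Definitions for the security problem of polygonal billiards (plane identified with `ℂ`).
-/

namespace Pool.Agent.Lib.MP_c02c19_gt

open Complex

/-- Mirror image of `z` in the line through the points `a ≠ b`. -/
noncomputable def reflLine (a b z : ℂ) : ℂ :=
  a + (b - a) / (starRingEnd ℂ) (b - a) * (starRingEnd ℂ) (z - a)

/-- `P` is a polygon with list of sides `S` (a side is given by its two end points, the vertices):
a compact set, the closure of its connected interior, whose boundary is the union of the sides,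
two different sides meeting in common end points only. -/
structure IsPolygon (P : Set ℂ) (S : Finset (ℂ × ℂ)) : Prop where
  compact : IsCompact P
  connected : IsConnected (interior P)
  closure_eq : closure (interior P) = P
  frontier_eq : frontier P = ⋃ s ∈ S, segment ℝ s.1 s.2
  side_ne : ∀ s ∈ S, s.1 ≠ s.2
  side_inter : ∀ s ∈ S, ∀ t ∈ S, s ≠ t →
    segment ℝ s.1 s.2 ∩ segment ℝ t.1 t.2 ⊆ {s.1, s.2} ∩ {t.1, t.2}

/-- `p 0, p 1, …, p (n+1)` is a billiard orbit with `n` bounces: consecutive points are joined by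
straight segments running in the interior, every bounce point lies on a side (not at a vertex)
and the law of reflection holds there. -/
def IsOrbit (P : Set ℂ) (S : Finset (ℂ × ℂ)) (n : ℕ) (p : ℕ → ℂ) : Prop :=
  (∀ i ≤ n, p i ≠ p (i + 1) ∧ openSegment ℝ (p i) (p (i + 1)) ⊆ interior P) ∧
  ∀ i < n, ∃ s ∈ S, p (i + 1) ∈ openSegment ℝ s.1 s.2 ∧
    p (i + 1) ∈ openSegment ℝ (p i) (reflLine s.1 s.2 (p (i + 2)))

/-- The pair `x, y` is secure: finitely many points of `P \ {x, y}` block all orbits
from `x` to `y`. -/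
def SecurePair (P : Set ℂ) (S : Finset (ℂ × ℂ)) (x y : ℂ) : Prop :=
  ∃ Z : Finset ℂ, (Z : Set ℂ) ⊆ P \ {x, y} ∧
    ∀ (n : ℕ) (p : ℕ → ℂ), IsOrbit P S n p → p 0 = x → p (n + 1) = y →
      ∃ z ∈ Z, ∃ i ≤ n, z ∈ segment ℝ (p i) (p (i + 1))

/-- Cyclic vertex lists of the integrable polygons: images under a similarity `z ↦ a + b z` of a
rectangle, the equilateral triangle, the 30-60-90 triangle or the 45-45-90 triangle. -/
def IsIntegrable (v : List ℂ) : Prop :=
  ∃ a b : ℂ, b ≠ 0 ∧ ∃ w : List ℂ, v = w.map (fun z => a + b * z) ∧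
    ((∃ t : ℝ, 0 < t ∧ w = [0, 1, 1 + t * I, t * I]) ∨
      w = [0, 1, (1 + √3 * I) / 2] ∨ w = [0, 1, √3 * I] ∨ w = [0, 1, I])

/-- `w` is the vertex list of a tile obtained from `v` by repeatedly reflecting a tile in one of
its own sides. -/
def IsTile (v w : List ℂ) : Prop :=
  Relation.ReflTransGen
    (fun w₁ w₂ : List ℂ => ∃ e ∈ w₁.zip (w₁.rotate 1), w₂ = w₁.map (reflLine e.1 e.2)) v w

/-- `P` is a union of finitely many tiles of the reflection tiling of an integrable polygon. -/
def AlmostIntegrable (P : Set ℂ) : Prop :=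
  ∃ v : List ℂ, IsIntegrable v ∧ ∃ T : Finset (List ℂ), (∀ w ∈ T, IsTile v w) ∧
    P = ⋃ w ∈ T, convexHull ℝ {z | z ∈ w}

end Pool.Agent.Lib.MP_c02c19_gt
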