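import Mathlib

/-!
Spaces spread over the plane by a separated local homeomorphism: sections, lifted segments.
-/

namespace Pool.Agent.Lib.MP_c02c19_gt

open Set Filter Topology Metric

variable {E : Type*} [TopologicalSpace E] {dev : E → ℂ}

/-- separated local homeomorphism to the plane -/
structure Etale (dev : E → ℂ) : Prop where
  loc : IsLocalHomeomorph dev
  sep : IsSeparatedMap dev

/-- continuous section over `D` -/
def IsSec (dev : E → ℂ) (χ : ℂ → E) (D : Set ℂ) : Prop :=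
  ContinuousOn χ D ∧ ∀ u ∈ D, dev (χ u) = u

/-- `q` and `q'` are the ends of a lifted straight segment -/
def Seg (dev : E → ℂ) (q q' : E) : Prop :=
  ∃ χ, IsSec dev χ (segment ℝ (dev q) (dev q')) ∧ χ (dev q) = q ∧ χ (dev q') = q'

/-- the segment from `q` with vector `v` lifts -/
def Alive (dev : E → ℂ) (q : E) (v : ℂ) : Prop := ∃ q', Seg dev q q' ∧ dev q' = dev q + v

/-- a lifted straight line -/
def IsLine (dev : E → ℂ) (σ : ℝ → E) (z v : ℂ) : Prop :=
  Continuous σ ∧ ∀ s : ℝ, dev (σ s) = z + s * v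

theorem IsSec.mono {χ : ℂ → E} {D D' : Set ℂ} (h : IsSec dev χ D) (hD : D' ⊆ D) :
    IsSec dev χ D' := ⟨h.1.mono hD, fun u hu => h.2 u (hD hu)⟩

theorem Etale.continuous (h : Etale dev) : Continuous dev := h.loc.continuous

theorem Etale.lift_unique (h : Etale dev) {A : Type*} [TopologicalSpace A] {s : Set A}
    {g₁ g₂ : A → E} (hs : IsPreconnected s) (h1 : ContinuousOn g₁ s) (h2 : ContinuousOn g₂ s)
    (he : ∀ a ∈ s, dev (g₁ a) = dev (g₂ a)) {a : A} (ha : a ∈ s) (hga : g₁ a = g₂ a) :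
    EqOn g₁ g₂ s :=
  h.sep.eqOn_of_comp_eqOn h.loc.isLocallyInjective hs h1 h2 he ha hga

theorem Etale.sec_unique (h : Etale dev) {χ χ' : ℂ → E} {D : Set ℂ} (h1 : IsSec dev χ D)
    (h2 : IsSec dev χ' D) (hD : IsPreconnected D) {u : ℂ} (hu : u ∈ D) (he : χ u = χ' u) :
    EqOn χ χ' D :=
  h.lift_unique hD h1.1 h2.1 (fun a ha => by rw [h1.2 a ha, h2.2 a ha]) hu he

/-- two continuous maps with the same development that agree at a point agree near it -/
theorem Etale.eventually_eq (h : Etale dev) {A : Type*} {l : Filter A} {g₁ g₂ : A → E} {q : E}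
    (h1 : Tendsto g₁ l (𝓝 q)) (h2 : Tendsto g₂ l (𝓝 q))
    (he : ∀ᶠ a in l, dev (g₁ a) = dev (g₂ a)) : ∀ᶠ a in l, g₁ a = g₂ a := by
  obtain ⟨U, hU, hq, hinj⟩ := h.loc.isLocallyInjective q
  filter_upwards [h1 (hU.mem_nhds hq), h2 (hU.mem_nhds hq), he] with a a1 a2 a3
  exact hinj a1 a2 a3

/-- limits are unique for points with the same development -/
theorem Etale.eq_of_tendsto (h : Etale dev) {A : Type*} {l : Filter A} [l.NeBot] {g : A → E}
    {q q' : E} (h1 : Tendsto g l (𝓝 q)) (h2 : Tendsto g l (𝓝 q')) : q = q' := by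
  by_contra hne
  have hd : dev q = dev q' :=
    tendsto_nhds_unique (h.continuous.continuousAt.tendsto.comp h1)
      (h.continuous.continuousAt.tendsto.comp h2)
  obtain ⟨s₁, s₂, o1, o2, m1, m2, hdis⟩ := h.sep q q' hd hne
  obtain ⟨a, a1, a2⟩ := ((h1.eventually (o1.mem_nhds m1)).and (h2.eventually (o2.mem_nhds m2))).exists
  exact Set.disjoint_left.1 hdis a1 a2

theorem IsSec.eventually_eq (h : Etale dev) {χ : ℂ → E} {D : Set ℂ} (hχ : IsSec dev χ D)
    {u : ℂ} (hD : D ∈ 𝓝 u) : ∀ᶠ q in 𝓝 (χ u), dev q ∈ D ∧ χ (dev q) = q := by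
  have hu : u ∈ D := mem_of_mem_nhds hD
  have h1 : Tendsto dev (𝓝 (χ u)) (𝓝 u) := by
    have := h.continuous.continuousAt (x := χ u)
    rwa [ContinuousAt, hχ.2 u hu] at this
  have h2 : Tendsto (fun q => χ (dev q)) (𝓝 (χ u)) (𝓝 (χ u)) :=
    ((hχ.1.continuousAt hD).tendsto).comp h1
  have h3 : ∀ᶠ q in 𝓝 (χ u), dev q ∈ D := h1 hD
  have := h.eventually_eq h2 tendsto_id (by
    filter_upwards [h3] with q hq
    exact hχ.2 _ hq)
  exact h3.and this

theorem IsSec.isOpen_image (h : Etale dev) {χ : ℂ → E} {D : Set ℂ} (hχ : IsSec dev χ D)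
    (hD : IsOpen D) : IsOpen (χ '' D) := by
  rw [isOpen_iff_mem_nhds]
  rintro _ ⟨u, hu, rfl⟩
  filter_upwards [hχ.eventually_eq h (hD.mem_nhds hu)] with q hq
  exact ⟨dev q, hq.1, hq.2⟩

theorem Etale.exists_chart (h : Etale dev) (q : E) :
    ∃ ε > 0, ∃ χ, IsSec dev χ (ball (dev q) ε) ∧ χ (dev q) = q := by
  obtain ⟨e, hq, he⟩ := h.loc q
  have h1 : e.target ∈ 𝓝 (dev q) := by
    rw [he]; exact e.open_target.mem_nhds (e.map_source hq)
  obtain ⟨ε, hε, hb⟩ := Metric.mem_nhds_iff.1 h1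
  refine ⟨ε, hε, e.symm, ⟨e.continuousOn_symm.mono hb, fun u hu => ?_⟩, ?_⟩
  · rw [he]; exact e.right_inv (hb hu)
  · rw [he]; exact e.left_inv hq

/-- a chart whose image lies in a given neighbourhood -/
theorem Etale.exists_chart_subset (h : Etale dev) (q : E) {N : Set E} (hN : N ∈ 𝓝 q) :
    ∃ ε > 0, ∃ χ, IsSec dev χ (ball (dev q) ε) ∧ χ (dev q) = q ∧
      ∀ u ∈ ball (dev q) ε, χ u ∈ N := by
  obtain ⟨ε, hε, χ, hχ, hq⟩ := h.exists_chart q
  have h1 : ContinuousAt χ (dev q) := hχ.1.continuousAt (ball_mem_nhds _ hε)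
  have h2 : χ ⁻¹' N ∈ 𝓝 (dev q) := h1.preimage_mem_nhds (by rwa [hq])
  obtain ⟨ε', hε', hb⟩ := Metric.mem_nhds_iff.1 h2
  refine ⟨min ε ε', lt_min hε hε', χ, hχ.mono (ball_subset_ball (min_le_left _ _)), hq,
    fun u hu => hb (ball_subset_ball (min_le_right _ _) hu)⟩

/-- two intersecting balls meet on the segment joining their centres -/
theorem exists_mem_segment_of_balls {a b w : ℂ} {r r' : ℝ} (h1 : w ∈ ball a r)
    (h2 : w ∈ ball b r') : ∃ m ∈ segment ℝ a b, m ∈ ball a r ∧ m ∈ ball b r' := by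
  have hr : 0 < r := pos_of_mem_ball h1
  have hr' : 0 < r' := pos_of_mem_ball h2
  have hd : dist a b < r + r' := by
    have := dist_triangle_right a b w
    rw [mem_ball, dist_comm] at h1 h2
    linarith
  have hs : 0 < r + r' := by linarith
  refine ⟨AffineMap.lineMap a b (r / (r + r')), ?_, ?_, ?_⟩
  · rw [segment_eq_image_lineMap]
    exact ⟨_, ⟨by positivity, by rw [div_le_one hs]; linarith⟩, rfl⟩
  · rw [mem_ball, dist_lineMap_left, Real.norm_eq_abs, abs_of_pos (by positivity),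
      div_mul_eq_mul_div, div_lt_iff₀ hs]
    exact mul_lt_mul_of_pos_left hd hr
  · have : 1 - r / (r + r') = r' / (r + r') := by field_simp; ring
    rw [mem_ball, dist_lineMap_right, this, Real.norm_eq_abs, abs_of_pos (by positivity),
      div_mul_eq_mul_div, div_lt_iff₀ hs]
    exact mul_lt_mul_of_pos_left hd hr'

/-- a section over a convex set extends to a neighbourhood -/
theorem Etale.exists_extension (h : Etale dev) {χ : ℂ → E} {K : Set ℂ} (hχ : IsSec dev χ K)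
    (hK : Convex ℝ K) : ∃ U, IsOpen U ∧ K ⊆ U ∧ ∃ χ', IsSec dev χ' U ∧ EqOn χ' χ K := by
  classical
  have key : ∀ u : K, ∃ ε > 0, ∃ c, IsSec dev c (ball (u : ℂ) ε) ∧ EqOn c χ (K ∩ ball u ε) := by
    rintro ⟨u, hu⟩
    obtain ⟨ε, hε, c, hc, hq⟩ := h.exists_chart (χ u)
    rw [hχ.2 u hu] at hc hq
    refine ⟨ε, hε, c, hc, ?_⟩
    exact h.sec_unique (hc.mono inter_subset_right) (hχ.mono inter_subset_left)
      (hK.inter (convex_ball _ _)).isPreconnected ⟨hu, mem_ball_self hε⟩ hq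
  choose ε hε c hc hcχ using key
  have hagree : ∀ u u' : K, EqOn (c u) (c u') (ball (u : ℂ) (ε u) ∩ ball (u' : ℂ) (ε u')) := by
    intro u u' w hw
    obtain ⟨m, hm, m1, m2⟩ := exists_mem_segment_of_balls hw.1 hw.2
    have hmK : m ∈ K := hK.segment_subset u.2 u'.2 hm
    refine h.sec_unique ((hc u).mono inter_subset_left) ((hc u').mono inter_subset_right)
      ((convex_ball _ _).inter (convex_ball _ _)).isPreconnected (u := m) ⟨m1, m2⟩ ?_ hw
    rw [hcχ u ⟨hmK, m1⟩, hcχ u' ⟨hmK, m2⟩]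
  let χ' : ℂ → E := fun w =>
    if hw : ∃ u : K, w ∈ ball (u : ℂ) (ε u) then c hw.choose w else χ w
  have hχ' : ∀ u : K, EqOn χ' (c u) (ball (u : ℂ) (ε u)) := by
    intro u w hw
    have hw' : ∃ u : K, w ∈ ball (u : ℂ) (ε u) := ⟨u, hw⟩
    simp only [χ', dif_pos hw']
    exact hagree _ _ ⟨hw'.choose_spec, hw⟩
  refine ⟨⋃ u : K, ball (u : ℂ) (ε u), isOpen_iUnion fun u => isOpen_ball,
    fun u hu => mem_iUnion.2 ⟨⟨u, hu⟩, mem_ball_self (hε _)⟩, χ', ⟨?_, ?_⟩, ?_⟩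
  · intro w hw
    obtain ⟨u, hu⟩ := mem_iUnion.1 hw
    have h1 : ContinuousAt (c u) w := (hc u).1.continuousAt (isOpen_ball.mem_nhds hu)
    have h2 : χ' =ᶠ[𝓝 w] c u := by
      filter_upwards [isOpen_ball.mem_nhds hu] with w' hw' using hχ' u hw'
    exact (h1.congr h2.symm).continuousWithinAt
  · intro w hw
    obtain ⟨u, hu⟩ := mem_iUnion.1 hw
    rw [hχ' u hu]; exact (hc u).2 w hu
  · intro u hu
    rw [hχ' ⟨u, hu⟩ (mem_ball_self (hε _))]
    exact hcχ ⟨u, hu⟩ ⟨hu, mem_ball_self (hε _)⟩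

theorem Etale.exists_tube (h : Etale dev) {χ : ℂ → E} {K : Set ℂ} (hχ : IsSec dev χ K)
    (hK : Convex ℝ K) (hc : IsCompact K) :
    ∃ ε > 0, ∃ χ', IsSec dev χ' (thickening ε K) ∧ EqOn χ' χ K := by
  obtain ⟨U, hU, hKU, χ', h1, h2⟩ := h.exists_extension hχ hK
  obtain ⟨ε, hε, hs⟩ := hc.exists_thickening_subset_open hU hKU
  exact ⟨ε, hε, χ', h1.mono hs, h2⟩

theorem IsSec.glue {χ₁ χ₂ : ℂ → E} {D₁ D₂ : Set ℂ} (h1 : IsSec dev χ₁ D₁) (h2 : IsSec dev χ₂ D₂)
    (c1 : IsClosed D₁) (c2 : IsClosed D₂) (he : EqOn χ₁ χ₂ (D₁ ∩ D₂)) :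
    ∃ χ, IsSec dev χ (D₁ ∪ D₂) ∧ EqOn χ χ₁ D₁ ∧ EqOn χ χ₂ D₂ := by
  classical
  have e1 : EqOn (D₁.piecewise χ₁ χ₂) χ₁ D₁ := fun u hu => piecewise_eq_of_mem _ _ _ hu
  have e2 : EqOn (D₁.piecewise χ₁ χ₂) χ₂ D₂ := by
    intro u hu
    by_cases h : u ∈ D₁
    · rw [e1 h]; exact he ⟨h, hu⟩
    · exact piecewise_eq_of_notMem _ _ _ h
  refine ⟨D₁.piecewise χ₁ χ₂, ⟨?_, ?_⟩, e1, e2⟩
  · exact (h1.1.congr e1).union_of_isClosed (h2.1.congr e2) c1 c2
  · rintro u (hu | hu)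
    · rw [e1 hu]; exact h1.2 u hu
    · rw [e2 hu]; exact h2.2 u hu

theorem isCompact_segment (a b : ℂ) : IsCompact (segment ℝ a b) := by
  rw [segment_eq_image_lineMap]
  exact isCompact_Icc.image AffineMap.lineMap_continuous

theorem IsSec.seg {χ : ℂ → E} {D : Set ℂ} (h : IsSec dev χ D) {u w : ℂ}
    (hD : segment ℝ u w ⊆ D) : Seg dev (χ u) (χ w) := by
  have hu := h.2 u (hD (left_mem_segment _ _ _))
  have hw := h.2 w (hD (right_mem_segment _ _ _))
  exact ⟨χ, by rw [hu, hw]; exact h.mono hD, by rw [hu], by rw [hw]⟩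

theorem Seg.refl (q : E) : Seg dev q q :=
  ⟨fun _ => q, ⟨continuousOn_const, fun u hu => by
    rw [segment_same] at hu; exact hu.symm⟩, rfl, rfl⟩

theorem Seg.symm {q q' : E} (h : Seg dev q q') : Seg dev q' q := by
  obtain ⟨χ, h1, h2, h3⟩ := h
  exact ⟨χ, by rw [segment_symm]; exact h1, h3, h2⟩

theorem Seg.unique (h : Etale dev) {q q₁ q₂ : E} (h1 : Seg dev q q₁) (h2 : Seg dev q q₂)
    (he : dev q₁ = dev q₂) : q₁ = q₂ := by
  obtain ⟨χ, a1, a2, a3⟩ := h1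
  obtain ⟨χ', b1, b2, b3⟩ := h2
  rw [← he] at b1 b3
  rw [← a3, ← b3]
  exact h.sec_unique a1 b1 (convex_segment _ _).isPreconnected (left_mem_segment _ _ _)
    (by rw [a2, b2]) (right_mem_segment _ _ _)

theorem Seg.eq_of_dev (h : Etale dev) {q q' : E} (h1 : Seg dev q q') (he : dev q = dev q') :
    q = q' := (Seg.refl q).unique h h1 he

theorem Seg.split {q q' : E} (h : Seg dev q q') {u : ℂ} (hu : u ∈ segment ℝ (dev q) (dev q')) :
    ∃ m, dev m = u ∧ Seg dev q m ∧ Seg dev m q' := by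
  obtain ⟨χ, a1, a2, a3⟩ := h
  refine ⟨χ u, a1.2 u hu, ?_, ?_⟩
  · have := a1.seg ((convex_segment _ _).segment_subset (left_mem_segment ℝ _ _) hu)
    rwa [a2] at this
  · have := a1.seg ((convex_segment _ _).segment_subset hu (right_mem_segment ℝ _ _))
    rwa [a3] at this

theorem segment_subset_union {a b m : ℂ} (hm : m ∈ segment ℝ a b) :
    segment ℝ a b ⊆ segment ℝ a m ∪ segment ℝ m b := by
  rw [segment_eq_image_lineMap] at hm
  obtain ⟨t, ht, rfl⟩ := hm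
  intro u hu
  rw [segment_eq_image_lineMap] at hu
  obtain ⟨s, hs, rfl⟩ := hu
  have e0 : a = AffineMap.lineMap a b (0 : ℝ) := by simp
  have e1 : b = AffineMap.lineMap a b (1 : ℝ) := by simp
  rcases le_total s t with h | h
  · left
    have := image_segment ℝ (AffineMap.lineMap a b : ℝ →ᵃ[ℝ] ℂ) 0 t
    rw [← e0] at this
    rw [← this]
    exact ⟨s, by rw [segment_eq_Icc ht.1]; exact ⟨hs.1, h⟩, rfl⟩
  · right
    have := image_segment ℝ (AffineMap.lineMap a b : ℝ →ᵃ[ℝ] ℂ) t 1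
    rw [← e1] at this
    rw [← this]
    exact ⟨s, by rw [segment_eq_Icc ht.2]; exact ⟨h, hs.2⟩, rfl⟩

theorem Seg.trans (h : Etale dev) {q m q' : E} (h1 : Seg dev q m) (h2 : Seg dev m q')
    (hm : dev m ∈ segment ℝ (dev q) (dev q')) : Seg dev q q' := by
  obtain ⟨χ, a1, a2, a3⟩ := h1
  obtain ⟨χ', b1, b2, b3⟩ := h2
  obtain ⟨c, c1, c2, c3⟩ := a1.glue b1 (isCompact_segment _ _).isClosed
    (isCompact_segment _ _).isClosed
    (h.sec_unique (a1.mono inter_subset_left) (b1.mono inter_subset_right)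
      ((convex_segment _ _).inter (convex_segment _ _)).isPreconnected
      ⟨right_mem_segment _ _ _, left_mem_segment _ _ _⟩ (by rw [a3, b2]))
  exact ⟨c, c1.mono (segment_subset_union hm), by rw [c2 (left_mem_segment _ _ _), a2],
    by rw [c3 (right_mem_segment _ _ _), b3]⟩

theorem Seg.exists_tube (h : Etale dev) {q q' : E} (h1 : Seg dev q q') :
    ∃ ε > 0, ∃ χ, IsSec dev χ (thickening ε (segment ℝ (dev q) (dev q'))) ∧
      χ (dev q) = q ∧ χ (dev q') = q' := by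
  obtain ⟨χ, a1, a2, a3⟩ := h1
  obtain ⟨ε, hε, c, c1, c2⟩ := h.exists_tube a1 (convex_segment _ _) (isCompact_segment _ _)
  exact ⟨ε, hε, c, c1, by rw [c2 (left_mem_segment _ _ _), a2],
    by rw [c2 (right_mem_segment _ _ _), a3]⟩

theorem Seg.eventually (h : Etale dev) {q q' : E} (h1 : Seg dev q q') :
    ∀ᶠ p : E × E in 𝓝 (q, q'), Seg dev p.1 p.2 := by
  obtain ⟨ε, hε, χ, a1, a2, a3⟩ := h1.exists_tube h
  have hT : IsOpen (thickening ε (segment ℝ (dev q) (dev q'))) := isOpen_thickening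
  have hsub := self_subset_thickening hε (segment ℝ (dev q) (dev q'))
  have e1 := a1.eventually_eq h (hT.mem_nhds (hsub (left_mem_segment ℝ _ _)))
  have e2 := a1.eventually_eq h (hT.mem_nhds (hsub (right_mem_segment ℝ _ _)))
  rw [a2] at e1
  rw [a3] at e2
  rw [nhds_prod_eq]
  filter_upwards [e1.prod_mk e2] with p hp
  have := a1.seg (((convex_segment _ _).thickening ε).segment_subset hp.1.1 hp.2.1)
  rwa [hp.1.2, hp.2.2] at this

/-- a limit of lifted initial segments -/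
theorem Seg.of_tendsto (h : Etale dev) {A : Type*} {l : Filter A} [l.NeBot] {q m : E}
    {g : A → E} (hg : Tendsto g l (𝓝 m))
    (hs : ∀ᶠ a in l, Seg dev q (g a) ∧ dev (g a) ∈ segment ℝ (dev q) (dev m)) : Seg dev q m := by
  have := (Seg.refl (dev := dev) m).eventually h
  have h2 : Tendsto (fun a => (g a, m)) l (𝓝 (m, m)) := hg.prodMk_nhds tendsto_const_nhds
  obtain ⟨a, a1, a2⟩ := ((h2.eventually this).and hs).exists
  exact a2.1.trans h a1 a2.2

theorem mem_segment_add (z v : ℂ) {s : ℝ} (hs : s ∈ Icc (0 : ℝ) 1) :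
    z + s * v ∈ segment ℝ z (z + v) := by
  rw [segment_eq_image']
  exact ⟨s, hs, by simp⟩

theorem mem_segment_add_iff {z v u : ℂ} :
    u ∈ segment ℝ z (z + v) ↔ ∃ s ∈ Icc (0 : ℝ) 1, u = z + s * v := by
  rw [segment_eq_image']
  constructor
  · rintro ⟨s, hs, rfl⟩; exact ⟨s, hs, by simp⟩
  · rintro ⟨s, hs, rfl⟩; exact ⟨s, hs, by simp⟩

theorem segment_line (z v : ℂ) (a b : ℝ) :
    segment ℝ (z + a * v) (z + b * v) = (fun s : ℝ => z + s * v) '' uIcc a b := by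
  have := image_segment ℝ (AffineMap.lineMap z (z + v) : ℝ →ᵃ[ℝ] ℂ) a b
  have e : ∀ s : ℝ, (AffineMap.lineMap z (z + v) : ℝ →ᵃ[ℝ] ℂ) s = z + s * v := by
    intro s; simp [AffineMap.lineMap_apply, add_comm]
  rw [e, e, segment_eq_uIcc] at this
  rw [← this]
  exact image_congr fun s _ => e s

theorem Alive.mono {q : E} {v : ℂ} (h : Alive dev q v) {s : ℝ} (hs : s ∈ Icc (0 : ℝ) 1) :
    Alive dev q (s * v) := by
  obtain ⟨q', h1, h2⟩ := h
  obtain ⟨m, m1, m2, -⟩ := h1.split (u := dev q + s * v) (by rw [h2]; exact mem_segment_add _ _ hs)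
  exact ⟨m, m2, m1⟩

theorem Alive.eventually (h : Etale dev) {q : E} {v : ℂ} (h1 : Alive dev q v) :
    ∀ᶠ p : E × ℂ in 𝓝 (q, v), Alive dev p.1 p.2 := by
  obtain ⟨q', a1, a2⟩ := h1
  obtain ⟨ε, hε, χ, hχ, hq⟩ := h.exists_chart q'
  have t1 : Tendsto (fun p : E × ℂ => dev p.1 + p.2) (𝓝 (q, v)) (𝓝 (dev q')) := by
    rw [a2]
    exact ((h.continuous.comp continuous_fst).add continuous_snd).continuousAt.tendsto
  have t2 : Tendsto (fun p : E × ℂ => (p.1, χ (dev p.1 + p.2))) (𝓝 (q, v)) (𝓝 (q, q')) := by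
    refine continuous_fst.continuousAt.tendsto.prodMk_nhds ?_
    have := (hχ.1.continuousAt (ball_mem_nhds _ hε)).tendsto
    rw [hq] at this
    exact this.comp t1
  filter_upwards [t2.eventually (a1.eventually h), t1 (ball_mem_nhds _ hε)] with p p1 p2
  exact ⟨_, p1, hχ.2 _ p2⟩

/-- a lifted path follows a section -/
theorem IsLine.follow (h : Etale dev) {σ : ℝ → E} {z v : ℂ} (hσ : IsLine dev σ z v)
    {χ : ℂ → E} {D : Set ℂ} (hχ : IsSec dev χ D) {a b : ℝ}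
    (hD : ∀ s ∈ uIcc a b, z + s * v ∈ D) (ha : σ a = χ (z + a * v)) : σ b = χ (z + b * v) := by
  have hc : ContinuousOn (fun s : ℝ => χ (z + s * v)) (uIcc a b) :=
    hχ.1.comp (by fun_prop) hD
  exact h.lift_unique isPreconnected_uIcc hσ.1.continuousOn hc
    (fun s hs => by rw [hσ.2, hχ.2 _ (hD s hs)]) left_mem_uIcc ha right_mem_uIcc

theorem IsLine.seg (h : Etale dev) {σ : ℝ → E} {z v : ℂ} (hσ : IsLine dev σ z v) (a b : ℝ) :
    Seg dev (σ a) (σ b) := by
  by_cases hv : v = 0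
  · have : σ b = σ a := by
      refine h.lift_unique (g₁ := σ) (g₂ := fun _ => σ a) isPreconnected_univ hσ.1.continuousOn
        continuousOn_const (fun s _ => by rw [hσ.2, hσ.2, hv]; simp) (mem_univ a) rfl (mem_univ b)
    rw [this]; exact Seg.refl _
  · have e : ∀ s : ℝ, ((z + s * v - z) / v).re = s := by
      intro s
      rw [add_sub_cancel_left, mul_div_cancel_right₀ _ hv]; simp
    refine ⟨fun u => σ ((u - z) / v).re, ⟨(hσ.1.comp (by fun_prop)).continuousOn, ?_⟩, ?_, ?_⟩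
    · rw [hσ.2, hσ.2, segment_line]
      rintro _ ⟨s, -, rfl⟩
      simp only [e, hσ.2]
    · simp only [hσ.2, e]
    · simp only [hσ.2, e]

theorem IsLine.shift {σ : ℝ → E} {z v : ℂ} (hσ : IsLine dev σ z v) (a : ℝ) :
    IsLine dev (fun s => σ (a + s)) (z + a * v) v :=
  ⟨hσ.1.comp (by fun_prop), fun s => by rw [hσ.2]; push_cast; ring⟩

theorem IsLine.scale {σ : ℝ → E} {z v : ℂ} (hσ : IsLine dev σ z v) (r : ℝ) :
    IsLine dev (fun s => σ (s * r)) z (r * v) :=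
  ⟨hσ.1.comp (by fun_prop), fun s => by rw [hσ.2]; push_cast; ring⟩

theorem Etale.exists_line (h : Etale dev) {q : E} {v : ℂ} (ha : ∀ s : ℝ, Alive dev q (s * v)) :
    ∃ σ, IsLine dev σ (dev q) v ∧ σ 0 = q := by
  choose σ h1 h2 using ha
  refine ⟨σ, ⟨?_, h2⟩, ((h1 0).eq_of_dev h (by rw [h2]; simp)).symm⟩
  rw [continuous_iff_continuousAt]
  intro s
  obtain ⟨ε, hε, χ, hχ, hq⟩ := h.exists_chart (σ s)
  have t1 : Tendsto (fun s' : ℝ => dev q + s' * v) (𝓝 s) (𝓝 (dev (σ s))) := by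
    rw [h2]; exact (by fun_prop : Continuous fun s' : ℝ => dev q + s' * v).continuousAt.tendsto
  have t2 : Tendsto (fun s' : ℝ => χ (dev q + s' * v)) (𝓝 s) (𝓝 (σ s)) := by
    have := (hχ.1.continuousAt (ball_mem_nhds _ hε)).tendsto
    rw [hq] at this
    exact this.comp t1
  have t3 : Tendsto (fun s' : ℝ => (q, χ (dev q + s' * v))) (𝓝 s) (𝓝 (q, σ s)) :=
    tendsto_const_nhds.prodMk_nhds t2
  refine t2.congr' ?_
  filter_upwards [t3.eventually ((h1 s).eventually h), t1 (ball_mem_nhds _ hε)] with s' p1 p2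
  exact Seg.unique h p1 (h1 s') (by rw [hχ.2 _ p2, h2])

end Pool.Agent.Lib.MP_c02c19_gt
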