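import Mathlib

/-!
TASK C. Pure lemmas (real line, combinatorics, topology).

`gap_lemma`: a gap of `N` is an interval `(a, b)` with `a, b ∈ N`, `Ioo a b ∩ N = ∅`. Only finitely
many gaps have `Icc a b` meeting `Δ` (each point lies in at most two closed gaps); let `η₀ ≤ w` be
below all their lengths. A gap of length `ℓ < η₀` with `a ∈ Icc (-w) w` is mapped by g1-g3 to a
gap `(a', a' + ℓ)` with `a' ∈ Icc (-w) w`, `ρ a a'`. Iterate; different gaps are disjoint and all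
lie in `[-w, 2w]`, so two left end points coincide: a cycle. If there is no gap shorter than
`η₀` with left end in `Icc (-w) w`, three points of the set in the conclusion cannot lie in an
interval of length `< η₀` (the middle one is not interior, so some point between the outer ones
is outside `N` and lies in a short gap), so that set is finite.

`piecewise_syndetic`: induction on the finite set of colours. If colour `c` fails for every gap
bound, given `M` take `L' = M + L`, get `M'` with: eventually every window of length `M'` inside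
`W n` contains `s` such that `[s, s + L']` has no visit of colour `c`; apply the hypothesis with
length `M' + L'`.

`exists_minimal_set`: Zorn (or `IsClosed.exists_minimal_nonempty_closed_subset` for the coarser
topology of invariant closed sets). For open `U` meeting `K₀`, `K₀ \ ⋃ i, T^[i] ⁻¹' U` is closed,
invariant and proper, so empty; compactness gives `L`. If no orbit avoids `S`, Baire in `K₀`
gives `i` such that `K₀ ∩ T^[i] ⁻¹' S` has nonempty relative interior.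

`baire_in_closure`: Baire in the complete space `closure D`.

`steinitz_reach`: with `N ≥ max |n i|`, `a m = ∑ i, ⌊m * n i / N⌋ • l i` is within `∑ ‖l i‖` of
`(m / N) • ∑ n i • l i`, and consecutive `a m` differ by `∑ ε i • l i`, `ε i ∈ {-1, 0, 1}`.
-/

namespace Pool.Agent.Lib.MP_c02c19_gt

open Set Filter Topology

theorem pure_three {B : Set ℝ} {p q η : ℝ} (hB : B ⊆ Icc p q) (hinf : B.Infinite) (hη : 0 < η) :
    ∃ u₁ ∈ B, ∃ u₂ ∈ B, ∃ u₃ ∈ B, u₁ < u₂ ∧ u₂ < u₃ ∧ u₃ - u₁ < η := by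
  obtain ⟨x, -, hx⟩ := hinf.exists_accPt_of_subset_isCompact isCompact_Icc hB
  have h1 : (Metric.ball x (η / 2) ∩ B).Infinite :=
    Set.Infinite.of_accPt (hx.nhds_inter (Metric.ball_mem_nhds x (by linarith)))
  obtain ⟨t, ht, hc⟩ := h1.exists_subset_card_eq 3
  have hm : ∀ i, t.orderEmbOfFin hc i ∈ Metric.ball x (η / 2) ∩ B := fun i =>
    ht (t.orderEmbOfFin_mem hc i)
  have hs := (t.orderEmbOfFin hc).strictMono
  refine ⟨_, (hm 0).2, _, (hm 1).2, _, (hm 2).2, hs (by decide), hs (by decide), ?_⟩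
  have a := (hm 0).1
  have b := (hm 2).1
  rw [Metric.mem_ball, Real.dist_eq, abs_lt] at a b
  linarith [a.1, b.2]

theorem pure_gap_eta {N : Set ℝ} (hN : IsClosed N) (δ : ℝ) :
    ∃ η > 0, ∀ a b : ℝ, a ∈ N → b ∈ N → a < b → Disjoint (Ioo a b) N → δ ∈ Icc a b →
      η ≤ b - a := by
  by_cases hδ : δ ∈ N
  · have h1 : ∃ η > 0, ∀ b ∈ N, δ < b → η ≤ b - δ ∨ ¬ Disjoint (Ioo δ b) N := by
      by_cases h : ∃ b₀ ∈ N, δ < b₀ ∧ Disjoint (Ioo δ b₀) N
      · obtain ⟨b₀, -, h2, h3⟩ := h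
        refine ⟨b₀ - δ, by linarith, fun b hb hlt => Or.inl ?_⟩
        by_contra hc
        exact Set.disjoint_left.1 h3 ⟨hlt, by linarith⟩ hb
      · exact ⟨1, one_pos, fun b hb hlt => Or.inr fun hd => h ⟨b, hb, hlt, hd⟩⟩
    have h2 : ∃ η > 0, ∀ a ∈ N, a < δ → η ≤ δ - a ∨ ¬ Disjoint (Ioo a δ) N := by
      by_cases h : ∃ a₀ ∈ N, a₀ < δ ∧ Disjoint (Ioo a₀ δ) N
      · obtain ⟨a₀, -, h2, h3⟩ := h
        refine ⟨δ - a₀, by linarith, fun a ha hlt => Or.inl ?_⟩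
        by_contra hc
        exact Set.disjoint_left.1 h3 ⟨by linarith, hlt⟩ ha
      · exact ⟨1, one_pos, fun a ha hlt => Or.inr fun hd => h ⟨a, ha, hlt, hd⟩⟩
    obtain ⟨η₁, hη₁, h1⟩ := h1
    obtain ⟨η₂, hη₂, h2⟩ := h2
    refine ⟨min η₁ η₂, lt_min hη₁ hη₂, fun a b ha hb hab hd hm => ?_⟩
    rcases hm.1.eq_or_lt with h | h
    · subst h
      exact (min_le_left _ _).trans ((h1 b hb hab).resolve_right (not_not.2 hd))
    rcases hm.2.eq_or_lt with h' | h'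
    · subst h'
      exact (min_le_right _ _).trans ((h2 a ha hab).resolve_right (not_not.2 hd))
    exact absurd hδ (Set.disjoint_left.1 hd ⟨h, h'⟩)
  · obtain ⟨ε, hε, hb⟩ := Metric.isOpen_iff.1 hN.isOpen_compl δ hδ
    refine ⟨ε, hε, fun a b _ hbN _ _ hm => ?_⟩
    by_contra hc
    refine hb (a := b) ?_ hbN
    rw [Metric.mem_ball, Real.dist_eq, abs_lt]
    constructor <;> linarith [hm.1, hm.2]

theorem pure_gap_eta_finite {N : Set ℝ} (hN : IsClosed N) {Δ : Set ℝ} (hΔ : Δ.Finite) :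
    ∃ η > 0, ∀ a b : ℝ, a ∈ N → b ∈ N → a < b → Disjoint (Ioo a b) N → b - a < η →
      Disjoint (Icc a b) Δ := by
  induction Δ, hΔ using Set.Finite.induction_on with
  | empty => exact ⟨1, one_pos, fun _ _ _ _ _ _ _ => by simp⟩
  | @insert δ Δ _ _ ih =>
    obtain ⟨η₁, hη₁, h1⟩ := ih
    obtain ⟨η₂, hη₂, h2⟩ := pure_gap_eta hN δ
    refine ⟨min η₁ η₂, lt_min hη₁ hη₂, fun a b ha hb hab hd hl => ?_⟩
    rw [Set.disjoint_insert_right]
    refine ⟨fun hm => ?_, h1 a b ha hb hab hd (hl.trans_le (min_le_left _ _))⟩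
    exact absurd (h2 a b ha hb hab hd hm) (not_le.2 (hl.trans_le (min_le_right _ _)))

theorem pure_cycle {α : Type*} {G : Set α} (hG : G.Finite) (hne : G.Nonempty) (ρ : α → α → Prop)
    (h : ∀ a ∈ G, ∃ a' ∈ G, ρ a a') : ∃ c ∈ G, Relation.TransGen ρ c c := by
  have := hG.to_subtype
  have h' : ∀ a : G, ∃ a' : G, ρ a a' := fun a => by
    obtain ⟨a', h1, h2⟩ := h a a.2
    exact ⟨⟨a', h1⟩, h2⟩
  choose f hf using h'
  obtain ⟨a₀, ha₀⟩ := hne
  have key : ∀ (k : ℕ) (a : G), Relation.TransGen ρ (a : α) (f^[k + 1] a : G) := by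
    intro k
    induction k with
    | zero => exact fun a => Relation.TransGen.single (hf a)
    | succ k ih =>
      intro a
      rw [Function.iterate_succ_apply' f (k + 1)]
      exact (ih a).tail (hf _)
  have main : ∀ i j : ℕ, i < j → f^[i] ⟨a₀, ha₀⟩ = f^[j] ⟨a₀, ha₀⟩ →
      ∃ c ∈ G, Relation.TransGen ρ c c := by
    intro i j hij he
    obtain ⟨k, rfl⟩ := Nat.exists_eq_add_of_lt hij
    refine ⟨(f^[i] ⟨a₀, ha₀⟩ : G), Subtype.prop _, ?_⟩
    have := key k (f^[i] ⟨a₀, ha₀⟩)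
    rw [← Function.iterate_add_apply, show k + 1 + i = i + k + 1 by ring, ← he] at this
    exact this
  obtain ⟨i, j, hij, he⟩ := Finite.exists_ne_map_eq_of_infinite fun n : ℕ => f^[n] ⟨a₀, ha₀⟩
  rcases lt_or_gt_of_ne hij with h1 | h1
  · exact main i j h1 he
  · exact main j i h1 he.symm

theorem gap_lemma {N : Set ℝ} (hN : IsClosed N) {Δ : Set ℝ} (hΔ : Δ.Finite) {w : ℝ} (hw : 0 < w)
    (ρ : ℝ → ℝ → Prop)
    (g1 : ∀ a ∈ N, a ∈ Icc (-w) w → a ∉ Δ → ∃ a' ∈ Icc (-w) w, ρ a a')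
    (g2 : ∀ a a' b : ℝ, ρ a a' → a ∈ Icc (-w) w → a' ∈ Icc (-w) w → b - a < w →
      Disjoint (Icc a b) Δ → ∀ u ∈ Icc a b, ρ u (u + (a' - a)))
    (g3 : ∀ u u' : ℝ, ρ u u' → |u| < 2 * w → |u'| < 2 * w → (u ∈ N ↔ u' ∈ N)) :
    (∃ c ∈ N, c ∈ Icc (-w) w ∧ Relation.TransGen ρ c c) ∨
      {u | u ∈ N ∧ u ∈ Ioo (-w) w ∧ u ∉ interior N}.Finite := by
  obtain ⟨η₁, hη₁, h1⟩ := pure_gap_eta_finite hN hΔ
  by_cases hgap : ∃ a b : ℝ, a ∈ N ∧ b ∈ N ∧ a < b ∧ Disjoint (Ioo a b) N ∧ b - a < min η₁ w ∧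
      a ∈ Icc (-w) w
  · left
    obtain ⟨a₀, b₀, ha₀, hb₀, hab₀, hd₀, hl₀, hm₀⟩ := hgap
    obtain ⟨l, rfl⟩ : ∃ l, b₀ = a₀ + l := ⟨b₀ - a₀, by ring⟩
    have hl : 0 < l := by linarith
    have hl1 : l < η₁ := by have := min_le_left η₁ w; linarith
    have hl2 : l < w := by have := min_le_right η₁ w; linarith
    set G : Set ℝ := {a | a ∈ N ∧ a + l ∈ N ∧ Disjoint (Ioo a (a + l)) N ∧ a ∈ Icc (-w) w} with hG
    have hfin : G.Finite := by
      by_contra hinf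
      obtain ⟨u₁, hu₁, u₂, hu₂, u₃, -, h12, h23, h13⟩ :=
        pure_three (B := G) (fun a ha => ha.2.2.2) hinf hl
      exact Set.disjoint_left.1 hu₁.2.2.1 ⟨h12, by linarith⟩ hu₂.1
    obtain ⟨c, hc, hcc⟩ := pure_cycle hfin ⟨a₀, ha₀, hb₀, hd₀, hm₀⟩ ρ (by
      rintro a ⟨ha, hb, hd, hm⟩
      have hdis := h1 a (a + l) ha hb (by linarith) hd (by linarith)
      obtain ⟨a', hm', hρ⟩ := g1 a ha hm
        (Set.disjoint_left.1 hdis ⟨le_rfl, by linarith⟩)
      have h2 := g2 a a' (a + l) hρ hm hm' (by linarith) hdis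
      have h3 : ∀ u ∈ Icc a (a + l), (u ∈ N ↔ u + (a' - a) ∈ N) := fun u hu =>
        g3 _ _ (h2 u hu)
          (abs_lt.2 ⟨by linarith [hu.1, hm.1], by linarith [hu.2, hm.2]⟩)
          (abs_lt.2 ⟨by linarith [hu.1, hm'.1], by linarith [hu.2, hm'.2]⟩)
      refine ⟨a', ⟨?_, ?_, ?_, hm'⟩, hρ⟩
      · have := (h3 a ⟨le_rfl, by linarith⟩).1 ha
        rwa [show a + (a' - a) = a' by ring] at this
      · have := (h3 (a + l) ⟨by linarith, le_rfl⟩).1 hb
        rwa [show a + l + (a' - a) = a' + l by ring] at this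
      · refine Set.disjoint_left.2 fun u hu huN => ?_
        have := (h3 (u - (a' - a)) ⟨by linarith [hu.1], by linarith [hu.2]⟩).2
          (by rwa [sub_add_cancel])
        exact Set.disjoint_left.1 hd ⟨by linarith [hu.1], by linarith [hu.2]⟩ this)
    exact ⟨c, hc.1, hc.2.2.2, hcc⟩
  · right
    by_contra hinf
    obtain ⟨u₁, hu₁, u₂, hu₂, u₃, hu₃, h12, h23, h13⟩ :=
      pure_three (p := -w) (q := w) (fun a ha => Ioo_subset_Icc_self ha.2.1) hinf
        (lt_min hη₁ hw)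
    have hx : ∃ x ∈ Ioo u₁ u₃, x ∉ N := by
      by_contra hc
      push Not at hc
      exact hu₂.2.2 (interior_maximal hc isOpen_Ioo ⟨h12, h23⟩)
    obtain ⟨x, hx, hxN⟩ := hx
    obtain ⟨a, ha, hamax⟩ := (isCompact_Icc.inter_left hN :
      IsCompact (N ∩ Icc u₁ x)).exists_isGreatest ⟨u₁, hu₁.1, le_rfl, hx.1.le⟩
    obtain ⟨b, hb, hbmin⟩ := (isCompact_Icc.inter_left hN :
      IsCompact (N ∩ Icc x u₃)).exists_isLeast ⟨u₃, hu₃.1, hx.2.le, le_rfl⟩
    have hax : a < x := lt_of_le_of_ne ha.2.2 fun h => hxN (h ▸ ha.1)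
    have hbx : x < b := lt_of_le_of_ne hb.2.1 fun h => hxN (h ▸ hb.1)
    refine hgap ⟨a, b, ha.1, hb.1, hax.trans hbx, ?_, by linarith [ha.2.1, hb.2.2],
      by linarith [ha.2.1, hu₁.2.1.1], by linarith [hx.2, hu₃.2.1.2]⟩
    refine Set.disjoint_left.2 fun u hu huN => ?_
    rcases le_total u x with h | h
    · exact absurd (hamax ⟨huN, by linarith [hu.1, ha.2.1], h⟩) (not_le.2 hu.1)
    · exact absurd (hbmin ⟨huN, h, by linarith [hu.2, hb.2.2]⟩) (not_le.2 hu.2)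

theorem piecewise_syndetic {κ : Type*} (C : Finset κ) (Vis : ℕ → κ → ℝ → Prop) (W : ℕ → Set ℝ)
    {L : ℝ} (hL : 0 ≤ L)
    (h : ∀ M : ℝ, ∃ᶠ n in atTop, ∃ a : ℝ, Icc a (a + M) ⊆ W n ∧
      ∀ s ∈ Icc a (a + M), ∃ s' ∈ Icc s (s + L), ∃ c ∈ C, Vis n c s') :
    ∃ c ∈ C, ∃ L' : ℝ, 0 ≤ L' ∧ ∀ M : ℝ, ∃ᶠ n in atTop, ∃ a : ℝ, Icc a (a + M) ⊆ W n ∧
      ∀ s ∈ Icc a (a + M), ∃ s' ∈ Icc s (s + L'), Vis n c s' := by
  classical
  induction C using Finset.induction_on with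
  | empty =>
    obtain ⟨n, a, -, ha⟩ := (h 0).exists
    obtain ⟨s', -, c, hc, -⟩ := ha a ⟨le_rfl, by linarith⟩
    simp at hc
  | insert c C _ ih =>
    by_cases hc : ∃ L' : ℝ, 0 ≤ L' ∧ ∀ M : ℝ, ∃ᶠ n in atTop, ∃ a : ℝ, Icc a (a + M) ⊆ W n ∧
        ∀ s ∈ Icc a (a + M), ∃ s' ∈ Icc s (s + L'), Vis n c s'
    · exact ⟨c, Finset.mem_insert_self _ _, hc⟩
    · obtain ⟨c', hc', hrest⟩ := ih (fun M => by
        have hM : M ≤ max M 0 := le_max_left _ _
        have hM0 : 0 ≤ max M 0 := le_max_right _ _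
        have h1 : ¬ ∀ M' : ℝ, ∃ᶠ n in atTop, ∃ a : ℝ, Icc a (a + M') ⊆ W n ∧
            ∀ s ∈ Icc a (a + M'), ∃ s' ∈ Icc s (s + (max M 0 + L)), Vis n c s' :=
          fun h1 => hc ⟨max M 0 + L, by linarith, h1⟩
        obtain ⟨M', hM'⟩ := not_forall.1 h1
        rw [Filter.not_frequently] at hM'
        refine ((h (M' + (max M 0 + L))).and_eventually hM').mono ?_
        rintro n ⟨⟨a, ha1, ha2⟩, hn⟩
        have h2 : ∃ s ∈ Icc a (a + M'), ∀ s' ∈ Icc s (s + (max M 0 + L)), ¬ Vis n c s' := by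
          by_contra h2
          push Not at h2
          exact hn ⟨a, (Icc_subset_Icc_right (by linarith)).trans ha1, h2⟩
        obtain ⟨s, hs, hs'⟩ := h2
        have hsub : Icc s (s + M) ⊆ Icc a (a + (M' + (max M 0 + L))) :=
          Icc_subset_Icc hs.1 (by linarith [hs.2])
        refine ⟨s, hsub.trans ha1, fun t ht => ?_⟩
        obtain ⟨s', hs1, c', hc', hv⟩ := ha2 t (hsub ht)
        refine ⟨s', hs1, c', ?_, hv⟩
        rcases Finset.mem_insert.1 hc' with rfl | hc'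
        · exact absurd hv (hs' s' ⟨by linarith [ht.1, hs1.1], by linarith [ht.2, hs1.2]⟩)
        · exact hc')
      exact ⟨c', Finset.mem_insert_of_mem hc', hrest⟩

theorem exists_minimal_set {X : Type*} [TopologicalSpace X] [T2Space X] {T : X → X}
    (hT : Continuous T) {K : Set X} (hK : IsCompact K) (hne : K.Nonempty) (hinv : MapsTo T K K)
    {S : Set X} (hS : IsClosed S) :
    ∃ K₀ ⊆ K, K₀.Nonempty ∧ MapsTo T K₀ K₀ ∧
      (∀ U : Set X, IsOpen U → (U ∩ K₀).Nonempty →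
        ∃ L : ℕ, ∀ k ∈ K₀, ∃ i ≤ L, T^[i] k ∈ U) ∧
      ((∃ L : ℕ, ∀ k ∈ K₀, ∃ i ≤ L, T^[i] k ∈ S) ∨ ∃ k ∈ K₀, ∀ i, T^[i] k ∉ S) := by
  obtain ⟨K₀, -, hmin⟩ := zorn_superset_nonempty
    {A : Set X | A ⊆ K ∧ IsClosed A ∧ A.Nonempty ∧ MapsTo T A A} (fun c hc hch hcne => by
      refine ⟨⋂₀ c, ⟨?_, ?_, ?_, ?_⟩, fun s hs => sInter_subset_of_mem hs⟩
      · obtain ⟨s, hs⟩ := hcne
        exact (sInter_subset_of_mem hs).trans (hc hs).1
      · exact isClosed_sInter fun s hs => (hc hs).2.1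
      · have := hcne.to_subtype
        exact IsCompact.nonempty_sInter_of_directed_nonempty_isCompact_isClosed
          (fun a ha b hb => (hch.total ha hb).elim (fun h => ⟨a, ha, subset_rfl, h⟩)
            fun h => ⟨b, hb, h, subset_rfl⟩) (fun s hs => (hc hs).2.2.1)
          (fun s hs => hK.of_isClosed_subset (hc hs).2.1 (hc hs).1) (fun s hs => (hc hs).2.1)
      · exact fun x hx s hs => (hc hs).2.2.2 (hx s hs)) K
    ⟨subset_rfl, hK.isClosed, hne, hinv⟩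
  obtain ⟨h1, h2, h3, h4⟩ := hmin.prop
  have hK₀ : IsCompact K₀ := hK.of_isClosed_subset h2 h1
  have hU : ∀ U : Set X, IsOpen U → (U ∩ K₀).Nonempty →
      ∃ L : ℕ, ∀ k ∈ K₀, ∃ i ≤ L, T^[i] k ∈ U := by
    intro U hU hUne
    have ho : ∀ i : ℕ, IsOpen (T^[i] ⁻¹' U) := fun i => hU.preimage (hT.iterate i)
    have hcov : K₀ ⊆ ⋃ i : ℕ, T^[i] ⁻¹' U := by
      by_contra hc
      have hne' : (K₀ \ ⋃ i : ℕ, T^[i] ⁻¹' U).Nonempty := sdiff_nonempty.2 hc
      have := hmin.le_of_le (y := K₀ \ ⋃ i : ℕ, T^[i] ⁻¹' U)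
        ⟨sdiff_subset.trans h1, h2.sdiff (isOpen_iUnion ho), hne', by
          rintro x ⟨hx, hx'⟩
          refine ⟨h4 hx, fun hx2 => hx' ?_⟩
          obtain ⟨i, hi⟩ := mem_iUnion.1 hx2
          exact mem_iUnion.2 ⟨i + 1, hi⟩⟩ sdiff_subset
      obtain ⟨x, hxU, hxK⟩ := hUne
      exact (this hxK).2 (mem_iUnion.2 ⟨0, hxU⟩)
    obtain ⟨t, ht⟩ := hK₀.elim_finite_subcover _ ho hcov
    refine ⟨t.sup id, fun k hk => ?_⟩
    obtain ⟨i, hi, hk'⟩ := mem_iUnion₂.1 (ht hk)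
    exact ⟨i, Finset.le_sup (f := id) hi, hk'⟩
  refine ⟨K₀, h1, h3, h4, hU, ?_⟩
  by_cases hall : ∃ k ∈ K₀, ∀ i, T^[i] k ∉ S
  · exact Or.inr hall
  left
  push Not at hall
  have := isCompact_iff_compactSpace.1 hK₀
  have := h3.to_subtype
  obtain ⟨i, x, hx⟩ := nonempty_interior_of_iUnion_of_closed
    (f := fun i : ℕ => (Subtype.val ⁻¹' (T^[i] ⁻¹' S) : Set K₀))
    (fun i => (hS.preimage (hT.iterate i)).preimage continuous_subtype_val) (by
      refine eq_univ_of_forall fun x => ?_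
      obtain ⟨i, hi⟩ := hall x x.2
      exact mem_iUnion.2 ⟨i, hi⟩)
  obtain ⟨V, hV1, hV2, hV3⟩ := mem_interior.1 hx
  obtain ⟨U, hU1, rfl⟩ := isOpen_induced_iff.1 hV2
  obtain ⟨L, hL⟩ := hU U hU1 ⟨x, hV3, x.2⟩
  refine ⟨i + L, fun k hk => ?_⟩
  obtain ⟨j, hj, hjk⟩ := hL k hk
  refine ⟨i + j, by omega, ?_⟩
  rw [Function.iterate_add_apply]
  exact hV1 (a := ⟨T^[j] k, h4.iterate j hk⟩) hjk

theorem baire_in_closure {X : Type*} [MetricSpace X] [CompleteSpace X] {ι : Type*} [Countable ι]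
    {D Ω : Set X} (hΩ : IsOpen Ω) (hD : (D ∩ Ω).Nonempty) (U : ι → Set X)
    (hU : ∀ i, IsOpen (U i))
    (hd : ∀ i, ∀ d ∈ D, ∀ N ∈ 𝓝 d, (D ∩ N ∩ U i).Nonempty) :
    ∃ x ∈ Ω, ∀ i, x ∈ U i := by
  have : CompleteSpace (closure D) := isClosed_closure.completeSpace_coe
  have hdense : Dense (⋂ i, (Subtype.val ⁻¹' U i : Set (closure D))) := by
    refine dense_iInter_of_isOpen (fun i => (hU i).preimage continuous_subtype_val) fun i => ?_
    rw [dense_iff_inter_open]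
    rintro V hV ⟨x, hx⟩
    obtain ⟨N, hN, rfl⟩ := isOpen_induced_iff.1 hV
    obtain ⟨d, hdN, hdD⟩ := mem_closure_iff.1 x.2 N hN hx
    obtain ⟨y, ⟨hy1, hy2⟩, hy3⟩ := hd i d hdD N (hN.mem_nhds hdN)
    exact ⟨⟨y, subset_closure hy1⟩, hy2, hy3⟩
  obtain ⟨d, hd1, hd2⟩ := hD
  obtain ⟨x, hx1, hx2⟩ := hdense.inter_open_nonempty (Subtype.val ⁻¹' Ω)
    (hΩ.preimage continuous_subtype_val) ⟨⟨d, subset_closure hd1⟩, hd2⟩
  exact ⟨x, hx1, fun i => mem_iInter.1 hx2 i⟩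

theorem steinitz_reach {ι : Type*} [Fintype ι] (l : ι → ℂ) (R : ℝ) (A : Set ℂ) (h0 : 0 ∈ A)
    (hstep : ∀ a ∈ A, ‖a‖ ≤ R + 2 * ∑ i, ‖l i‖ → ∀ i, a + l i ∈ A ∧ a - l i ∈ A)
    (n : ι → ℤ) (hn : ‖∑ i, n i • l i‖ ≤ R) : ∑ i, n i • l i ∈ A := by
  classical
  have step : ∀ (ε : ι → ℤ), (∀ i, -1 ≤ ε i ∧ ε i ≤ 1) → ∀ a ∈ A, ‖a‖ ≤ R + ∑ i, ‖l i‖ →
      ∀ s : Finset ι, a + ∑ i ∈ s, ε i • l i ∈ A := by
    intro ε hε a ha hna s
    induction s using Finset.induction_on with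
    | empty => simpa using ha
    | insert j s hj ih =>
      have h1 : ‖∑ i ∈ s, ε i • l i‖ ≤ ∑ i, ‖l i‖ := by
        refine (norm_sum_le _ _).trans ((Finset.sum_le_sum fun i _ => ?_).trans
          (Finset.sum_le_univ_sum_of_nonneg fun i => norm_nonneg (l i)))
        have : ε i = -1 ∨ ε i = 0 ∨ ε i = 1 := by have := hε i; omega
        rcases this with h | h | h <;> simp [h]
      have h2 := hstep _ ih ((norm_add_le _ _).trans (by linarith)) j
      rw [Finset.sum_insert hj, add_comm (ε j • l j), ← add_assoc]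
      have : ε j = -1 ∨ ε j = 0 ∨ ε j = 1 := by have := hε j; omega
      rcases this with h | h | h
      · rw [h, neg_one_zsmul, ← sub_eq_add_neg]; exact h2.2
      · rw [h, zero_zsmul, add_zero]; exact ih
      · rw [h, one_zsmul]; exact h2.1
  obtain ⟨N, hN0, hN⟩ : ∃ N : ℕ, 0 < N ∧ ∀ i, |(n i : ℝ)| ≤ N := by
    obtain ⟨N, hN⟩ := exists_nat_ge (∑ i, |(n i : ℝ)|)
    refine ⟨N + 1, by omega, fun i => ?_⟩
    have := Finset.single_le_sum (f := fun i => |(n i : ℝ)|) (fun i _ => abs_nonneg _)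
      (Finset.mem_univ i)
    push_cast
    linarith
  have hNR : (0 : ℝ) < N := by exact_mod_cast hN0
  have ht : ∀ i, -1 ≤ (n i : ℝ) / N ∧ (n i : ℝ) / N ≤ 1 := fun i => by
    have := abs_le.1 (hN i)
    rw [le_div_iff₀ hNR, div_le_iff₀ hNR]
    constructor <;> linarith [this.1, this.2]
  have main : ∀ m : ℕ, m ≤ N → ∑ i, ⌊(m : ℝ) * ((n i : ℝ) / N)⌋ • l i ∈ A := by
    intro m
    induction m with
    | zero => intro _; simpa using h0
    | succ m ih =>
      intro hm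
      have hmN : (m : ℝ) ≤ N := by exact_mod_cast (by omega : m ≤ N)
      have h1 : ‖∑ i, ⌊(m : ℝ) * ((n i : ℝ) / N)⌋ • l i‖ ≤ R + ∑ i, ‖l i‖ := by
        have e : ∑ i, ⌊(m : ℝ) * ((n i : ℝ) / N)⌋ • l i =
            ((m : ℝ) / N) • (∑ i, n i • l i) -
              ∑ i, (Int.fract ((m : ℝ) * ((n i : ℝ) / N))) • l i := by
          rw [Finset.smul_sum, ← Finset.sum_sub_distrib]
          refine Finset.sum_congr rfl fun i _ => ?_
          rw [← Int.cast_smul_eq_zsmul ℝ, ← Int.cast_smul_eq_zsmul ℝ (n i), smul_smul, ← sub_smul,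
            Int.fract]
          congr 1
          ring
        rw [e]
        refine (norm_sub_le _ _).trans (add_le_add ?_ ?_)
        · rw [norm_smul, Real.norm_of_nonneg (by positivity)]
          have h2 : (m : ℝ) / N ≤ 1 := by rwa [div_le_one hNR]
          calc (m : ℝ) / N * ‖∑ i, n i • l i‖ ≤ 1 * ‖∑ i, n i • l i‖ := by gcongr
            _ ≤ R := by rwa [one_mul]
        · refine (norm_sum_le _ _).trans (Finset.sum_le_sum fun i _ => ?_)
          rw [norm_smul, Real.norm_of_nonneg (Int.fract_nonneg _)]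
          exact mul_le_of_le_one_left (norm_nonneg _) (Int.fract_lt_one _).le
      have h2 := step (fun i => ⌊((m + 1 : ℕ) : ℝ) * ((n i : ℝ) / N)⌋ -
        ⌊(m : ℝ) * ((n i : ℝ) / N)⌋) (fun i => by
          have a1 : ⌊((m + 1 : ℕ) : ℝ) * ((n i : ℝ) / N)⌋ ≤ ⌊(m : ℝ) * ((n i : ℝ) / N) + 1⌋ :=
            Int.floor_le_floor (by push_cast; linarith [(ht i).2])
          have a2 : ⌊(m : ℝ) * ((n i : ℝ) / N) - 1⌋ ≤ ⌊((m + 1 : ℕ) : ℝ) * ((n i : ℝ) / N)⌋ :=
            Int.floor_le_floor (by push_cast; linarith [(ht i).1])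
          rw [Int.floor_add_one] at a1
          rw [Int.floor_sub_one] at a2
          constructor <;> omega) _ (ih (by omega)) h1 Finset.univ
      rw [← Finset.sum_add_distrib] at h2
      simpa only [← add_smul, add_sub_cancel] using h2
  have := main N le_rfl
  have e : ∀ i, ⌊(N : ℝ) * ((n i : ℝ) / N)⌋ = n i := fun i => by
    rw [mul_div_cancel₀ _ hNR.ne', Int.floor_intCast]
  simpa only [e] using this

/-- a nonempty open set is not covered by countably many lines -/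
theorem exists_avoid_lines {ι : Type*} [Countable ι] (z v : ι → ℂ) {U : Set ℂ} (hU : IsOpen U)
    (hne : U.Nonempty) : ∃ m ∈ U, ∀ i, ∀ s : ℝ, m ≠ z i + s * v i := by
  have h1 : ∀ i, MeasureTheory.volume
      (AffineSubspace.mk' (z i) (Submodule.span ℝ {v i}) : Set ℂ) = 0 := fun i => by
    refine MeasureTheory.Measure.addHaar_affineSubspace _ _ fun h => ?_
    have h2 := congrArg AffineSubspace.direction h
    rw [AffineSubspace.direction_mk', AffineSubspace.direction_top] at h2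
    have h3 := finrank_span_le_card (R := ℝ) ({v i} : Set ℂ)
    rw [h2, finrank_top, Complex.finrank_real_complex] at h3
    simp at h3
  by_contra hc
  push Not at hc
  have h2 : U ⊆ ⋃ i, (AffineSubspace.mk' (z i) (Submodule.span ℝ {v i}) : Set ℂ) := by
    intro m hm
    obtain ⟨i, s, hs⟩ := hc m hm
    refine mem_iUnion.2 ⟨i, ?_⟩
    rw [SetLike.mem_coe, AffineSubspace.mem_mk', Submodule.mem_span_singleton]
    exact ⟨s, by rw [hs]; simp⟩
  have h3 := MeasureTheory.measure_mono_null h2 (MeasureTheory.measure_iUnion_null h1)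
  exact (hU.measure_pos MeasureTheory.volume hne).ne' h3

theorem pure_segment_line {u m z : ℂ} (hz : z ∈ segment ℝ u m) (hne : z ≠ u) :
    ∃ s : ℝ, m = u + s * (z - u) := by
  rw [segment_eq_image'] at hz
  obtain ⟨t, -, rfl⟩ := hz
  have ht : t ≠ 0 := by
    rintro rfl
    simp at hne
  refine ⟨t⁻¹, ?_⟩
  have ht' : (t : ℂ) ≠ 0 := by exact_mod_cast ht
  simp only [Complex.real_smul, Complex.ofReal_inv]
  field_simp
  ring

/-- two points outside a countable set are joined inside a ball by two segments avoiding it -/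
theorem exists_two_segments {Z : Set ℂ} (hZ : Z.Countable) {c : ℂ} {r : ℝ} {u u' : ℂ}
    (hu : u ∈ Metric.ball c r) (hu' : u' ∈ Metric.ball c r) (huZ : u ∉ Z) (huZ' : u' ∉ Z) :
    ∃ m ∈ Metric.ball c r, Disjoint (segment ℝ u m) Z ∧ Disjoint (segment ℝ m u') Z := by
  have := hZ.to_subtype
  obtain ⟨m, hm, h⟩ := exists_avoid_lines (ι := Z ⊕ Z) (Sum.elim (fun _ => u) (fun _ => u'))
    (Sum.elim (fun z => z - u) (fun z => z - u')) Metric.isOpen_ball ⟨u, hu⟩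
  refine ⟨m, hm, Set.disjoint_left.2 fun z hz hzZ => ?_, Set.disjoint_left.2 fun z hz hzZ => ?_⟩
  · obtain ⟨s, hs⟩ := pure_segment_line hz fun h => huZ (h ▸ hzZ)
    exact h (Sum.inl ⟨z, hzZ⟩) s hs
  · rw [segment_symm] at hz
    obtain ⟨s, hs⟩ := pure_segment_line hz fun h => huZ' (h ▸ hzZ)
    exact h (Sum.inr ⟨z, hzZ⟩) s hs

/-- a unit vector not parallel to any of countably many nonzero vectors -/
theorem exists_generic_direction {Z : Set ℂ} (hZ : Z.Countable) :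
    ∃ θ : ℂ, ‖θ‖ = 1 ∧ ∀ v ∈ Z, ∀ s : ℝ, v = s * θ → v = 0 := by
  have := hZ.to_subtype
  obtain ⟨m, -, h⟩ := exists_avoid_lines (ι := Option Z) (fun _ => 0)
    (fun o => o.elim 0 fun z => z) isOpen_univ univ_nonempty
  have hm : m ≠ 0 := by simpa using h none 0
  have hn : (‖m‖ : ℂ) ≠ 0 := by exact_mod_cast norm_ne_zero_iff.2 hm
  refine ⟨m / ‖m‖, by simp [hm], fun v hv s hs => ?_⟩
  by_contra hv0
  have hs0 : (s : ℂ) ≠ 0 := by
    rintro h0
    exact hv0 (by rw [hs, h0, zero_mul])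
  refine h (some ⟨v, hv⟩) (‖m‖ / s) ?_
  simp only [Option.elim, zero_add, Complex.ofReal_div]
  rw [hs]
  field_simp

end Pool.Agent.Lib.MP_c02c19_gt
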