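import Pool.Agent.Lib.MP_c02c19_gt.Surf
import Pool.Agent.Lib.MP_c02c19_gt.Pure

/-!
The fibre product of a flat surface with itself along a homothety, and the resulting
discreteness criterion for the translation group.
-/

namespace Pool.Agent.Lib.MP_c02c19_gt

open Set Filter Topology Metric Complex

theorem isLocalHomeomorph_of_charts {E : Type*} [TopologicalSpace E] {dev : E → ℂ}
    (hc : Continuous dev) (h : ∀ q, ∃ ε > 0, ∃ χ, IsSec dev χ (ball (dev q) ε) ∧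
      ∀ᶠ q' in 𝓝 q, χ (dev q') = q') : IsLocalHomeomorph dev := by
  intro q
  obtain ⟨ε, hε, χ, h1, h2⟩ := h q
  let U : Set E := interior {q' | dev q' ∈ ball (dev q) ε ∧ χ (dev q') = q'}
  have hU : ∀ q' ∈ U, dev q' ∈ ball (dev q) ε ∧ χ (dev q') = q' := fun q' hq' =>
    interior_subset (s := {q' | dev q' ∈ ball (dev q) ε ∧ χ (dev q') = q'}) hq'
  refine ⟨{ toFun := dev, invFun := χ, source := U, target := ball (dev q) ε ∩ χ ⁻¹' U,
            map_source' := fun q' hq' => ⟨(hU q' hq').1, ?_⟩,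
            map_target' := fun u hu => hu.2,
            left_inv' := fun q' hq' => (hU q' hq').2,
            right_inv' := fun u hu => h1.2 u hu.1,
            open_source := isOpen_interior,
            open_target := h1.1.isOpen_inter_preimage isOpen_ball isOpen_interior,
            continuousOn_toFun := hc.continuousOn,
            continuousOn_invFun := h1.1.mono inter_subset_left }, ?_, rfl⟩
  · rw [mem_preimage, (hU q' hq').2]; exact hq'
  · exact mem_interior_iff_mem_nhds.2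
      (Filter.inter_mem (hc.continuousAt (ball_mem_nhds _ hε)) h2)

variable {E : Type*} [TopologicalSpace E] {H : Type*} [Group H] [MulAction H E]

namespace Surf

variable (S : Surf E H)

/-- points of the fibre product -/
abbrev FibE (c : ℂ) (t : ℝ) : Type _ := {p : E × E // S.dev p.1 = c + t * S.dev p.2}

/-- the group of the fibre product -/
def FibH (t : ℝ) : Subgroup (H × H) where
  carrier := {g | S.τ g.1 = t * S.τ g.2}
  one_mem' := by simp [S.τ_one]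
  mul_mem' := by
    intro a b ha hb
    simp only [mem_ofPred_eq, Prod.fst_mul, Prod.snd_mul, S.τ_mul] at ha hb ⊢
    rw [ha, hb]; ring
  inv_mem' := by
    intro a ha
    simp only [mem_ofPred_eq, Prod.fst_inv, Prod.snd_inv, S.τ_inv] at ha ⊢
    rw [ha]; ring

instance (c : ℂ) (t : ℝ) : MulAction (S.FibH t) (S.FibE c t) where
  smul g p := ⟨(g.1.1 • p.1.1, g.1.2 • p.1.2), by
    have h1 : S.τ g.1.1 = t * S.τ g.1.2 := g.2
    simp only [S.dev_smul, p.2, h1]; ring⟩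
  one_smul p := Subtype.ext (Prod.ext (one_smul _ _) (one_smul _ _))
  mul_smul g g' p := Subtype.ext (Prod.ext (mul_smul _ _ _) (mul_smul _ _ _))

variable {S}

theorem fib_smul_fst {c : ℂ} {t : ℝ} (g : S.FibH t) (p : S.FibE c t) :
    (g • p).1.1 = g.1.1 • p.1.1 := rfl

theorem fib_smul_snd {c : ℂ} {t : ℝ} (g : S.FibH t) (p : S.FibE c t) :
    (g • p).1.2 = g.1.2 • p.1.2 := rfl

theorem continuous_fib_fst {c : ℂ} {t : ℝ} : Continuous fun p : S.FibE c t => p.1.1 :=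
  continuous_fst.comp continuous_subtype_val

theorem continuous_fib_snd {c : ℂ} {t : ℝ} : Continuous fun p : S.FibE c t => p.1.2 :=
  continuous_snd.comp continuous_subtype_val

theorem fib_sec {c : ℂ} {t : ℝ} (p₀ : S.FibE c t) {χ₁ χ₂ : ℂ → E} {D₁ D : Set ℂ}
    (h1 : IsSec S.dev χ₁ D₁) (h2 : IsSec S.dev χ₂ D) (hD : ∀ u ∈ D, c + t * u ∈ D₁) :
    ∃ χ : ℂ → S.FibE c t, IsSec (fun p : S.FibE c t => S.dev p.1.2) χ D ∧
      ∀ u ∈ D, (χ u).1 = (χ₁ (c + t * u), χ₂ u) := by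
  classical
  let χ : ℂ → S.FibE c t := fun u => if h : u ∈ D then
    ⟨(χ₁ (c + t * u), χ₂ u), by simp only [h1.2 _ (hD u h), h2.2 u h]⟩ else p₀
  have e : ∀ u ∈ D, (χ u).1 = (χ₁ (c + t * u), χ₂ u) := fun u hu => by simp only [χ, dif_pos hu]
  refine ⟨χ, ⟨?_, fun u hu => by simp only [e u hu, h2.2 u hu]⟩, e⟩
  have hc : ContinuousOn (fun u => (χ₁ (c + t * u), χ₂ u)) D :=
    (h1.1.comp (by fun_prop) hD).prodMk h2.1
  exact IsInducing.subtypeVal.continuousOn_iff.2 (hc.congr e)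

theorem homothety_mem_segment {c a b u : ℂ} {t : ℝ} (hu : u ∈ segment ℝ a b) :
    c + t * u ∈ segment ℝ (c + t * a) (c + t * b) := by
  rw [segment_eq_image'] at hu ⊢
  obtain ⟨s, hs, rfl⟩ := hu
  refine ⟨s, hs, ?_⟩
  simp only [Complex.real_smul]; ring

theorem fib_seg {c : ℂ} {t : ℝ} {p p' : S.FibE c t} (h1 : Seg S.dev p.1.1 p'.1.1)
    (h2 : Seg S.dev p.1.2 p'.1.2) : Seg (fun p : S.FibE c t => S.dev p.1.2) p p' := by
  obtain ⟨χ₁, a1, a2, a3⟩ := h1
  obtain ⟨χ₂, b1, b2, b3⟩ := h2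
  obtain ⟨χ, c1, c2⟩ := fib_sec p a1 b1 (fun u hu => by
    rw [p.2, p'.2]; exact homothety_mem_segment hu)
  refine ⟨χ, c1, Subtype.ext ?_, Subtype.ext ?_⟩
  · rw [c2 _ (left_mem_segment _ _ _), ← p.2, a2, b2]
  · rw [c2 _ (right_mem_segment _ _ _), ← p'.2, a3, b3]

theorem fib_seg_snd {c : ℂ} {t : ℝ} {p p' : S.FibE c t}
    (h : Seg (fun p : S.FibE c t => S.dev p.1.2) p p') : Seg S.dev p.1.2 p'.1.2 := by
  obtain ⟨χ, a1, a2, a3⟩ := h
  exact ⟨fun u => (χ u).1.2, ⟨continuous_fib_snd.comp_continuousOn a1.1, a1.2⟩,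
    by simp only [a2], by simp only [a3]⟩

theorem fib_seg_fst {c : ℂ} {t : ℝ} (ht : t ≠ 0) {p p' : S.FibE c t}
    (h : Seg (fun p : S.FibE c t => S.dev p.1.2) p p') : Seg S.dev p.1.1 p'.1.1 := by
  obtain ⟨χ, a1, a2, a3⟩ := h
  have ht' : (t : ℂ) ≠ 0 := ofReal_ne_zero.2 ht
  have e : ∀ u : ℂ, (c + t * u - c) / t = u := by intro u; field_simp; ring
  have hm : ∀ u ∈ segment ℝ (S.dev p.1.1) (S.dev p'.1.1),
      (u - c) / t ∈ segment ℝ (S.dev p.1.2) (S.dev p'.1.2) := by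
    intro u hu
    rw [p.2, p'.2, segment_eq_image'] at hu
    obtain ⟨s, hs, rfl⟩ := hu
    rw [segment_eq_image']
    refine ⟨s, hs, ?_⟩
    simp only [Complex.real_smul]; field_simp; ring
  refine ⟨fun u => (χ ((u - c) / t)).1.1,
    ⟨continuous_fib_fst.comp_continuousOn (a1.1.comp (by fun_prop) hm), fun u hu => ?_⟩, ?_, ?_⟩
  · have := a1.2 _ (hm u hu)
    simp only at this ⊢
    rw [(χ _).2, this]; field_simp; ring
  · simp only [p.2, e]; simp only at a2; rw [a2]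
  · simp only [p'.2, e]; simp only at a3; rw [a3]

theorem fib_etale (c : ℂ) (t : ℝ) : Etale fun p : S.FibE c t => S.dev p.1.2 := by
  constructor
  · refine isLocalHomeomorph_of_charts (S.et.continuous.comp continuous_fib_snd) fun p => ?_
    obtain ⟨ε₁, hε₁, χ₁, a1, a2⟩ := S.et.exists_chart p.1.1
    obtain ⟨ε₂, hε₂, χ₂, b1, b2⟩ := S.et.exists_chart p.1.2
    have t1 : (fun u : ℂ => c + t * u) ⁻¹' ball (S.dev p.1.1) ε₁ ∈ 𝓝 (S.dev p.1.2) :=
      (by fun_prop : Continuous fun u : ℂ => c + t * u).continuousAt.preimage_mem_nhds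
        (by rw [← p.2]; exact ball_mem_nhds _ hε₁)
    obtain ⟨ε, hε, hb⟩ := Metric.mem_nhds_iff.1 (Filter.inter_mem t1 (ball_mem_nhds _ hε₂))
    obtain ⟨χ, c1, c2⟩ := fib_sec p a1 (b1.mono fun u hu => (hb hu).2) fun u hu => (hb hu).1
    refine ⟨ε, hε, χ, c1, ?_⟩
    have e1 := a1.eventually_eq S.et (ball_mem_nhds _ hε₁)
    have e2 := b1.eventually_eq S.et (ball_mem_nhds _ hε₂)
    rw [a2] at e1
    rw [b2] at e2
    filter_upwards [continuous_fib_fst.continuousAt.eventually e1,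
      continuous_fib_snd.continuousAt.eventually e2,
      (S.et.continuous.comp continuous_fib_snd).continuousAt (ball_mem_nhds _ hε)] with p' p1 p2 p3
    refine Subtype.ext ?_
    have p4 : S.dev p'.1.2 ∈ ball (S.dev p.1.2) ε := p3
    rw [c2 _ p4, ← p'.2, p1.2, p2.2]
  · intro p p' he hne
    by_cases h2 : p.1.2 = p'.1.2
    · have h1 : p.1.1 ≠ p'.1.1 := fun h1 => hne (Subtype.ext (Prod.ext h1 h2))
      obtain ⟨s₁, s₂, o1, o2, m1, m2, hd⟩ := S.et.sep _ _ (by rw [p.2, p'.2, h2]) h1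
      exact ⟨_, _, o1.preimage continuous_fib_fst, o2.preimage continuous_fib_fst, m1, m2,
        hd.preimage _⟩
    · obtain ⟨s₁, s₂, o1, o2, m1, m2, hd⟩ := S.et.sep _ _ he h2
      exact ⟨_, _, o1.preimage continuous_fib_snd, o2.preimage continuous_fib_snd, m1, m2,
        hd.preimage _⟩

variable (S)

/-- the fibre product as a flat surface -/
def fiber (c : ℂ) {t : ℝ} (ht : 0 < t) (ht1 : t ≤ 1) : Surf (S.FibE c t) (S.FibH t) where
  dev p := S.dev p.1.2
  τ g := S.τ g.1.2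
  Sing := S.Sing ∪ {u | c + t * u ∈ S.Sing}
  Bd B := S.Bd ((fun p : S.FibE c t => p.1.1) '' B) ∧ S.Bd ((fun p : S.FibE c t => p.1.2) '' B)
  et := fib_etale c t
  cont_smul g := Continuous.subtype_mk (((S.cont_smul g.1.1).comp continuous_fib_fst).prodMk
    ((S.cont_smul g.1.2).comp continuous_fib_snd)) _
  dev_smul g p := S.dev_smul _ _
  τ_mul g g' := S.τ_mul _ _
  τ_inj g h := by
    have h1 : S.τ g.1.1 = t * S.τ g.1.2 := g.2
    rw [h, mul_zero] at h1
    exact Subtype.ext (Prod.ext (S.τ_inj _ h1) (S.τ_inj _ h))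
  sing_countable := by
    refine S.sing_countable.union (S.sing_countable.preimage_of_injOn fun u _ v _ h => ?_)
    exact mul_left_cancel₀ (ofReal_ne_zero.2 ht.ne') (add_left_cancel h)
  sing_add g := by
    rintro a (ha | ha)
    · exact Or.inl (S.sing_add _ a ha)
    · have h1 : S.τ g.1.1 = t * S.τ g.1.2 := g.2
      have := S.sing_add g.1.1 _ ha
      rw [h1, add_assoc, ← mul_add] at this
      exact Or.inr this
  bd_empty := by simpa using S.bd_empty
  bd_mono A B h hB := ⟨S.bd_mono _ _ (image_mono h) hB.1, S.bd_mono _ _ (image_mono h) hB.2⟩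
  bd_union A B hA hB := by
    rw [image_union, image_union]
    exact ⟨S.bd_union _ _ hA.1 hB.1, S.bd_union _ _ hA.2 hB.2⟩
  bd_smul g B hB := by
    rw [image_image, image_image]
    have h1 := S.bd_smul g.1.1 _ hB.1
    have h2 := S.bd_smul g.1.2 _ hB.2
    rw [image_image] at h1 h2
    exact ⟨h1, h2⟩
  bd_nhds p := by
    obtain ⟨N₁, a1, a2⟩ := S.bd_nhds p.1.1
    obtain ⟨N₂, b1, b2⟩ := S.bd_nhds p.1.2
    refine ⟨_, Filter.inter_mem (continuous_fib_fst.continuousAt.preimage_mem_nhds a1)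
      (continuous_fib_snd.continuousAt.preimage_mem_nhds b1), S.bd_mono _ _ ?_ a2,
      S.bd_mono _ _ ?_ b2⟩
    · rintro _ ⟨p', hp', rfl⟩; exact hp'.1
    · rintro _ ⟨p', hp', rfl⟩; exact hp'.2
  bd_reach B L hB := by
    refine ⟨S.bd_mono _ _ ?_ (S.bd_reach _ L hB.1), S.bd_mono _ _ ?_ (S.bd_reach _ L hB.2)⟩
    · rintro _ ⟨p', ⟨p, hp, h1, h2⟩, rfl⟩
      refine ⟨_, ⟨p, hp, rfl⟩, fib_seg_fst ht.ne' h1, ?_⟩
      simp only
      rw [p.2, p'.2, add_sub_add_left_eq_sub, ← mul_sub, norm_mul, norm_real, Real.norm_eq_abs,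
        abs_of_pos ht]
      exact (mul_le_of_le_one_left (norm_nonneg _) ht1).trans h2
    · rintro _ ⟨p', ⟨p, hp, h1, h2⟩, rfl⟩
      exact ⟨_, ⟨p, hp, rfl⟩, fib_seg_snd h1, h2⟩
  bd_proper B B' hB hB' := by
    refine Finite.subset (((S.bd_proper _ _ hB.1 hB'.1).prod
      (S.bd_proper _ _ hB.2 hB'.2)).preimage Subtype.val_injective.injOn) ?_
    rintro g ⟨p, hp, hp'⟩
    exact ⟨⟨_, ⟨p, hp, rfl⟩, _, hp', rfl⟩, ⟨_, ⟨p, hp, rfl⟩, _, hp', rfl⟩⟩
  bd_death B L hB := by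
    obtain ⟨Z₁, a1, a2, a3⟩ := S.bd_death _ L hB.1
    obtain ⟨Z₂, b1, b2, b3⟩ := S.bd_death _ L hB.2
    refine ⟨Z₂ ∪ {u | c + t * u ∈ Z₁}, union_subset_union b1 fun u hu => a1 hu,
      b2.union (a2.preimage fun u _ v _ h =>
        mul_left_cancel₀ (ofReal_ne_zero.2 ht.ne') (add_left_cancel h)), fun p hp v hv hs => ?_⟩
    obtain ⟨a', c1, c2⟩ := a3 _ ⟨p, hp, rfl⟩ (t * v) (by
      rw [norm_mul, norm_real, Real.norm_eq_abs, abs_of_pos ht]
      exact (mul_le_of_le_one_left (norm_nonneg _) ht1).trans hv) fun s hs' hm =>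
        hs s hs' (Or.inr (by
          simp only [p.2] at hm
          have e : c + t * (S.dev p.1.2 + s * v) = c + t * S.dev p.1.2 + s * (t * v) := by ring
          rw [mem_ofPred_eq, e]; exact hm))
    obtain ⟨b', d1, d2⟩ := b3 _ ⟨p, hp, rfl⟩ v hv fun s hs' hm => hs s hs' (Or.inl hm)
    refine ⟨⟨(a', b'), ?_⟩, fib_seg c1 d1, d2⟩
    simp only at c2 d2 ⊢
    rw [c2, d2, p.2]; ring

/-- the component of `q` over the disc of radius `r` -/
def Comp (q : E) (r : ℝ) : Set E := connectedComponentIn (S.dev ⁻¹' ball (S.dev q) r) q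

theorem dev_mem_of_comp {x q : E} {r : ℝ} (h : q ∈ S.Comp x r) : S.dev q ∈ ball (S.dev x) r :=
  connectedComponentIn_subset (S.dev ⁻¹' ball (S.dev x) r) x h

theorem comp_small (q : E) : ∃ r > 0, S.Bd (S.Comp q r) := by
  obtain ⟨N, hN, hb⟩ := S.bd_nhds q
  obtain ⟨ε, hε, χ, h1, h2, h3⟩ := S.et.exists_chart_subset q hN
  refine ⟨ε, hε, S.bd_mono _ _ (fun q' hq' => ?_) hb⟩
  have hsub : S.Comp q ε ⊆ S.dev ⁻¹' ball (S.dev q) ε := connectedComponentIn_subset _ _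
  have := S.et.lift_unique (g₁ := fun q => χ (S.dev q)) (g₂ := id)
    (isPreconnected_connectedComponentIn (x := q) (F := S.dev ⁻¹' ball (S.dev q) ε))
    (h1.1.comp S.et.continuous.continuousOn hsub) continuousOn_id
    (fun a ha => h1.2 _ (hsub ha)) (mem_connectedComponentIn (mem_ball_self hε)) h2 hq'
  simp only [id] at this
  rw [← this]; exact h3 _ (hsub hq')

theorem mem_comp_of_seg {x a a' : E} {r : ℝ} (ha : a ∈ S.Comp x r) (hs : Seg S.dev a a')
    (ha' : S.dev a' ∈ ball (S.dev x) r) : a' ∈ S.Comp x r := by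
  obtain ⟨χ, h1, h2, h3⟩ := hs
  have ha0 : S.dev a ∈ ball (S.dev x) r := S.dev_mem_of_comp ha
  have hp : IsPreconnected (χ '' segment ℝ (S.dev a) (S.dev a')) :=
    (convex_segment _ _).isPreconnected.image _ h1.1
  have := hp.subset_connectedComponentIn (F := S.dev ⁻¹' ball (S.dev x) r) (x := a)
    ⟨_, left_mem_segment _ _ _, h2⟩ (by
      rintro _ ⟨u, hu, rfl⟩
      rw [mem_preimage, h1.2 u hu]
      exact (convex_ball _ _).segment_subset ha0 ha' hu)
  unfold Comp at ha ⊢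
  rw [connectedComponentIn_eq ha]
  exact this ⟨_, right_mem_segment _ _ _, h3⟩

theorem mem_component_of_seg {a a' : E} (hs : Seg S.dev a a') : a' ∈ connectedComponent a := by
  obtain ⟨χ, h1, h2, h3⟩ := hs
  exact ((convex_segment _ _).isPreconnected.image _ h1.1).subset_connectedComponent
    ⟨_, left_mem_segment _ _ _, h2⟩ ⟨_, right_mem_segment _ _ _, h3⟩

theorem comp_step {x : E} (hx : S.dev x ∉ S.Sing) {c : ℂ} {t : ℝ} (ht : 0 < t) (ht1 : t ≤ 1)
    (hc : S.dev x = c + t * S.dev x) {B' : Set (S.FibE c t)} (hB' : (S.fiber c ht ht1).Bd B')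
    (h : ∀ p ∈ connectedComponent (⟨(x, x), hc⟩ : S.FibE c t), ∃ g : S.FibH t, g • p ∈ B')
    {r : ℝ} (hr : 0 < r) (hb : S.Bd (S.Comp x r)) : S.Bd (S.Comp x (r / t)) := by
  set Z : Set ℂ := {u | c + t * u ∈ S.Sing} with hZ
  have hZc : Z.Countable := S.sing_countable.preimage_of_injOn fun u _ v _ h =>
    mul_left_cancel₀ (ofReal_ne_zero.2 ht.ne') (add_left_cancel h)
  set R : Set E := {b | ∃ p ∈ connectedComponent (⟨(x, x), hc⟩ : S.FibE c t),
    p.1.2 = b ∧ p.1.1 ∈ S.Comp x r} with hR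
  have step : ∀ b b' : E, b ∈ R → Seg S.dev b b' → S.dev b' ∈ ball (S.dev x) (r / t) →
      Disjoint (segment ℝ (S.dev b) (S.dev b')) Z → b' ∈ R := by
    rintro _ b' ⟨p, p1, rfl, p3⟩ hs hb' hd
    obtain ⟨a', a1, a2⟩ := S.alive_of_avoid (q := p.1.1) (v := t * (S.dev b' - S.dev p.1.2))
      fun s hs' hm => by
        have h1 := mem_segment_add (S.dev p.1.2) (S.dev b' - S.dev p.1.2) ⟨hs'.1.le, hs'.2⟩
        rw [add_sub_cancel] at h1
        refine Set.disjoint_left.1 hd h1 ?_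
        rw [p.2] at hm
        have e : c + t * (S.dev p.1.2 + s * (S.dev b' - S.dev p.1.2))
          = c + t * S.dev p.1.2 + s * (t * (S.dev b' - S.dev p.1.2)) := by ring
        rw [hZ, mem_ofPred_eq, e]; exact hm
    have e : S.dev a' = c + t * S.dev b' := by rw [a2, p.2]; ring
    refine ⟨⟨(a', b'), e⟩, ?_, rfl, S.mem_comp_of_seg p3 a1 ?_⟩
    · rw [connectedComponent_eq p1]
      exact (S.fiber c ht ht1).mem_component_of_seg (fib_seg (p' := ⟨(a', b'), e⟩) a1 hs)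
    · rw [mem_ball, dist_eq_norm] at hb' ⊢
      have e2 : S.dev a' - S.dev x = t * (S.dev b' - S.dev x) := by
        rw [e]; linear_combination -hc
      rw [e2, norm_mul, norm_real, Real.norm_eq_abs, abs_of_pos ht, mul_comm]
      exact (lt_div_iff₀ ht).1 hb'
  have loc : ∀ b, S.dev b ∈ ball (S.dev x) (r / t) → ∃ N ∈ 𝓝 b, ∀ b₁ ∈ N, ∀ b₂ ∈ N,
      S.dev b₁ ∉ Z → S.dev b₂ ∉ Z → b₁ ∈ R → b₂ ∈ R := by
    intro b hb
    obtain ⟨ε, hε, χ, h1, h2, h3⟩ := S.et.exists_chart_subset b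
      (S.et.continuous.continuousAt.preimage_mem_nhds (isOpen_ball.mem_nhds hb))
    refine ⟨χ '' ball (S.dev b) ε, (h1.isOpen_image S.et isOpen_ball).mem_nhds
      ⟨_, mem_ball_self hε, h2⟩, ?_⟩
    rintro _ ⟨u, hu, rfl⟩ _ ⟨u', hu', rfl⟩ z1 z2 hR1
    rw [h1.2 u hu] at z1
    rw [h1.2 u' hu'] at z2
    obtain ⟨m, m1, m2, m3⟩ := exists_two_segments hZc hu hu' z1 z2
    refine step _ _ (step _ _ hR1 (h1.seg ((convex_ball _ _).segment_subset hu m1)) (h3 m m1) ?_)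
      (h1.seg ((convex_ball _ _).segment_subset m1 hu')) (h3 u' hu') ?_
    · rwa [h1.2 u hu, h1.2 m m1]
    · rwa [h1.2 u' hu', h1.2 m m1]
  have dense : ∀ b : E, ∀ N ∈ 𝓝 b, ∃ b' ∈ N, S.dev b' ∉ Z ∧ Seg S.dev b b' ∧
      ‖S.dev b' - S.dev b‖ ≤ 1 := by
    intro b N hN
    obtain ⟨ε, hε, χ, h1, h2, h3⟩ := S.et.exists_chart_subset b hN
    obtain ⟨u, u1, u2⟩ := (hZc.dense_compl ℝ).exists_mem_open (isOpen_ball (x := S.dev b)
      (ε := min ε 1)) ⟨_, mem_ball_self (lt_min hε one_pos)⟩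
    have u3 := ball_subset_ball (min_le_left ε 1) u2
    have u4 := ball_subset_ball (min_le_right ε 1) u2
    refine ⟨χ u, h3 u u3, by rwa [h1.2 u u3], ?_, ?_⟩
    · have := h1.seg ((convex_ball _ _).segment_subset (mem_ball_self hε) u3)
      rwa [h2] at this
    · rw [h1.2 u u3, ← dist_eq_norm]; exact (mem_ball.1 u4).le
  have hrt : 0 < r / t := div_pos hr ht
  have hxR : x ∈ R := ⟨_, mem_connectedComponent, rfl, mem_connectedComponentIn (mem_ball_self hr)⟩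
  have hxZ : S.dev x ∉ Z := by rw [hZ, mem_ofPred_eq, ← hc]; exact hx
  have hU : S.Comp x (r / t) ⊆ {b | ∀ᶠ b' in 𝓝 b, S.dev b' ∉ Z → b' ∈ R} := by
    refine IsPreconnected.subset_left_of_subset_union isOpen_setOfPred_eventually_nhds
      (isOpen_setOfPred_eventually_nhds (p := fun b' => S.dev b' ∉ Z → b' ∉ R)) ?_ ?_ ?_
      isPreconnected_connectedComponentIn
    · rw [Set.disjoint_left]
      intro b h1 h2
      obtain ⟨b', b1, b2, -⟩ := dense b _ (Filter.inter_mem h1 h2)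
      exact b1.2 b2 (b1.1 b2)
    · intro b hb
      obtain ⟨N, hN, hN'⟩ := loc b (S.dev_mem_of_comp hb)
      by_cases hex : ∃ b₁ ∈ N, S.dev b₁ ∉ Z ∧ b₁ ∈ R
      · obtain ⟨b₁, a1, a2, a3⟩ := hex
        left
        filter_upwards [hN] with b₂ h1 h2 using hN' b₁ a1 b₂ h1 a2 h2 a3
      · right
        filter_upwards [hN] with b₂ h1 h2 h3 using hex ⟨b₂, h1, h2, h3⟩
    · refine ⟨x, mem_connectedComponentIn (mem_ball_self hrt), ?_⟩
      obtain ⟨N, hN, hN'⟩ := loc x (mem_ball_self hrt)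
      filter_upwards [hN] with b₂ h1 h2 using hN' x (mem_of_mem_nhds hN) b₂ h1 hxZ h2 hxR
  have hM := S.bd_proper _ _ hb hB'.1
  have hΛ : {l : H | ∃ m ∈ {η : H | ∃ q ∈ S.Comp x r, η • q ∈ (fun p => p.1.1) '' B'},
      S.τ m = t * S.τ l}.Finite := by
    refine Finite.subset ((hM.image S.τ).preimage (f := fun l : H => t * S.τ l)
      fun u _ v _ h => S.τ_injective (mul_left_cancel₀ (ofReal_ne_zero.2 ht.ne') h)) ?_
    rintro l ⟨m, hm, e⟩
    exact ⟨m, hm, e⟩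
  have hbR : S.Bd R := by
    refine S.bd_mono _ _ ?_ (S.bd_biUnion hΛ fun l _ => S.bd_smul l⁻¹ _ hB'.2)
    rintro _ ⟨p, p1, rfl, p3⟩
    obtain ⟨g, hg⟩ := h p p1
    refine mem_iUnion₂.2 ⟨g.1.2, ⟨g.1.1, ⟨_, p3, _, hg, rfl⟩, g.2⟩, _, ⟨_, hg, rfl⟩, ?_⟩
    simp only [fib_smul_snd, inv_smul_smul]
  refine S.bd_mono _ _ (fun b hb => ?_) (S.bd_reach _ 1 hbR)
  obtain ⟨b', b1, b2, b3, b4⟩ := dense b _ (hU hb)
  exact ⟨b', b1 b2, b3.symm, by rwa [norm_sub_rev]⟩

theorem comp_all {x : E} (hx : S.dev x ∉ S.Sing) {c : ℂ} {t : ℝ} (ht : 0 < t) (ht1 : t < 1)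
    (hc : S.dev x = c + t * S.dev x) {B' : Set (S.FibE c t)} (hB' : (S.fiber c ht ht1.le).Bd B')
    (h : ∀ p ∈ connectedComponent (⟨(x, x), hc⟩ : S.FibE c t), ∃ g : S.FibH t, g • p ∈ B')
    (r : ℝ) : S.Bd (S.Comp x r) := by
  obtain ⟨r₀, hr₀, hb⟩ := S.comp_small x
  have key : ∀ n : ℕ, S.Bd (S.Comp x (r₀ / t ^ n)) := by
    intro n
    induction n with
    | zero => simpa using hb
    | succ n ih =>
      rw [pow_succ, ← div_div]
      exact S.comp_step hx ht ht1.le hc hB' h (by positivity) ih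
  obtain ⟨n, hn⟩ := exists_pow_lt_of_lt_one (div_pos hr₀ (by positivity : 0 < |r| + 1)) ht1
  refine S.bd_mono _ _ (connectedComponentIn_mono _ (preimage_mono (ball_subset_ball ?_))) (key n)
  rw [le_div_iff₀ (by positivity)]
  rw [lt_div_iff₀ (by positivity)] at hn
  have : 0 < t ^ n := by positivity
  nlinarith [le_abs_self r]

theorem exists_mem_comp [PreconnectedSpace E] (x q : E) : ∃ r : ℝ, q ∈ S.Comp x r := by
  have loc : ∀ b : E, ∃ N ∈ 𝓝 b, ∀ b₁ ∈ N, ∀ b₂ ∈ N, (∃ r : ℝ, b₁ ∈ S.Comp x r) →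
      ∃ r : ℝ, b₂ ∈ S.Comp x r := by
    intro b
    obtain ⟨ε, hε, χ, h1, h2⟩ := S.et.exists_chart b
    refine ⟨χ '' ball (S.dev b) ε, (h1.isOpen_image S.et isOpen_ball).mem_nhds
      ⟨_, mem_ball_self hε, h2⟩, ?_⟩
    rintro _ ⟨u, hu, rfl⟩ _ ⟨u', hu', rfl⟩ ⟨r, hr⟩
    refine ⟨max r (dist (S.dev (χ u')) (S.dev x) + 1), S.mem_comp_of_seg
      (connectedComponentIn_mono _ (preimage_mono (ball_subset_ball (le_max_left _ _))) hr)
      (h1.seg ((convex_ball _ _).segment_subset hu hu')) ?_⟩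
    exact (lt_add_one (dist (S.dev (χ u')) (S.dev x))).trans_le (le_max_right _ _)
  have hcl : IsClopen {q | ∃ r : ℝ, q ∈ S.Comp x r} := by
    constructor
    · rw [← isOpen_compl_iff, isOpen_iff_mem_nhds]
      intro b hb
      obtain ⟨N, hN, hN'⟩ := loc b
      filter_upwards [hN] with b' h1 h2 using hb (hN' b' h1 b (mem_of_mem_nhds hN) h2)
    · rw [isOpen_iff_mem_nhds]
      intro b hb
      obtain ⟨N, hN, hN'⟩ := loc b
      filter_upwards [hN] with b' h1 using hN' b (mem_of_mem_nhds hN) b' h1 hb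
  have := hcl.eq_univ ⟨x, 1, mem_connectedComponentIn (mem_ball_self one_pos)⟩
  exact (this ▸ mem_univ q : q ∈ {q | ∃ r : ℝ, q ∈ S.Comp x r})

theorem smul_mem_comp {x : E} {η η' : H} {D r : ℝ} (h1 : η • x ∈ S.Comp x r)
    (h2 : η' • x ∈ S.Comp x D) (h3 : ‖S.τ η‖ + D ≤ r) : (η * η') • x ∈ S.Comp x r := by
  have hD : 0 < D := pos_of_mem_ball (S.dev_mem_of_comp h2)
  have hp : IsPreconnected ((fun q => η • q) '' S.Comp x D) :=
    isPreconnected_connectedComponentIn.image _ (S.cont_smul η).continuousOn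
  have := hp.subset_connectedComponentIn (F := S.dev ⁻¹' ball (S.dev x) r) (x := η • x)
    ⟨x, mem_connectedComponentIn (mem_ball_self hD), rfl⟩ (by
      rintro _ ⟨q, hq, rfl⟩
      have hq' : S.dev q ∈ ball (S.dev x) D := S.dev_mem_of_comp hq
      rw [mem_preimage, S.dev_smul]
      rw [mem_ball, dist_eq_norm] at hq' ⊢
      have e : S.dev q + S.τ η - S.dev x = S.τ η + (S.dev q - S.dev x) := by ring
      rw [e]
      linarith [norm_add_le (S.τ η) (S.dev q - S.dev x)])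
  unfold Comp at h1 ⊢
  rw [connectedComponentIn_eq h1]
  exact this ⟨_, h2, by rw [mul_smul]⟩

theorem discrete_of_comp [PreconnectedSpace E] [hH : Group.FG H] {x : E}
    (h : ∀ r, S.Bd (S.Comp x r)) (R : ℝ) : {η : H | ‖S.τ η‖ ≤ R}.Finite := by
  obtain ⟨G, hG⟩ := Group.fg_def.1 hH
  have hD : ∀ g : H, ∃ r : ℝ, g • x ∈ S.Comp x r ∧ g⁻¹ • x ∈ S.Comp x r := by
    intro g
    obtain ⟨r, hr⟩ := S.exists_mem_comp x (g • x)
    obtain ⟨r', hr'⟩ := S.exists_mem_comp x (g⁻¹ • x)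
    exact ⟨max r r',
      connectedComponentIn_mono _ (preimage_mono (ball_subset_ball (le_max_left _ _))) hr,
      connectedComponentIn_mono _ (preimage_mono (ball_subset_ball (le_max_right _ _))) hr'⟩
  choose D hD using hD
  obtain ⟨D₀, hD₀⟩ := (G.finite_toSet.image D).bddAbove
  set R' : ℝ := |R| + 2 * ∑ i : G, ‖S.τ i‖ + |D₀| + 1 with hR'
  have hs : 0 ≤ ∑ i : G, ‖S.τ i‖ := Finset.sum_nonneg fun _ _ => norm_nonneg _
  refine (S.bd_proper _ _ (S.bd_singleton x) (h R')).subset fun η hη => ⟨x, rfl, ?_⟩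
  have hspan : ∀ g : H, S.τ g ∈ Submodule.span ℤ (range fun i : G => S.τ i) := by
    intro g
    have hg : g ∈ Subgroup.closure (G : Set H) := by rw [hG]; trivial
    induction hg using Subgroup.closure_induction with
    | mem g hg => exact Submodule.subset_span ⟨⟨g, hg⟩, rfl⟩
    | one => rw [S.τ_one]; exact zero_mem _
    | mul a b _ _ ha hb => rw [S.τ_mul]; exact add_mem ha hb
    | inv a _ ha => rw [S.τ_inv]; exact neg_mem ha
  obtain ⟨n, hn⟩ := (Submodule.mem_span_range_iff_exists_fun ℤ).1 (hspan η)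
  have := steinitz_reach (fun i : G => S.τ i) R {a | ∃ g : H, S.τ g = a ∧ g • x ∈ S.Comp x R'}
    ⟨1, S.τ_one, by
      rw [one_smul]
      exact mem_connectedComponentIn (mem_ball_self (by positivity))⟩ (by
      rintro _ ⟨g, rfl, hg⟩ hn i
      have hi : D i ≤ D₀ := hD₀ ⟨i, i.2, rfl⟩
      have h3 : ‖S.τ g‖ + D i ≤ R' := by linarith [le_abs_self R, le_abs_self D₀]
      exact ⟨⟨g * i, S.τ_mul _ _, S.smul_mem_comp hg (hD i).1 h3⟩,
        ⟨g * (i : H)⁻¹, by rw [S.τ_mul, S.τ_inv, sub_eq_add_neg], S.smul_mem_comp hg (hD i).2 h3⟩⟩)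
    n (by rw [hn]; exact hη)
  obtain ⟨g, hg1, hg2⟩ := this
  rw [hn] at hg1
  rw [← S.τ_injective hg1]; exact hg2

end Surf

end Pool.Agent.Lib.MP_c02c19_gt
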