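import Pool.Agent.Lib.MP_c02c19_gt.Band

/-!
Generic vertical direction: a line with long windows of returns forces all leaves to return.
-/

namespace Pool.Agent.Lib.MP_c02c19_gt

open Set Filter Topology Metric Complex

variable {E : Type*} [TopologicalSpace E] {H : Type*} [Group H] [MulAction H E]

namespace Surf

variable (S : Surf E H)

/-- the vertical line through `q` avoids the singular set -/
def Gen (q : E) : Prop := ∀ a ∈ S.Sing, a.re ≠ (S.dev q).re

theorem gen_smul {q : E} (h : S.Gen q) (η : H) : S.Gen (η • q) := by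
  intro a ha he
  refine h _ (S.sing_add η⁻¹ a ha) ?_
  rw [S.dev_smul] at he
  rw [S.τ_inv]
  simp only [add_re, neg_re] at he ⊢
  linarith

theorem gen_line {q : E} (h : S.Gen q) : ∃ σ, IsLine S.dev σ (S.dev q) I ∧ σ 0 = q :=
  S.et.exists_line fun s => S.alive_of_avoid fun t _ hm => h _ hm (by simp)

theorem exists_gen {q : E} {N : Set E} (hN : N ∈ 𝓝 q) :
    ∃ q' ∈ N, S.Gen q' ∧ Seg S.dev q q' ∧ ‖S.dev q' - S.dev q‖ ≤ 1 := by
  obtain ⟨ε, hε, χ, h1, h2, h3⟩ := S.et.exists_chart_subset q hN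
  have hc : ((fun a : ℂ => a.re - (S.dev q).re) '' S.Sing).Countable := S.sing_countable.image _
  obtain ⟨x, hx, hx'⟩ : ∃ x ∈ Ioo (0 : ℝ) (min ε 1),
      x ∉ (fun a : ℂ => a.re - (S.dev q).re) '' S.Sing := by
    have := (hc.dense_compl ℝ).exists_mem_open isOpen_Ioo
      (nonempty_Ioo.2 (lt_min hε one_pos))
    obtain ⟨x, h1, h2⟩ := this
    exact ⟨x, h2, h1⟩
  have hb : S.dev q + x ∈ ball (S.dev q) ε := by
    simp only [mem_ball, dist_self_add_left, norm_real, Real.norm_eq_abs, abs_of_pos hx.1]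
    exact hx.2.trans_le (min_le_left _ _)
  refine ⟨χ (S.dev q + x), h3 _ hb, fun a ha he => hx' ⟨a, ha, ?_⟩, ?_, ?_⟩
  · rw [h1.2 _ hb] at he
    simp only [add_re, ofReal_re] at he ⊢
    linarith
  · have := h1.seg ((convex_ball _ _).segment_subset (mem_ball_self hε) hb)
    rwa [h2] at this
  · rw [h1.2 _ hb, add_sub_cancel_left, norm_real, Real.norm_eq_abs, abs_of_pos hx.1]
    exact (hx.2.trans_le (min_le_right _ _)).le

end Surf

namespace Transv

variable {S : Surf E H} (T : Transv S) (O : Set E)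

/-- the vertical leaf of `q` avoids `O` and returns to the transversal with bounded gaps -/
def Nice (q : E) : Prop :=
  ∃ σ, IsLine S.dev σ (S.dev q) I ∧ σ 0 = q ∧ (∀ s, σ s ∉ O) ∧
    ∀ s, ∃ s' ∈ Icc s (s + T.L), ∃ η : H, ∃ u ∈ Icc (-T.w) T.w, σ s' = η • T.j u

/-- all generic points near `q` are nice -/
def Good (q : E) : Prop := ∀ᶠ q' in 𝓝 q, S.Gen q' → T.Nice O q'

variable {O}

theorem nice_smul (hO : ∀ (η : H), ∀ q ∈ O, η • q ∈ O) {q : E} (h : T.Nice O q) (η : H) :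
    T.Nice O (η • q) := by
  obtain ⟨σ, h1, h2, h3, h4⟩ := h
  refine ⟨fun s => η • σ s, by rw [S.dev_smul]; exact S.isLine_smul h1 η, by simp only [h2],
    fun s hs => h3 s (by simpa using hO η⁻¹ _ hs), fun s => ?_⟩
  obtain ⟨s', a1, η', u, a2, a3⟩ := h4 s
  exact ⟨s', a1, η * η', u, a2, by simp only [a3, mul_smul]⟩

theorem nice_of_seg {q m : E} (hs : Seg S.dev q m) {h : ℝ} (hd : S.dev m = S.dev q + h * I)
    (hm : T.Nice O m) : T.Nice O q := by
  obtain ⟨σ, h1, h2, h3, h4⟩ := hm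
  have l1 := h1.shift (-h)
  have e : S.dev m + ((-h : ℝ) : ℂ) * I = S.dev q := by rw [hd]; push_cast; ring
  rw [e] at l1
  refine ⟨_, l1, ?_, fun s => h3 _, fun s => ?_⟩
  · have := h1.seg S.et 0 (-h + 0)
    rw [h2] at this
    exact Seg.unique S.et this hs.symm (by rw [add_zero, h1.2, e])
  · obtain ⟨s', a1, η', u, a2, a3⟩ := h4 (-h + s)
    exact ⟨s' + h, ⟨by linarith [a1.1], by linarith [a1.2]⟩, η', u, a2, by
      rw [← a3]; congr 1; ring⟩

theorem good_smul (hO : ∀ (η : H), ∀ q ∈ O, η • q ∈ O) {q : E} (h : T.Good O q) (η : H) :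
    T.Good O (η • q) := by
  have t : Tendsto (fun q' : E => η⁻¹ • q') (𝓝 (η • q)) (𝓝 q) := by
    have := (S.cont_smul η⁻¹).continuousAt (x := η • q)
    rwa [ContinuousAt, inv_smul_smul] at this
  filter_upwards [t.eventually h] with q' hq' hg
  simpa using T.nice_smul hO (hq' (S.gen_smul hg η⁻¹)) η

theorem good_of_seg {q m : E} (hs : Seg S.dev q m) {h : ℝ} (hd : S.dev m = S.dev q + h * I)
    (hm : T.Good O m) : T.Good O q := by
  obtain ⟨ε, hε, χ, h1, h2⟩ := S.et.exists_chart m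
  have t1 : Tendsto (fun q' => S.dev q' + h * I) (𝓝 q) (𝓝 (S.dev m)) := by
    rw [hd]; exact S.et.continuous.continuousAt.tendsto.add_const _
  have t2 : Tendsto (fun q' => χ (S.dev q' + h * I)) (𝓝 q) (𝓝 m) := by
    have := (h1.1.continuousAt (ball_mem_nhds _ hε)).tendsto
    rw [h2] at this
    exact this.comp t1
  filter_upwards [t2.eventually hm, (tendsto_id.prodMk_nhds t2).eventually (hs.eventually S.et),
    t1 (ball_mem_nhds _ hε)] with q' a1 a2 a3 hg
  refine T.nice_of_seg a2 (h1.2 _ a3) (a1 fun a ha => ?_)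
  rw [h1.2 _ a3]
  simpa using hg a ha

/-- limits of returns -/
theorem lim_ret {A : Type*} {l : Filter A} [l.NeBot] {σ : A → ℝ → E} {z : A → ℂ} {q : E}
    (hσ : ∀ᶠ a in l, IsLine S.dev (σ a) (z a) I) (h0 : Tendsto (fun a => σ a 0) l (𝓝 q)) {s : ℝ}
    (ha : ∀ s' ∈ Icc s (s + T.L), Alive S.dev q (s' * I))
    (hr : ∀ᶠ a in l, ∃ s' ∈ Icc s (s + T.L), ∃ η : H, ∃ u ∈ Icc (-T.w) T.w, σ a s' = η • T.j u) :
    ∃ s' ∈ Icc s (s + T.L), ∃ η : H, ∃ u ∈ Icc (-T.w) T.w, Seg S.dev q (η • T.j u) ∧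
      (u : ℂ) + S.τ η = S.dev q + s' * I ∧ ∃ l' ≤ l, l'.NeBot ∧ ∃ t f : A → ℝ,
        Tendsto f l' (𝓝 u) ∧ ∀ᶠ a in l', f a ∈ T.J ∧ σ a (t a) = η • T.j (f a) := by
  obtain ⟨N, hN, hbd⟩ := S.bd_nhds q
  have hfin := S.finite_types hbd T.bd_J (|s| + T.L)
  let P : H → A → Prop := fun η a => (S.τ η).im - (z a).im ∈ Icc s (s + T.L) ∧
    (z a).re - (S.τ η).re ∈ Icc (-T.w) T.w ∧
    σ a ((S.τ η).im - (z a).im) = η • T.j ((z a).re - (S.τ η).re)
  have hev : ∀ᶠ a in l, ∃ η ∈ {η : H | ∃ q ∈ N, ∃ q' ∈ T.j '' T.J,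
      Seg S.dev q (η • q') ∧ ‖S.dev (η • q') - S.dev q‖ ≤ |s| + T.L}, P η a := by
    filter_upwards [hσ, hr, h0 hN] with a a1 a2 a3
    obtain ⟨s', b1, η, u, b2, b3⟩ := a2
    have huJ := T.mem_J_of_Icc b2
    have e := a1.2 s'
    rw [b3, T.dev_smul_j huJ] at e
    have e1 : (S.τ η).im - (z a).im = s' := by
      have := congrArg im e
      simp at this; linarith
    have e2 : (z a).re - (S.τ η).re = u := by
      have := congrArg re e
      simp at this; linarith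
    refine ⟨η, ⟨_, a3, _, ⟨u, huJ, rfl⟩, by rw [← b3]; exact a1.seg S.et 0 s', ?_⟩, ?_⟩
    · rw [← b3, a1.2, a1.2]
      simp only [ofReal_zero, zero_mul, add_zero, add_sub_cancel_left, norm_mul, norm_real,
        norm_I, mul_one, Real.norm_eq_abs]
      rw [abs_le]
      constructor <;> linarith [b1.1, b1.2, neg_abs_le s, le_abs_self s, T.L_nonneg]
    · simp only [P, e1, e2]
      exact ⟨b1, b2, b3⟩
  obtain ⟨η, -, hη⟩ := (frequently_exists_finite hfin).1 hev.frequently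
  have hl' : NeBot (l ⊓ 𝓟 {a | P η a}) := frequently_iff_neBot.1 hη
  have hP : ∀ᶠ a in l ⊓ 𝓟 {a | P η a}, P η a :=
    eventually_inf_principal.2 (Eventually.of_forall fun x hx => hx)
  have hz : Tendsto z l (𝓝 (S.dev q)) := by
    refine (S.et.continuous.continuousAt.tendsto.comp h0).congr' (hσ.mono fun a a1 => ?_)
    simp [a1.2]
  have hz' := hz.mono_left (inf_le_left (b := 𝓟 {a | P η a}))
  have t1 : Tendsto (fun a => (S.τ η).im - (z a).im) (l ⊓ 𝓟 {a | P η a})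
      (𝓝 ((S.τ η).im - (S.dev q).im)) := ((continuous_im.tendsto _).comp hz').const_sub _
  have t2 : Tendsto (fun a => (z a).re - (S.τ η).re) (l ⊓ 𝓟 {a | P η a})
      (𝓝 ((S.dev q).re - (S.τ η).re)) := ((continuous_re.tendsto _).comp hz').sub_const _
  have m1 := isClosed_Icc.mem_of_tendsto t1 (hP.mono fun a a1 => a1.1)
  have m2 := isClosed_Icc.mem_of_tendsto t2 (hP.mono fun a a1 => a1.2.1)
  obtain ⟨m, g1, g2⟩ := ha _ m1
  have t3 := T.tendsto_j (T.mem_J_of_Icc m2) t2 (hP.mono fun a a1 => T.mem_J_of_Icc a1.2.1) η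
  have e0 : (((S.dev q).re - (S.τ η).re : ℝ) : ℂ) + S.τ η
      = S.dev q + ((S.τ η).im - (S.dev q).im : ℝ) * I := by
    apply Complex.ext <;> simp
  have t3' : Tendsto (fun a => σ a ((S.τ η).im - (z a).im)) (l ⊓ 𝓟 {a | P η a})
      (𝓝 (η • T.j ((S.dev q).re - (S.τ η).re))) := t3.congr' (hP.mono fun a a1 => a1.2.2.symm)
  have t4 := S.et.tendsto_line (hσ.filter_mono (inf_le_left (b := 𝓟 {a | P η a})))
    (t₀ := fun _ => 0) (t := fun a => (S.τ η).im - (z a).im) (h0.mono_left inf_le_left) (by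
      rw [g2, ← e0, ← T.dev_smul_j (T.mem_J_of_Icc m2)]
      exact S.et.continuous.continuousAt.tendsto.comp t3') g1
  have e := S.et.eq_of_tendsto t4 t3'
  exact ⟨_, m1, η, _, m2, e ▸ g1, e0, _, inf_le_left, hl', _, _, t2,
    hP.mono fun a a1 => ⟨T.mem_J_of_Icc a1.2.1, a1.2.2⟩⟩

end Transv

namespace Fam

variable {S : Surf E H} {T : Transv S} {ι : Type*} (Φ : Fam T ι) {O : Set E}

theorem nice_of_mem_N (hOo : IsOpen O) (hO : ∀ (η : H), ∀ q ∈ O, η • q ∈ O)
    (hδ : ∀ a, Φ.δ a = 0) (hW : ∀ a, ∀ s ∈ Φ.W a, Φ.σ a s ∉ O) {u : ℝ} (hu : u ∈ Φ.N)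
    (hg : S.Gen (T.j u)) : T.Nice O (T.j u) := by
  obtain ⟨l, hl, h1, h2⟩ := Φ.exists_of_mem_N hu
  have huJ := Φ.N_subset_J hu
  have hc := Φ.limF_cross.filter_mono h1
  obtain ⟨σ, l1, l2⟩ := S.gen_line hg
  have hseg : ∀ s, Seg S.dev (T.j u) (σ s) := fun s => l2 ▸ l1.seg S.et 0 s
  refine ⟨σ, l1, l2, fun s hs => ?_, fun s => ?_⟩
  · have t := Φ.tendsto_at h1 huJ h2 (hseg s) (h := s) (by rw [l1.2, T.dev_j u huJ])
    obtain ⟨x, x1, x2⟩ := ((t.eventually (hOo.mem_nhds hs)).and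
      ((Φ.limF_deep |s|).filter_mono h1)).exists
    refine hW x.1 (x.2.1 + s) (x2 ⟨by linarith [neg_abs_le s], by linarith [le_abs_self s]⟩) ?_
    simpa using hO x.2.2.1 _ x1
  · obtain ⟨s', a1, η, u', a2, a3, a4, -⟩ := T.lim_ret (l := l)
      (σ := fun x t => x.2.2.1⁻¹ • Φ.σ x.1 (x.2.1 + t)) (z := fun x => (x.2.2.2 : ℂ))
      (q := T.j u) (s := s) (hc.mono fun x hx => by
        have := (Φ.line_at hx.1 hx.2).1
        rwa [hδ, ofReal_zero, zero_add] at this)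
      (by
        have := T.tendsto_j huJ h2 (hc.mono fun x hx => hx.1) 1
        simp only [one_smul] at this
        exact this.congr' (hc.mono fun x hx => (Φ.line_at hx.1 hx.2).2.symm))
      (fun s' _ => ⟨_, hseg s', l1.2 s'⟩) (by
        filter_upwards [(Φ.limF_deep (|s| + T.L)).filter_mono h1] with x hx
        obtain ⟨s', b1, η, u', b2, b3⟩ := Φ.ret x.1 (x.2.1 + s) (Subset.trans (Icc_subset_Icc
          (by linarith [neg_abs_le s, T.L_nonneg]) (by linarith [le_abs_self s])) hx)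
        exact ⟨s' - x.2.1, ⟨by linarith [b1.1], by linarith [b1.2]⟩, x.2.2.1⁻¹ * η, u', b2, by
          rw [add_sub_cancel, b3, mul_smul]⟩)
    refine ⟨s', a1, η, u', a2, Seg.unique S.et (hseg s') a3 ?_⟩
    rw [l1.2, T.dev_smul_j (T.mem_J_of_Icc a2), a4]

theorem good_of_interior (hOo : IsOpen O) (hO : ∀ (η : H), ∀ q ∈ O, η • q ∈ O)
    (hδ : ∀ a, Φ.δ a = 0) (hW : ∀ a, ∀ s ∈ Φ.W a, Φ.σ a s ∉ O) {u : ℝ} (hu : |u| < 3 * T.w)
    (hi : u ∈ interior Φ.N) : T.Good O (T.j u) := by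
  have huJ := T.mem_J_of_abs hu
  have tj : Tendsto T.j (𝓝 u) (𝓝 (T.j u)) := (T.cont.continuousAt (T.J_nhds hu)).tendsto
  have t1 : Tendsto (fun q' => (S.dev q').re) (𝓝 (T.j u)) (𝓝 u) := by
    have := (continuous_re.comp S.et.continuous).continuousAt (x := T.j u)
    rw [ContinuousAt] at this
    simpa [Function.comp_def, T.dev_j u huJ] using this
  filter_upwards [(tendsto_id.prodMk_nhds (tj.comp t1)).eventually
    ((Seg.refl (dev := S.dev) (T.j u)).eventually S.et),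
    t1 (mem_interior_iff_mem_nhds.1 hi)] with q' a1 a2 hg
  have hJ := Φ.N_subset_J a2
  refine T.nice_of_seg a1 (h := -(S.dev q').im) ?_
    (Φ.nice_of_mem_N hOo hO hδ hW a2 fun a ha => ?_)
  · simp only [Function.comp, T.dev_j _ hJ, id]
    apply Complex.ext <;> simp
  · rw [T.dev_j _ hJ]
    simpa using hg a ha

end Fam

namespace Transv

variable {S : Surf E H} (T : Transv S) {O : Set E}

/-- the family of all nice generic leaves -/
noncomputable def niceFam (O : Set E) : Fam T {q : E // S.Gen q ∧ T.Nice O q} where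
  F := ⊤
  σ q := q.2.2.choose
  z q := S.dev q
  δ _ := 0
  W _ := univ
  line q := by simpa using q.2.2.choose_spec.1
  δ_lim := tendsto_const_nhds
  ret q s _ := q.2.2.choose_spec.2.2.2 s

theorem isClosed_good (hOo : IsOpen O) (hO : ∀ (η : H), ∀ q ∈ O, η • q ∈ O)
    (gS : ∀ a ∈ S.Sing, ∀ b ∈ S.Sing, a.re = b.re → a = b)
    (gτ : ∀ η : H, (S.τ η).re = 0 → S.τ η = 0) : IsClosed {q | T.Good O q} := by
  rw [← closure_subset_iff_isClosed]
  intro q hq
  set Φ := T.niceFam O with hΦ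
  have hfin : {u | u ∈ Φ.N ∧ u ∈ Ioo (-T.w) T.w ∧ u ∉ interior Φ.N}.Finite := by
    rcases Φ.cycle_or_finite with ⟨c, -, -, η, h, h3, -, h5⟩ | h
    · have := gτ η (by rw [h5]; simp)
      rw [h5] at this
      simp [h3.ne'] at this
    · exact h
  let l : Filter {q : E // S.Gen q ∧ T.Nice O q} := comap Subtype.val (𝓝 q)
  have hl : l.NeBot := by
    refine comap_neBot fun N hN => ?_
    obtain ⟨q₁, a1, a2⟩ := mem_closure_iff_nhds.1 hq _ (interior_mem_nhds.2 hN)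
    obtain ⟨q₂, b1, b2, -⟩ := S.exists_gen
      (Filter.inter_mem (mem_interior_iff_mem_nhds.1 a1) a2)
    exact ⟨⟨q₂, b2, b1.2 b2⟩, b1.1⟩
  have h0 : Tendsto (fun a => Φ.σ a 0) l (𝓝 q) := by
    refine tendsto_comap.congr fun a => ?_
    exact a.2.2.choose_spec.2.1.symm
  obtain ⟨e, he, hfree⟩ : ∃ e : ℝ, (e = 1 ∨ e = -1) ∧
      ∀ s : ℝ, 0 ≤ e * s → Alive S.dev q (s * I) := by
    by_cases h : ∃ s : ℝ, 0 < s ∧ S.dev q + s * I ∈ S.Sing
    · obtain ⟨s₀, hs₀, hm⟩ := h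
      refine ⟨-1, Or.inr rfl, fun s hs => ?_⟩
      rcases eq_or_ne s 0 with rfl | hs0
      · exact ⟨q, Seg.refl q, by simp⟩
      refine S.alive_of_avoid fun t ht hm' => ?_
      have := congrArg im (gS _ hm _ hm' (by simp))
      simp at this
      have hs' : s < 0 := lt_of_le_of_ne (by linarith) hs0
      nlinarith [ht.1]
    · refine ⟨1, Or.inl rfl, fun s hs => ?_⟩
      rcases eq_or_ne s 0 with rfl | hs0
      · exact ⟨q, Seg.refl q, by simp⟩
      refine S.alive_of_avoid fun t ht hm' => h ⟨t * s, mul_pos ht.1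
        (lt_of_le_of_ne (by linarith) hs0.symm), ?_⟩
      rwa [ofReal_mul, mul_assoc]
  have hL := T.L_nonneg
  have key : ∀ k : ℕ, ∃ s' ∈ Icc (e * ((k + 1) * (T.L + 1))) (e * ((k + 1) * (T.L + 1)) + T.L),
      ∃ η : H, ∃ u ∈ Icc (-T.w) T.w, Seg S.dev q (η • T.j u) ∧
      (u : ℂ) + S.τ η = S.dev q + s' * I ∧ u ∈ Φ.N := by
    intro k
    have hk : (0 : ℝ) ≤ k := Nat.cast_nonneg k
    obtain ⟨s', a1, η, u, a2, a3, a4, l', a5, a6, t, f, a7, a8⟩ := T.lim_ret (l := l)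
      (σ := Φ.σ) (z := Φ.z) (s := e * ((k + 1) * (T.L + 1)))
      (Eventually.of_forall fun a => by simpa [hΦ, niceFam] using Φ.line a) h0
      (fun s' hs' => hfree s' (by
        rcases he with rfl | rfl <;> nlinarith [hs'.1, hs'.2]))
      (Eventually.of_forall fun a => Φ.ret a _ (subset_univ _))
    refine ⟨s', a1, η, u, a2, a3, a4, ?_⟩
    exact Φ.mem_N_of (l := l') (g := fun a => (a, t a, η, f a))
      (Φ.tendsto_limF le_top (fun m => Eventually.of_forall fun a => subset_univ _) a8) a7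
  choose s' k1 η u k2 k3 k4 k5 using key
  have hinj : Function.Injective u := by
    intro k k' hkk
    have e1 : S.τ ((η k)⁻¹ * η k') = ((s' k' - s' k : ℝ) : ℂ) * I := by
      have a := k4 k
      have b := k4 k'
      rw [hkk] at a
      rw [S.τ_mul, S.τ_inv]; push_cast; linear_combination b - a
    have e2 := gτ _ (by rw [e1]; simp)
    rw [e1] at e2
    have e3 : s' k' = s' k := by
      have := congrArg im e2
      simp at this; linarith
    have a := k1 k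
    have b := k1 k'
    rw [e3] at b
    by_contra hne
    rcases lt_or_gt_of_ne hne with h | h
    · have : (k : ℝ) + 1 ≤ k' := by exact_mod_cast h
      rcases he with rfl | rfl <;> nlinarith [a.1, a.2, b.1, b.2]
    · have : (k' : ℝ) + 1 ≤ k := by exact_mod_cast h
      rcases he with rfl | rfl <;> nlinarith [a.1, a.2, b.1, b.2]
  obtain ⟨_, ⟨k, rfl⟩, hk⟩ := (infinite_range_of_injective hinj).exists_notMem_finite
    (hfin.union (toFinite {-T.w, T.w}))
  simp only [mem_union, mem_ofPred_eq, mem_insert_iff, mem_singleton_iff, not_or, not_and,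
    not_not] at hk
  have hI : u k ∈ Ioo (-T.w) T.w :=
    ⟨lt_of_le_of_ne (k2 k).1 (Ne.symm hk.2.1), lt_of_le_of_ne (k2 k).2 hk.2.2⟩
  have hw := T.w_pos
  have hg := Φ.good_of_interior hOo hO (fun _ => rfl)
    (fun a s _ => a.2.2.choose_spec.2.2.1 s) (u := u k)
    (abs_lt.2 ⟨by linarith [hI.1], by linarith [hI.2]⟩) (hk.1 (k5 k) hI)
  exact T.good_of_seg (k3 k) (h := s' k)
    (by rw [T.dev_smul_j (T.mem_J_of_Icc (k2 k)), k4]) (T.good_smul hO hg (η k))

/-- the generic lemma in vertical position -/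
theorem generic_vertical (hOo : IsOpen O) (hO : ∀ (η : H), ∀ q ∈ O, η • q ∈ O)
    (gS : ∀ a ∈ S.Sing, ∀ b ∈ S.Sing, a.re = b.re → a = b)
    (gτ : ∀ η : H, (S.τ η).re = 0 → S.τ η = 0) {o : ℝ → E} {z : ℂ} (ho : IsLine S.dev o z I)
    (hwin : ∀ M : ℝ, ∃ a : ℝ, ∀ s ∈ Icc a (a + M), o s ∉ O ∧
      ∃ s' ∈ Icc s (s + T.L), ∃ η : H, ∃ u ∈ Icc (-T.w) T.w, o s' = η • T.j u) :
    ∃ B, S.Bd B ∧ ∀ q ∈ connectedComponent (o 0), q ∉ O ∧ ∃ η : H, η • q ∈ B := by
  choose a ha using hwin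
  let Φ : Fam T ℕ :=
    { F := atTop, σ := fun _ => o, z := fun _ => z, δ := fun _ => 0,
      W := fun n => Icc (a n) (a n + n),
      line := fun _ => by simpa using ho
      δ_lim := tendsto_const_nhds
      ret := fun n s hs => (ha n s (hs ⟨le_rfl, by linarith [T.L_nonneg]⟩)).2 }
  have hdeep : ∀ m : ℝ, ∃ᶠ n in Φ.F, ∃ s, Icc (s - m) (s + m) ⊆ Φ.W n := by
    intro m
    refine Eventually.frequently ?_
    filter_upwards [tendsto_natCast_atTop_atTop.eventually_ge_atTop (2 * m)] with n hn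
    exact ⟨a n + m, Icc_subset_Icc (by linarith) (by linarith)⟩
  have hw := T.w_pos
  obtain ⟨x, hx, hi⟩ : ∃ u ∈ Ioo (-T.w) T.w, u ∈ interior Φ.N := by
    by_contra hc
    push Not at hc
    have hτ : ∀ (η : H) (h : ℝ), 0 < h → S.τ η ≠ h * I := by
      intro η h h3 h5
      have := gτ η (by rw [h5]; simp)
      rw [h5] at this
      simp [h3.ne'] at this
    rcases Φ.cycle_or_finite with ⟨c, -, -, η, h, h3, -, h5⟩ | hfin
    · exact hτ η h h3 h5
    · obtain ⟨Hm, hH⟩ := Φ.finite_case (Φ.finite_of_no_interior hfin hc) hdeep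
      obtain ⟨n, c, -, η, -, -, h, -, h3, -, h5, -⟩ := (hH 1 one_pos).exists
      exact hτ η h h3 h5
  have hx3 : |x| < 3 * T.w := abs_lt.2 ⟨by linarith [hx.1], by linarith [hx.2]⟩
  have hg := Φ.good_of_interior hOo hO (fun _ => rfl) (fun n s hs => (ha n s hs).1) hx3 hi
  obtain ⟨n, s, η, u, -, huJ, he⟩ := (Φ.frequently_of_mem_N (interior_subset hi) univ_mem).exists
  have hc1 : η • T.j x ∈ connectedComponent (o 0) := by
    have c1 : IsPreconnected (range o ∪ (fun u => η • T.j u) '' T.J) :=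
      IsPreconnected.union (o s) ⟨s, rfl⟩ ⟨u, huJ, he.symm⟩
        (isPreconnected_range ho.1)
        (isPreconnected_Icc.image _ ((S.cont_smul η).comp_continuousOn T.cont))
    exact c1.subset_connectedComponent (Or.inl ⟨0, rfl⟩) (Or.inr ⟨x, T.mem_J_of_abs hx3, rfl⟩)
  have hclopen : IsClopen {q | T.Good O q} :=
    ⟨T.isClosed_good hOo hO gS gτ, isOpen_setOfPred_eventually_nhds⟩
  have hall : connectedComponent (o 0) ⊆ {q | T.Good O q} := by
    rw [connectedComponent_eq hc1]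
    exact hclopen.connectedComponent_subset (T.good_smul hO hg η)
  refine ⟨_, S.bd_reach _ 1 (S.bd_reach _ T.L T.bd_J), fun q hq => ⟨fun hqO => ?_, ?_⟩⟩
  · obtain ⟨q', b1, b2, -⟩ := S.exists_gen (Filter.inter_mem (hOo.mem_nhds hqO) (hall hq))
    obtain ⟨σ, -, c2, c3, -⟩ := b1.2 b2
    exact c3 0 (c2 ▸ b1.1)
  · obtain ⟨q', b1, b2, b3, b4⟩ := S.exists_gen (hall hq)
    obtain ⟨σ, c1, c2, -, c4⟩ := b1 b2
    obtain ⟨s', d1, η', u', d2, d3⟩ := c4 0
    refine ⟨η'⁻¹, η'⁻¹ • q', ⟨T.j u', ⟨u', T.mem_J_of_Icc d2, rfl⟩, ?_, ?_⟩,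
      S.seg_smul b3.symm _, ?_⟩
    · have := S.seg_smul (c1.seg S.et s' 0) η'⁻¹
      rwa [d3, c2, inv_smul_smul] at this
    · have e := c1.2 s'
      rw [d3, S.dev_smul] at e
      have : S.dev (η'⁻¹ • q') - S.dev (T.j u') = -(s' * I) := by
        rw [S.dev_smul, S.τ_inv]; linear_combination -e
      rw [this, norm_neg, norm_mul, norm_I, mul_one, norm_real, Real.norm_eq_abs,
        abs_of_nonneg d1.1]
      simpa using d1.2
    · rw [S.dev_smul, S.dev_smul, add_sub_add_right_eq_sub, norm_sub_rev]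
      exact b4

end Transv

end Pool.Agent.Lib.MP_c02c19_gt
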