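import Pool.Agent.Lib.MP_c02c19_gt.Rec

/-!
Polygons with infinite holonomy are not secure; the main theorem.
-/

namespace Pool.Agent.Lib.MP_c02c19_gt

open Set Filter Topology Metric Complex Pointwise

variable {P : Set ℂ} {S : Finset (ℂ × ℂ)}

instance : TopologicalSpace (Gam S) := ⊥

instance : DiscreteTopology (Gam S) := ⟨rfl⟩

variable (S) in
/-- itineraries: position, direction and step at integer times -/
abbrev Itin := ℕ → ℂ × ℂ × Gam S

/-- the shift -/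
def shift (k : Itin S) : Itin S := fun i => k (i + 1)

theorem continuous_shift : Continuous (shift (S := S)) :=
  continuous_pi fun i => continuous_apply (i + 1)

theorem shift_iterate (a : ℕ) (k : Itin S) (i : ℕ) : shift^[a] k i = k (a + i) := by
  induction a generalizing i with
  | zero => simp
  | succ a ih => rw [Function.iterate_succ_apply', shift, ih]; congr 1; omega

/-- accumulated steps -/
noncomputable def cum (k : Itin S) : ℕ → Gam S
  | 0 => 1
  | i + 1 => cum k i * (k i).2.2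

theorem continuous_cum (i : ℕ) : Continuous fun k : Itin S => cum k i := by
  induction i with
  | zero => exact continuous_const
  | succ i ih =>
    exact (continuous_of_discreteTopology (f := fun p : Gam S × Gam S => p.1 * p.2)).comp
      (ih.prodMk (by fun_prop))

theorem cum_add (k : Itin S) (a j : ℕ) : cum k (a + j) = cum k a * cum (shift^[a] k) j := by
  induction j with
  | zero => simp [cum]
  | succ j ih => rw [← add_assoc, cum, cum, ih, shift_iterate, mul_assoc]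

theorem cum_mem {F : Set (Gam S)} {k : Itin S} (h : ∀ i, (k i).2.2 ∈ F) {n i : ℕ} (hi : i ≤ n) :
    cum k i ∈ ⋃ j ∈ Iic n, F ^ j := by
  refine mem_iUnion₂.2 ⟨i, hi, ?_⟩
  clear hi
  induction i with
  | zero => rw [pow_zero]; exact Set.mem_one.2 rfl
  | succ i ih => rw [pow_succ]; exact mul_mem_mul ih (h i)

theorem cum_dev {k : Itin S} (h1 : ∀ i, (k i).2.2.1 (k (i + 1)).1 = (k i).1 + (k i).2.1)
    (h2 : ∀ i, hol (k i).2.2 (k (i + 1)).2.1 = (k i).2.1) (i : ℕ) :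
    (cum k i).1 (k i).1 = (k 0).1 + (i : ℝ) * (k 0).2.1 ∧ hol (cum k i) (k i).2.1 = (k 0).2.1 := by
  induction i with
  | zero => simp [cum]
  | succ i ih =>
    refine ⟨?_, by rw [cum, map_mul, Ort.mul_apply, h2, ih.2]⟩
    rw [cum, Subgroup.coe_mul, Mot.mul_apply, h1, Mot.apply_add, ih.1, ← hol_apply, ih.2]
    push_cast; ring

theorem false_of_syndetic_hits {K : Set (Itin S)} (hne : K.Nonempty) (hinv : MapsTo shift K K)
    {F : Set (Gam S)} (hF : F.Finite) (h0 : ∀ k ∈ K, ∀ i, (k i).2.2 ∈ F ∧ ‖(k i).2.1‖ = 1)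
    (h1 : ∀ k ∈ K, ∀ i, (k i).2.2.1 (k (i + 1)).1 = (k i).1 + (k i).2.1)
    (h2 : ∀ k ∈ K, ∀ i, hol (k i).2.2 (k (i + 1)).2.1 = (k i).2.1)
    (h3 : ∀ k ∈ K, ∀ G : Set Ort, G.Finite → ∃ i, hol (cum k i) ∉ G)
    {C : Set ℂ} (hC : C.Finite) {L : ℕ}
    (h4 : ∀ k ∈ K, ∃ i ≤ L, ∃ c ∈ C, c ∈ segment ℝ (k i).1 ((k i).1 + (k i).2.1)) : False := by
  have hV : (image2 (fun (g : Gam S) c => g.1 c) (⋃ j ∈ Iic (L + 2 + L), F ^ j) C).Finite :=
    ((finite_Iic _).biUnion fun j _ => finite_pow_of_finite hF j).image2 _ hC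
  set V := image2 (fun (g : Gam S) c => g.1 c) (⋃ j ∈ Iic (L + 2 + L), F ^ j) C
  have hit : ∀ k ∈ K, ∀ i ≤ L + 2 + L, ∀ c ∈ C, c ∈ segment ℝ (k i).1 ((k i).1 + (k i).2.1) →
      ∃ r ∈ Icc (0 : ℝ) 1, (k 0).1 + (i + r : ℝ) * (k 0).2.1 ∈ V := by
    intro k hk i hi c hc hm
    obtain ⟨r, hr, rfl⟩ := mem_segment_add_iff.1 hm
    refine ⟨r, hr, _, cum_mem (fun i => (h0 k hk i).1) hi, _, hc, ?_⟩
    obtain ⟨e1, e2⟩ := cum_dev (h1 k hk) (h2 k hk) i
    simp only
    rw [Mot.apply_line, e1, ← hol_apply, e2]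
    push_cast; ring
  have hdir : ∀ k ∈ K, (k 0).2.1 ∈ image2 (fun u u' : ℂ => (u' - u) / ‖u' - u‖) V V := by
    intro k hk
    obtain ⟨i, a1, c, a2, a3⟩ := h4 k hk
    obtain ⟨j, b1, c', b2, b3⟩ := h4 _ (hinv.iterate (L + 2) hk)
    rw [shift_iterate] at b3
    obtain ⟨r, a4, a5⟩ := hit k hk i (by omega) c a2 a3
    obtain ⟨r', b4, b5⟩ := hit k hk _ (by omega) c' b2 b3
    refine ⟨_, a5, _, b5, ?_⟩
    have hi : (i : ℝ) ≤ L := by exact_mod_cast a1
    have hpos : 0 < ((L + 2 + j : ℕ) : ℝ) + r' - (i + r) := by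
      push_cast
      linarith [a4.2, b4.1, (Nat.cast_nonneg j : (0 : ℝ) ≤ j)]
    simp only
    rw [add_sub_add_left_eq_sub, ← sub_mul, ← ofReal_sub, norm_mul, (h0 k hk 0).2, mul_one,
      norm_real, Real.norm_eq_abs, abs_of_pos hpos,
      mul_div_cancel_left₀ _ (ofReal_ne_zero.2 hpos.ne')]
  obtain ⟨k, hk⟩ := hne
  have hθ : (k 0).2.1 ≠ 0 := by
    intro h
    have := (h0 k hk 0).2
    rw [h] at this
    simp at this
  obtain ⟨i, hi⟩ := h3 k hk _ (Ort.finite_fibre_inv (hV.image2 _ hV) hθ)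
  refine hi ?_
  have := hdir _ (hinv.iterate i hk)
  rw [shift_iterate, add_zero] at this
  rwa [mem_ofPred_eq, ← (cum_dev (h1 k hk) (h2 k hk) i).2, Ort.inv_apply_self]

variable [hP : Fact (IsPolygon P S)]

theorem not_secure_of_ray {k : Itin S} {F : Set (Gam S)} (hF : F.Finite)
    (h0 : ∀ i, (k i).2.2 ∈ F ∧ ‖(k i).2.1‖ = 1 ∧ (k i).1 ∈ core P S)
    (h1 : ∀ i, (k i).2.2.1 (k (i + 1)).1 = (k i).1 + (k i).2.1)
    (h2 : ∀ i, hol (k i).2.2 (k (i + 1)).2.1 = (k i).2.1)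
    (h3 : ∀ G : Set Ort, G.Finite → ∃ i, hol (cum k i) ∉ G)
    (h4 : ∀ i, Seg udev (iota P S (k i).1) ((k i).2.2 • iota P S (k (i + 1)).1))
    (h5 : ∀ U : Set (Itin S), IsOpen U → k ∈ U → ∃ L : ℕ, ∀ a, ∃ j ≤ L, shift^[a + j] k ∈ U)
    (hsec : ∀ x ∈ interior P, ∀ y ∈ interior P, x ≠ y → SecurePair P S x y) : False := by
  set p := (k 0).1 with hp
  set θ := (k 0).2.1 with hθ
  set q : ℕ → Unf P S := fun i => cum k i • iota P S (k i).1 with hq
  have hd : ∀ i, udev (q i) = p + (i : ℝ) * θ := fun i => by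
    rw [hq, udev_smul_iota _ (h0 i).2.2, (cum_dev h1 h2 i).1]
  have hd0 : udev (q 0) = p + (0 : ℝ) * θ := by simpa using hd 0
  have hmem : ∀ {a b : ℝ}, 0 ≤ a → a ≤ b → p + a * θ ∈ segment ℝ (udev (q 0)) (p + b * θ) := by
    intro a b ha hb
    rw [hd0, segment_line, uIcc_of_le (ha.trans hb)]
    exact ⟨a, ⟨ha, hb⟩, rfl⟩
  have hs : ∀ i, Seg udev (q 0) (q i) := by
    intro i
    induction i with
    | zero => exact Seg.refl _
    | succ i ih =>
      refine Seg.trans etale_udev ih ?_ ?_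
      · have := seg_gsmul (h4 i) (cum k i)
        rwa [smul_smul] at this
      · rw [hd i, hd (i + 1)]
        exact hmem (Nat.cast_nonneg i) (by push_cast; linarith)
  set R : Set (Unf P S) := {m | Seg udev (q 0) m ∧ ∃ r : ℝ, 0 ≤ r ∧ udev m = p + r * θ} with hR
  have hex : ∀ r : ℝ, 0 ≤ r → ∃ m ∈ R, udev m = p + r * θ := by
    intro r hr
    obtain ⟨m, m1, m2, -⟩ := (hs ⌈r⌉₊).split (u := p + r * θ) (by
      rw [hd ⌈r⌉₊]; exact hmem hr (Nat.le_ceil r))
    exact ⟨m, ⟨m2, r, hr, m1⟩, m1⟩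
  have hle : ∀ m m' : Unf P S, ∀ r r' : ℝ, Seg udev (q 0) m → Seg udev (q 0) m' → 0 ≤ r → r ≤ r' →
      udev m = p + r * θ → udev m' = p + r' * θ → Seg udev m m' := by
    intro m m' r r' a1 a2 a3 a4 a5 a6
    obtain ⟨m₁, m1, m2, m3⟩ := a2.split (u := p + r * θ) (by rw [a6]; exact hmem a3 a4)
    rwa [Seg.unique etale_udev a1 m2 (a5.trans m1.symm)]
  have hq0 : q 0 = iota P S p := one_smul _ _
  refine not_secure_of_rec (R := R) (h0 0).2.1 isOpen_interior Subset.rfl ?_ ?_ ?_ ?_ hsec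
  · rintro m ⟨a1, r, a2, a3⟩ m' ⟨b1, r', b2, b3⟩
    rcases le_total r r' with h | h
    · exact hle m m' r r' a1 b1 a2 h a3 b3
    · exact (hle m' m r' r b1 a1 b2 h b3 a3).symm
  · rintro m ⟨-, r, a2, a3⟩ r' hr'
    obtain ⟨m', b1, b2⟩ := hex (r + r') (by linarith)
    exact ⟨m', b1, by rw [b2, a3]; push_cast; ring⟩
  · obtain ⟨L, hL⟩ := exists_interior_on_seg (P := P) (S := S)
    obtain ⟨n, hn⟩ := exists_nat_gt L
    obtain ⟨m, m1, m2, m3⟩ := hL (q 0) (q n) (hq0 ▸ iota_mem (h0 0).2.2) (hs n) (by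
      rw [hd n, hd0, add_sub_add_left_eq_sub, ← sub_mul, norm_mul, (h0 0).2.1]
      simpa using hn)
    rw [hd n, hd0, segment_line, uIcc_of_le (Nat.cast_nonneg n)] at m2
    obtain ⟨r, r1, r2⟩ := m2
    exact ⟨m, ⟨m1, r, r1.1, r2.symm⟩, m3⟩
  · rintro m ⟨a1, r, a2, a3⟩ hi N hN G hG
    obtain ⟨γ, hγ⟩ := exists_Sh m
    obtain ⟨ε, hε, χ, c1, c2, c3⟩ := etale_udev.exists_chart_subset m
      (inter_mem (Sh.eventually hγ hi) (continuous_proj.continuousAt.preimage_mem_nhds hN))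
    have t1 : Tendsto (fun x : ℂ × ℂ => x.1 + r * x.2) (𝓝 (p, θ)) (𝓝 (udev m)) := by
      rw [a3]; exact Continuous.tendsto (by fun_prop) (p, θ)
    have t2 : Tendsto (fun x : ℂ × ℂ => χ (x.1 + r * x.2)) (𝓝 (p, θ)) (𝓝 m) := by
      have := (c1.1.continuousAt (ball_mem_nhds _ hε)).tendsto
      rw [c2] at this
      exact this.comp t1
    have t3 : Tendsto (fun x : ℂ × ℂ => iota P S x.1) (𝓝[Prod.fst ⁻¹' core P S] (p, θ))
        (𝓝 (q 0)) := by
      rw [hq0]
      exact (continuousOn_iota p (h0 0).2.2).tendsto.comp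
        (continuous_fst.continuousWithinAt.tendsto_nhdsWithin (mapsTo_preimage _ _))
    have e1 := eventually_nhdsWithin_iff.1 ((t3.prodMk_nhds
      (t2.mono_left nhdsWithin_le_nhds)).eventually (a1.eventually etale_udev))
    obtain ⟨V, v1, v2, v3⟩ := _root_.eventually_nhds_iff.1 (e1.and (t1 (ball_mem_nhds _ hε)))
    obtain ⟨L, hL⟩ := h5 {k' | ((k' 0).1, (k' 0).2.1) ∈ V} (v2.preimage (by fun_prop)) v3
    obtain ⟨a, ha⟩ := h3 _ (hG.image2 (fun g (h : Gam S) => g * (hol (h * γ))⁻¹)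
      ((finite_Iic L).biUnion fun j _ => finite_pow_of_finite hF j))
    obtain ⟨j, j1, j2⟩ := hL a
    rw [mem_ofPred_eq, shift_iterate, add_zero] at j2
    obtain ⟨w1, w2⟩ := v1 _ j2
    obtain ⟨e2, e3⟩ := cum_dev h1 h2 (a + j)
    have w3 := seg_gsmul (w1 (h0 _).2.2) (cum k (a + j))
    have w4 : udev (cum k (a + j) • χ ((k (a + j)).1 + r * (k (a + j)).2.1)) =
        p + (((a + j : ℕ) : ℝ) + r : ℝ) * θ := by
      rw [udev_smul, c1.2 _ w2, Mot.apply_line, e2, ← hol_apply, e3]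
      push_cast; ring
    refine ⟨_, ⟨Seg.trans etale_udev (hs (a + j)) w3 ?_, _, by positivity, w4⟩, ?_, _,
      Sh.smul (c3 _ w2).1.1 _, fun h => ha ⟨_, h, cum (shift^[a] k) j, cum_mem (fun i => ?_) j1, ?_⟩⟩
    · rw [hd (a + j), w4]
      exact hmem (Nat.cast_nonneg (a + j)) (le_add_of_nonneg_right a2)
    · rw [proj_smul]; exact (c3 _ w2).2
    · rw [shift_iterate]; exact (h0 _).1
    · simp [cum_add]

theorem not_secure_of_wild {o : ℝ → Unf P S} {z θ : ℂ} (hθ : ‖θ‖ = 1) (ho : IsLine udev o z θ)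
    {g : ℕ → Gam S} (hg : ∀ a : ℕ, o a ∈ Sh (g a))
    (hU : ∀ F : Set Ort, F.Finite → ∃ a, hol (g a) ∉ F)
    (hW : ∀ F : Set Ort, F.Finite → ∃ n : ℕ, ∃ F' : Set Ort, F'.Finite ∧ ∀ a, hol (g a) ∉ F' →
      ∃ i ≤ n, hol ((g a)⁻¹ * g (a + i)) ∉ F)
    (hsec : ∀ x ∈ interior P, ∀ y ∈ interior P, x ≠ y → SecurePair P S x y) : False := by
  obtain ⟨Fr, hFr, hr⟩ := reach_finite (P := P) (S := S) 1
  obtain ⟨Fd, hFd, hFd1, hdeath⟩ := alive_of_avoid_verts (P := P) (S := S) 1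
  set ω : ℕ → Itin S := fun a i => (proj (o (a + i : ℕ)), (hol (g (a + i)))⁻¹ θ,
    (g (a + i))⁻¹ * g (a + i + 1)) with hω
  have hstep : ∀ a : ℕ, udev (o (a + 1 : ℕ)) = udev (o a) + θ := fun a => by
    rw [ho.2, ho.2]; push_cast; ring
  have hst : ∀ a : ℕ, (g a)⁻¹ * g (a + 1) ∈ Fr := fun a =>
    hr _ _ _ _ (hg a) (hg (a + 1)) (ho.seg etale_udev _ _) (by
      rw [hstep, add_sub_cancel_left, hθ])
  have hsh : ∀ a, shift (ω a) = ω (a + 1) := fun a => funext fun i => by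
    simp only [shift, hω, show a + (i + 1) = a + 1 + i by omega]
  have hcum : ∀ a i, cum (ω a) i = (g a)⁻¹ * g (a + i) := by
    intro a i
    induction i with
    | zero => simp [cum]
    | succ i ih => rw [cum, ih, hω]; simp only; group
  set Φ : Filter ℕ := comap (fun a => hol (g a)) cofinite with hΦ
  have hΦe : ∀ F : Set Ort, F.Finite → ∀ᶠ a in Φ, hol (g a) ∉ F := fun F hF =>
    preimage_mem_comap hF.compl_mem_cofinite
  have : Φ.NeBot := comap_neBot fun t ht => by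
    obtain ⟨a, ha⟩ := hU _ (mem_cofinite.1 ht)
    exact ⟨a, not_not.1 ha⟩
  have hsucc : Tendsto (fun a => a + 1) Φ Φ := by
    rw [hΦ, tendsto_comap_iff]
    intro t ht
    rw [mem_map]
    filter_upwards [hΦe _ ((mem_cofinite.1 ht).image2 (fun h (f : Gam S) => h * (hol f)⁻¹) hFr)]
      with a ha
    by_contra hc
    exact ha ⟨_, hc, _, hst a, by simp⟩
  set K : Set (Itin S) := {k | MapClusterPt k Φ ω} with hK
  set K₁ : Set (Itin S) := univ.pi fun _ => P ×ˢ sphere 0 1 ×ˢ Fr with hK₁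
  have hK₁c : IsCompact K₁ := isCompact_univ_pi fun _ =>
    hP.out.compact.prod ((isCompact_sphere _ _).prod hFr.isCompact)
  have hω₁ : ∀ a, ω a ∈ K₁ := fun a i _ => ⟨(proj_mem _).1, by
    rw [mem_sphere_zero_iff_norm, LinearIsometryEquiv.norm_map, hθ], hst _⟩
  have hKK : K ⊆ K₁ := fun k hk => hK₁c.isClosed.mem_of_mapClusterPt hk (Eventually.of_forall hω₁)
  have hKc : IsCompact K := hK₁c.of_isClosed_subset isClosed_setOfPred_clusterPt hKK
  have hKn : K.Nonempty := by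
    obtain ⟨k, -, hk⟩ := hK₁c.exists_mapClusterPt (f := Φ) (u := ω)
      (le_principal_iff.2 (mem_map.2 (Eventually.of_forall hω₁)))
    exact ⟨k, hk⟩
  have hinv : MapsTo shift K K := fun k hk => MapClusterPt.of_comp hsucc (by
    have := MapClusterPt.continuousAt_comp continuous_shift.continuousAt hk
    rwa [show shift ∘ ω = ω ∘ fun a => a + 1 from funext hsh] at this)
  have c1 : Continuous fun x : Gam S × ℂ => x.1.1 x.2 :=
    continuous_prod_of_discrete_left.2 fun γ => γ.1.continuous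
  have c2 : Continuous fun x : Gam S × ℂ => hol x.1 x.2 :=
    continuous_prod_of_discrete_left.2 fun γ => (hol γ).continuous
  have h1 : ∀ k ∈ K, ∀ i, (k i).2.2.1 (k (i + 1)).1 = (k i).1 + (k i).2.1 := by
    intro k hk i
    refine IsClosed.mem_of_mapClusterPt (s := {k : Itin S |
      (k i).2.2.1 (k (i + 1)).1 = (k i).1 + (k i).2.1}) (isClosed_eq (c1.comp
        (f := fun k : Itin S => ((k i).2.2, (k (i + 1)).1)) (by fun_prop)) (by fun_prop)) hk
      (Eventually.of_forall fun a => ?_)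
    simp only [hω, mem_ofPred_eq, ← add_assoc]
    rw [Subgroup.coe_mul, Mot.mul_apply, ← Sh.dev_eq (hg _), hstep, Subgroup.coe_inv,
      Mot.apply_add, ← Sh.proj_eq (hg _), map_inv, hol_apply]
  have h2 : ∀ k ∈ K, ∀ i, hol (k i).2.2 (k (i + 1)).2.1 = (k i).2.1 := by
    intro k hk i
    refine IsClosed.mem_of_mapClusterPt (s := {k : Itin S |
      hol (k i).2.2 (k (i + 1)).2.1 = (k i).2.1}) (isClosed_eq (c2.comp
        (f := fun k : Itin S => ((k i).2.2, (k (i + 1)).2.1)) (by fun_prop)) (by fun_prop)) hk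
      (Eventually.of_forall fun a => ?_)
    simp only [hω, mem_ofPred_eq, ← add_assoc]
    rw [map_mul, Ort.mul_apply, Ort.apply_inv_self, map_inv]
  have h3 : ∀ k ∈ K, ∀ G : Set Ort, G.Finite → ∃ i, hol (cum k i) ∉ G := by
    intro k hk G hG
    obtain ⟨n, F', hF', h⟩ := hW G hG
    have := IsClosed.mem_of_mapClusterPt (s := ⋃ i ∈ Iic n,
      (fun k : Itin S => cum k i) ⁻¹' {γ | hol γ ∉ G}) ((finite_Iic n).isClosed_biUnion
        fun i _ => (isClosed_discrete _).preimage (continuous_cum i)) hk (by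
      filter_upwards [hΦe F' hF'] with a ha
      obtain ⟨i, i1, i2⟩ := h a ha
      exact mem_iUnion₂.2 ⟨i, i1, by rwa [mem_preimage, hcum]⟩)
    obtain ⟨i, -, hi⟩ := mem_iUnion₂.1 this
    exact ⟨i, hi⟩
  have hC : (image2 (fun (γ : Gam S) v => γ.1 v) Fd (verts S)).Finite :=
    hFd.image2 _ (verts_finite S)
  set C := image2 (fun (γ : Gam S) v => γ.1 v) Fd (verts S) with hCd
  set T : Set (Itin S) := {k | ∃ c ∈ C, c ∈ segment ℝ (k 0).1 ((k 0).1 + (k 0).2.1)} with hT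
  have hTc : IsClosed T := by
    have : T = ⋃ c ∈ C, {k : Itin S | dist (k 0).1 c + dist c ((k 0).1 + (k 0).2.1) =
        dist (k 0).1 ((k 0).1 + (k 0).2.1)} := by
      ext k
      simp only [hT, mem_ofPred_eq, mem_iUnion, exists_prop, mem_segment_iff_wbtw]
      exact exists_congr fun c => and_congr_right fun _ => dist_add_dist_eq_iff.symm
    rw [this]
    exact hC.isClosed_biUnion fun c _ => isClosed_eq (by fun_prop) (by fun_prop)
  have hcore : ∀ k ∈ K, k ∉ T → (k 0).1 ∈ core P S := fun k hk hT' =>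
    ⟨(hKK hk 0 trivial).1, fun hv => hT' ⟨_, ⟨1, hFd1, _, hv, rfl⟩, left_mem_segment _ _ _⟩⟩
  have h4 : ∀ k ∈ K, k ∉ T → (k 1).1 ∈ core P S →
      Seg udev (iota P S (k 0).1) ((k 0).2.2 • iota P S (k 1).1) := by
    intro k hk hT' hc1
    have hc0 := hcore k hk hT'
    obtain ⟨m, m1, m2⟩ := hdeath _ 1 (k 0).2.1 (iota_mem hc0)
      (mem_sphere_zero_iff_norm.1 (hKK hk 0 trivial).2.1).le fun s hs γ hγ w hw he => by
        rw [udev_iota hc0, one_mul] at he
        exact hT' ⟨_, ⟨γ, hγ, w, hw, he.symm⟩, mem_segment_add _ _ (Ioc_subset_Icc_self hs)⟩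
    obtain ⟨U, u1, u2⟩ := mapClusterPt_iff_ultrafilter.1 hk
    have t : ∀ i, (k i).1 ∈ core P S → ∀ γ : Gam S, Tendsto (fun a => γ • iota P S (ω a i).1) U
        (𝓝 (γ • iota P S (k i).1)) := fun i hi γ =>
      (continuousOn_smul_iota γ _ hi).tendsto.comp (tendsto_nhdsWithin_iff.2
        ⟨((show Continuous fun k : Itin S => (k i).1 by fun_prop).tendsto k).comp u2,
          Eventually.of_forall fun a => proj_mem _⟩)
    have t0 := t 0 hc0 1
    simp only [one_smul] at t0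
    have t2 : ∀ᶠ a in (U : Filter ℕ), (ω a 0).2.2 = (k 0).2.2 := by
      have : Tendsto (fun a => (ω a 0).2.2) U (𝓝 (k 0).2.2) :=
        ((show Continuous fun k : Itin S => (k 0).2.2 by fun_prop).tendsto k).comp u2
      rwa [nhds_discrete, tendsto_pure] at this
    rw [Seg.eq_of_tendsto etale_udev m1 t0 (t 1 hc1 (k 0).2.2) ?_ ?_]
    · exact m1
    · rw [m2, udev_smul_iota _ hc1, udev_iota hc0]; exact h1 k hk 0
    · filter_upwards [t2] with a ha
      rw [← ha]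
      have := seg_gsmul (ho.seg etale_udev (a : ℕ) (a + 1 : ℕ)) (g a)⁻¹
      rw [Sh.eq (hg a), Sh.eq (hg (a + 1)), inv_smul_smul, smul_smul] at this
      simpa only [proj_smul_iota _ (proj_mem _), hω, add_zero] using this
  obtain ⟨K₀, k1, k2, k3, k4, k5⟩ := exists_minimal_set continuous_shift hKc hKn hinv hTc
  have h0 : ∀ k ∈ K, ∀ i, (k i).2.2 ∈ Fr ∧ ‖(k i).2.1‖ = 1 := fun k hk i =>
    ⟨(hKK hk i trivial).2.2, mem_sphere_zero_iff_norm.1 (hKK hk i trivial).2.1⟩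
  rcases k5 with ⟨L, hL⟩ | ⟨k, hk, hk'⟩
  · refine false_of_syndetic_hits k2 k3 hFr (fun k hk => h0 k (k1 hk)) (fun k hk => h1 k (k1 hk))
      (fun k hk => h2 k (k1 hk)) (fun k hk => h3 k (k1 hk)) hC (L := L) fun k hk => ?_
    obtain ⟨i, i1, i2⟩ := hL k hk
    rw [hT, mem_ofPred_eq, shift_iterate, add_zero] at i2
    exact ⟨i, i1, i2⟩
  · have hc : ∀ i, (k i).1 ∈ core P S := fun i => by
      have := hcore _ (hinv.iterate i (k1 hk)) (hk' i)
      rwa [shift_iterate, add_zero] at this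
    refine not_secure_of_ray hFr (fun i => ⟨(h0 k (k1 hk) i).1, (h0 k (k1 hk) i).2, hc i⟩)
      (h1 k (k1 hk)) (h2 k (k1 hk)) (h3 k (k1 hk)) (fun i => ?_) (fun U hU hkU => ?_) hsec
    · have := h4 _ (hinv.iterate i (k1 hk)) (hk' i) (by rw [shift_iterate]; exact hc _)
      simpa only [shift_iterate, add_zero] using this
    · obtain ⟨L, hL⟩ := k4 U hU ⟨k, hkU, hk⟩
      refine ⟨L, fun a => ?_⟩
      obtain ⟨j, j1, j2⟩ := hL _ (k3.iterate a hk)
      exact ⟨j, j1, by rwa [add_comm, Function.iterate_add_apply]⟩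

theorem finite_hol_of_secure
    (hsec : ∀ x ∈ interior P, ∀ y ∈ interior P, x ≠ y → SecurePair P S x y) :
    (range (hol : Gam S → Ort)).Finite := by
  by_contra hG
  obtain ⟨x, hx, hxs⟩ := exists_interior_not_sing (P := P) (S := S)
  have hq : (psurf P S).dev (iota P S x) = x := udev_iota (hP.out.interior_subset_core hx)
  obtain ⟨θ, hθ, -, g2, g3, o, ho, -⟩ := (psurf P S).exists_generic_line (q := iota P S x)
    (by rwa [hq]) countable_empty
  choose g hg using fun a : ℕ => exists_Sh (o a)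
  have hU : ∀ F : Set Ort, F.Finite → ∃ a, hol (g a) ∉ F := by
    intro F hF
    by_contra hc
    push Not at hc
    obtain ⟨K, hK, hret⟩ := exists_compact_return (P := P) (S := S) hF
    obtain ⟨B, hB, h⟩ := (psurf P S).generic hK hθ g2 g3 isOpen_empty (fun _ _ h => h.elim) ho
      zero_le_one fun M => ⟨0, fun s hs => ⟨notMem_empty _, hret o _ θ ho hθ ⌊s⌋₊ _ (hg _) (hc _) s
        ⟨Nat.floor_le hs.1, (Nat.lt_floor_add_one s).le⟩⟩⟩
    exact hG (finite_hol_of_cover hB fun q =>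
      (h q (by rw [PreconnectedSpace.connectedComponent_eq_univ]; trivial)).2)
  by_cases hT : ∃ F : Set Ort, F.Finite ∧ ∀ n : ℕ, ∀ F' : Set Ort, F'.Finite →
      ∃ a, hol (g a) ∉ F' ∧ ∀ i ≤ n, hol ((g a)⁻¹ * g (a + i)) ∈ F
  · obtain ⟨F, hF, h⟩ := hT
    exact not_secure_of_tame hθ ho hg hF h hsec
  · push Not at hT
    exact not_secure_of_wild hθ ho hg hU hT hsec

omit hP in
theorem almostIntegrable_of_secure (h : IsPolygon P S)
    (hsec : ∀ x ∈ interior P, ∀ y ∈ interior P, x ≠ y → SecurePair P S x y) :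
    AlmostIntegrable P :=
  haveI : Fact (IsPolygon P S) := ⟨h⟩
  almostIntegrable_of_finite_hol (finite_hol_of_secure hsec) hsec

end Pool.Agent.Lib.MP_c02c19_gt
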