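import Pool.Agent.Lib.MP_c02c19_gt.Surf
import Pool.Agent.Lib.MP_c02c19_gt.Pure

/-!
Limit sets on a horizontal transversal of long windows of nearly vertical lines.
-/

namespace Pool.Agent.Lib.MP_c02c19_gt

open Set Filter Topology Metric Complex

variable {E : Type*} [TopologicalSpace E] {H : Type*} [Group H] [MulAction H E]

/-- a horizontal transversal together with a return time bound -/
structure Transv (S : Surf E H) where
  w : ℝ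
  L : ℝ
  j : ℝ → E
  w_pos : 0 < w
  L_nonneg : 0 ≤ L
  cont : ContinuousOn j (Icc (-(3 * w)) (3 * w))
  dev_j : ∀ u ∈ Icc (-(3 * w)) (3 * w), S.dev (j u) = u

/-- a family of nearly vertical lines with windows of returns -/
structure Fam {S : Surf E H} (T : Transv S) (ι : Type*) where
  F : Filter ι
  σ : ι → ℝ → E
  z : ι → ℂ
  δ : ι → ℝ
  W : ι → Set ℝ
  line : ∀ a, IsLine S.dev (σ a) (z a) (δ a + I)
  δ_lim : Tendsto δ F (𝓝 0)
  ret : ∀ a s, Icc s (s + T.L) ⊆ W a →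
    ∃ s' ∈ Icc s (s + T.L), ∃ η : H, ∃ u ∈ Icc (-T.w) T.w, σ a s' = η • T.j u

namespace Transv

variable {S : Surf E H} (T : Transv S)

/-- domain of the transversal -/
def J : Set ℝ := Icc (-(3 * T.w)) (3 * T.w)

theorem mem_J_of_abs {u : ℝ} (h : |u| < 3 * T.w) : u ∈ T.J :=
  ⟨by linarith [(abs_lt.1 h).1], (abs_lt.1 h).2.le⟩

theorem mem_J_of_Icc {u : ℝ} (h : u ∈ Icc (-T.w) T.w) : u ∈ T.J :=
  ⟨by linarith [h.1, T.w_pos], by linarith [h.2, T.w_pos]⟩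

theorem J_nhds {u : ℝ} (h : |u| < 3 * T.w) : T.J ∈ 𝓝 u :=
  Icc_mem_nhds (by linarith [(abs_lt.1 h).1]) (abs_lt.1 h).2

theorem dev_smul_j {u : ℝ} (hu : u ∈ T.J) (η : H) : S.dev (η • T.j u) = u + S.τ η := by
  rw [S.dev_smul, T.dev_j u hu]

theorem bd_J : S.Bd (T.j '' T.J) := S.bd_compact (isCompact_Icc.image_of_continuousOn T.cont)

theorem tendsto_j {A : Type*} {l : Filter A} {f : A → ℝ} {u : ℝ} (hu : u ∈ T.J)
    (hf : Tendsto f l (𝓝 u)) (hJ : ∀ᶠ a in l, f a ∈ T.J) (η : H) :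
    Tendsto (fun a => η • T.j (f a)) l (𝓝 (η • T.j u)) :=
  (S.cont_smul η).continuousAt.tendsto.comp
    ((T.cont u hu).tendsto.comp (tendsto_nhdsWithin_iff.2 ⟨hf, hJ⟩))

theorem exists_death (h : ℝ) :
    ∃ Δ : Set ℝ, Δ.Finite ∧ ∀ u ∈ T.J, u ∉ Δ → Alive S.dev (T.j u) (h * I) := by
  obtain ⟨Z, -, hZ, hd⟩ := S.bd_death _ ‖(h : ℂ) * I‖ T.bd_J
  refine ⟨re '' Z, hZ.image _, fun u hu hΔ => hd _ ⟨u, hu, rfl⟩ _ le_rfl fun s _ hm => hΔ ?_⟩
  exact ⟨_, hm, by rw [T.dev_j u hu]; simp⟩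

theorem agree {χ : ℂ → E} {D : Set ℂ} (hχ : IsSec S.dev χ D) {η : H} {a b : ℝ}
    (hD : ∀ x ∈ uIcc a b, x ∈ T.J ∧ (x : ℂ) + S.τ η ∈ D)
    (ha : χ (a + S.τ η) = η • T.j a) : χ (b + S.τ η) = η • T.j b := by
  have h1 : ContinuousOn (fun x : ℝ => χ (x + S.τ η)) (uIcc a b) :=
    hχ.1.comp (by fun_prop) fun x hx => (hD x hx).2
  have h2 : ContinuousOn (fun x : ℝ => η • T.j x) (uIcc a b) :=
    (S.cont_smul η).comp_continuousOn (T.cont.mono fun x hx => (hD x hx).1)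
  exact S.et.lift_unique isPreconnected_uIcc h1 h2
    (fun x hx => by rw [hχ.2 _ (hD x hx).2, T.dev_smul_j (hD x hx).1]) left_mem_uIcc ha
    right_mem_uIcc

/-- vertical link between two points of the transversal -/
def Link (u u' : ℝ) : Prop :=
  u ∈ T.J ∧ u' ∈ T.J ∧ ∃ η : H, ∃ h ∈ Icc (1 : ℝ) (T.L + 1),
    Seg S.dev (T.j u) (η • T.j u') ∧ (u' : ℂ) + S.τ η = u + h * I

theorem of_transGen {u u' : ℝ} (h : Relation.TransGen T.Link u u') :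
    u ∈ T.J ∧ u' ∈ T.J ∧ ∃ η : H, ∃ h : ℝ, 0 < h ∧
      Seg S.dev (T.j u) (η • T.j u') ∧ (u' : ℂ) + S.τ η = u + h * I := by
  induction h with
  | single h =>
    obtain ⟨h1, h2, η, h, h3, h4, h5⟩ := h
    exact ⟨h1, h2, η, h, by linarith [h3.1], h4, h5⟩
  | tail _ hbc ih =>
    rename_i b c _
    obtain ⟨h1, h2, η, h, h3, h4, h5⟩ := ih
    obtain ⟨-, g2, η', h', g3, g4, g5⟩ := hbc
    have hh' : 0 < h' := by linarith [g3.1]
    have e : (c : ℂ) + S.τ (η * η') = u + ((h + h' : ℝ) : ℂ) * I := by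
      rw [S.τ_mul]; push_cast; linear_combination h5 + g5
    refine ⟨h1, g2, η * η', h + h', by linarith, ?_, e⟩
    refine h4.trans S.et (by rw [mul_smul]; exact S.seg_smul g4 η) ?_
    rw [T.dev_smul_j h2, T.dev_smul_j g2, T.dev_j u h1, e, h5]
    have hs : h / (h + h') ∈ Icc (0 : ℝ) 1 :=
      ⟨by positivity, div_le_one_of_le₀ (by linarith) (by positivity)⟩
    have := mem_segment_add (u : ℂ) (((h + h' : ℝ) : ℂ) * I) hs
    rwa [← mul_assoc, ← ofReal_mul, div_mul_cancel₀ _ (by positivity)] at this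

/-- links persist along an interval on which the vertical rays are alive -/
theorem link_along {I₀ : Set ℝ} (hI : Convex ℝ I₀) (hJ : I₀ ⊆ T.J) {h : ℝ} (hh : 0 ≤ h)
    (ha : ∀ u ∈ I₀, Alive S.dev (T.j u) (h * I)) {η : H} {a a' : ℝ} (haI : a ∈ I₀)
    (ha' : a' ∈ T.J) (hs : Seg S.dev (T.j a) (η • T.j a')) (he : (a' : ℂ) + S.τ η = a + h * I)
    (hJ' : ∀ u ∈ I₀, u + (a' - a) ∈ T.J) :
    ∃ χ, IsSec S.dev χ (strip I₀ h) ∧ (∀ u ∈ I₀, χ u = T.j u) ∧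
      ∀ u ∈ I₀, χ (u + h * I) = η • T.j (u + (a' - a)) := by
  obtain ⟨χ, h1, h2⟩ := S.et.exists_strip (T.cont.mono hJ) (fun u hu => T.dev_j u (hJ hu)) hh ha
  refine ⟨χ, h1, h2, fun u hu => ?_⟩
  have hm : ∀ x ∈ I₀, (x : ℂ) + h * I ∈ strip I₀ h := fun x hx =>
    ⟨by simpa using hx, by simpa using hh⟩
  have hm0 : ∀ x ∈ I₀, (x : ℂ) ∈ strip I₀ h := fun x hx =>
    ⟨by simpa using hx, by simpa using hh⟩
  have e0 : χ (a + h * I) = η • T.j a' := by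
    have := h1.seg ((convex_strip hI h).segment_subset (hm0 a haI) (hm a haI))
    rw [h2 a haI] at this
    exact Seg.unique S.et this hs (by rw [h1.2 _ (hm a haI), T.dev_smul_j ha', he])
  have e1 : ∀ x : ℝ, (x : ℂ) + S.τ η = ((x - (a' - a) : ℝ) : ℂ) + h * I := by
    intro x; push_cast; linear_combination he
  have := T.agree h1 (η := η) (a := a') (b := u + (a' - a)) (fun x hx => by
    have hx' : x - (a' - a) ∈ I₀ := by
      refine hI.ordConnected.uIcc_subset haI hu ?_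
      rw [mem_uIcc] at hx ⊢
      rcases hx with hx | hx
      · left; constructor <;> linarith [hx.1, hx.2]
      · right; constructor <;> linarith [hx.1, hx.2]
    refine ⟨by simpa using hJ' _ hx', ?_⟩
    rw [e1]; exact hm _ hx') (by rw [he, e0])
  rwa [e1, add_sub_cancel_right] at this

end Transv

namespace Fam

variable {S : Surf E H} {T : Transv S} {ι : Type*} (Φ : Fam T ι)

/-- deep crossings of the transversal -/
def limF : Filter (ι × ℝ × H × ℝ) where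
  sets := {A | ∃ m : ℝ, ∀ᶠ a in Φ.F, ∀ (s : ℝ) (η : H) (u : ℝ), Icc (s - m) (s + m) ⊆ Φ.W a →
    u ∈ T.J → Φ.σ a s = η • T.j u → (a, s, η, u) ∈ A}
  univ_sets := ⟨0, Eventually.of_forall fun _ _ _ _ _ _ _ => mem_univ _⟩
  sets_of_superset := by
    rintro A B ⟨m, hm⟩ hAB
    exact ⟨m, hm.mono fun a ha s η u h1 h2 h3 => hAB (ha s η u h1 h2 h3)⟩
  inter_sets := by
    rintro A B ⟨m, hm⟩ ⟨m', hm'⟩
    refine ⟨max m m', ?_⟩
    filter_upwards [hm, hm'] with a ha ha' s η u h1 h2 h3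
    have i1 : Icc (s - m) (s + m) ⊆ Icc (s - max m m') (s + max m m') :=
      Icc_subset_Icc (by linarith [le_max_left m m']) (by linarith [le_max_left m m'])
    have i2 : Icc (s - m') (s + m') ⊆ Icc (s - max m m') (s + max m m') :=
      Icc_subset_Icc (by linarith [le_max_right m m']) (by linarith [le_max_right m m'])
    exact ⟨ha s η u (i1.trans h1) h2 h3, ha' s η u (i2.trans h1) h2 h3⟩

theorem eventually_limF {p : ι × ℝ × H × ℝ → Prop} :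
    (∀ᶠ x in Φ.limF, p x) ↔ ∃ m : ℝ, ∀ᶠ a in Φ.F, ∀ (s : ℝ) (η : H) (u : ℝ),
      Icc (s - m) (s + m) ⊆ Φ.W a → u ∈ T.J → Φ.σ a s = η • T.j u → p (a, s, η, u) := Iff.rfl

theorem limF_fst : Tendsto (fun x : ι × ℝ × H × ℝ => x.1) Φ.limF Φ.F := by
  intro A hA
  exact ⟨0, Eventually.mono hA fun a ha s η u _ _ _ => ha⟩

theorem limF_deep (m : ℝ) : ∀ᶠ x in Φ.limF, Icc (x.2.1 - m) (x.2.1 + m) ⊆ Φ.W x.1 :=
  ⟨m, Eventually.of_forall fun _ _ _ _ h _ _ => h⟩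

theorem limF_cross : ∀ᶠ x in Φ.limF, x.2.2.2 ∈ T.J ∧ Φ.σ x.1 x.2.1 = x.2.2.1 • T.j x.2.2.2 :=
  ⟨0, Eventually.of_forall fun _ _ _ _ _ h1 h2 => ⟨h1, h2⟩⟩

theorem tendsto_limF {A : Type*} {l : Filter A} {g : A → ι × ℝ × H × ℝ}
    (h1 : Tendsto (fun a => (g a).1) l Φ.F)
    (h2 : ∀ m : ℝ, ∀ᶠ a in l, Icc ((g a).2.1 - m) ((g a).2.1 + m) ⊆ Φ.W (g a).1)
    (h3 : ∀ᶠ a in l, (g a).2.2.2 ∈ T.J ∧ Φ.σ (g a).1 (g a).2.1 = (g a).2.2.1 • T.j (g a).2.2.2) :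
    Tendsto g l Φ.limF := by
  rintro B ⟨m, hm⟩
  rw [mem_map]
  filter_upwards [h1.eventually hm, h2 m, h3] with a a1 a2 a3
  exact a1 _ _ _ a2 a3.1 a3.2

/-- the limit set -/
def N : Set ℝ := {u | ClusterPt u (map (fun x : ι × ℝ × H × ℝ => x.2.2.2) Φ.limF)}

theorem isClosed_N : IsClosed Φ.N := isClosed_setOfPred_clusterPt

theorem mem_N_of {A : Type*} {l : Filter A} [l.NeBot] {g : A → ι × ℝ × H × ℝ}
    (h1 : Tendsto g l Φ.limF) {u : ℝ} (h2 : Tendsto (fun a => (g a).2.2.2) l (𝓝 u)) :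
    u ∈ Φ.N :=
  (NeBot.map inferInstance fun a => (g a).2.2.2).mono (le_inf h2 (tendsto_map.comp h1))

theorem exists_of_mem_N {u : ℝ} (hu : u ∈ Φ.N) :
    ∃ l : Filter (ι × ℝ × H × ℝ), l.NeBot ∧ l ≤ Φ.limF ∧
      Tendsto (fun x => x.2.2.2) l (𝓝 u) := by
  refine ⟨comap (fun x : ι × ℝ × H × ℝ => x.2.2.2) (𝓝 u) ⊓ Φ.limF, ?_, inf_le_right,
    tendsto_comap.mono_left inf_le_left⟩
  have : NeBot (𝓝 u ⊓ map (fun x : ι × ℝ × H × ℝ => x.2.2.2) Φ.limF) := hu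
  rw [← Filter.push_pull'] at this
  exact this.of_map

theorem N_subset_J : Φ.N ⊆ T.J := by
  intro u hu
  obtain ⟨l, hl, h1, h2⟩ := Φ.exists_of_mem_N hu
  exact isClosed_Icc.mem_of_tendsto h2 ((Φ.limF_cross.filter_mono h1).mono fun x hx => hx.1)

theorem line_at {x : ι × ℝ × H × ℝ} (h1 : x.2.2.2 ∈ T.J)
    (h2 : Φ.σ x.1 x.2.1 = x.2.2.1 • T.j x.2.2.2) :
    IsLine S.dev (fun t => x.2.2.1⁻¹ • Φ.σ x.1 (x.2.1 + t)) x.2.2.2 (Φ.δ x.1 + I) ∧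
      x.2.2.1⁻¹ • Φ.σ x.1 (x.2.1 + 0) = T.j x.2.2.2 := by
  have h3 := S.isLine_smul ((Φ.line x.1).shift x.2.1) x.2.2.1⁻¹
  have h4 := (Φ.line x.1).2 x.2.1
  rw [h2, T.dev_smul_j h1] at h4
  refine ⟨?_, by rw [add_zero, h2, inv_smul_smul]⟩
  rwa [← h4, S.τ_inv, add_neg_cancel_right] at h3

/-- convergence of the normalised lines -/
theorem tendsto_at {l : Filter (ι × ℝ × H × ℝ)} (h1 : l ≤ Φ.limF) {u : ℝ} (hu : u ∈ T.J)
    (h2 : Tendsto (fun x => x.2.2.2) l (𝓝 u)) {m : E} (hs : Seg S.dev (T.j u) m) {h : ℝ}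
    (hm : S.dev m = u + h * I) :
    Tendsto (fun x => x.2.2.1⁻¹ • Φ.σ x.1 (x.2.1 + h)) l (𝓝 m) := by
  have hc := Φ.limF_cross.filter_mono h1
  have hδ : Tendsto (fun x : ι × ℝ × H × ℝ => Φ.δ x.1) l (𝓝 0) :=
    Φ.δ_lim.comp (Φ.limF_fst.mono_left h1)
  refine S.et.tendsto_line (σ := fun x t => x.2.2.1⁻¹ • Φ.σ x.1 (x.2.1 + t))
    (t₀ := fun _ => 0) (t := fun _ => h) (hc.mono fun x hx => (Φ.line_at hx.1 hx.2).1) ?_ ?_ hs
  · have := T.tendsto_j hu h2 (hc.mono fun x hx => hx.1) 1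
    simp only [one_smul] at this
    exact this.congr' (hc.mono fun x hx => (Φ.line_at hx.1 hx.2).2.symm)
  · have t1 : Tendsto (fun x : ι × ℝ × H × ℝ => ((x.2.2.2 : ℝ) : ℂ) + h * (Φ.δ x.1 + I)) l
        (𝓝 ((u : ℂ) + h * (((0 : ℝ) : ℂ) + I))) :=
      ((continuous_ofReal.tendsto u).comp h2).add
        ((((continuous_ofReal.tendsto 0).comp hδ).add_const I).const_mul _)
    rw [hm]
    simp only [ofReal_zero, zero_add] at t1
    exact t1.congr' (hc.mono fun x hx => ((Φ.line_at hx.1 hx.2).1.2 h).symm)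

theorem transfer {u u' : ℝ} (hu : u ∈ T.J) (hu' : |u'| < 3 * T.w) {η : H} {h : ℝ}
    (hs : Seg S.dev (T.j u) (η • T.j u')) (he : (u' : ℂ) + S.τ η = u + h * I) (hN : u ∈ Φ.N) :
    u' ∈ Φ.N := by
  obtain ⟨l, hl, h1, h2⟩ := Φ.exists_of_mem_N hN
  have hc := Φ.limF_cross.filter_mono h1
  have hδ : Tendsto (fun x : ι × ℝ × H × ℝ => Φ.δ x.1) l (𝓝 0) :=
    Φ.δ_lim.comp (Φ.limF_fst.mono_left h1)
  have hJ' := T.mem_J_of_abs hu'
  have t1 := Φ.tendsto_at h1 hu h2 hs (by rw [T.dev_smul_j hJ', he])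
  have t2 : Tendsto (fun x : ι × ℝ × H × ℝ => u' + (x.2.2.2 - u) + h * Φ.δ x.1) l (𝓝 u') := by
    have := ((h2.sub_const u).const_add u').add (hδ.const_mul h)
    simpa using this
  have t3 : ∀ᶠ x in l, u' + (x.2.2.2 - u) + h * Φ.δ x.1 ∈ T.J := t2 (T.J_nhds hu')
  have t4 := T.tendsto_j hJ' t2 t3 η
  have t5 := S.et.eventually_eq t1 t4 (by
    filter_upwards [hc, t3] with x x1 x2
    rw [T.dev_smul_j x2, (Φ.line_at x1.1 x1.2).1.2 h]
    push_cast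
    linear_combination -he)
  refine Φ.mem_N_of (l := l)
    (g := fun x => (x.1, x.2.1 + h, x.2.2.1 * η, u' + (x.2.2.2 - u) + h * Φ.δ x.1)) ?_ t2
  refine Φ.tendsto_limF (Φ.limF_fst.mono_left h1) (fun m => ?_) ?_
  · filter_upwards [(Φ.limF_deep (m + |h|)).filter_mono h1] with x hx
    refine Subset.trans (Icc_subset_Icc ?_ ?_) hx
    · linarith [neg_abs_le h]
    · linarith [le_abs_self h]
  · filter_upwards [t3, t5] with x x1 x2
    refine ⟨x1, ?_⟩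
    rw [mul_smul, ← x2, smul_inv_smul]

theorem link_iff {u u' : ℝ} (hl : T.Link u u') (hu : |u| < 2 * T.w) (hu' : |u'| < 2 * T.w) :
    u ∈ Φ.N ↔ u' ∈ Φ.N := by
  obtain ⟨h1, h2, η, h, -, h4, h5⟩ := hl
  refine ⟨Φ.transfer h1 (by linarith [T.w_pos]) h4 h5,
    Φ.transfer (η := η⁻¹) (h := -h) h2 (by linarith [T.w_pos]) ?_ ?_⟩
  · have := S.seg_smul h4.symm η⁻¹
    rwa [inv_smul_smul] at this
  · rw [S.τ_inv]; push_cast; linear_combination -h5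

theorem norm_slope {δ : ℝ} (h : |δ| ≤ 1) : ‖(δ : ℂ) + I‖ ≤ 2 := by
  have := norm_add_le (δ : ℂ) I
  rw [norm_real, norm_I, Real.norm_eq_abs] at this
  linarith

theorem exists_link {a : ℝ} (hN : a ∈ Φ.N)
    (ha : Alive S.dev (T.j a) ((T.L + 1 : ℝ) * I)) : ∃ a' ∈ Icc (-T.w) T.w, T.Link a a' := by
  obtain ⟨l, hl, h1, h2⟩ := Φ.exists_of_mem_N hN
  have haJ := Φ.N_subset_J hN
  have hc := Φ.limF_cross.filter_mono h1
  have hδ : Tendsto (fun x : ι × ℝ × H × ℝ => Φ.δ x.1) l (𝓝 0) :=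
    Φ.δ_lim.comp (Φ.limF_fst.mono_left h1)
  have hfin := S.finite_types T.bd_J T.bd_J (2 * (T.L + 1))
  let P : H → ι × ℝ × H × ℝ → Prop := fun η x => (S.τ η).im ∈ Icc (1 : ℝ) (T.L + 1) ∧
    ∃ u ∈ Icc (-T.w) T.w, x.2.2.1⁻¹ • Φ.σ x.1 (x.2.1 + (S.τ η).im) = η • T.j u ∧
      u = x.2.2.2 + (S.τ η).im * Φ.δ x.1 - (S.τ η).re
  have hev : ∀ᶠ x in l, ∃ η ∈ {η : H | ∃ q ∈ T.j '' T.J, ∃ q' ∈ T.j '' T.J,
      Seg S.dev q (η • q') ∧ ‖S.dev (η • q') - S.dev q‖ ≤ 2 * (T.L + 1)}, P η x := by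
    have hδ1 : ∀ᶠ x in l, |Φ.δ x.1| ≤ 1 := by
      have : ∀ᶠ y : ℝ in 𝓝 0, |y| ≤ 1 := by
        filter_upwards [Icc_mem_nhds (by norm_num : (-1 : ℝ) < 0) (by norm_num : (0 : ℝ) < 1)]
          with y hy using abs_le.2 hy
      exact hδ.eventually this
    filter_upwards [hc, hδ1, (Φ.limF_deep (T.L + 1)).filter_mono h1] with x x1 x2 x3
    obtain ⟨s', hs', η₂, u, hu, he⟩ := Φ.ret x.1 (x.2.1 + 1)
      (Subset.trans (Icc_subset_Icc (by linarith [T.L_nonneg]) (by linarith)) x3)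
    obtain ⟨l1, l2⟩ := Φ.line_at x1.1 x1.2
    have huJ := T.mem_J_of_Icc hu
    have e1 : x.2.2.1⁻¹ • Φ.σ x.1 (x.2.1 + (s' - x.2.1)) = (x.2.2.1⁻¹ * η₂) • T.j u := by
      rw [add_sub_cancel, he, mul_smul]
    have e2 := l1.2 (s' - x.2.1)
    simp only at e2
    rw [e1, T.dev_smul_j huJ] at e2
    have e3 : (S.τ (x.2.2.1⁻¹ * η₂)).im = s' - x.2.1 := by
      have := congrArg im e2
      simpa using this
    have e4 : u + (S.τ (x.2.2.1⁻¹ * η₂)).re = x.2.2.2 + (s' - x.2.1) * Φ.δ x.1 := by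
      have := congrArg re e2
      simpa using this
    refine ⟨x.2.2.1⁻¹ * η₂, ⟨_, ⟨_, x1.1, rfl⟩, _, ⟨u, huJ, rfl⟩, ?_, ?_⟩, ?_, u, hu, ?_, ?_⟩
    · have := l1.seg S.et 0 (s' - x.2.1)
      rwa [l2, e1] at this
    · rw [T.dev_smul_j huJ, e2, T.dev_j _ x1.1, add_sub_cancel_left, norm_mul, norm_real,
        Real.norm_eq_abs, abs_of_nonneg (by linarith [hs'.1]), mul_comm]
      exact mul_le_mul (norm_slope x2) (by linarith [hs'.2]) (by linarith [hs'.1]) (by norm_num)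
    · rw [e3]; constructor <;> linarith [hs'.1, hs'.2]
    · rw [e3]; exact e1
    · rw [e3]; linarith
  obtain ⟨η, -, hη⟩ := (frequently_exists_finite hfin).1 hev.frequently
  have hl' : NeBot (l ⊓ 𝓟 {x | P η x}) := frequently_iff_neBot.1 hη
  have hP : ∀ᶠ x in l ⊓ 𝓟 {x | P η x}, P η x :=
    eventually_inf_principal.2 (Eventually.of_forall fun x hx => hx)
  have him : (S.τ η).im ∈ Icc (1 : ℝ) (T.L + 1) := hP.exists.choose_spec.1
  have t2 : Tendsto (fun x : ι × ℝ × H × ℝ => x.2.2.2 + (S.τ η).im * Φ.δ x.1 - (S.τ η).re)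
      (l ⊓ 𝓟 {x | P η x}) (𝓝 (a - (S.τ η).re)) := by
    have := (h2.add (hδ.const_mul (S.τ η).im)).sub_const (S.τ η).re
    simp only [mul_zero, add_zero] at this
    exact this.mono_left inf_le_left
  have t3 : ∀ᶠ x in l ⊓ 𝓟 {x | P η x},
      x.2.2.2 + (S.τ η).im * Φ.δ x.1 - (S.τ η).re ∈ Icc (-T.w) T.w :=
    hP.mono fun x hx => by
      obtain ⟨-, u, hu, -, e⟩ := hx
      rw [← e]; exact hu
  have ha' : a - (S.τ η).re ∈ Icc (-T.w) T.w := isClosed_Icc.mem_of_tendsto t2 t3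
  have hs : (S.τ η).im / (T.L + 1) ∈ Icc (0 : ℝ) 1 :=
    ⟨div_nonneg (by linarith [him.1]) (by linarith [T.L_nonneg]),
      div_le_one_of_le₀ him.2 (by linarith [T.L_nonneg])⟩
  obtain ⟨m, m1, m2⟩ := ha.mono hs
  rw [← mul_assoc, ← ofReal_mul, div_mul_cancel₀ _ (by linarith [T.L_nonneg]),
    T.dev_j a haJ] at m2
  have t4 := (Φ.tendsto_at h1 haJ h2 m1 m2).mono_left (inf_le_left (b := 𝓟 {x | P η x}))
  have t5 := T.tendsto_j (T.mem_J_of_Icc ha') t2 (t3.mono fun x hx => T.mem_J_of_Icc hx) η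
  have e : m = η • T.j (a - (S.τ η).re) := by
    refine S.et.eq_of_tendsto t4 (t5.congr' (hP.mono fun x hx => ?_))
    obtain ⟨-, u, hu, e1, e2⟩ := hx
    simp only
    rw [e1, e2]
  refine ⟨_, ha', haJ, T.mem_J_of_Icc ha', η, _, him, e ▸ m1, ?_⟩
  apply Complex.ext <;> simp

theorem cycle_or_finite :
    (∃ c ∈ Φ.N, c ∈ Icc (-T.w) T.w ∧ ∃ η : H, ∃ h : ℝ, 0 < h ∧
      Seg S.dev (T.j c) (η • T.j c) ∧ S.τ η = h * I) ∨
      {u | u ∈ Φ.N ∧ u ∈ Ioo (-T.w) T.w ∧ u ∉ interior Φ.N}.Finite := by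
  obtain ⟨Δ, hΔ, hd⟩ := T.exists_death (T.L + 1)
  have g2 : ∀ a a' b : ℝ, T.Link a a' → a ∈ Icc (-T.w) T.w → a' ∈ Icc (-T.w) T.w → b - a < T.w →
      Disjoint (Icc a b) Δ → ∀ u ∈ Icc a b, T.Link u (u + (a' - a)) := by
    intro a a' b hl ha ha' hb hdis u hu
    obtain ⟨h1, h2, η, h, h3, h4, h5⟩ := hl
    have hw := T.w_pos
    have hJ : Icc a b ⊆ T.J := fun x hx =>
      ⟨by linarith [hx.1, ha.1], by linarith [hx.2, ha.2]⟩
    have hJ' : ∀ x ∈ Icc a b, x + (a' - a) ∈ T.J := fun x hx =>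
      ⟨by linarith [hx.1, ha'.1], by linarith [hx.2, ha'.2]⟩
    have hs : h / (T.L + 1) ∈ Icc (0 : ℝ) 1 :=
      ⟨div_nonneg (by linarith [h3.1]) (by linarith [T.L_nonneg]),
        div_le_one_of_le₀ h3.2 (by linarith [T.L_nonneg])⟩
    have hal : ∀ x ∈ Icc a b, Alive S.dev (T.j x) (h * I) := fun x hx => by
      have := (hd x (hJ hx) (Set.disjoint_left.1 hdis hx)).mono hs
      rwa [← mul_assoc, ← ofReal_mul, div_mul_cancel₀ _ (by linarith [T.L_nonneg])] at this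
    have hh : 0 ≤ h := by linarith [h3.1]
    obtain ⟨χ, c1, c2, c3⟩ := T.link_along (convex_Icc a b) hJ hh hal
      ⟨le_rfl, hu.1.trans hu.2⟩ h2 h4 h5 hJ'
    refine ⟨hJ hu, hJ' u hu, η, h, h3, ?_, by push_cast; linear_combination h5⟩
    rw [← c2 u hu, ← c3 u hu]
    exact c1.seg ((convex_strip (convex_Icc a b) h).segment_subset
      ⟨by simpa using hu, by simpa using hh⟩ ⟨by simpa using hu, by simpa using hh⟩)
  rcases gap_lemma Φ.isClosed_N hΔ T.w_pos T.Link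
    (fun a hN ha hΔ => Φ.exists_link hN (hd a (T.mem_J_of_Icc ha) hΔ)) g2
    (fun u u' hl hu hu' => Φ.link_iff hl hu hu') with ⟨c, h1, h2, h3⟩ | h
  · obtain ⟨-, -, η, h, h4, h5, h6⟩ := T.of_transGen h3
    exact Or.inl ⟨c, h1, h2, η, h, h4, h5, add_left_cancel h6⟩
  · exact Or.inr h

end Fam

end Pool.Agent.Lib.MP_c02c19_gt
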