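import Pool.Agent.Lib.MP_c02c19_gt.Defs

/-!
Plane isometries, linear parts, reflections, the reflection group of a polygon.
-/

namespace Pool.Agent.Lib.MP_c02c19_gt

open Complex Set

/-- plane isometries -/
abbrev Mot := ℂ ≃ᵃⁱ[ℝ] ℂ

/-- linear isometries -/
abbrev Ort := ℂ ≃ₗᵢ[ℝ] ℂ

theorem Mot.add_eq (g : Mot) (z v : ℂ) : g (z + v) = g z + g.linearIsometryEquiv v := by
  have := g.map_vadd z v
  simp only [vadd_eq_add] at this
  rw [add_comm z v, this, add_comm]

/-- the linear part -/
noncomputable def lin : Mot →* Ort where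
  toFun g := g.linearIsometryEquiv
  map_one' := by
    ext v
    have := Mot.add_eq 1 0 v
    simpa using this.symm
  map_mul' g h := by
    ext v
    have h1 := Mot.add_eq (g * h) 0 v
    have h2 := Mot.add_eq h 0 v
    have h3 := Mot.add_eq g (h 0) (h.linearIsometryEquiv v)
    simp only [AffineIsometryEquiv.coe_mul, Function.comp] at h1
    rw [h2, h3] at h1
    simpa using (add_left_cancel h1).symm

theorem Mot.apply_add (g : Mot) (z v : ℂ) : g (z + v) = g z + lin g v := Mot.add_eq g z v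

theorem Mot.apply_sub (g : Mot) (z w : ℂ) : g z - g w = lin g (z - w) := by
  have := Mot.apply_add g w (z - w)
  rw [add_sub_cancel] at this
  rw [this]; ring

theorem Mot.apply_eq (g : Mot) (z : ℂ) : g z = g 0 + lin g z := by
  have := Mot.apply_add g 0 z
  rwa [zero_add] at this

theorem Mot.apply_line (g : Mot) (z v : ℂ) (s : ℝ) : g (z + s * v) = g z + s * lin g v := by
  rw [Mot.apply_add]
  have : (s : ℂ) * v = s • v := by simp
  rw [this, map_smul]; simp

@[simp] theorem Mot.mul_apply (g h : Mot) (z : ℂ) : (g * h) z = g (h z) := rfl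

@[simp] theorem Mot.one_apply (z : ℂ) : (1 : Mot) z = z := rfl

@[simp] theorem Mot.inv_apply_self (g : Mot) (z : ℂ) : g⁻¹ (g z) = z := by
  rw [← Mot.mul_apply, inv_mul_cancel]; rfl

@[simp] theorem Mot.apply_inv_self (g : Mot) (z : ℂ) : g (g⁻¹ z) = z := by
  rw [← Mot.mul_apply, mul_inv_cancel]; rfl

@[simp] theorem Ort.mul_apply (g h : Ort) (z : ℂ) : (g * h) z = g (h z) := rfl

@[simp] theorem Ort.one_apply (z : ℂ) : (1 : Ort) z = z := rfl

@[simp] theorem Ort.inv_apply_self (g : Ort) (z : ℂ) : g⁻¹ (g z) = z := by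
  rw [← Ort.mul_apply, inv_mul_cancel]; rfl

@[simp] theorem Ort.apply_inv_self (g : Ort) (z : ℂ) : g (g⁻¹ z) = z := by
  rw [← Ort.mul_apply, mul_inv_cancel]; rfl

theorem Mot.norm_sub (g : Mot) (z w : ℂ) : ‖g z - g w‖ = ‖z - w‖ := by
  rw [Mot.apply_sub]; exact (lin g).norm_map _

theorem Mot.dist_eq (g : Mot) (z w : ℂ) : dist (g z) (g w) = dist z w := g.isometry.dist_eq z w

theorem Mot.translate_of_lin {g : Mot} (h : lin g = 1) (z : ℂ) : g z = z + g 0 := by
  rw [Mot.apply_eq, h]; simp [add_comm]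

theorem Mot.ext_of_lin {g h : Mot} (h1 : lin g = lin h) {z : ℂ} (h2 : g z = h z) : g = h := by
  ext w
  have a := Mot.apply_sub g w z
  have b := Mot.apply_sub h w z
  rw [h1, ← b, h2] at a
  exact sub_left_injective a

/-- explicit form of a linear isometry -/
theorem Ort.exists_form (f : Ort) : ∃ a : ℂ, ‖a‖ = 1 ∧
    ((∀ z, f z = a * z) ∨ (∀ z, f z = a * (starRingEnd ℂ) z)) := by
  obtain ⟨a, h | h⟩ := linear_isometry_complex f
  · exact ⟨a, a.norm_coe, Or.inl fun z => by rw [h]; simp⟩
  · exact ⟨a, a.norm_coe, Or.inr fun z => by rw [h]; simp⟩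

theorem Mot.image_segment (g : Mot) {a b z : ℂ} (h : z ∈ segment ℝ a b) :
    g z ∈ segment ℝ (g a) (g b) := by
  rw [segment_eq_image_lineMap] at h ⊢
  obtain ⟨s, hs, rfl⟩ := h
  exact ⟨s, hs, (g.toAffineEquiv.toAffineMap.apply_lineMap a b s).symm⟩

theorem Mot.image_openSegment (g : Mot) {a b z : ℂ} (h : z ∈ openSegment ℝ a b) :
    g z ∈ openSegment ℝ (g a) (g b) := by
  rw [openSegment_eq_image_lineMap] at h ⊢
  obtain ⟨s, hs, rfl⟩ := h
  exact ⟨s, hs, (g.toAffineEquiv.toAffineMap.apply_lineMap a b s).symm⟩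

theorem norm_unit_div {a b : ℂ} (h : a ≠ b) : ‖(b - a) / (starRingEnd ℂ) (b - a)‖ = 1 := by
  have : b - a ≠ 0 := sub_ne_zero.2 h.symm
  rw [norm_div, Complex.norm_conj, div_self (norm_ne_zero_iff.2 this)]

open Classical in
/-- the reflection in the line through `a`, `b` as an isometry (identity if `a = b`) -/
noncomputable def reflM (a b : ℂ) : Mot :=
  if h : a = b then 1 else
    AffineIsometryEquiv.mk' (reflLine a b)
      (conjLIE.trans (rotation ⟨(b - a) / (starRingEnd ℂ) (b - a), by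
        simpa [Submonoid.unitSphere] using norm_unit_div h⟩)) a (by
        intro p
        simp [reflLine, add_comm])

theorem reflM_apply {a b : ℂ} (h : a ≠ b) (z : ℂ) : reflM a b z = reflLine a b z := by
  unfold reflM
  rw [dif_neg h]; rfl

theorem reflLine_reflLine {a b : ℂ} (h : a ≠ b) (z : ℂ) : reflLine a b (reflLine a b z) = z := by
  have h1 : b - a ≠ 0 := sub_ne_zero.2 h.symm
  have h2 : (starRingEnd ℂ) (b - a) ≠ 0 := by rwa [map_ne_zero]
  simp only [reflLine, add_sub_cancel_left, map_mul, map_div₀, Complex.conj_conj]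
  field_simp
  ring

theorem reflM_mul_self (a b : ℂ) : reflM a b * reflM a b = 1 := by
  by_cases h : a = b
  · simp [reflM, h]
  · ext z
    rw [Mot.mul_apply, reflM_apply h, reflM_apply h, reflLine_reflLine h]; rfl

theorem reflM_inv (a b : ℂ) : (reflM a b)⁻¹ = reflM a b :=
  inv_eq_of_mul_eq_one_right (reflM_mul_self a b)

/-- cross product -/
def cross (u v : ℂ) : ℝ := u.re * v.im - u.im * v.re

theorem cross_reflLine {a b : ℂ} (h : a ≠ b) (z : ℂ) :
    cross (b - a) (reflLine a b z - a) = - cross (b - a) (z - a) := by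
  have h1 : b - a ≠ 0 := sub_ne_zero.2 h.symm
  have h2 : (starRingEnd ℂ) (b - a) ≠ 0 := by rwa [map_ne_zero]
  have key : ∀ u v : ℂ, cross u v = ((starRingEnd ℂ) u * v).im := by
    intro u v; simp [cross]; ring
  rw [key, key]
  simp only [reflLine, add_sub_cancel_left]
  have : (starRingEnd ℂ) (b - a) * ((b - a) / (starRingEnd ℂ) (b - a) * (starRingEnd ℂ) (z - a))
      = (starRingEnd ℂ) ((starRingEnd ℂ) (b - a) * (z - a)) := by
    rw [map_mul, Complex.conj_conj]; field_simp
  rw [this, Complex.conj_im]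

theorem reflLine_eq_self_iff {a b : ℂ} (h : a ≠ b) (z : ℂ) :
    reflLine a b z = z ↔ cross (b - a) (z - a) = 0 := by
  constructor
  · intro hz
    have := cross_reflLine h z
    rw [hz] at this; linarith
  · intro hz
    have h1 : b - a ≠ 0 := sub_ne_zero.2 h.symm
    have h2 : (starRingEnd ℂ) (b - a) ≠ 0 := by rwa [map_ne_zero]
    have : (b - a) * (starRingEnd ℂ) (z - a) = (starRingEnd ℂ) (b - a) * (z - a) := by
      apply Complex.ext
      · simp only [mul_re, sub_re, sub_im, conj_re, conj_im, map_sub]; ring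
      · simp only [cross, sub_re, sub_im] at hz
        simp only [mul_im, sub_re, sub_im, conj_re, conj_im, map_sub]
        linarith
    simp only [reflLine]
    rw [div_mul_eq_mul_div, this]
    field_simp
    ring

/-- the generating reflections -/
def gens (S : Finset (ℂ × ℂ)) : Set Mot := (fun s : ℂ × ℂ => reflM s.1 s.2) '' (S : Set (ℂ × ℂ))

theorem gens_finite (S : Finset (ℂ × ℂ)) : (gens S).Finite := S.finite_toSet.image _

/-- the reflection group generated by the sides -/
noncomputable def Gam (S : Finset (ℂ × ℂ)) : Subgroup Mot := Subgroup.closure (gens S)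

theorem reflM_mem_Gam {S : Finset (ℂ × ℂ)} {s : ℂ × ℂ} (hs : s ∈ S) : reflM s.1 s.2 ∈ Gam S :=
  Subgroup.subset_closure ⟨s, hs, rfl⟩

instance Gam_fg (S : Finset (ℂ × ℂ)) : Group.FG (Gam S) :=
  (Group.fg_iff_subgroup_fg _).2 ((Subgroup.fg_iff _).2 ⟨gens S, rfl, gens_finite S⟩)

instance Gam_countable (S : Finset (ℂ × ℂ)) : Countable (Gam S) := by
  obtain ⟨α, hα, f, hf⟩ := Group.fg_iff_exists_freeGroup_hom_surjective_finite.1 (Gam_fg S)
  have : Countable (FreeGroup α) := inferInstance
  exact hf.countable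

end Pool.Agent.Lib.MP_c02c19_gt
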