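import Mathlib

/-!
A Mycielski type theorem: a perfect set all of whose pairs lie in countably many open sets of
pairs that are dense on `D × D`.
-/

set_option autoImplicit false

namespace Pool.Agent.Lib.MP_c02c19_gt

open Set Filter Topology Metric

variable {X : Type*} [MetricSpace X]

theorem myc_position {I : Type*} {D : Set X} {U : Set (X × X)} (hU : IsOpen U)
    (hd : ∀ d ∈ D ×ˢ D, ∀ N ∈ 𝓝 d, (D ×ˢ D ∩ N ∩ U).Nonempty) {E : Set (I × I)} (hE : E.Finite)
    (hne : ∀ e ∈ E, e.1 ≠ e.2) (V : I → Set X) (hV : ∀ i, IsOpen (V i) ∧ (D ∩ V i).Nonempty) :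
    ∃ W : I → Set X, (∀ i, IsOpen (W i) ∧ (D ∩ W i).Nonempty) ∧ (∀ i, W i ⊆ V i) ∧
      ∀ e ∈ E, W e.1 ×ˢ W e.2 ⊆ U := by
  classical
  induction E, hE using Set.Finite.induction_on with
  | empty => exact ⟨V, hV, fun _ => Subset.rfl, fun _ h => h.elim⟩
  | @insert e E _ _ ih =>
    obtain ⟨W, h1, h2, h3⟩ := ih fun e he => hne e (mem_insert_of_mem _ he)
    have hst : e.1 ≠ e.2 := hne e (mem_insert _ _)
    obtain ⟨a, a1, a2⟩ := (h1 e.1).2
    obtain ⟨b, b1, b2⟩ := (h1 e.2).2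
    obtain ⟨p, ⟨⟨p1, p2⟩, p3, p4⟩, p5⟩ := hd (a, b) ⟨a1, b1⟩ _
      (prod_mem_nhds ((h1 e.1).1.mem_nhds a2) ((h1 e.2).1.mem_nhds b2))
    obtain ⟨A, B, hA, hB, c1, c2, c3⟩ := isOpen_prod_iff.1 hU p.1 p.2 p5
    refine ⟨fun i => W i ∩ if i = e.1 then A else if i = e.2 then B else univ, fun i => ?_,
      fun i => inter_subset_left.trans (h2 i), ?_⟩
    · beta_reduce
      by_cases k1 : i = e.1
      · rw [if_pos k1, k1]
        exact ⟨(h1 _).1.inter hA, p.1, p1, p3, c1⟩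
      · by_cases k2 : i = e.2
        · rw [if_neg k1, if_pos k2, k2]
          exact ⟨(h1 _).1.inter hB, p.2, p2, p4, c2⟩
        · rw [if_neg k1, if_neg k2, inter_univ]
          exact h1 i
    · rintro e' (rfl | he')
      · beta_reduce
        refine Subset.trans (prod_mono ?_ ?_) c3
        · rw [if_pos rfl]; exact inter_subset_right
        · rw [if_neg hst.symm, if_pos rfl]; exact inter_subset_right
      · exact (prod_mono inter_subset_left inter_subset_left).trans (h3 e' he')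

theorem myc_step {D : Set X} {U : Set (X × X)} (hU : IsOpen U)
    (hd : ∀ d ∈ D ×ˢ D, ∀ N ∈ 𝓝 d, (D ×ˢ D ∩ N ∩ U).Nonempty) (n : ℕ) {ε : ℝ} (hε : 0 < ε)
    (V : List Bool → Set X) (hV : ∀ i, IsOpen (V i) ∧ (D ∩ V i).Nonempty) :
    ∃ W : List Bool → Set X, (∀ i, IsOpen (W i) ∧ (D ∩ W i).Nonempty) ∧
      (∀ a l, closure (W (a :: l)) ⊆ V l ∧ ∃ c, W (a :: l) ⊆ ball c ε) ∧
      ∀ s t : List Bool, s.length = n → t.length = n → s ≠ t → W s ×ˢ W t ⊆ U := by
  have key : ∀ l, ∃ c ∈ D, ∃ r > 0, r ≤ ε ∧ closedBall c r ⊆ V l := by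
    intro l
    obtain ⟨c, c1, c2⟩ := (hV l).2
    obtain ⟨r, r1, r2⟩ := nhds_basis_closedBall.mem_iff.1 ((hV l).1.mem_nhds c2)
    exact ⟨c, c1, min r ε, lt_min r1 hε, min_le_right _ _,
      (closedBall_subset_closedBall (min_le_left _ _)).trans r2⟩
  choose c hc r hr h1 h2 using key
  obtain ⟨W, w1, w2, w3⟩ := myc_position hU hd
    (E := {e : List Bool × List Bool | (e.1.length = n ∧ e.2.length = n) ∧ e.1 ≠ e.2})
    (((List.finite_length_eq Bool n).prod (List.finite_length_eq Bool n)).subset fun e he => he.1)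
    (fun e he => he.2) (fun l => ball (c l.tail) (r l.tail))
    fun l => ⟨isOpen_ball, _, hc _, mem_ball_self (hr _)⟩
  exact ⟨W, w1, fun a l => ⟨((closure_mono (w2 _)).trans closure_ball_subset_closedBall).trans
    (h2 l), _, (w2 _).trans (ball_subset_ball (h1 l))⟩, fun s t hs ht h => w3 (s, t) ⟨⟨hs, ht⟩, h⟩⟩

theorem mycielski [CompleteSpace X] {ι : Type*} [Countable ι] {D : Set X} (hD : D.Nonempty)
    (U : ι → Set (X × X)) (hU : ∀ i, IsOpen (U i))
    (hd : ∀ i, ∀ d ∈ D ×ˢ D, ∀ N ∈ 𝓝 d, (D ×ˢ D ∩ N ∩ U i).Nonempty)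
    (hoff : ∀ x, ¬ ∀ i, (x, x) ∈ U i) :
    ∃ C : Set X, Perfect C ∧ C.Nonempty ∧ ∀ x ∈ C, ∀ y ∈ C, x ≠ y → ∀ i, (x, y) ∈ U i := by
  have : Nonempty ι := by
    by_contra h
    exact hoff hD.some fun i => (h ⟨i⟩).elim
  obtain ⟨e, he⟩ := exists_surjective_nat ι
  choose F hF1 hF2 hF3 using fun (n : ℕ) (V : List Bool → Set X)
    (hV : ∀ i, IsOpen (V i) ∧ (D ∩ V i).Nonempty) =>
    myc_step (hU (e n.unpair.1)) (hd _) (n + 1) (Nat.one_div_pos_of_nat (α := ℝ) (n := n)) V hV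
  let G : ℕ → {V : List Bool → Set X // ∀ i, IsOpen (V i) ∧ (D ∩ V i).Nonempty} := fun n =>
    Nat.rec ⟨fun _ => univ, fun _ => ⟨isOpen_univ, by simpa using hD⟩⟩
      (fun n V => ⟨F n V.1 V.2, hF1 n V.1 V.2⟩) n
  let A : List Bool → Set X := fun l => (G l.length).1 l
  have hanti : CantorScheme.ClosureAntitone A := fun l a => (hF2 l.length _ (G l.length).2 a l).1
  have hdiam : CantorScheme.VanishingDiam A := by
    intro x
    rw [← tendsto_add_atTop_iff_nat 1]
    have t : Tendsto (fun n : ℕ => ENNReal.ofReal (2 * (1 / ((n : ℝ) + 1)))) atTop (𝓝 0) := by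
      have := ENNReal.tendsto_ofReal
        ((tendsto_one_div_add_atTop_nhds_zero_nat (𝕜 := ℝ)).const_mul 2)
      simpa using this
    refine tendsto_of_tendsto_of_tendsto_of_le_of_le tendsto_const_nhds t (fun _ => zero_le)
      fun n => ?_
    obtain ⟨c, hc⟩ := (hF2 (PiNat.res x n).length _ (G (PiNat.res x n).length).2 (x n) (PiNat.res x n)).2
    refine ediam_le_of_forall_dist_le fun y hy z hz => ?_
    have h1 := mem_ball.1 (hc hy)
    have h2 := mem_ball.1 (hc hz)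
    rw [PiNat.res_length] at h1 h2
    linarith [dist_triangle_right y z c]
  have hdom : ∀ {x : ℕ → Bool}, x ∈ (CantorScheme.inducedMap A).1 := fun {x} => by
    rw [hanti.map_of_vanishingDiam hdiam fun l => ((G l.length).2 l).2.mono inter_subset_right]
    exact mem_univ _
  set f : (ℕ → Bool) → X := fun x => (CantorScheme.inducedMap A).2 ⟨x, hdom⟩ with hf
  have hc : Continuous f := hdiam.map_continuous.comp (by fun_prop)
  have hpair : ∀ a b, a ≠ b → ∀ i, (f a, f b) ∈ U i := by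
    intro a b hab i
    obtain ⟨k, rfl⟩ := he i
    obtain ⟨m, hm⟩ := Function.ne_iff.1 hab
    have h1 := hF3 (Nat.pair k m) _ (G (Nat.pair k m)).2 (PiNat.res a (Nat.pair k m + 1))
      (PiNat.res b (Nat.pair k m + 1)) (PiNat.res_length _ _) (PiNat.res_length _ _)
      fun h => hm (PiNat.res_eq_res.1 h (Nat.lt_succ_of_le (Nat.right_le_pair k m)))
    rw [Nat.unpair_pair] at h1
    have h2 : ∀ x, f x ∈ (G (Nat.pair k m + 1)).1 (PiNat.res x (Nat.pair k m + 1)) := fun x => by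
      have := CantorScheme.map_mem (A := A) ⟨x, hdom⟩ (Nat.pair k m + 1)
      simp only [A, PiNat.res_length] at this
      exact this
    exact h1 ⟨h2 a, h2 b⟩
  refine ⟨range f, ⟨(isCompact_range hc).isClosed, ?_⟩, range_nonempty f, ?_⟩
  · rintro _ ⟨a, rfl⟩
    rw [accPt_iff_nhds]
    intro N hN
    have t : Tendsto (fun n => Function.update a n (!a n)) atTop (𝓝 a) := by
      refine tendsto_pi_nhds.2 fun m => tendsto_const_nhds.congr' ?_
      filter_upwards [eventually_gt_atTop m] with n hn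
      rw [Function.update_of_ne hn.ne]
    obtain ⟨n, hn⟩ := (((hc.tendsto a).comp t).eventually_mem hN).exists
    refine ⟨_, ⟨hn, _, rfl⟩, fun h => hoff (f a) fun i => ?_⟩
    have := hpair (Function.update a n (!a n)) a (fun h => by simpa using congrFun h n) i
    rwa [show f (Function.update a n (!a n)) = f a from h] at this
  · rintro _ ⟨a, rfl⟩ _ ⟨b, rfl⟩ h
    exact hpair a b fun k => h (congrArg f k)

end Pool.Agent.Lib.MP_c02c19_gt
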