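import Pool.Agent.Lib.MP_c02c19_gt.Unfold
import Pool.Agent.Lib.MP_c02c19_gt.Cover

/-!
Lifted segments in the unfolding and billiard orbits.
-/

namespace Pool.Agent.Lib.MP_c02c19_gt

open Set Filter Topology Metric Complex

theorem exists_cuts {T : Set ℝ} (hT : T.Finite) (a : ℝ) (k : ℕ) :
    ∀ b, a < b → (T ∩ Ioo a b).ncard = k → ∃ (n : ℕ) (t : ℕ → ℝ), t 0 = a ∧ t (n + 1) = b ∧
      (∀ i ≤ n + 1, t i ∈ Icc a b) ∧
      (∀ i ≤ n, t i < t (i + 1) ∧ ∀ τ ∈ Ioo (t i) (t (i + 1)), τ ∉ T) ∧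
      ∀ i < n, t (i + 1) ∈ T ∩ Ioo a b := by
  induction k using Nat.strong_induction_on with
  | _ k ih =>
  intro b hab hk
  rcases (T ∩ Ioo a b).eq_empty_or_nonempty with h | h
  · refine ⟨0, fun i => if i = 0 then a else b, by simp, by simp, fun i _ => ?_, fun i hi => ?_,
      fun i hi => absurd hi (Nat.not_lt_zero _)⟩
    · dsimp only
      split_ifs
      · exact left_mem_Icc.2 hab.le
      · exact right_mem_Icc.2 hab.le
    · obtain rfl : i = 0 := by omega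
      refine ⟨by simpa using hab, fun τ hτ hm => ?_⟩
      have : τ ∈ T ∩ Ioo a b := ⟨hm, by simpa using hτ⟩
      rw [h] at this
      exact this
  · have hf : (T ∩ Ioo a b).Finite := hT.subset inter_subset_left
    obtain ⟨b', hb', hmax⟩ := exists_max_image _ id hf h
    have hlt : (T ∩ Ioo a b').ncard < k := by
      rw [← hk]
      refine ncard_lt_ncard ⟨fun x hx => ⟨hx.1, hx.2.1, hx.2.2.trans hb'.2.2⟩, fun hs => ?_⟩ hf
      exact lt_irrefl _ (hs hb').2.2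
    obtain ⟨n, t, t0, t1, t2, t3, t4⟩ := ih _ hlt b' hb'.2.1 rfl
    refine ⟨n + 1, fun i => if i ≤ n + 1 then t i else b, by simpa using t0, by simp,
      fun i _ => ?_, fun i hi => ?_, fun i hi => ?_⟩
    · dsimp only
      split_ifs with h1
      · exact ⟨(t2 i h1).1, (t2 i h1).2.trans hb'.2.2.le⟩
      · exact right_mem_Icc.2 hab.le
    · rcases hi.eq_or_lt with rfl | hi'
      · simp only [le_refl, if_true, t1, show ¬ n + 1 + 1 ≤ n + 1 by omega, if_false]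
        exact ⟨hb'.2.2, fun τ hτ hm =>
          absurd (hmax τ ⟨hm, hb'.2.1.trans hτ.1, hτ.2⟩) (not_le.2 hτ.1)⟩
      · simp only [hi, if_true, show i + 1 ≤ n + 1 by omega]
        exact t3 i (by omega)
    · simp only [show i + 1 ≤ n + 1 by omega, if_true]
      rcases (Nat.lt_succ_iff.1 hi).eq_or_lt with rfl | hi'
      · rwa [t1]
      · exact ⟨(t4 i hi').1, (t4 i hi').2.1, (t4 i hi').2.2.trans hb'.2.2⟩

theorem line_injective (z : ℂ) {v : ℂ} (hv : v ≠ 0) {a b : ℝ} (h : z + a * v = z + b * v) :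
    a = b := ofReal_injective (mul_right_cancel₀ hv (add_left_cancel h))

theorem mem_openSegment_line (z v : ℂ) {a b τ : ℝ} (h : τ ∈ Ioo a b) :
    z + τ * v ∈ openSegment ℝ (z + a * v) (z + b * v) := by
  have hab : 0 < b - a := by linarith [h.1, h.2]
  rw [openSegment_eq_image']
  refine ⟨(τ - a) / (b - a), ⟨div_pos (by linarith [h.1]) hab,
    (div_lt_one hab).2 (by linarith [h.2])⟩, ?_⟩
  have : ((b : ℂ) - a) ≠ 0 := by exact_mod_cast hab.ne'
  simp only [real_smul]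
  push_cast
  field_simp
  ring

theorem exists_of_mem_openSegment_line {z v u : ℂ} {a b : ℝ} (hab : a < b)
    (h : u ∈ openSegment ℝ (z + a * v) (z + b * v)) : ∃ τ ∈ Ioo a b, u = z + τ * v := by
  rw [openSegment_eq_image'] at h
  obtain ⟨r, hr, rfl⟩ := h
  refine ⟨a + r * (b - a), ⟨by nlinarith [hr.1], by nlinarith [hr.2]⟩, ?_⟩
  simp only [real_smul]
  push_cast
  ring

theorem sbtw_of_mem_openSegment {a b u : ℂ} (hab : a ≠ b) (h : u ∈ openSegment ℝ a b) :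
    Sbtw ℝ a u b :=
  ⟨mem_segment_iff_wbtw.1 (openSegment_subset_segment _ _ _ h),
    by rintro rfl; exact hab (left_mem_openSegment_iff.1 h),
    by rintro rfl; exact hab (right_mem_openSegment_iff.1 h)⟩

variable {P : Set ℂ} {S : Finset (ℂ × ℂ)} [hP : Fact (IsPolygon P S)]

/-- a lifted parametrised segment -/
def IsPath (c : ℝ → Unf P S) (z v : ℂ) : Prop :=
  ContinuousOn c (Icc 0 1) ∧ ∀ τ ∈ Icc (0 : ℝ) 1, udev (c τ) = z + τ * v

omit hP in
theorem Seg.exists_path {q q' : Unf P S} (h : Seg udev q q') :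
    ∃ c, IsPath c (udev q) (udev q' - udev q) ∧ c 0 = q ∧ c 1 = q' ∧
      ∀ τ ∈ Icc (0 : ℝ) 1, Seg udev q (c τ) := by
  obtain ⟨χ, h1, h2, h3⟩ := h
  have hm : ∀ τ ∈ Icc (0 : ℝ) 1, udev q + τ * (udev q' - udev q) ∈ segment ℝ (udev q) (udev q') := by
    intro τ hτ
    have := mem_segment_add (udev q) (udev q' - udev q) hτ
    rwa [add_sub_cancel] at this
  refine ⟨fun τ => χ (udev q + τ * (udev q' - udev q)), ⟨h1.1.comp (by fun_prop) hm,
    fun τ hτ => h1.2 _ (hm τ hτ)⟩, by simpa using h2, by simpa using h3, fun τ hτ => ?_⟩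
  have := h1.seg ((convex_segment _ _).segment_subset (left_mem_segment _ _ _) (hm τ hτ))
  rwa [h2] at this

theorem IsPath.near_side {c : ℝ → Unf P S} {z v : ℂ} (hc : IsPath c z v) {τ₀ : ℝ}
    (h0 : τ₀ ∈ Icc (0 : ℝ) 1) {γ : Gam S} (hγ : c τ₀ ∈ Sh γ) {s : ℂ × ℂ} (hs : s ∈ S)
    (hm : proj (c τ₀) ∈ openSegment ℝ s.1 s.2) :
    ∃ C : ℝ, ∀ᶠ τ in 𝓝[Icc 0 1] τ₀, (proj (c τ) ∈ interior P ↔ (τ - τ₀) * C ≠ 0) ∧
      (c τ ∈ Sh γ → 0 ≤ (τ - τ₀) * C) := by
  obtain ⟨ε, hε, κ, hκ, hb⟩ := hP.out.half_disc hs hm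
  have hne := hP.out.side_ne s hs
  refine ⟨κ * cross (s.2 - s.1) (lin (γ : Mot)⁻¹ v), ?_⟩
  have t1 := hc.1 τ₀ h0
  filter_upwards [t1.tendsto.eventually (eventually_Sh (c τ₀)),
    (continuous_proj.continuousAt.tendsto.comp t1.tendsto) (ball_mem_nhds _ hε),
    self_mem_nhdsWithin] with τ a1 a2 a3
  have a4 : κ * sd s ((γ : Mot)⁻¹ (udev (c τ))) =
      (τ - τ₀) * (κ * cross (s.2 - s.1) (lin (γ : Mot)⁻¹ v)) := by
    have : udev (c τ) = udev (c τ₀) + (τ - τ₀ : ℝ) * v := by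
      rw [hc.2 τ a3, hc.2 τ₀ h0]; push_cast; ring
    rw [this, Mot.apply_line, sd_line, ← Sh.proj_eq hγ,
      sd_eq_zero_of_mem (openSegment_subset_segment _ _ _ hm)]
    ring
  obtain ⟨-, b1, b2, -⟩ := hb _ a2
  have b3 := b1.1 (proj_mem (c τ)).1
  refine ⟨?_, fun h => by rw [← a4, ← Sh.proj_eq h]; exact b3⟩
  simp only [Function.comp] at b2
  rw [b2, ← a4]
  obtain ⟨γ', h⟩ := exists_Sh (c τ)
  rcases (Sh.iff hγ).1 (a1 γ' h) with h1 | h1
  · rw [h1] at h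
    rw [← Sh.proj_eq h]
    exact ⟨fun h => h.ne', fun h => lt_of_le_of_ne b3 h.symm⟩
  · rw [h1, hP.out.rho_eq_of_side hs hm] at h
    have : (γ : Mot)⁻¹ (udev (c τ)) = reflM s.1 s.2 (proj (c τ)) := by
      rw [Sh.dev_eq h, Subgroup.coe_mul, Mot.mul_apply, Mot.inv_apply_self]; rfl
    rw [this, sd_reflM hne, mul_neg, neg_ne_zero]
    exact ⟨fun h => h.ne', fun h => lt_of_le_of_ne b3 h.symm⟩

theorem IsPath.finite_bounces {c : ℝ → Unf P S} {z v : ℂ} (hc : IsPath c z v)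
    (h0 : proj (c 0) ∈ interior P) :
    {τ | τ ∈ Icc (0 : ℝ) 1 ∧ proj (c τ) ∉ interior P}.Finite := by
  have loc : ∀ τ₀ ∈ Icc (0 : ℝ) 1, (∀ᶠ τ in 𝓝[Icc 0 1] τ₀, proj (c τ) ∉ interior P) ∨
      ∀ᶠ τ in 𝓝[Icc 0 1] τ₀, proj (c τ) ∉ interior P → τ = τ₀ := by
    intro τ₀ h
    rcases hP.out.core_cases (proj_mem (c τ₀)) with hi | ⟨s, hs, hm⟩
    · right
      filter_upwards [(continuous_proj.continuousAt.tendsto.comp (hc.1 τ₀ h).tendsto)
        (isOpen_interior.mem_nhds hi)] with τ a1 a2 using absurd a1 a2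
    · obtain ⟨γ, hγ⟩ := exists_Sh (c τ₀)
      obtain ⟨C, hC⟩ := hc.near_side h hγ hs hm
      by_cases hC0 : C = 0
      · left
        filter_upwards [hC] with τ a1
        rw [a1.1, hC0]; simp
      · right
        filter_upwards [hC] with τ a1 a2
        rw [a1.1, not_not, mul_eq_zero] at a2
        exact sub_eq_zero.1 (a2.resolve_right hC0)
  set T' : Set (Icc (0 : ℝ) 1) := {τ | proj (c τ) ∉ interior P} with hT'
  have hcl : IsClopen (interior T') := by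
    refine ⟨closure_subset_iff_isClosed.1 fun τ₀ h => ?_, isOpen_interior⟩
    rcases loc τ₀ τ₀.2 with h1 | h1
    · exact mem_interior_iff_mem_nhds.2 ((eventually_nhds_subtype_iff _ τ₀ _).2 h1)
    · obtain ⟨τ, a1, a2⟩ := ((mem_closure_iff_frequently.1 h).and_eventually
        ((eventually_nhds_subtype_iff _ τ₀ _).2 h1)).exists
      rwa [← Subtype.ext (a2 (interior_subset a1))]
  have hem : interior T' = ∅ := by
    have : PreconnectedSpace (Icc (0 : ℝ) 1) := isPreconnected_iff_preconnectedSpace.1 isPreconnected_Icc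
    refine (isClopen_iff.1 hcl).resolve_right fun h => ?_
    have : (⟨0, left_mem_Icc.2 zero_le_one⟩ : Icc (0 : ℝ) 1) ∈ interior T' := by
      rw [h]; exact mem_univ _
    exact interior_subset this h0
  have key : (Icc (0 : ℝ) 1 ∩ {τ | proj (c τ) ∉ interior P}).Finite := by
    refine (isCompact_Icc (a := (0 : ℝ)) (b := 1)).induction_on
      (p := fun A => (A ∩ {τ | proj (c τ) ∉ interior P}).Finite) (by simp)
      (fun A B h hB => hB.subset (inter_subset_inter_left _ h))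
      (fun A B hA hB => by rw [union_inter_distrib_right]; exact hA.union hB) fun τ₀ h => ?_
    rcases loc τ₀ h with h1 | h1
    · have : (⟨τ₀, h⟩ : Icc (0 : ℝ) 1) ∈ interior T' :=
        mem_interior_iff_mem_nhds.2 ((eventually_nhds_subtype_iff _ ⟨τ₀, h⟩ _).2 h1)
      rw [hem] at this
      exact absurd this (notMem_empty _)
    · exact ⟨_, h1, (finite_singleton τ₀).subset fun τ hτ => hτ.1 hτ.2⟩
  exact key

/-- decomposition of a path at its bounces -/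
structure Cuts (c : ℝ → Unf P S) (n : ℕ) (t : ℕ → ℝ) (γ : ℕ → Gam S) : Prop where
  zero : t 0 = 0
  last : t (n + 1) = 1
  mem : ∀ i ≤ n + 1, t i ∈ Icc (0 : ℝ) 1
  lt : ∀ i ≤ n, t i < t (i + 1)
  sh : ∀ i ≤ n, ∀ τ ∈ Icc (t i) (t (i + 1)), c τ ∈ Sh (γ i)
  int : ∀ i ≤ n, ∀ τ ∈ Ioo (t i) (t (i + 1)), proj (c τ) ∈ interior P
  side : ∀ i < n, ∃ s, ∃ hs : s ∈ S, proj (c (t (i + 1))) ∈ openSegment ℝ s.1 s.2 ∧
    γ (i + 1) = γ i * rG hs

theorem IsPath.exists_cuts {c : ℝ → Unf P S} {z v : ℂ} (hc : IsPath c z v)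
    (h0 : proj (c 0) ∈ interior P) : ∃ n t γ, Cuts c n t γ := by
  obtain ⟨n, t, t0, t1, t2, t3, t4⟩ := MP_c02c19_gt.exists_cuts (hc.finite_bounces h0) 0 _ 1
    zero_lt_one rfl
  have hsub : ∀ i ≤ n, Icc (t i) (t (i + 1)) ⊆ Icc 0 1 := fun i hi =>
    Icc_subset_Icc (t2 i (by omega)).1 (t2 (i + 1) (by omega)).2
  have hint : ∀ i ≤ n, ∀ τ ∈ Ioo (t i) (t (i + 1)), proj (c τ) ∈ interior P := by
    intro i hi τ hτ
    by_contra h
    exact (t3 i hi).2 τ hτ ⟨hsub i hi (Ioo_subset_Icc_self hτ), h⟩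
  choose γ hγ using fun i => exists_Sh (c ((t i + t (i + 1)) / 2))
  have hsh : ∀ i ≤ n, ∀ τ ∈ Icc (t i) (t (i + 1)), c τ ∈ Sh (γ i) := by
    intro i hi
    have hlt := (t3 i hi).1
    have hmid : (t i + t (i + 1)) / 2 ∈ Ioo (t i) (t (i + 1)) := ⟨by linarith, by linarith⟩
    have h1 : c '' Ioo (t i) (t (i + 1)) ⊆ {q | q ∈ Sh (γ i) ∧ proj q ∈ interior P} := by
      refine IsPreconnected.subset_left_of_subset_union (isOpen_Sh (γ i))
        (isClosed_Sh (γ i)).isOpen_compl (Set.disjoint_left.2 fun q h h' => h' h.1) ?_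
        ⟨_, mem_image_of_mem _ hmid, hγ i, hint i hi _ hmid⟩
        (isPreconnected_Ioo.image _ (hc.1.mono (Ioo_subset_Icc_self.trans (hsub i hi))))
      rintro _ ⟨τ, hτ, rfl⟩
      by_cases h : c τ ∈ Sh (γ i)
      · exact Or.inl ⟨h, hint i hi τ hτ⟩
      · exact Or.inr h
    intro τ hτ
    rw [← closure_Ioo hlt.ne] at hτ
    have h2 := ContinuousOn.image_closure (f := c) (s := Ioo (t i) (t (i + 1)))
      (by rw [closure_Ioo hlt.ne]; exact hc.1.mono (hsub i hi)) (mem_image_of_mem _ hτ)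
    exact closure_minimal (h1.trans fun q h => h.1) (isClosed_Sh _) h2
  refine ⟨n, t, γ, t0, t1, t2, fun i hi => (t3 i hi).1, hsh, hint, fun i hi => ?_⟩
  obtain ⟨⟨a1, a2⟩, a3⟩ := t4 i hi
  obtain ⟨s, hs, hm⟩ := (hP.out.core_cases (proj_mem (c (t (i + 1))))).resolve_left a2
  have l1 := (t3 i hi.le).1
  have l2 := (t3 (i + 1) hi).1
  have b1 := hsh i hi.le _ (right_mem_Icc.2 l1.le)
  have b2 := hsh (i + 1) hi _ (left_mem_Icc.2 l2.le)
  refine ⟨s, hs, hm, ?_⟩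
  rcases (Sh.iff b1).1 b2 with h | h
  · exfalso
    obtain ⟨C, hC⟩ := hc.near_side a1 b1 hs hm
    rw [nhdsWithin_eq_nhds.2 (Icc_mem_nhds a3.1 a3.2)] at hC
    obtain ⟨τ₁, c1, c2⟩ := ((hC.filter_mono nhdsWithin_le_nhds).and (Ioo_mem_nhdsLT l1)).exists
    obtain ⟨τ₂, d1, d2⟩ := ((hC.filter_mono nhdsWithin_le_nhds).and (Ioo_mem_nhdsGT l2)).exists
    have e1 := lt_of_le_of_ne (c1.2 (hsh i hi.le _ (Ioo_subset_Icc_self c2)))
      (c1.1.1 (hint i hi.le _ c2)).symm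
    have e2 := lt_of_le_of_ne (d1.2 (h ▸ hsh (i + 1) hi _ (Ioo_subset_Icc_self d2)))
      (d1.1.1 (hint (i + 1) hi _ d2)).symm
    have e3 : τ₁ - t (i + 1) < 0 := sub_neg.2 c2.2
    have e4 : 0 < τ₂ - t (i + 1) := sub_pos.2 d2.1
    have := (mul_pos_iff_of_pos_left e4).1 e2
    nlinarith
  · rw [h, hP.out.rho_eq_of_side hs hm]

namespace Cuts

variable {c : ℝ → Unf P S} {z v : ℂ} {n : ℕ} {t : ℕ → ℝ} {γ : ℕ → Gam S}

theorem proj_eq (h : Cuts c n t γ) (hc : IsPath c z v) {i : ℕ} (hi : i ≤ n) {τ : ℝ}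
    (hτ : τ ∈ Icc (t i) (t (i + 1))) : proj (c τ) = (γ i : Mot)⁻¹ (z + τ * v) := by
  rw [Sh.proj_eq (h.sh i hi τ hτ), hc.2 τ
    ⟨(h.mem i (by omega)).1.trans hτ.1, hτ.2.trans (h.mem (i + 1) (by omega)).2⟩]

theorem proj_left (h : Cuts c n t γ) (hc : IsPath c z v) {i : ℕ} (hi : i ≤ n) :
    proj (c (t i)) = (γ i : Mot)⁻¹ (z + t i * v) :=
  h.proj_eq hc hi (left_mem_Icc.2 (h.lt i hi).le)

theorem proj_right (h : Cuts c n t γ) (hc : IsPath c z v) {i : ℕ} (hi : i ≤ n) :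
    proj (c (t (i + 1))) = (γ i : Mot)⁻¹ (z + t (i + 1) * v) :=
  h.proj_eq hc hi (right_mem_Icc.2 (h.lt i hi).le)

theorem isOrbit (h : Cuts c n t γ) (hc : IsPath c z v) (hv : v ≠ 0) :
    IsOrbit P S n fun i => proj (c (t i)) := by
  refine ⟨fun i hi => ⟨?_, fun w hw => ?_⟩, fun i hi => ?_⟩
  · simp only [h.proj_left hc hi, h.proj_right hc hi]
    exact fun he => (h.lt i hi).ne (line_injective z hv ((γ i : Mot)⁻¹.injective he))
  · simp only [h.proj_left hc hi, h.proj_right hc hi] at hw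
    have := Mot.image_openSegment (γ i : Mot) hw
    rw [Mot.apply_inv_self, Mot.apply_inv_self] at this
    obtain ⟨τ, h1, h2⟩ := exists_of_mem_openSegment_line (h.lt i hi) this
    have h3 := h.int i hi τ h1
    rwa [h.proj_eq hc hi (Ioo_subset_Icc_self h1), ← h2, Mot.inv_apply_self] at h3
  · obtain ⟨s, hs, h1, h2⟩ := h.side i hi
    refine ⟨s, hs, h1, ?_⟩
    have h3 : reflLine s.1 s.2 (proj (c (t (i + 2)))) = (γ i : Mot)⁻¹ (z + t (i + 2) * v) := by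
      rw [← reflM_apply (hP.out.side_ne s hs), h.proj_right hc (i := i + 1) hi, h2,
        Subgroup.coe_mul, mul_inv_rev, Mot.mul_apply]
      exact Mot.apply_inv_self _ _
    simp only [h3, h.proj_left hc hi.le, h.proj_right hc hi.le]
    exact Mot.image_openSegment _ (mem_openSegment_line z v ⟨h.lt i hi.le, h.lt (i + 1) hi⟩)

theorem exists_of_mem (h : Cuts c n t γ) (hc : IsPath c z v) {i : ℕ} (hi : i ≤ n) {w : ℂ}
    (hw : w ∈ segment ℝ (proj (c (t i))) (proj (c (t (i + 1))))) :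
    ∃ τ ∈ Icc (0 : ℝ) 1, w = proj (c τ) := by
  rw [h.proj_left hc hi, h.proj_right hc hi] at hw
  have := Mot.image_segment (γ i : Mot) hw
  rw [Mot.apply_inv_self, Mot.apply_inv_self, segment_line, uIcc_of_le (h.lt i hi).le] at this
  obtain ⟨τ, h1, h2⟩ := this
  refine ⟨τ, ⟨(h.mem i (by omega)).1.trans h1.1, h1.2.trans (h.mem (i + 1) (by omega)).2⟩, ?_⟩
  simp only at h2
  rw [h.proj_eq hc hi h1, h2, Mot.inv_apply_self]

end Cuts

/-- security in terms of the unfolding -/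
theorem blocked_of_secure {x y : ℂ} (hx : x ∈ interior P) (hy : y ∈ interior P)
    (h : SecurePair P S x y) : ∃ Z : Finset ℂ, ∀ γ : Gam S,
      Seg udev (iota P S x) (γ • iota P S y) → x ≠ (γ : Mot) y →
      ∃ w ∈ Z, w ∈ core P S ∧ ∃ g : Gam S, ∃ τ ∈ Ioo (0 : ℝ) 1,
        (g : Mot) w = x + τ * ((γ : Mot) y - x) ∧ Seg udev (iota P S x) (g • iota P S w) := by
  obtain ⟨Z, hZ, hb⟩ := h
  have hxc := hP.out.interior_subset_core hx
  have hyc := hP.out.interior_subset_core hy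
  refine ⟨Z, fun γ hs hne => ?_⟩
  obtain ⟨c, c1, c2, c3, c4⟩ := hs.exists_path
  rw [udev_iota hxc, udev_smul_iota γ hyc] at c1
  have p0 : proj (c 0) = x := by rw [c2, proj_iota hxc]
  have p1 : proj (c 1) = y := by rw [c3, proj_smul_iota γ hyc]
  obtain ⟨n, t, g, hcut⟩ := c1.exists_cuts (by rwa [p0])
  obtain ⟨w, hw, i, hi, hm⟩ := hb n _ (hcut.isOrbit c1 (sub_ne_zero.2 hne.symm))
    (by simp only [hcut.zero, p0]) (by simp only [hcut.last, p1])
  obtain ⟨τ, h1, h2⟩ := hcut.exists_of_mem c1 hi hm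
  have hw' := (hZ hw).2
  simp only [mem_insert_iff, mem_singleton_iff, not_or] at hw'
  obtain ⟨g', hg'⟩ := exists_Sh (c τ)
  refine ⟨w, hw, h2 ▸ proj_mem _, g', τ, ⟨lt_of_le_of_ne h1.1 ?_, lt_of_le_of_ne h1.2 ?_⟩, ?_, ?_⟩
  · rintro rfl; exact hw'.1 (h2.trans p0)
  · rintro rfl; exact hw'.2 (h2.trans p1)
  · rw [h2, ← Sh.dev_eq hg', c1.2 τ h1]
  · rw [h2, ← Sh.eq hg']; exact c4 τ h1

end Pool.Agent.Lib.MP_c02c19_gt
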