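import Pool.Agent.Lib.MP_c02c19_gt.Reach

/-!
The unfolding of a polygon as a flat surface.
-/

namespace Pool.Agent.Lib.MP_c02c19_gt

open Set Filter Topology Metric Complex Pointwise

theorem Surf.exists_generic_line {E : Type*} [TopologicalSpace E] {H : Type*} [Group H]
    [MulAction H E] [Countable H] (X : Surf E H) {q : E} (hq : X.dev q ∉ X.Sing) {Z : Set ℂ}
    (hZ : Z.Countable) : ∃ θ : ℂ, ‖θ‖ = 1 ∧ (∀ v ∈ Z, ∀ s : ℝ, v = s * θ → v = 0) ∧
      (∀ a ∈ X.Sing, ∀ b ∈ X.Sing, ∀ s : ℝ, a - b = s * θ → a = b) ∧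
      (∀ (η : H) (s : ℝ), X.τ η = s * θ → X.τ η = 0) ∧
      ∃ o, IsLine X.dev o (X.dev q) θ ∧ o 0 = q := by
  obtain ⟨θ, h1, h2⟩ := exists_generic_direction (((hZ.union
    (X.sing_countable.image2 X.sing_countable fun a b => a - b)).union
    (countable_range X.τ)).union (X.sing_countable.image fun a => a - X.dev q))
  refine ⟨θ, h1, fun v hv => h2 v (Or.inl (Or.inl (Or.inl hv))), fun a ha b hb s hs =>
    sub_eq_zero.1 (h2 _ (Or.inl (Or.inl (Or.inr (mem_image2_of_mem ha hb)))) s hs),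
    fun η s hs => h2 _ (Or.inl (Or.inr ⟨η, rfl⟩)) s hs, X.et.exists_line fun s => ?_⟩
  refine X.alive_of_avoid fun r _ hm => hq ?_
  have := h2 _ (Or.inr ⟨_, hm, rfl⟩) (r * s) (by push_cast; ring)
  rwa [sub_eq_zero.1 this] at hm

variable {P : Set ℂ} {S : Finset (ℂ × ℂ)}

/-- the linear part of an element of the reflection group -/
noncomputable def hol : Gam S →* Ort := lin.comp (Gam S).subtype

theorem hol_apply (γ : Gam S) : hol γ = lin (γ : Mot) := rfl

variable (S) in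
/-- the translation subgroup -/
noncomputable def Lam : Subgroup (Gam S) := (hol (S := S)).ker

theorem Lam.lin_eq (η : Lam S) : lin ((η : Gam S) : Mot) = 1 := η.2

theorem Lam.smul_def (η : Lam S) (q : Unf P S) : η • q = (η : Gam S) • q := rfl

variable (S) in
/-- the developed vertices -/
def dverts : Set ℂ := {u | ∃ γ : Gam S, ∃ v ∈ verts S, u = (γ : Mot) v}

theorem dverts_countable : (dverts S).Countable := by
  refine ((countable_univ (α := Gam S)).image2 (verts_finite S).countable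
    fun γ v => (γ : Mot) v).mono ?_
  rintro _ ⟨γ, v, hv, rfl⟩
  exact mem_image2_of_mem (mem_univ γ) hv

variable [hP : Fact (IsPolygon P S)]

theorem alive_of_avoid_verts (L : ℝ) : ∃ F : Set (Gam S), F.Finite ∧ 1 ∈ F ∧
    ∀ (q : Unf P S) (γ : Gam S) (v : ℂ), q ∈ Sh γ → ‖v‖ ≤ L →
      (∀ s ∈ Ioc (0 : ℝ) 1, ∀ g ∈ F, ∀ w ∈ verts S, udev q + s * v ≠ (γ * g : Gam S).1 w) →
      Alive udev q v := by
  obtain ⟨F, hF, h⟩ := reach_finite (P := P) (S := S) L
  refine ⟨insert 1 F, hF.insert 1, mem_insert _ _, fun q γ v hq hv hav => ?_⟩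
  set A : Set ℝ := {s | Alive udev q (s * v)} with hA
  have h0 : (0 : ℝ) ∈ A := ⟨q, Seg.refl q, by simp⟩
  have key : Icc (0 : ℝ) 1 ⊆ A := by
    refine IsClosed.Icc_subset_of_forall_mem_nhdsWithin ?_ h0 fun s hs => ?_
    · refine closure_subset_iff_isClosed.1 fun s₀ hs₀ => ?_
      have hI : s₀ ∈ Icc (0 : ℝ) 1 := closure_minimal inter_subset_right isClosed_Icc hs₀
      refine ⟨?_, hI⟩
      rcases hI.1.eq_or_lt with rfl | hpos
      · exact h0
      by_cases hex : ∃ s ∈ A ∩ Icc 0 1, s₀ ≤ s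
      · obtain ⟨s, hs, hle⟩ := hex
        have hs0 : 0 < s := hpos.trans_le hle
        have := Alive.mono hs.1 (s := s₀ / s) ⟨by positivity, (div_le_one hs0).2 hle⟩
        rwa [← mul_assoc, ← ofReal_mul, div_mul_cancel₀ _ hs0.ne'] at this
      push Not at hex
      obtain ⟨U, hU1, hU2⟩ := mem_closure_iff_ultrafilter.1 hs₀
      have : ∀ s : ℝ, ∃ m : Unf P S, s ∈ A → Seg udev q m ∧ udev m = udev q + s * v := by
        intro s
        by_cases hs : s ∈ A
        · obtain ⟨m, hm⟩ := hs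
          exact ⟨m, fun _ => hm⟩
        · exact ⟨q, fun h => absurd h hs⟩
      choose m hm using this
      have h1 : ∀ᶠ s in (U : Filter ℝ), ∃ g ∈ F, m s ∈ Sh (γ * g) := by
        filter_upwards [hU1] with s hs
        obtain ⟨γ', h'⟩ := exists_Sh (m s)
        refine ⟨γ⁻¹ * γ', h q _ _ _ hq h' (hm s hs.1).1 ?_, by rwa [mul_inv_cancel_left]⟩
        rw [(hm s hs.1).2, add_sub_cancel_left, norm_mul, norm_real, Real.norm_eq_abs,
          abs_of_nonneg hs.2.1]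
        nlinarith [hs.2.1, hs.2.2, norm_nonneg v]
      obtain ⟨g, hg, h2⟩ := (Ultrafilter.eventually_exists_mem_iff hF).1 h1
      set p₀ : ℂ := ((γ * g : Gam S) : Mot)⁻¹ (udev q + s₀ * v) with hp₀
      have t1 : Tendsto (fun s => proj (m s)) U (𝓝 p₀) := by
        have : Continuous fun s : ℝ => ((γ * g : Gam S) : Mot)⁻¹ (udev q + s * v) :=
          (((γ * g : Gam S) : Mot)⁻¹).continuous.comp (by fun_prop)
        refine (this.continuousAt.tendsto.mono_left hU2).congr' ?_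
        filter_upwards [hU1, h2] with s a1 a2
        rw [Sh.proj_eq a2, (hm s a1.1).2]
      have hc : p₀ ∈ core P S := by
        refine ⟨hP.out.isClosed.mem_of_tendsto t1 (Eventually.of_forall fun s => (proj_mem _).1),
          fun hv => hav s₀ ⟨hpos, hI.2⟩ g (mem_insert_of_mem _ hg) _ hv ?_⟩
        rw [hp₀, Mot.apply_inv_self]
      have t2 : Tendsto m U (𝓝 ((γ * g) • iota P S p₀)) := by
        refine ((continuousOn_smul_iota (γ * g) p₀ hc).tendsto.comp (tendsto_nhdsWithin_iff.2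
          ⟨t1, Eventually.of_forall fun s => proj_mem _⟩)).congr' ?_
        filter_upwards [h2] with s a using (Sh.eq a).symm
      have hd : udev ((γ * g) • iota P S p₀) = udev q + s₀ * v := by
        rw [udev_smul_iota _ hc, hp₀, Mot.apply_inv_self]
      refine ⟨_, Seg.of_tendsto etale_udev t2 ?_, hd⟩
      filter_upwards [hU1] with s hs
      refine ⟨(hm s hs.1).1, ?_⟩
      rw [hd, (hm s hs.1).2]
      have := mem_segment_add (udev q) (s₀ * v) (s := s / s₀)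
        ⟨div_nonneg hs.2.1 hpos.le, (div_le_one hpos).2 (hex s hs).le⟩
      rwa [← mul_assoc, ← ofReal_mul, div_mul_cancel₀ _ hpos.ne'] at this
    · have t : Tendsto (fun s' : ℝ => (q, (s' : ℂ) * v)) (𝓝 s) (𝓝 (q, (s : ℂ) * v)) :=
        Continuous.tendsto (by fun_prop) s
      exact mem_nhdsWithin_of_mem_nhds (t.eventually (Alive.eventually etale_udev hs.1))
  have := key (right_mem_Icc.2 zero_le_one)
  simpa [hA] using this

variable (P S) in
/-- the unfolding as a flat surface -/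
noncomputable def psurf : Surf (Unf P S) (Lam S) where
  dev := udev
  τ η := ((η : Gam S) : Mot) 0
  Sing := dverts S
  Bd B := ∃ F : Set (Gam S), F.Finite ∧ ∀ q ∈ B, ∃ γ ∈ F, q ∈ Sh γ
  et := etale_udev
  cont_smul η := continuous_gsmul (η : Gam S)
  dev_smul η q := by rw [Lam.smul_def, udev_smul, Mot.translate_of_lin (Lam.lin_eq η)]
  τ_mul η η' := by
    rw [Subgroup.coe_mul, Subgroup.coe_mul, Mot.mul_apply, Mot.translate_of_lin (Lam.lin_eq η),
      add_comm]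
  τ_inj η h := Subtype.ext (Subtype.ext (Mot.ext_of_lin (z := 0)
    ((Lam.lin_eq η).trans (map_one lin).symm) h))
  sing_countable := dverts_countable
  sing_add η := by
    rintro _ ⟨γ, v, hv, rfl⟩
    exact ⟨η * γ, v, hv, by
      rw [Subgroup.coe_mul, Mot.mul_apply, Mot.translate_of_lin (Lam.lin_eq η) ((γ : Mot) v)]⟩
  bd_empty := ⟨∅, finite_empty, fun _ h => h.elim⟩
  bd_mono A B h := fun ⟨F, hF, hB⟩ => ⟨F, hF, fun q hq => hB q (h hq)⟩
  bd_union A B := by
    rintro ⟨F, hF, hA⟩ ⟨F', hF', hB⟩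
    refine ⟨F ∪ F', hF.union hF', ?_⟩
    rintro q (hq | hq)
    · obtain ⟨γ, h1, h2⟩ := hA q hq
      exact ⟨γ, Or.inl h1, h2⟩
    · obtain ⟨γ, h1, h2⟩ := hB q hq
      exact ⟨γ, Or.inr h1, h2⟩
  bd_smul η B := by
    rintro ⟨F, hF, hB⟩
    refine ⟨_, hF.image fun γ => (η : Gam S) * γ, ?_⟩
    rintro _ ⟨q, hq, rfl⟩
    obtain ⟨γ, h1, h2⟩ := hB q hq
    exact ⟨_, mem_image_of_mem _ h1, Sh.smul h2 _⟩
  bd_nhds q := ⟨_, eventually_Sh q, _, finite_Sh q, fun q' h => by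
    obtain ⟨γ, hγ⟩ := exists_Sh q'
    exact ⟨γ, h γ hγ, hγ⟩⟩
  bd_reach B L := by
    rintro ⟨F, hF, hB⟩
    obtain ⟨F', hF', h⟩ := reach_finite (P := P) (S := S) L
    refine ⟨F * F', hF.mul hF', ?_⟩
    rintro q' ⟨q, hq, h1, h2⟩
    obtain ⟨γ, a1, a2⟩ := hB q hq
    obtain ⟨γ', a3⟩ := exists_Sh q'
    exact ⟨γ', ⟨γ, a1, _, h q q' γ γ' a2 a3 h1 h2, mul_inv_cancel_left _ _⟩, a3⟩
  bd_proper B B' := by
    rintro ⟨F, hF, hB⟩ ⟨F', hF', hB'⟩
    obtain ⟨F₀, hF₀, h⟩ := reach_finite (P := P) (S := S) 0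
    refine ((hF'.mul (hF₀.mul hF.inv)).preimage Subtype.val_injective.injOn).subset ?_
    rintro η ⟨q, hq, hq'⟩
    obtain ⟨γ, a1, a2⟩ := hB q hq
    obtain ⟨γ', a3, a4⟩ := hB' _ hq'
    have := h _ _ _ _ a4 (Sh.smul a2 η) (Seg.refl _) (by simp [Lam.smul_def])
    exact ⟨γ', a3, _, mul_mem_mul this (Set.inv_mem_inv.2 a1), by group⟩
  bd_death B L := by
    rintro ⟨F, hF, hB⟩
    obtain ⟨F', hF', -, h⟩ := alive_of_avoid_verts (P := P) (S := S) L
    refine ⟨_, ?_, (hF.mul hF').image2 (fun (γ : Gam S) v => (γ : Mot) v) (verts_finite S),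
      fun q hq v hv hav => ?_⟩
    · rintro _ ⟨γ, -, v, hv, rfl⟩
      exact ⟨γ, v, hv, rfl⟩
    · obtain ⟨γ, a1, a2⟩ := hB q hq
      exact h q γ v a2 hv fun s hs g hg w hw he =>
        hav s hs ⟨γ * g, mul_mem_mul a1 hg, w, hw, he.symm⟩

theorem exists_far_from_verts : ∃ ρ > 0, ∀ (σ : ℝ → Unf P S) (z θ : ℂ), IsLine udev σ z θ →
    ‖θ‖ = 1 → ∀ s : ℝ, ∃ s' ∈ Icc s (s + 1), ∀ v ∈ verts S, ρ ≤ dist (proj (σ s')) v := by
  classical
  obtain ⟨F, hF, h⟩ := reach_finite (P := P) (S := S) 1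
  set C : Finset ℂ := (hF.image2 (fun (γ : Gam S) v => (γ : Mot) v) (verts_finite S)).toFinset
  set m : ℝ := C.card + 1 with hm
  have hm0 : 0 < m := by positivity
  refine ⟨1 / (2 * m), by positivity, fun σ z θ hσ hθ s => ?_⟩
  by_contra hcon
  push Not at hcon
  obtain ⟨γ, hγ⟩ := exists_Sh (σ s)
  have hd : ∀ a b : ℝ, ‖udev (σ a) - udev (σ b)‖ = |a - b| := by
    intro a b
    rw [hσ.2, hσ.2, add_sub_add_left_eq_sub, ← sub_mul, norm_mul, hθ, mul_one, ← ofReal_sub,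
      norm_real, Real.norm_eq_abs]
  have key : ∀ k : ℕ, ∃ c, k ∈ Finset.range (C.card + 1) →
      c ∈ C ∧ dist (udev (σ (s + k / m))) ((γ : Mot) c) < 1 / (2 * m) := by
    intro k
    by_cases hk : k ∈ Finset.range (C.card + 1)
    · have hk' : (k : ℝ) ≤ m := by
        have := (Finset.mem_range.1 hk).le
        rw [hm]; exact_mod_cast this
      have h1 : (k : ℝ) / m ∈ Icc (0 : ℝ) 1 := ⟨by positivity, (div_le_one hm0).2 hk'⟩
      obtain ⟨v, hv, hlt⟩ := hcon (s + k / m) ⟨by linarith [h1.1], by linarith [h1.2]⟩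
      obtain ⟨γ', h'⟩ := exists_Sh (σ (s + k / m))
      have := h _ _ _ _ hγ h' (hσ.seg etale_udev _ _) (by
        rw [hd, add_sub_cancel_left, abs_of_nonneg h1.1]; exact h1.2)
      refine ⟨(γ⁻¹ * γ' : Gam S).1 v, fun _ => ⟨(Set.Finite.mem_toFinset _).2
        (mem_image2_of_mem this hv), ?_⟩⟩
      rw [Sh.dev_eq h', Subgroup.coe_mul, Mot.mul_apply, Subgroup.coe_inv, Mot.apply_inv_self,
        Mot.dist_eq]
      exact hlt
    · exact ⟨0, fun h => absurd h hk⟩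
  choose c hc using key
  obtain ⟨k, hk, k', hk', hne, he⟩ := Finset.exists_ne_map_eq_of_card_lt_of_maps_to
    (s := Finset.range (C.card + 1)) (t := C) (by simp) (f := c) fun k hk => (hc k hk).1
  have a1 := (hc k hk).2
  have a2 := (hc k' hk').2
  rw [he] at a1
  have a3 := dist_triangle_right (udev (σ (s + k / m))) (udev (σ (s + k' / m))) ((γ : Mot) (c k'))
  rw [dist_eq_norm, hd, add_sub_add_left_eq_sub, ← sub_div, abs_div, abs_of_pos hm0] at a3
  have a4 : (1 : ℝ) ≤ |(k : ℝ) - k'| := by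
    have : (1 : ℤ) ≤ |(k : ℤ) - k'| := Int.one_le_abs (by omega)
    exact_mod_cast this
  have a5 : 1 / m ≤ |(k : ℝ) - k'| / m := div_le_div_of_nonneg_right a4 hm0.le
  have a6 : 1 / m = 1 / (2 * m) + 1 / (2 * m) := by field_simp; ring
  linarith

theorem exists_compact_return {F : Set Ort} (hF : F.Finite) : ∃ K : Set (Unf P S), IsCompact K ∧
    ∀ (σ : ℝ → Unf P S) (z θ : ℂ), IsLine udev σ z θ → ‖θ‖ = 1 → ∀ (a : ℝ) (γ : Gam S),
      σ a ∈ Sh γ → hol γ ∈ F → ∀ s ∈ Icc a (a + 1), ∃ s' ∈ Icc s (s + 1), ∃ η : Lam S,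
        η • σ s' ∈ K := by
  obtain ⟨ρ, hρ, hfar⟩ := exists_far_from_verts (P := P) (S := S)
  obtain ⟨F₂, hF₂, h⟩ := reach_finite (P := P) (S := S) 2
  set K₀ : Set ℂ := P ∩ ⋂ v ∈ verts S, {p | ρ ≤ dist p v} with hK₀
  have hc : IsCompact K₀ := hP.out.compact.inter_right
    (isClosed_biInter fun v _ => isClosed_le continuous_const (by fun_prop))
  have hcore : K₀ ⊆ core P S := fun p hp => ⟨hp.1, fun hv => by
    have := mem_iInter₂.1 hp.2 p hv
    simp only [mem_ofPred_eq, dist_self] at this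
    linarith⟩
  refine ⟨⋃ g ∈ F * hol '' F₂, (fun p => Function.invFun hol g • iota P S p) '' K₀,
    (hF.mul (hF₂.image _)).isCompact_biUnion fun g _ =>
      hc.image_of_continuousOn ((continuousOn_smul_iota _).mono hcore), ?_⟩
  intro σ z θ hσ hθ a γ h1 h2 s hs
  obtain ⟨s', hs', h3⟩ := hfar σ z θ hσ hθ s
  obtain ⟨γ', h'⟩ := exists_Sh (σ s')
  have h4 := h _ _ _ _ h1 h' (hσ.seg etale_udev _ _) (by
    rw [hσ.2, hσ.2, add_sub_add_left_eq_sub, ← sub_mul, norm_mul, hθ, mul_one, ← ofReal_sub,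
      norm_real, Real.norm_eq_abs, abs_le]
    constructor <;> linarith [hs.1, hs.2, hs'.1, hs'.2])
  have h5 : hol (Function.invFun hol (hol γ') : Gam S) = hol γ' := Function.invFun_eq ⟨γ', rfl⟩
  refine ⟨s', hs', ⟨Function.invFun hol (hol γ') * γ'⁻¹, ?_⟩, mem_iUnion₂.2 ⟨hol γ',
    ⟨_, h2, _, mem_image_of_mem _ h4, by simp⟩, proj (σ s'),
    ⟨(proj_mem _).1, mem_iInter₂.2 h3⟩, ?_⟩⟩
  · change hol _ = 1
    rw [map_mul, h5, map_inv, mul_inv_cancel]
  · simp only [Lam.smul_def]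
    conv_rhs => rw [Sh.eq h', smul_smul, inv_mul_cancel_right]

theorem finite_hol_of_cover {B : Set (Unf P S)} (hB : (psurf P S).Bd B)
    (h : ∀ q : Unf P S, ∃ η : Lam S, η • q ∈ B) : (range (hol : Gam S → Ort)).Finite := by
  obtain ⟨F, hF, hB⟩ := hB
  obtain ⟨x, hx⟩ := hP.out.connected.nonempty
  have hc := hP.out.interior_subset_core hx
  refine (hF.image hol).subset ?_
  rintro _ ⟨γ, rfl⟩
  obtain ⟨η, hη⟩ := h (γ • iota P S x)
  obtain ⟨g, g1, g2⟩ := hB _ hη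
  have := Sh.unique (Sh.smul (smul_iota_mem γ hc) η) g2
    (by rwa [proj_smul, proj_smul_iota γ hc])
  exact ⟨g, g1, by rw [this, map_mul, show hol (η : Gam S) = 1 from η.2, one_mul]⟩

theorem exists_interior_not_sing : ∃ x ∈ interior P, x ∉ dverts S := by
  have := (dverts_countable (S := S)).to_subtype
  obtain ⟨x, h1, h2⟩ := exists_avoid_lines (ι := dverts S)
    (fun v => v.1) (fun _ => 0) isOpen_interior hP.out.connected.nonempty
  exact ⟨x, h1, fun h => h2 ⟨x, h⟩ 0 (by simp)⟩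

end Pool.Agent.Lib.MP_c02c19_gt
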