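import Pool.Agent.Lib.MP_c02c19_gt.Mot

/-!
Local structure of a polygon near non-vertex points.
-/

namespace Pool.Agent.Lib.MP_c02c19_gt

open Set Filter Topology Metric Complex

variable {P : Set ℂ} {S : Finset (ℂ × ℂ)}

/-- the vertices -/
def verts (S : Finset (ℂ × ℂ)) : Set ℂ := {v | ∃ s ∈ S, v = s.1 ∨ v = s.2}

theorem verts_finite (S : Finset (ℂ × ℂ)) : (verts S).Finite := by
  refine ((S.finite_toSet.image Prod.fst).union (S.finite_toSet.image Prod.snd)).subset ?_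
  rintro v ⟨s, hs, rfl | rfl⟩
  · exact Or.inl ⟨s, hs, rfl⟩
  · exact Or.inr ⟨s, hs, rfl⟩

/-- the polygon without its vertices -/
def core (P : Set ℂ) (S : Finset (ℂ × ℂ)) : Set ℂ := P \ verts S

/-- signed distance function of a side, up to a positive factor -/
def sd (s : ℂ × ℂ) (z : ℂ) : ℝ := cross (s.2 - s.1) (z - s.1)

theorem continuous_sd (s : ℂ × ℂ) : Continuous (sd s) := by
  unfold sd cross; fun_prop

theorem sd_line (s : ℂ × ℂ) (z v : ℂ) (t : ℝ) :
    sd s (z + t * v) = sd s z + t * cross (s.2 - s.1) v := by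
  simp [sd, cross]; ring

theorem sd_eq_zero_of_mem {s : ℂ × ℂ} {z : ℂ} (h : z ∈ segment ℝ s.1 s.2) : sd s z = 0 := by
  rw [segment_eq_image'] at h
  obtain ⟨t, -, rfl⟩ := h
  simp [sd, cross]; ring

theorem exists_of_sd_eq_zero {s : ℂ × ℂ} (hs : s.1 ≠ s.2) {z : ℂ} (h : sd s z = 0) :
    ∃ t : ℝ, z = s.1 + t * (s.2 - s.1) := by
  have h1 : s.2 - s.1 ≠ 0 := sub_ne_zero.2 hs.symm
  refine ⟨((z - s.1) / (s.2 - s.1)).re, ?_⟩
  have him : ((z - s.1) / (s.2 - s.1)).im = 0 := by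
    rw [div_im]
    have hn : normSq (s.2 - s.1) ≠ 0 := by rwa [Ne, normSq_eq_zero]
    simp only [sd, cross] at h
    field_simp
    linarith
  have : ((((z - s.1) / (s.2 - s.1)).re : ℝ) : ℂ) = (z - s.1) / (s.2 - s.1) := by
    apply Complex.ext <;> simp [him]
  rw [this]; field_simp; ring

theorem reflM_fix {s : ℂ × ℂ} {z : ℂ} (h : sd s z = 0) : reflM s.1 s.2 z = z := by
  by_cases hs : s.1 = s.2
  · simp [reflM, hs]
  · rw [reflM_apply hs, reflLine_eq_self_iff hs]; exact h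

theorem sd_reflM {s : ℂ × ℂ} (hs : s.1 ≠ s.2) (z : ℂ) : sd s (reflM s.1 s.2 z) = - sd s z := by
  rw [reflM_apply hs]; exact cross_reflLine hs z

open Classical in
/-- the reflection attached to a boundary point -/
noncomputable def rho (S : Finset (ℂ × ℂ)) (p : ℂ) : Gam S :=
  if h : ∃ s ∈ S, p ∈ openSegment ℝ s.1 s.2 then
    ⟨reflM h.choose.1 h.choose.2, reflM_mem_Gam h.choose_spec.1⟩ else 1

/-- the reflection in a side as an element of the group -/
noncomputable def rG {S : Finset (ℂ × ℂ)} {s : ℂ × ℂ} (hs : s ∈ S) : Gam S :=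
  ⟨reflM s.1 s.2, reflM_mem_Gam hs⟩

theorem rG_mul_self {s : ℂ × ℂ} (hs : s ∈ S) : rG hs * rG hs = 1 :=
  Subtype.ext (reflM_mul_self _ _)

theorem rho_cases (S : Finset (ℂ × ℂ)) (p : ℂ) :
    rho S p = 1 ∨ ∃ s, ∃ hs : s ∈ S, p ∈ openSegment ℝ s.1 s.2 ∧ rho S p = rG hs := by
  by_cases h : ∃ s ∈ S, p ∈ openSegment ℝ s.1 s.2
  · exact Or.inr ⟨_, h.choose_spec.1, h.choose_spec.2, by rw [rho, dif_pos h]; rfl⟩
  · exact Or.inl (by rw [rho, dif_neg h])

theorem rho_mul_self (S : Finset (ℂ × ℂ)) (p : ℂ) : rho S p * rho S p = 1 := by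
  rcases rho_cases S p with h | ⟨s, hs, -, h⟩
  · rw [h, one_mul]
  · rw [h, rG_mul_self]

theorem rho_apply_self (S : Finset (ℂ × ℂ)) (p : ℂ) : (rho S p : Mot) p = p := by
  rcases rho_cases S p with h | ⟨s, hs, h1, h⟩
  · rw [h]; rfl
  · rw [h]; exact reflM_fix (sd_eq_zero_of_mem (openSegment_subset_segment _ _ _ h1))

theorem rho_finite (S : Finset (ℂ × ℂ)) : (range (rho S)).Finite := by
  refine ((toFinite (range fun s : S => rG s.2)).insert 1).subset ?_
  rintro _ ⟨p, rfl⟩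
  rcases rho_cases S p with h | ⟨s, hs, -, h⟩
  · exact Or.inl h
  · exact Or.inr ⟨⟨s, hs⟩, h.symm⟩

namespace IsPolygon

variable (hP : IsPolygon P S)
include hP

theorem isClosed : IsClosed P := hP.compact.isClosed

theorem segment_subset_frontier {s : ℂ × ℂ} (hs : s ∈ S) : segment ℝ s.1 s.2 ⊆ frontier P := by
  rw [hP.frontier_eq]; exact subset_biUnion_of_mem (u := fun s : ℂ × ℂ => segment ℝ s.1 s.2) hs

theorem mem_of_mem_segment {s : ℂ × ℂ} (hs : s ∈ S) {z : ℂ} (hz : z ∈ segment ℝ s.1 s.2) :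
    z ∈ P := hP.isClosed.frontier_subset (hP.segment_subset_frontier hs hz)

theorem not_interior_of_mem_segment {s : ℂ × ℂ} (hs : s ∈ S) {z : ℂ}
    (hz : z ∈ segment ℝ s.1 s.2) : z ∉ interior P := (hP.segment_subset_frontier hs hz).2

theorem verts_subset_frontier : verts S ⊆ frontier P := by
  rintro v ⟨s, hs, rfl | rfl⟩
  · exact hP.segment_subset_frontier hs (left_mem_segment _ _ _)
  · exact hP.segment_subset_frontier hs (right_mem_segment _ _ _)

theorem interior_subset_core : interior P ⊆ core P S := fun _ hz =>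
  ⟨interior_subset hz, fun hv => (hP.verts_subset_frontier hv).2 hz⟩

theorem side_unique {s t : ℂ × ℂ} (hs : s ∈ S) (ht : t ∈ S) {p : ℂ}
    (h1 : p ∈ openSegment ℝ s.1 s.2) (h2 : p ∈ segment ℝ t.1 t.2) : s = t := by
  by_contra hne
  have := (hP.side_inter s hs t ht hne ⟨openSegment_subset_segment _ _ _ h1, h2⟩).1
  rcases this with rfl | rfl
  · exact hP.side_ne s hs (left_mem_openSegment_iff.1 h1)
  · exact hP.side_ne s hs (right_mem_openSegment_iff.1 h1)

theorem mem_core_of_side {s : ℂ × ℂ} (hs : s ∈ S) {p : ℂ} (h : p ∈ openSegment ℝ s.1 s.2) :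
    p ∈ core P S := by
  refine ⟨hP.mem_of_mem_segment hs (openSegment_subset_segment _ _ _ h), ?_⟩
  rintro ⟨t, ht, hv⟩
  have hm : p ∈ segment ℝ t.1 t.2 := by
    rcases hv with rfl | rfl
    · exact left_mem_segment _ _ _
    · exact right_mem_segment _ _ _
  obtain rfl := hP.side_unique hs ht h hm
  rcases hv with rfl | rfl
  · exact hP.side_ne s hs (left_mem_openSegment_iff.1 h)
  · exact hP.side_ne s hs (right_mem_openSegment_iff.1 h)

theorem rho_eq_of_side {s : ℂ × ℂ} (hs : s ∈ S) {p : ℂ} (h : p ∈ openSegment ℝ s.1 s.2) :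
    rho S p = rG hs := by
  have h' : ∃ s ∈ S, p ∈ openSegment ℝ s.1 s.2 := ⟨s, hs, h⟩
  have := hP.side_unique hs h'.choose_spec.1 h (openSegment_subset_segment _ _ _ h'.choose_spec.2)
  rw [rho, dif_pos h']
  exact Subtype.ext (by simp only [rG, ← this])

theorem rho_eq_one {p : ℂ} (h : p ∈ interior P) : rho S p = 1 := by
  rcases rho_cases S p with h1 | ⟨s, hs, h1, -⟩
  · exact h1
  · exact absurd h (hP.not_interior_of_mem_segment hs (openSegment_subset_segment _ _ _ h1))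

theorem core_cases {p : ℂ} (h : p ∈ core P S) :
    p ∈ interior P ∨ ∃ s ∈ S, p ∈ openSegment ℝ s.1 s.2 := by
  by_cases hi : p ∈ interior P
  · exact Or.inl hi
  · have hf : p ∈ frontier P := ⟨subset_closure h.1, hi⟩
    rw [hP.frontier_eq] at hf
    obtain ⟨s, hs, hm⟩ := mem_iUnion₂.1 hf
    refine Or.inr ⟨s, hs, ?_⟩
    rw [← insert_endpoints_openSegment] at hm
    rcases hm with rfl | rfl | hm
    · exact absurd ⟨s, hs, Or.inl rfl⟩ h.2
    · exact absurd ⟨s, hs, Or.inr rfl⟩ h.2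
    · exact hm

theorem subset_or_subset {D : Set ℂ} (hD : IsPreconnected D) (h : Disjoint D (frontier P)) :
    D ⊆ interior P ∨ D ⊆ Pᶜ := by
  refine hD.subset_or_subset isOpen_interior hP.isClosed.isOpen_compl
    (disjoint_compl_right.mono_left interior_subset) fun z hz => ?_
  by_cases hz' : z ∈ P
  · left
    by_contra hi
    exact Set.disjoint_left.1 h hz ⟨subset_closure hz', hi⟩
  · exact Or.inr hz'

theorem half_disc {s : ℂ × ℂ} (hs : s ∈ S) {p : ℂ} (hp : p ∈ openSegment ℝ s.1 s.2) :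
    ∃ ε > 0, ∃ κ : ℝ, (κ = 1 ∨ κ = -1) ∧ ∀ z ∈ ball p ε, z ∉ verts S ∧
      (z ∈ P ↔ 0 ≤ κ * sd s z) ∧ (z ∈ interior P ↔ 0 < κ * sd s z) ∧
      (sd s z = 0 → z ∈ openSegment ℝ s.1 s.2) := by
  classical
  have hne := hP.side_ne s hs
  have hcl : IsClosed ((⋃ t ∈ S.erase s, segment ℝ t.1 t.2) ∪ verts S) := by
    refine IsClosed.union (isClosed_biUnion_finset fun t _ => ?_) (verts_finite S).isClosed
    rw [segment_eq_image_lineMap]
    exact (isCompact_Icc.image AffineMap.lineMap_continuous).isClosed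
  have hp' : p ∉ (⋃ t ∈ S.erase s, segment ℝ t.1 t.2) ∪ verts S := by
    rintro (h | h)
    · obtain ⟨t, ht, hm⟩ := mem_iUnion₂.1 h
      rw [Finset.mem_erase] at ht
      exact ht.1 (hP.side_unique hs ht.2 hp hm).symm
    · exact (hP.mem_core_of_side hs hp).2 h
  obtain ⟨ε, hε, hb⟩ := Metric.mem_nhds_iff.1 (hcl.isOpen_compl.mem_nhds hp')
  have hv : ∀ z ∈ ball p ε, z ∉ verts S := fun z hz h => hb hz (Or.inr h)
  have hfr : ∀ z ∈ ball p ε, z ∈ frontier P → sd s z = 0 := by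
    intro z hz hf
    rw [hP.frontier_eq] at hf
    obtain ⟨t, ht, hm⟩ := mem_iUnion₂.1 hf
    by_cases hts : t = s
    · rw [hts] at hm; exact sd_eq_zero_of_mem hm
    · exact absurd (Or.inl (mem_iUnion₂.2 ⟨t, Finset.mem_erase.2 ⟨hts, ht⟩, hm⟩)) (hb hz)
  have hline : ∀ z ∈ ball p ε, sd s z = 0 → z ∈ openSegment ℝ s.1 s.2 := by
    intro z hz h0
    obtain ⟨t, rfl⟩ := exists_of_sd_eq_zero hne h0
    rw [openSegment_eq_image'] at hp ⊢
    obtain ⟨t₀, ht₀, rfl⟩ := hp
    have hd : 0 < ‖s.2 - s.1‖ := norm_pos_iff.2 (sub_ne_zero.2 hne.symm)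
    have h1 : ε ≤ t₀ * ‖s.2 - s.1‖ := by
      by_contra hc
      refine hv s.1 ?_ ⟨s, hs, Or.inl rfl⟩
      rw [mem_ball, dist_eq_norm]
      simpa [abs_of_pos ht₀.1] using not_le.1 hc
    have h2 : ε ≤ (1 - t₀) * ‖s.2 - s.1‖ := by
      by_contra hc
      refine hv s.2 ?_ ⟨s, hs, Or.inr rfl⟩
      rw [mem_ball, dist_eq_norm]
      have e : s.2 - (s.1 + t₀ • (s.2 - s.1)) = ((1 - t₀ : ℝ) : ℂ) * (s.2 - s.1) := by
        simp only [real_smul]; push_cast; ring
      simp only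
      rw [e, norm_mul, norm_real, Real.norm_eq_abs, abs_of_pos (by linarith [ht₀.2])]
      exact not_le.1 hc
    rw [mem_ball, dist_eq_norm] at hz
    have e : s.1 + t * (s.2 - s.1) - (s.1 + t₀ • (s.2 - s.1)) = ((t - t₀ : ℝ) : ℂ) * (s.2 - s.1) := by
      simp only [real_smul]; push_cast; ring
    simp only at hz
    rw [e, norm_mul, norm_real, Real.norm_eq_abs] at hz
    have h3 := neg_abs_le (t - t₀)
    have h4 := le_abs_self (t - t₀)
    refine ⟨t, ⟨by nlinarith, by nlinarith⟩, by simp⟩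
  have hconv : ∀ κ : ℝ, Convex ℝ (ball p ε ∩ {z | 0 < κ * sd s z}) := by
    intro κ
    refine (convex_ball _ _).inter ?_
    intro x hx y hy a b ha hb hab
    simp only [mem_ofPred_eq] at hx hy ⊢
    have : sd s (a • x + b • y) = a * sd s x + b * sd s y := by
      have hb' : b = 1 - a := by linarith
      simp [sd, cross, hb']; ring
    rw [this]
    rcases ha.eq_or_lt with h | h
    · have : b = 1 := by linarith
      rw [← h, this]; linarith
    · nlinarith [mul_pos h hx, mul_nonneg hb hy.le]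
  have hdis : ∀ κ : ℝ, Disjoint (ball p ε ∩ {z | 0 < κ * sd s z}) (frontier P) := by
    intro κ
    rw [Set.disjoint_left]
    intro z hz hf
    have := hz.2
    rw [mem_ofPred_eq, hfr z hz.1 hf] at this
    simp at this
  have hzero : ∀ z ∈ ball p ε, sd s z = 0 → z ∈ frontier P := fun z hz h0 =>
    hP.segment_subset_frontier hs (openSegment_subset_segment _ _ _ (hline z hz h0))
  have hpf : p ∈ frontier P := hP.segment_subset_frontier hs (openSegment_subset_segment _ _ _ hp)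
  have main : ∀ κ : ℝ, (κ = 1 ∨ κ = -1) → ball p ε ∩ {z | 0 < κ * sd s z} ⊆ interior P →
      ball p ε ∩ {z | 0 < -κ * sd s z} ⊆ Pᶜ → ∀ z ∈ ball p ε, z ∉ verts S ∧
      (z ∈ P ↔ 0 ≤ κ * sd s z) ∧ (z ∈ interior P ↔ 0 < κ * sd s z) ∧
      (sd s z = 0 → z ∈ openSegment ℝ s.1 s.2) := by
    intro κ hκ h1 h2 z hz
    have hκ0 : κ ≠ 0 := by rcases hκ with rfl | rfl <;> norm_num
    refine ⟨hv z hz, ⟨fun h => ?_, fun h => ?_⟩, ⟨fun h => ?_, fun h => h1 ⟨hz, h⟩⟩, hline z hz⟩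
    · by_contra hc
      exact h2 ⟨hz, by simp only [mem_ofPred_eq]; linarith [not_le.1 hc]⟩ h
    · rcases h.eq_or_lt with h | h
      · exact hP.isClosed.frontier_subset
          (hzero z hz ((mul_eq_zero.1 h.symm).resolve_left hκ0))
      · exact interior_subset (h1 ⟨hz, h⟩)
    · rcases lt_trichotomy 0 (κ * sd s z) with h' | h' | h'
      · exact h'
      · exact absurd h (hzero z hz ((mul_eq_zero.1 h'.symm).resolve_left hκ0)).2
      · exact absurd (interior_subset h) (h2 ⟨hz, by simp only [mem_ofPred_eq]; linarith⟩)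
  rcases hP.subset_or_subset (hconv 1).isPreconnected (hdis 1) with h1 | h1 <;>
    rcases hP.subset_or_subset (hconv (-1)).isPreconnected (hdis (-1)) with h2 | h2
  · exfalso
    refine hpf.2 (mem_interior_iff_mem_nhds.2 (mem_of_superset (ball_mem_nhds p hε) fun z hz => ?_))
    rcases lt_trichotomy 0 (sd s z) with h' | h' | h'
    · exact interior_subset (h1 ⟨hz, by simpa using h'⟩)
    · exact hP.isClosed.frontier_subset (hzero z hz h'.symm)
    · exact interior_subset (h2 ⟨hz, by simpa using h'⟩)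
  · exact ⟨ε, hε, 1, Or.inl rfl, main 1 (Or.inl rfl) h1 h2⟩
  · exact ⟨ε, hε, -1, Or.inr rfl, main (-1) (Or.inr rfl) h2 (by simpa using h1)⟩
  · exfalso
    have : p ∈ closure (interior P) := by
      rw [hP.closure_eq]; exact hP.isClosed.frontier_subset hpf
    obtain ⟨z, z1, z2⟩ := mem_closure_iff_nhds.1 this _ (ball_mem_nhds p hε)
    rcases lt_trichotomy 0 (sd s z) with h' | h' | h'
    · exact h1 ⟨z1, by simpa using h'⟩ (interior_subset z2)
    · exact (hzero z z1 h'.symm).2 z2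
    · exact h2 ⟨z1, by simpa using h'⟩ (interior_subset z2)

theorem rho_local {p : ℂ} (hp : p ∈ core P S) :
    ∃ ε > 0, ∀ z ∈ ball p ε, z ∈ P → rho S z = 1 ∨ rho S z = rho S p := by
  rcases hP.core_cases hp with h | ⟨s, hs, h⟩
  · obtain ⟨ε, hε, hb⟩ := Metric.mem_nhds_iff.1 (isOpen_interior.mem_nhds h)
    exact ⟨ε, hε, fun z hz _ => Or.inl (hP.rho_eq_one (hb hz))⟩
  · obtain ⟨ε, hε, κ, hκ, hb⟩ := hP.half_disc hs h
    refine ⟨ε, hε, fun z hz hzP => ?_⟩
    obtain ⟨-, h1, h2, h3⟩ := hb z hz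
    rcases (h1.1 hzP).eq_or_lt with h' | h'
    · have hκ0 : κ ≠ 0 := by rcases hκ with rfl | rfl <;> norm_num
      right
      rw [hP.rho_eq_of_side hs h,
        hP.rho_eq_of_side hs (h3 ((mul_eq_zero.1 h'.symm).resolve_left hκ0))]
    · exact Or.inl (hP.rho_eq_one (h2.2 h'))

theorem isPreconnected_core : IsPreconnected (core P S) :=
  hP.connected.isPreconnected.subset_closure hP.interior_subset_core
    (by rw [hP.closure_eq]; exact sdiff_subset)

theorem nonempty_core : Nonempty (core P S) :=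
  let ⟨x, hx⟩ := hP.connected.nonempty
  ⟨⟨x, hP.interior_subset_core hx⟩⟩

end IsPolygon

end Pool.Agent.Lib.MP_c02c19_gt
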