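import Pool.Agent.Lib.MP_c02c19_gt.Rigid1

/-!
TASK B. Rigidity of concurrent lines.

`PolyL.eq_zero_of_lines`: `f` vanishes on the whole line if it vanishes on a segment (polynomial
with infinitely many roots). Pass to an infinite (countable) subfamily of pairwise non-parallel
directions (at most two unit vectors are parallel). Given `z₀` on none of the lines choose a
direction `v` not parallel to any of the lines and not pointing to any of the countably many
pairwise intersection points; the line `z₀ + s v` meets the lines in pairwise different points,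
so the polynomial `s ↦ f (z₀ + s v)` has infinitely many roots.

`exists_tests`: for `A B : Fin 3 → Γ` put `P i = A i x`, `Q i = B i y`, `d i = Q i - P i` and
`conc = cross (P 0) (Q 0) * cross (d 1) (d 2) + cross (P 1) (Q 1) * cross (d 2) (d 0)
  + cross (P 2) (Q 2) * cross (d 0) (d 1)`; it vanishes when the three lines have a common point.
Tests: those `conc A B` that are not identically zero; `cross (A' x - A x) (B y - A x)` for
`A ≠ A'`; `cross (B' y - B y) (A x - B y)` for `B ≠ B'`; `‖x - y‖²` (as re² + im²).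
Suppose the set of holonomies through `z` is infinite. By pigeonhole (`Ort.exists_form`) there are
4 pairs `(A i, B i)` with pairwise different `lin (A⁻¹ B)` and with all `A i` of the same
orientation type and all `B i` of the same type. After `x ↦ conj x`, `y ↦ conj y` if needed,
`A i x = α i x + p i`, `B i y = β i y + q i`, `β i / α i` pairwise different, and all `conc` of
triples vanish identically. In complex form (`u = conj x`, `v = conj y` become independent
variables, since an entire function vanishing on `ℝ` vanishes) the determinant with rows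
`(β⁻¹ v + q' - α⁻¹ u - p', α x + p - β y - q, (α⁻¹ u + p')(β y + q) - (α x + p)(β⁻¹ v + q'))`
(`p' = conj p`, `q' = conj q`) vanishes identically. Coefficients:
`x² v²` gives `det (α⁻¹, β, 1) = 0`; `x u² y` gives `det (α², β, 1) = 0`.
If `β` is not constant, `α⁻¹ = c₁ β + c₀`, `α² = d₁ β + d₀` on the family, so
`(c₁ β + c₀)² (d₁ β + d₀) = 1`; `α` is a function of `β`, so the four `β i` are different and the
cubic identity holds identically, forcing `c₁ = 0`: `α` constant. So `α` or `β` is constant.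
If `β` is constant (the `α i` are then different): coefficient `y u²` gives
`det (1, α, q) = 0`, coefficient `x u²` gives `det (1, α², q) = 0`, hence (Vandermonde) `q` is
constant: `B 0 = B 1`; both lines pass through `z ≠ B y` and `B y`, so `A 0 x, A 1 x, B y` are
collinear, so `A 0 = A 1` by the tests: contradiction. The case `α` constant is symmetric.

`exists_tests_transl`: with `w = y - x + l₁`, `a = l₂ - l₁`, `b = l₃ - l₁`, `m = m₂ - m₁`,
`n = m₃ - m₁` one gets `s₁ X(a,w) + X(w+a,m) = 0`, `s₁ X(b,w) + X(w+b,n) = 0` (`X = cross`), so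
`g(w) = X(w+a,m) X(b,w) - X(w+b,n) X(a,w) = 0`. Tests: the `g` that are not identically zero,
and `X(a, w)` for `a ≠ 0`. If `g ≡ 0` (with `a, b ≠ 0`, `a ≠ b`) then `m = t a`, `n = t b` for
a real `t` (separate quadratic and linear parts by `w ↦ -w`; cases `X(a,b) ≠ 0`, `b = k a`), and
then `s₁ = t`, `s₂ = t`, `s₃ = t`.
-/

namespace Pool.Agent.Lib.MP_c02c19_gt

open Complex Set

/-- `f` is a polynomial on every line -/
def PolyL (f : ℂ → ℝ) : Prop :=
  ∀ z v : ℂ, ∃ p : Polynomial ℝ, ∀ s : ℝ, f (z + s * v) = p.eval s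

theorem rigid_line_zero {f : ℂ → ℝ} (hf : PolyL f) {z v : ℂ} {T : Set ℝ} (hT : T.Infinite)
    (h : ∀ s ∈ T, f (z + s * v) = 0) (s : ℝ) : f (z + s * v) = 0 := by
  obtain ⟨p, hp⟩ := hf z v
  have h0 : p = 0 := Polynomial.eq_zero_of_infinite_isRoot p (hT.mono fun t ht => by
    rw [mem_ofPred_eq, Polynomial.IsRoot.def, ← hp]
    exact h t ht)
  rw [hp, h0, Polynomial.eval_zero]

theorem PolyL.eq_zero_of_lines {f : ℂ → ℝ} (hf : PolyL f) {Θ : Set ℂ} (hΘ : Θ.Infinite)
    (hn : ∀ v ∈ Θ, ‖v‖ = 1)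
    (h : ∀ v ∈ Θ, ∃ z : ℂ, ∃ ε > (0 : ℝ), ∀ s ∈ Ioo (0 : ℝ) ε, f (z + s * v) = 0) :
    ∀ z, f z = 0 := by
  intro z₀
  choose! c ε hε hz using h
  have hv0 : ∀ v ∈ Θ, v ≠ 0 := fun v hv e => by simpa [e] using hn v hv
  have hline : ∀ v ∈ Θ, ∀ w, cross v (w - c v) = 0 → f w = 0 := by
    intro v hv w hw
    obtain ⟨r, hr⟩ := rigid_par (hv0 v hv) hw
    have := rigid_line_zero hf (Set.Ioo_infinite (hε v hv)) (hz v hv) r
    rwa [← hr, add_sub_cancel] at this
  by_contra hne
  have hk : ∀ v ∈ Θ, cross v (z₀ - c v) ≠ 0 := fun v hv e => hne (hline v hv z₀ e)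
  have hfin : ∀ u : ℂ, ((fun v => cross v u / cross v (z₀ - c v)) '' Θ).Finite := by
    intro u
    by_contra hinf
    have h1 : (((fun v => cross v u / cross v (z₀ - c v)) '' Θ) \ {0}).Infinite :=
      Set.Infinite.sdiff hinf (Set.finite_singleton 0)
    have h2 := h1.image (f := fun t : ℝ => -t⁻¹)
      (fun a _ b _ e => inv_injective (neg_injective e))
    have h3 := rigid_line_zero hf (z := z₀) (v := u) h2 (by
      rintro _ ⟨_, ⟨⟨v, hv, rfl⟩, h0⟩, rfl⟩
      refine hline v hv _ ?_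
      have h4 : cross v u ≠ 0 := fun e => h0 (by simp [e])
      have h5 := hk v hv
      have h6 : ∀ s : ℝ, cross v (z₀ + s * u - c v) = cross v (z₀ - c v) + s * cross v u := by
        intro s
        simp [cross]
        ring
      rw [h6]
      field_simp
      ring) 0
    exact hne (by simpa using h3)
  have hW : ((fun v => v / (cross v (z₀ - c v) : ℝ)) '' Θ).Finite := by
    refine (((hfin I).prod (hfin 1)).image fun q : ℝ × ℝ => (q.1 : ℂ) - q.2 * I).subset ?_
    rintro _ ⟨v, hv, rfl⟩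
    refine ⟨(_, _), ⟨⟨v, hv, rfl⟩, ⟨v, hv, rfl⟩⟩, ?_⟩
    have h5 : ((cross v (z₀ - c v) : ℝ) : ℂ) ≠ 0 := by exact_mod_cast hk v hv
    have h6 : cross v I = v.re := by simp [cross]
    have h7 : cross v 1 = -v.im := by simp [cross]
    simp only [h6, h7]
    push_cast
    field_simp
    linear_combination Complex.re_add_im v
  refine hΘ (((hW.image fun w : ℂ => w / (‖w‖ : ℂ)).union
    (hW.image fun w : ℂ => -(w / (‖w‖ : ℂ)))).subset ?_)
  intro v hv
  have h5 := hk v hv
  set k := cross v (z₀ - c v) with hkd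
  have h5' : (k : ℂ) ≠ 0 := by exact_mod_cast h5
  have h6 : ‖v / (k : ℂ)‖ = |k|⁻¹ := by
    rw [norm_div, hn v hv, Complex.norm_real, Real.norm_eq_abs, one_div]
  rcases lt_or_gt_of_ne h5 with h | h
  · refine Or.inr ⟨_, ⟨v, hv, rfl⟩, ?_⟩
    simp only [← hkd, h6, abs_of_neg h]
    push_cast
    field_simp
  · refine Or.inl ⟨_, ⟨v, hv, rfl⟩, ?_⟩
    simp only [← hkd, h6, abs_of_pos h]
    push_cast
    field_simp

theorem PolyL.eq_zero_of_open {f : ℂ → ℝ} (hf : PolyL f) {U : Set ℂ} (hU : IsOpen U)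
    (hne : U.Nonempty) (h : ∀ z ∈ U, f z = 0) : ∀ z, f z = 0 := by
  intro z
  obtain ⟨z₀, hz₀⟩ := hne
  have hc : Continuous fun s : ℝ => z₀ + s * (z - z₀) := by fun_prop
  have h1 : (fun s : ℝ => z₀ + s * (z - z₀)) ⁻¹' U ∈ nhds (0 : ℝ) :=
    (hU.preimage hc).mem_nhds (by simpa using hz₀)
  have h2 := rigid_line_zero hf (z := z₀) (v := z - z₀) (infinite_of_mem_nhds 0 h1)
    (fun s hs => h _ hs) 1
  simpa using h2

/-- `φ` is affine on every line -/
def RigidAff (φ : ℂ → ℂ) : Prop := ∀ z v : ℂ, ∃ w : ℂ, ∀ s : ℝ, φ (z + s * v) = φ z + s * w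

theorem RigidAff.const (c : ℂ) : RigidAff fun _ => c := fun _ _ => ⟨0, fun _ => by simp⟩

theorem RigidAff.id : RigidAff fun z => z := fun _ v => ⟨v, fun _ => rfl⟩

theorem RigidAff.mot (g : Mot) : RigidAff fun z => g z := fun z v => ⟨_, g.apply_line z v⟩

theorem RigidAff.sub {φ ψ : ℂ → ℂ} (h : RigidAff φ) (h' : RigidAff ψ) :
    RigidAff fun z => φ z - ψ z := fun z v => by
  obtain ⟨w, hw⟩ := h z v
  obtain ⟨w', hw'⟩ := h' z v
  exact ⟨w - w', fun s => by simp only [hw, hw']; ring⟩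

theorem RigidAff.add {φ ψ : ℂ → ℂ} (h : RigidAff φ) (h' : RigidAff ψ) :
    RigidAff fun z => φ z + ψ z := fun z v => by
  obtain ⟨w, hw⟩ := h z v
  obtain ⟨w', hw'⟩ := h' z v
  exact ⟨w + w', fun s => by simp only [hw, hw']; ring⟩

theorem RigidAff.const_mul {φ : ℂ → ℂ} (h : RigidAff φ) (c : ℂ) :
    RigidAff fun z => c * φ z := fun z v => by
  obtain ⟨w, hw⟩ := h z v
  exact ⟨c * w, fun s => by simp only [hw]; ring⟩

theorem RigidAff.cross {φ ψ : ℂ → ℂ} (h : RigidAff φ) (h' : RigidAff ψ) :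
    PolyL fun z => cross (φ z) (ψ z) := fun z v => by
  obtain ⟨w, hw⟩ := h z v
  obtain ⟨w', hw'⟩ := h' z v
  refine ⟨Polynomial.C (MP_c02c19_gt.cross (φ z) (ψ z)) + Polynomial.C
    (MP_c02c19_gt.cross (φ z) w' + MP_c02c19_gt.cross w (ψ z)) * Polynomial.X +
    Polynomial.C (MP_c02c19_gt.cross w w') * Polynomial.X ^ 2, fun s => ?_⟩
  simp [hw, hw', MP_c02c19_gt.cross]
  ring

theorem rigid_polyL_add {f g : ℂ → ℝ} (h : PolyL f) (h' : PolyL g) :
    PolyL fun z => f z + g z := fun z v => by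
  obtain ⟨p, hp⟩ := h z v
  obtain ⟨q, hq⟩ := h' z v
  exact ⟨p + q, fun s => by simp [hp, hq]⟩

theorem rigid_polyL_sub {f g : ℂ → ℝ} (h : PolyL f) (h' : PolyL g) :
    PolyL fun z => f z - g z := fun z v => by
  obtain ⟨p, hp⟩ := h z v
  obtain ⟨q, hq⟩ := h' z v
  exact ⟨p - q, fun s => by simp [hp, hq]⟩

theorem rigid_polyL_mul {f g : ℂ → ℝ} (h : PolyL f) (h' : PolyL g) :
    PolyL fun z => f z * g z := fun z v => by
  obtain ⟨p, hp⟩ := h z v
  obtain ⟨q, hq⟩ := h' z v
  exact ⟨p * q, fun s => by simp [hp, hq]⟩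

theorem rigid_polyL_conc {P Q : Fin 3 → ℂ → ℂ} (hP : ∀ i, RigidAff (P i))
    (hQ : ∀ i, RigidAff (Q i)) : PolyL fun z => rigidConc (fun i => P i z) fun i => Q i z :=
  rigid_polyL_add (rigid_polyL_add
    (rigid_polyL_mul ((hP 0).cross (hQ 0)) (((hQ 1).sub (hP 1)).cross ((hQ 2).sub (hP 2))))
    (rigid_polyL_mul ((hP 1).cross (hQ 1)) (((hQ 2).sub (hP 2)).cross ((hQ 0).sub (hP 0)))))
    (rigid_polyL_mul ((hP 2).cross (hQ 2)) (((hQ 0).sub (hP 0)).cross ((hQ 1).sub (hP 1))))

theorem rigid_cont_cross {X : Type} [TopologicalSpace X] {φ ψ : X → ℂ} (h : Continuous φ)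
    (h' : Continuous ψ) : Continuous fun x => cross (φ x) (ψ x) := by
  unfold cross
  fun_prop

theorem rigid_exists_ne {A A' : Mot} (B : Mot) (h : A ≠ A') :
    ∃ x y, cross (A' x - A x) (B y - A x) ≠ 0 := by
  obtain ⟨x, hx⟩ : ∃ x, A' x ≠ A x := by
    by_contra hcon
    push Not at hcon
    exact h (AffineIsometryEquiv.ext fun x => (hcon x).symm)
  refine ⟨x, B⁻¹ (A x + I * (A' x - A x)), ?_⟩
  rw [Mot.apply_inv_self, add_sub_cancel_left]
  exact rigid_cross_I (sub_ne_zero.2 hx)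

theorem rigid_collinear {P P' Q z : ℂ} (h : z ∈ segment ℝ P Q) (h' : z ∈ segment ℝ P' Q)
    (hz : z ≠ Q) : cross (P' - P) (Q - P) = 0 := by
  obtain ⟨a, b, -, -, hab, e⟩ := h
  obtain ⟨a', b', -, -, hab', e'⟩ := h'
  obtain rfl : b = 1 - a := by linarith
  obtain rfl : b' = 1 - a' := by linarith
  have ha' : a' ≠ 0 := by
    rintro rfl
    exact hz (by simpa using e'.symm)
  have h1 := e.trans e'.symm
  have h2 := congrArg Complex.re h1
  have h3 := congrArg Complex.im h1
  simp only [Complex.real_smul, add_re, add_im, re_ofReal_mul, im_ofReal_mul] at h2 h3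
  apply mul_left_cancel₀ ha'
  simp only [cross, sub_re, sub_im]
  linear_combination (P.im - Q.im) * h2 - (P.re - Q.re) * h3

/-- families of motions of one orientation type -/
theorem rigid_type {A : ℕ → Mot} {b : Prop} (h : ∀ i, (∃ a, ∀ z, lin (A i) z = a * z) ↔ b) :
    ∃ (σ : ℂ → ℂ) (α : ℕ → ℂ), Function.Bijective σ ∧ (∀ i, ‖α i‖ = 1) ∧
      ∀ i z, lin (A i) z = α i * σ z := by
  by_cases hb : b
  · choose α hα using fun i => (h i).2 hb
    refine ⟨fun z => z, α, Function.bijective_id, fun i => ?_, hα⟩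
    have := (lin (A i)).norm_map 1
    simpa [hα] using this
  · choose α hα1 hα using fun i => Ort.exists_form (lin (A i))
    exact ⟨starRingEnd ℂ, α, Complex.conjAe.bijective, hα1,
      fun i => (hα i).resolve_left fun k => hb ((h i).1 ⟨_, k⟩)⟩

theorem rigid_main {A B : ℕ → Mot} {a b : Prop}
    (hA : ∀ i, (∃ c, ∀ z, lin (A i) z = c * z) ↔ a) (hB : ∀ i, (∃ c, ∀ z, lin (B i) z = c * z) ↔ b)
    (hinj : Function.Injective fun i => lin ((A i)⁻¹ * B i))
    (h : ∀ (t : Fin 3 → ℕ) (x y : ℂ), rigidConc (fun i => A (t i) x) (fun i => B (t i) y) = 0) :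
    A 0 = A 1 ∨ B 0 = B 1 := by
  obtain ⟨σ, α, hσ, hα1, hα⟩ := rigid_type hA
  obtain ⟨τ, β, hτ, hβ1, hβ⟩ := rigid_type hB
  have hα0 : ∀ i, α i ≠ 0 := fun i e => by simpa [e] using hα1 i
  have hβ0 : ∀ i, β i ≠ 0 := fun i e => by simpa [e] using hβ1 i
  have hinv : ∀ c : ℂ, ‖c‖ = 1 → (starRingEnd ℂ) c = c⁻¹ := fun c hc =>
    (Complex.inv_eq_conj hc).symm
  have hne : ∀ i j, α i = α j → β i = β j → i = j := by
    intro i j e1 e2
    have k1 : lin (A i) = lin (A j) := LinearIsometryEquiv.ext fun z => by rw [hα, hα, e1]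
    have k2 : lin (B i) = lin (B j) := LinearIsometryEquiv.ext fun z => by rw [hβ, hβ, e2]
    exact hinj (by simp only [map_mul, map_inv, k1, k2])
  have hD : ∀ (t : Fin 3 → ℕ) (x u y v : ℂ), rigidDet (fun i => α (t i) * x + A (t i) 0)
      (fun i => (starRingEnd ℂ) (α (t i)) * u + (starRingEnd ℂ) (A (t i) 0))
      (fun i => β (t i) * y + B (t i) 0)
      (fun i => (starRingEnd ℂ) (β (t i)) * v + (starRingEnd ℂ) (B (t i) 0)) = 0 := by
    intro t x u y v
    refine rigid_complexify (F := fun x u => rigidDet (fun i => α (t i) * x + A (t i) 0)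
      (fun i => (starRingEnd ℂ) (α (t i)) * u + (starRingEnd ℂ) (A (t i) 0))
      (fun i => β (t i) * y + B (t i) 0)
      (fun i => (starRingEnd ℂ) (β (t i)) * v + (starRingEnd ℂ) (B (t i) 0)))
      (by unfold rigidDet; fun_prop) (fun x => ?_) x u
    refine rigid_complexify (F := fun y v => rigidDet (fun i => α (t i) * x + A (t i) 0)
      (fun i => (starRingEnd ℂ) (α (t i)) * (starRingEnd ℂ) x + (starRingEnd ℂ) (A (t i) 0))
      (fun i => β (t i) * y + B (t i) 0)
      (fun i => (starRingEnd ℂ) (β (t i)) * v + (starRingEnd ℂ) (B (t i) 0)))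
      (by unfold rigidDet; fun_prop) (fun y => ?_) y v
    obtain ⟨x, rfl⟩ := hσ.2 x
    obtain ⟨y, rfl⟩ := hτ.2 y
    have e1 : ∀ i, α i * σ x + A i 0 = A i x := fun i => by rw [Mot.apply_eq (A i) x, hα, add_comm]
    have e2 : ∀ i, β i * τ y + B i 0 = B i y := fun i => by rw [Mot.apply_eq (B i) y, hβ, add_comm]
    simp only [← map_mul, ← map_add, e1, e2]
    rw [rigidDet_conj, h]
    simp
  have hc := rigid_const hα0 hne fun i j k =>
    rigid_two_dets (hD ![i, j, k]) (fun _ => hinv _ (hα1 _)) (fun _ => hα0 _)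
      (fun _ => hinv _ (hβ1 _)) (fun _ => hβ0 _)
  rcases hc with hc | hc
  · left
    have h1 : A 0 0 = A 1 0 := rigid_q_const (α := fun i => β (![0, 1, 2] i))
      (q := fun i => A (![0, 1, 2] i) 0)
      (fun x u y v => by rw [rigidDet_swap, hD ![0, 1, 2], neg_zero])
      (fun _ => hinv _ (hβ1 _)) (fun _ => hβ0 _) (hα0 0) (fun _ => hc _)
      (fun e => absurd (hne 1 2 ((hc 1).trans (hc 2).symm) e) (by norm_num))
      (fun e => absurd (hne 2 0 (hc 2) e) (by norm_num))
    exact Mot.ext_of_lin (LinearIsometryEquiv.ext fun z => by rw [hα, hα, hc 1]) h1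
  · right
    have h1 : B 0 0 = B 1 0 := rigid_q_const (α := fun i => α (![0, 1, 2] i))
      (q := fun i => B (![0, 1, 2] i) 0) (hD ![0, 1, 2])
      (fun _ => hinv _ (hα1 _)) (fun _ => hα0 _) (hβ0 0) (fun _ => hc _)
      (fun e => absurd (hne 1 2 e ((hc 1).trans (hc 2).symm)) (by norm_num))
      (fun e => absurd (hne 2 0 e (hc 2)) (by norm_num))
    exact Mot.ext_of_lin (LinearIsometryEquiv.ext fun z => by rw [hβ, hβ, hc 1]) h1

theorem exists_tests (Γ : Subgroup Mot) [Countable Γ] :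
    ∃ (ι : Type) (_ : Countable ι) (f : ι → ℂ → ℂ → ℝ),
      (∀ i, Continuous fun p : ℂ × ℂ => f i p.1 p.2) ∧
      (∀ i y, PolyL fun x => f i x y) ∧ (∀ i x, PolyL fun y => f i x y) ∧
      (∀ i, ∃ x y, f i x y ≠ 0) ∧
      ∀ x y, (∀ i, f i x y ≠ 0) → x ≠ y ∧ ∀ z : ℂ,
        {h : Ort | ∃ A ∈ Γ, ∃ B ∈ Γ, h = lin (A⁻¹ * B) ∧ z ∈ segment ℝ (A x) (B y) ∧
          z ≠ A x ∧ z ≠ B y}.Finite := by
  classical
  let F : ((Fin 3 → Γ) × (Fin 3 → Γ)) ⊕ (Γ × Γ × Γ) ⊕ (Γ × Γ × Γ) ⊕ Unit → ℂ → ℂ → ℝ :=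
    fun t x y => match t with
      | .inl (A, B) => rigidConc (fun i => (A i : Mot) x) fun i => (B i : Mot) y
      | .inr (.inl (A, A', B)) =>
          cross ((A' : Mot) x - (A : Mot) x) ((B : Mot) y - (A : Mot) x)
      | .inr (.inr (.inl (B, B', A))) =>
          cross ((B' : Mot) y - (B : Mot) y) ((A : Mot) x - (B : Mot) y)
      | .inr (.inr (.inr _)) => cross (x - y) (I * (x - y))
  have c1 : ∀ g : Mot, Continuous fun p : ℂ × ℂ => g p.1 := fun g =>
    g.continuous.comp continuous_fst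
  have c2 : ∀ g : Mot, Continuous fun p : ℂ × ℂ => g p.2 := fun g =>
    g.continuous.comp continuous_snd
  refine ⟨{t // ∃ x y, F t x y ≠ 0}, inferInstance, fun t => F t.1, ?_, ?_, ?_, fun t => t.2, ?_⟩
  · rintro ⟨(⟨A, B⟩ | ⟨A, A', B⟩ | ⟨B, B', A⟩ | _), -⟩
    · exact (((rigid_cont_cross (c1 _) (c2 _)).mul
        (rigid_cont_cross ((c2 _).sub (c1 _)) ((c2 _).sub (c1 _)))).add
        ((rigid_cont_cross (c1 _) (c2 _)).mul
        (rigid_cont_cross ((c2 _).sub (c1 _)) ((c2 _).sub (c1 _))))).add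
        ((rigid_cont_cross (c1 _) (c2 _)).mul
        (rigid_cont_cross ((c2 _).sub (c1 _)) ((c2 _).sub (c1 _))))
    · exact rigid_cont_cross ((c1 _).sub (c1 _)) ((c2 _).sub (c1 _))
    · exact rigid_cont_cross ((c2 _).sub (c2 _)) ((c1 _).sub (c2 _))
    · exact rigid_cont_cross (by fun_prop) (by fun_prop)
  · rintro ⟨(⟨A, B⟩ | ⟨A, A', B⟩ | ⟨B, B', A⟩ | _), -⟩ y
    · exact rigid_polyL_conc (fun i => .mot _) fun i => .const _
    · exact ((RigidAff.mot _).sub (.mot _)).cross ((RigidAff.const _).sub (.mot _))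
    · exact (RigidAff.const _).cross ((RigidAff.mot _).sub (.const _))
    · exact (RigidAff.id.sub (.const _)).cross ((RigidAff.id.sub (.const _)).const_mul _)
  · rintro ⟨(⟨A, B⟩ | ⟨A, A', B⟩ | ⟨B, B', A⟩ | _), -⟩ x
    · exact rigid_polyL_conc (fun i => .const _) fun i => .mot _
    · exact (RigidAff.const _).cross ((RigidAff.mot _).sub (.const _))
    · exact ((RigidAff.mot _).sub (.mot _)).cross ((RigidAff.const _).sub (.mot _))
    · exact ((RigidAff.const _).sub .id).cross (((RigidAff.const _).sub .id).const_mul _)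
  intro x y hxy
  have hzero : ∀ t, F t x y = 0 → ∀ x' y', F t x' y' = 0 := by
    intro t ht x' y'
    by_contra hne
    exact hxy ⟨t, x', y', hne⟩ ht
  refine ⟨fun e => ?_, fun z => ?_⟩
  · have h1 := hzero (.inr (.inr (.inr ()))) (by simp [F, e, cross]) 1 0
    simp [F, cross] at h1
  by_contra hinf
  set H := {h : Ort | ∃ A ∈ Γ, ∃ B ∈ Γ, h = lin (A⁻¹ * B) ∧ z ∈ segment ℝ (A x) (B y) ∧
    z ≠ A x ∧ z ≠ B y} with hH
  have : Infinite H := Set.infinite_coe_iff.2 hinf
  choose A hA B hB h1 h2 h3 h4 using fun h : H => h.2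
  obtain ⟨⟨a, b⟩, hab⟩ := Finite.exists_infinite_fiber fun h : H =>
    ((∃ c, ∀ z, lin (A h) z = c * z, ∃ c, ∀ z, lin (B h) z = c * z) : Prop × Prop)
  let e := Infinite.natEmbedding ((fun h : H =>
    ((∃ c, ∀ z, lin (A h) z = c * z, ∃ c, ∀ z, lin (B h) z = c * z) : Prop × Prop)) ⁻¹' {(a, b)})
  have he : ∀ i, ((∃ c, ∀ z, lin (A (e i).1) z = c * z) ↔ a) ∧
      ((∃ c, ∀ z, lin (B (e i).1) z = c * z) ↔ b) := fun i => by
    have := (e i).2
    simp only [mem_preimage, mem_singleton_iff, Prod.mk.injEq, eq_iff_iff] at this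
    exact this
  have hinj : Function.Injective fun i => lin ((A (e i).1)⁻¹ * B (e i).1) := by
    intro i j k
    simp only [← h1] at k
    exact e.injective (Subtype.ext (Subtype.ext k))
  have hm := rigid_main (A := fun i => A (e i).1) (B := fun i => B (e i).1) (fun i => (he i).1)
    (fun i => (he i).2) hinj fun t => hzero
      (.inl (fun i => ⟨A (e (t i)).1, hA _⟩, fun i => ⟨B (e (t i)).1, hB _⟩))
      (rigidConc_eq_zero fun i => h2 _)
  have hboth : A (e 0).1 = A (e 1).1 ∧ B (e 0).1 = B (e 1).1 := by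
    rcases hm with hm | hm
    · refine ⟨hm, ?_⟩
      by_contra hne
      obtain ⟨y', x', k⟩ := rigid_exists_ne (A (e 0).1) hne
      refine k (hzero (.inr (.inr (.inl (⟨_, hB (e 0).1⟩, ⟨_, hB (e 1).1⟩, ⟨_, hA (e 0).1⟩))))
        ?_ x' y')
      have k1 : z ∈ segment ℝ (B (e 0).1 y) (A (e 0).1 x) := by
        rw [segment_symm]
        exact h2 _
      have k2 : z ∈ segment ℝ (B (e 1).1 y) (A (e 0).1 x) := by
        rw [segment_symm, hm]
        exact h2 _
      exact rigid_collinear k1 k2 (h3 _)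
    · refine ⟨?_, hm⟩
      by_contra hne
      obtain ⟨x', y', k⟩ := rigid_exists_ne (B (e 0).1) hne
      refine k (hzero (.inr (.inl (⟨_, hA (e 0).1⟩, ⟨_, hA (e 1).1⟩, ⟨_, hB (e 0).1⟩))) ?_ x' y')
      have k2 : z ∈ segment ℝ (A (e 1).1 x) (B (e 0).1 y) := by
        rw [hm]
        exact h2 _
      exact rigid_collinear (h2 _) k2 (h4 _)
  exact absurd (hinj (a₁ := 0) (a₂ := 1) (by simp only [hboth.1, hboth.2])) (by norm_num)

theorem rigid_transl {a b m n : ℂ} (ha : a ≠ 0) (hb : b ≠ 0) (hab : a ≠ b)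
    (h : ∀ w, cross (w + a) m * cross b w - cross (w + b) n * cross a w = 0) :
    ∃ t : ℝ, m = t * a ∧ n = t * b := by
  have hq : ∀ w, cross w m * cross b w - cross w n * cross a w = 0 := fun w => by
    have h1 := h w
    have h2 := h (-w)
    simp only [cross, add_re, add_im, neg_re, neg_im] at h1 h2 ⊢
    linear_combination (h1 + h2) / 2
  have hl : ∀ w, cross a m * cross b w - cross b n * cross a w = 0 := fun w => by
    have h1 := h w
    have h2 := h (-w)
    simp only [cross, add_re, add_im, neg_re, neg_im] at h1 h2 ⊢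
    linear_combination (h1 - h2) / 2
  by_cases hx : cross a b = 0
  · obtain ⟨k, rfl⟩ := rigid_par ha hx
    have hk0 : k ≠ 0 := fun e => hb (by simp [e])
    have hk1 : 1 - k ≠ 0 := fun e => hab (by
      obtain rfl : k = 1 := by linarith
      simp)
    have hI := rigid_cross_I ha
    have h1 := hq (I * a)
    have h2 := hq (I * a + a)
    have h3 := hl (I * a)
    have k1 : cross (I * a) (k * m - n) = 0 := by
      apply mul_left_cancel₀ hI
      simp only [cross, sub_re, sub_im, re_ofReal_mul, im_ofReal_mul] at h1 ⊢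
      linear_combination h1
    have k2 : cross a (k * m - n) = 0 := by
      apply mul_left_cancel₀ hI
      simp only [cross, add_re, add_im, sub_re, sub_im, re_ofReal_mul, im_ofReal_mul] at h1 h2 ⊢
      linear_combination h2 - h1
    obtain ⟨r, hr⟩ := rigid_par ha k2
    have hr0 : r = 0 := by
      apply mul_right_cancel₀ hI
      rw [hr] at k1
      simp only [cross, re_ofReal_mul, im_ofReal_mul] at k1 ⊢
      linear_combination -k1
    obtain rfl : n = k * m := by
      rw [hr0] at hr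
      linear_combination -hr + (by simp : ((0 : ℝ) : ℂ) = 0) * (-a)
    have k3 : cross a m = 0 := by
      apply mul_left_cancel₀ (mul_ne_zero (mul_ne_zero hk0 hk1) hI)
      simp only [cross, re_ofReal_mul, im_ofReal_mul] at h3 ⊢
      linear_combination h3
    obtain ⟨t, rfl⟩ := rigid_par ha k3
    exact ⟨t, rfl, by ring⟩
  · have k1 : cross a m = 0 := by
      apply mul_left_cancel₀ hx
      have h1 := hl a
      simp only [cross] at h1 ⊢
      linear_combination -h1
    have k2 : cross b n = 0 := by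
      apply mul_left_cancel₀ hx
      have h1 := hl b
      simp only [cross] at h1 ⊢
      linear_combination -h1
    obtain ⟨t, rfl⟩ := rigid_par ha k1
    obtain ⟨t', rfl⟩ := rigid_par hb k2
    obtain rfl : t = t' := by
      apply mul_left_cancel₀ (mul_ne_zero hx hx)
      have h1 := hq (a + b)
      simp only [cross, add_re, add_im, re_ofReal_mul, im_ofReal_mul] at h1 ⊢
      linear_combination h1
    exact ⟨t, rfl, rfl⟩

theorem exists_tests_transl (Λ : AddSubgroup ℂ) [Countable Λ] (x : ℂ) :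
    ∃ (ι : Type) (_ : Countable ι) (f : ι → ℂ → ℝ),
      (∀ i, Continuous (f i)) ∧ (∀ i, PolyL (f i)) ∧ (∀ i, ∃ y, f i y ≠ 0) ∧
      ∀ y, (∀ i, f i y ≠ 0) → ∀ (ζ : ℂ) (l m : Fin 3 → ℂ) (s : Fin 3 → ℝ),
        (∀ i, l i ∈ Λ) → (∀ i, m i ∈ Λ) → Function.Injective l →
        (∀ i, ζ + m i = x + s i * (y + l i - x)) →
        ∀ i j, s i = s j ∧ m i - m j = s i * (l i - l j) := by
  classical
  let F : (Λ × Λ × Λ × Λ × Λ) ⊕ (Λ × Λ) → ℂ → ℝ :=
    fun t y => match t with
      | .inl (l, a, b, m, n) => cross (y - x + l + a) m * cross b (y - x + l) -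
          cross (y - x + l + b) n * cross a (y - x + l)
      | .inr (l, a) => cross a (y - x + l)
  have hw : ∀ l : ℂ, RigidAff fun y => y - x + l := fun l =>
    (RigidAff.id.sub (.const _)).add (.const _)
  refine ⟨{t // ∃ y, F t y ≠ 0}, inferInstance, fun t => F t.1, ?_, ?_, fun t => t.2, ?_⟩
  · rintro ⟨(⟨l, a, b, m, n⟩ | ⟨l, a⟩), -⟩
    · exact ((rigid_cont_cross (by fun_prop) (by fun_prop)).mul
        (rigid_cont_cross (by fun_prop) (by fun_prop))).sub
        ((rigid_cont_cross (by fun_prop) (by fun_prop)).mul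
        (rigid_cont_cross (by fun_prop) (by fun_prop)))
    · exact rigid_cont_cross (by fun_prop) (by fun_prop)
  · rintro ⟨(⟨l, a, b, m, n⟩ | ⟨l, a⟩), -⟩
    · exact rigid_polyL_sub
        (rigid_polyL_mul (((hw _).add (.const _)).cross (.const _))
          ((RigidAff.const _).cross (hw _)))
        (rigid_polyL_mul (((hw _).add (.const _)).cross (.const _))
          ((RigidAff.const _).cross (hw _)))
    · exact (RigidAff.const _).cross (hw _)
  intro y hy ζ l m s hl hm hinj he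
  have hzero : ∀ t, F t y = 0 → ∀ y', F t y' = 0 := by
    intro t ht y'
    by_contra hne
    exact hy ⟨t, y', hne⟩ ht
  have hne : ∀ i j, i ≠ j → l i - l j ≠ 0 := fun i j h => sub_ne_zero.2 fun e => h (hinj e)
  have hX : ∀ i, i ≠ 0 → cross (l i - l 0) (y - x + l 0) ≠ 0 := by
    intro i hi e
    have h1 := hzero (.inr (⟨l 0, hl 0⟩, ⟨l i - l 0, Λ.sub_mem (hl i) (hl 0)⟩)) e
      (I * (l i - l 0) + x - l 0)
    simp only [F] at h1
    rw [show I * (l i - l 0) + x - l 0 - x + l 0 = I * (l i - l 0) by ring] at h1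
    exact rigid_cross_I (hne i 0 hi) h1
  have hd : ∀ i, m i - m 0 = s i * (y - x + l 0 + (l i - l 0)) - s 0 * (y - x + l 0) := fun i => by
    linear_combination he i - he 0
  have hc : ∀ i, cross (y - x + l 0 + (l i - l 0)) (m i - m 0) =
      -s 0 * cross (l i - l 0) (y - x + l 0) := fun i => by
    rw [hd i]
    generalize y - x + l 0 = w
    generalize l i - l 0 = a
    simp only [cross, add_re, add_im, sub_re, sub_im, re_ofReal_mul, im_ofReal_mul]
    ring
  have h1 := hzero (.inl (⟨l 0, hl 0⟩, ⟨l 1 - l 0, Λ.sub_mem (hl 1) (hl 0)⟩,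
    ⟨l 2 - l 0, Λ.sub_mem (hl 2) (hl 0)⟩, ⟨m 1 - m 0, Λ.sub_mem (hm 1) (hm 0)⟩,
    ⟨m 2 - m 0, Λ.sub_mem (hm 2) (hm 0)⟩)) (by
      simp only [F, hc]
      ring)
  obtain ⟨t, ht1, ht2⟩ := rigid_transl (m := m 1 - m 0) (n := m 2 - m 0) (hne 1 0 (by decide))
    (hne 2 0 (by decide)) (fun e => hne 1 2 (by decide) (by linear_combination e)) fun w => by
      have h2 := h1 (w + x - l 0)
      simp only [F] at h2
      rwa [show w + x - l 0 - x + l 0 = w by ring] at h2
  have key : ∀ i, i ≠ 0 → m i - m 0 = t * (l i - l 0) → s 0 = t ∧ s i = t := by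
    intro i hi h
    have k1 := hc i
    have k2 := congrArg (cross (l i - l 0)) (hd i)
    have k3 := hX i hi
    rw [h] at k1 k2
    generalize y - x + l 0 = w at k1 k2 k3
    generalize l i - l 0 = a at k1 k2 k3
    have k4 : s 0 = t := by
      apply mul_right_cancel₀ k3
      simp only [cross, add_re, add_im, re_ofReal_mul, im_ofReal_mul] at k1 ⊢
      linear_combination k1
    refine ⟨k4, ?_⟩
    apply mul_right_cancel₀ k3
    rw [k4] at k2
    simp only [cross, add_re, add_im, sub_re, sub_im, re_ofReal_mul, im_ofReal_mul] at k2 ⊢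
    linear_combination -k2
  have hs : ∀ i, s i = t := by
    intro i
    fin_cases i
    · exact (key 1 (by decide) ht1).1
    · exact (key 1 (by decide) ht1).2
    · exact (key 2 (by decide) ht2).2
  intro i j
  refine ⟨(hs i).trans (hs j).symm, ?_⟩
  have k1 := he i
  have k2 := he j
  rw [hs] at k1 k2 ⊢
  linear_combination k1 - k2

end Pool.Agent.Lib.MP_c02c19_gt
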