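import Pool.Agent.Lib.MP_c02c19_gt.PSurf
import Pool.Agent.Lib.MP_c02c19_gt.Rigid
import Pool.Agent.Lib.MP_c02c19_gt.Crystal

/-!
Secure polygons with finite holonomy.
-/

namespace Pool.Agent.Lib.MP_c02c19_gt

open Set Filter Topology Metric Complex

theorem Seg.eq_of_tendsto {E : Type*} [TopologicalSpace E] {dev : E → ℂ} (h : Etale dev)
    {A : Type*} {l : Filter A} [l.NeBot] {g₀ g : A → E} {q m m₀ : E} (hs : Seg dev q m)
    (h0 : Tendsto g₀ l (𝓝 q)) (h1 : Tendsto g l (𝓝 m₀)) (hd : dev m₀ = dev m)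
    (he : ∀ᶠ a in l, Seg dev (g₀ a) (g a)) : m₀ = m := by
  obtain ⟨ε, hε, χ, hχ, hq⟩ := h.exists_chart m
  have t1 : Tendsto (fun a => dev (g a)) l (𝓝 (dev m)) := hd ▸ (h.continuous.tendsto m₀).comp h1
  have t2 : Tendsto (fun a => χ (dev (g a))) l (𝓝 m) := by
    have := (hχ.1.continuousAt (ball_mem_nhds _ hε)).tendsto
    rw [hq] at this
    exact this.comp t1
  refine h.eq_of_tendsto h1 (t2.congr' ?_)
  filter_upwards [(h0.prodMk_nhds t2).eventually (hs.eventually h), t1 (ball_mem_nhds _ hε), he]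
    with a p1 p2 p3
  exact Seg.unique h p1 p3 (hχ.2 _ p2)

theorem PolyL.dense_ne {f : ℂ → ℝ} (hf : PolyL f) (h : ∃ y, f y ≠ 0) : Dense {y | f y ≠ 0} := by
  rw [dense_iff_inter_open]
  intro U hU hne
  by_contra hc
  obtain ⟨y, hy⟩ := h
  refine hy (hf.eq_zero_of_open hU hne (fun z hz => ?_) y)
  by_contra h0
  exact hc ⟨z, hz, h0⟩

variable {P : Set ℂ} {S : Finset (ℂ × ℂ)}

/-- translation vector -/
noncomputable def tr (η : Lam S) : ℂ := ((η : Gam S) : Mot) 0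

theorem Lam.apply (η : Lam S) (z : ℂ) : ((η : Gam S) : Mot) z = z + tr η :=
  Mot.translate_of_lin (Lam.lin_eq η) z

theorem tr_mul (η η' : Lam S) : tr (η * η') = tr η + tr η' := by
  rw [tr, Subgroup.coe_mul, Subgroup.coe_mul, Mot.mul_apply, Lam.apply, add_comm]; rfl

theorem tr_one : tr (1 : Lam S) = 0 := rfl

theorem tr_inv (η : Lam S) : tr η⁻¹ = - tr η := by
  have := tr_mul η⁻¹ η
  rw [inv_mul_cancel, tr_one] at this
  exact eq_neg_of_add_eq_zero_left this.symm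

theorem tr_injective : Function.Injective (tr (S := S)) := fun η η' h =>
  Subtype.ext (Subtype.ext (Mot.ext_of_lin (z := 0) ((Lam.lin_eq η).trans (Lam.lin_eq η').symm) h))

variable (S) in
/-- the group of translation vectors -/
def trGroup : AddSubgroup ℂ where
  carrier := range (tr (S := S))
  add_mem' := by rintro _ _ ⟨a, rfl⟩ ⟨b, rfl⟩; exact ⟨a * b, tr_mul a b⟩
  zero_mem' := ⟨1, tr_one⟩
  neg_mem' := by rintro _ ⟨a, rfl⟩; exact ⟨a⁻¹, tr_inv a⟩

instance : Countable (trGroup S) := (countable_range (tr (S := S))).to_subtype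

variable (S) in
/-- colours -/
abbrev Idx := Lam S × Lam S × Lam S × Gam S

/-- the ratio of a colour -/
noncomputable def ratio (j : Idx S) : ℝ := ‖tr j.1‖ / ‖tr j.2.1‖

/-- the blocking point of a colour -/
noncomputable def zpt (x : ℂ) (j : Idx S) (y : ℂ) : ℂ :=
  (j.2.2.2 : Mot)⁻¹ (x + ratio j * (y + tr j.2.2.1 - x))

theorem continuous_zpt (x : ℂ) (j : Idx S) : Continuous (zpt x j) :=
  ((j.2.2.2 : Mot)⁻¹).continuous.comp (by fun_prop)

theorem isOpenMap_zpt (x : ℂ) {j : Idx S} (h : ratio j ≠ 0) : IsOpenMap (zpt x j) := by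
  have h' : (ratio j : ℂ) ≠ 0 := ofReal_ne_zero.2 h
  have := (((((Homeomorph.addRight (tr j.2.2.1 - x)).trans (Homeomorph.mulLeft₀ _ h')).trans
    (Homeomorph.addLeft x))).trans ((j.2.2.2 : Mot)⁻¹).toHomeomorph).isOpenMap
  have e : zpt x j = (((((Homeomorph.addRight (tr j.2.2.1 - x)).trans
      (Homeomorph.mulLeft₀ _ h')).trans
      (Homeomorph.addLeft x))).trans ((j.2.2.2 : Mot)⁻¹).toHomeomorph) := by
    funext y
    simp [zpt, add_sub_assoc]
  rwa [e]

variable [hP : Fact (IsPolygon P S)]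

variable (P) in
/-- the chord to the translate `η` of `y` has colour `j` -/
def Col (x : ℂ) (j : Idx S) (y : ℂ) (η : Lam S) : Prop :=
  0 < ratio j ∧ ratio j < 1 ∧ zpt x j y ∈ core P S ∧ ∃ μ : Lam S,
    tr μ = ratio j * (tr η - tr j.2.2.1) ∧
      Seg udev (iota P S x) (μ • j.2.2.2 • iota P S (zpt x j y))

theorem exists_colours (hG : (range (hol : Gam S → Ort)).Finite) {x y : ℂ} (hx : x ∈ interior P)
    (hy : y ∈ interior P) (hsec : SecurePair P S x y)
    (hgen : ∀ (ζ : ℂ) (l m : Fin 3 → ℂ) (s : Fin 3 → ℝ),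
        (∀ i, l i ∈ trGroup S) → (∀ i, m i ∈ trGroup S) → Function.Injective l →
        (∀ i, ζ + m i = x + s i * (y + l i - x)) →
        ∀ i j, s i = s j ∧ m i - m j = s i * (l i - l j)) :
    ∃ δ : Finset (Lam S) × Finset (Idx S), ∀ η ∉ δ.1,
      Seg udev (iota P S x) (η • iota P S y) → ∃ j ∈ δ.2, Col P x j y η := by
  classical
  obtain ⟨Z, hZ⟩ := blocked_of_secure hx hy hsec
  set A : ℂ × Ort → Set (Lam S) := fun κ => {η | ∃ μ : Lam S, ∃ t ∈ Ioo (0 : ℝ) 1,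
    κ.1 ∈ core P S ∧ (Function.invFun hol κ.2 : Gam S).1 κ.1 + tr μ = x + t * (y + tr η - x) ∧
    Seg udev (iota P S x) (μ • (Function.invFun hol κ.2 : Gam S) • iota P S κ.1)} with hA
  have key : ∀ κ, ∃ (Ex : Finset (Lam S)) (j : Idx S), ∀ η ∈ A κ, η ∉ Ex → Col P x j y η := by
    intro κ
    by_cases h : (A κ).Subsingleton
    · exact ⟨h.finite.toFinset, 1, fun η h1 h2 => absurd ((Set.Finite.mem_toFinset _).2 h1) h2⟩
    obtain ⟨η₀, ⟨μ₀, t₀, a1, a2, a3, -⟩, η₁, ⟨μ₁, t₁, -, -, b3, -⟩, hne⟩ :=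
      not_subsingleton_iff.1 h
    refine ⟨{η₀, η₁}, (μ₀ * μ₁⁻¹, η₀ * η₁⁻¹, η₀, (μ₀ : Gam S) * Function.invFun hol κ.2), ?_⟩
    rintro η ⟨μ, t, -, -, c3, c4⟩ hη
    simp only [Finset.mem_insert, Finset.mem_singleton, not_or] at hη
    have hinj : Function.Injective ![tr η₀, tr η₁, tr η] := by
      have e1 : tr η₀ ≠ tr η₁ := tr_injective.ne hne
      have e2 : tr η ≠ tr η₀ := tr_injective.ne hη.1
      have e3 : tr η ≠ tr η₁ := tr_injective.ne hη.2
      intro i j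
      fin_cases i <;> fin_cases j <;> simp [e1, e2, e3, e1.symm, e2.symm, e3.symm]
    have hh := hgen ((Function.invFun hol κ.2 : Gam S).1 κ.1) ![tr η₀, tr η₁, tr η]
      ![tr μ₀, tr μ₁, tr μ] ![t₀, t₁, t]
      (fun i => by fin_cases i <;> exact ⟨_, rfl⟩) (fun i => by fin_cases i <;> exact ⟨_, rfl⟩)
      hinj (fun i => by fin_cases i <;> assumption)
    have d1 : tr μ₀ - tr μ₁ = t₀ * (tr η₀ - tr η₁) := (hh 0 1).2
    have d2 : tr μ₀ - tr μ = t₀ * (tr η₀ - tr η) := (hh 0 2).2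
    have hr : ratio ((μ₀ * μ₁⁻¹, η₀ * η₁⁻¹, η₀, (μ₀ : Gam S) * Function.invFun hol κ.2) : Idx S) = t₀ := by
      simp only [ratio, tr_mul, tr_inv, ← sub_eq_add_neg]
      rw [d1, norm_mul, norm_real, Real.norm_eq_abs, abs_of_pos a1.1, mul_div_assoc,
        div_self (norm_ne_zero_iff.2 (sub_ne_zero.2 (tr_injective.ne hne))), mul_one]
    have hz : zpt x ((μ₀ * μ₁⁻¹, η₀ * η₁⁻¹, η₀, (μ₀ : Gam S) * Function.invFun hol κ.2) : Idx S) y = κ.1 := by
      rw [zpt, hr, ← a3, ← Lam.apply]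
      exact Mot.inv_apply_self ((μ₀ : Gam S) * Function.invFun hol κ.2 : Gam S).1 _
    refine ⟨hr ▸ a1.1, hr ▸ a1.2, hz ▸ a2, μ * μ₀⁻¹, ?_, ?_⟩
    · rw [hr, tr_mul, tr_inv]
      linear_combination -d2
    · rw [hz, Lam.smul_def, smul_smul]
      rw [Lam.smul_def, smul_smul] at c4
      simpa using c4
  choose Ex j hj using key
  have hfin : {η : Lam S | x = y + tr η}.Finite :=
    Set.Subsingleton.finite fun η h η' h' => tr_injective (add_left_cancel (h.symm.trans h'))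
  refine ⟨(hfin.toFinset ∪ (Z ×ˢ hG.toFinset).biUnion Ex, (Z ×ˢ hG.toFinset).image j),
    fun η hη hs => ?_⟩
  simp only [Finset.mem_union, Set.Finite.mem_toFinset, mem_ofPred_eq, Finset.mem_biUnion,
    not_or, not_exists, not_and] at hη
  obtain ⟨w, hw, hc, g, t, ht, h1, h2⟩ := hZ η hs (by rw [Lam.apply]; exact hη.1)
  have hκ : (w, hol g) ∈ Z ×ˢ hG.toFinset :=
    Finset.mem_product.2 ⟨hw, (Set.Finite.mem_toFinset _).2 ⟨g, rfl⟩⟩
  have h5 : hol (Function.invFun hol (hol g) : Gam S) = hol g := Function.invFun_eq ⟨g, rfl⟩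
  have h6 : g * (Function.invFun hol (hol g))⁻¹ ∈ Lam S := by
    change hol _ = 1
    rw [map_mul, map_inv, h5, mul_inv_cancel]
  refine ⟨j (w, hol g), Finset.mem_image_of_mem _ hκ, hj _ η ⟨⟨_, h6⟩, t, ht, hc, ?_, ?_⟩
    (hη.2 _ hκ)⟩
  · rw [← Lam.apply, ← Lam.apply η, ← h1, ← Mot.mul_apply]
    simp
  · rw [Lam.smul_def, smul_smul]
    simpa using h2

theorem exists_colours_ball (hG : (range (hol : Gam S → Ort)).Finite) {x : ℂ}
    (hx : x ∈ interior P) (hsec : ∀ y ∈ interior P, x ≠ y → SecurePair P S x y) :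
    ∃ (Ex : Finset (Lam S)) (C : Finset (Idx S)) (y₀ : ℂ) (r : ℝ), 0 < r ∧
      ball y₀ r ⊆ interior P ∧
      (∀ j ∈ C, 0 < ratio j ∧ ratio j < 1 ∧ ∀ y ∈ ball y₀ r, zpt x j y ∈ interior P) ∧
      ∀ y ∈ ball y₀ r, ∀ η ∉ Ex, Seg udev (iota P S x) (η • iota P S y) →
        ∃ j ∈ C, Col P x j y η := by
  classical
  obtain ⟨ι, _, f, f1, f2, f3, f4⟩ := exists_tests_transl (trGroup S) x
  set Y : Finset (Lam S) × Finset (Idx S) → Set ℂ := fun δ => {y | y ∈ interior P ∧ ∀ η ∉ δ.1,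
    Seg udev (iota P S x) (η • iota P S y) → ∃ j ∈ δ.2, Col P x j y η} with hY
  obtain ⟨δ, hδ⟩ : ∃ δ, (interior (closure (Y δ))).Nonempty := by
    by_contra hc
    push Not at hc
    have d1 : Dense (⋂ δ, (closure (Y δ))ᶜ) :=
      dense_iInter_of_isOpen (fun δ => isClosed_closure.isOpen_compl) fun δ =>
        interior_eq_empty_iff_dense_compl.1 (hc δ)
    have d2 : Dense (⋂ i, {y | f i y ≠ 0}) :=
      dense_iInter_of_isOpen (fun i => isOpen_ne_fun (f1 i) continuous_const) fun i =>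
        (f2 i).dense_ne (f3 i)
    have d3 := d1.inter_of_Gδ (IsGδ.iInter_of_isOpen fun δ => isClosed_closure.isOpen_compl)
      (IsGδ.iInter_of_isOpen fun i => isOpen_ne_fun (f1 i) continuous_const) d2
    have d4 := d3.inter_of_isOpen_right (dense_compl_singleton x) isOpen_compl_singleton
    obtain ⟨y, ⟨⟨y1, y2⟩, y3⟩, y4⟩ := d4.exists_mem_open isOpen_interior hP.out.connected.nonempty
    obtain ⟨δ, hδ⟩ := exists_colours hG hx y4 (hsec y y4 (Ne.symm y3)) (f4 y (mem_iInter.1 y2))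
    exact mem_iInter.1 y1 δ (subset_closure ⟨y4, hδ⟩)
  have hV : (interior (closure (Y δ)) ∩ interior P).Nonempty := by
    obtain ⟨y, hy⟩ := hδ
    obtain ⟨y', h1, h2⟩ := mem_closure_iff.1 (interior_subset hy) _ isOpen_interior hy
    exact ⟨y', h1, h2.1⟩
  set C₀ := δ.2.filter fun j => ratio j ≠ 0 with hC₀
  have o1 : ∀ j, IsOpen (zpt x j ⁻¹' (frontier P)ᶜ) := fun j : Idx S =>
    isClosed_frontier.isOpen_compl.preimage (continuous_zpt x j)
  have d5 : Dense (⋂ j ∈ C₀, zpt x j ⁻¹' (frontier P)ᶜ) :=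
    dense_biInter_of_isOpen (fun j _ => o1 j) C₀.countable_toSet fun j hj =>
      (interior_eq_empty_iff_dense_compl.1 (interior_frontier hP.out.isClosed)).preimage
        (isOpenMap_zpt x (Finset.mem_filter.1 hj).2)
  obtain ⟨y₀, h1, h2⟩ := d5.exists_mem_open (isOpen_interior.inter isOpen_interior) hV
  obtain ⟨r, hr, hb⟩ := Metric.mem_nhds_iff.1 (((isOpen_biInter_finset fun j _ => o1 j).inter
    (isOpen_interior.inter isOpen_interior)).mem_nhds ⟨h1, h2⟩)
  refine ⟨δ.1, δ.2.filter fun j => 0 < ratio j ∧ ratio j < 1 ∧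
    ∀ y ∈ ball y₀ r, zpt x j y ∈ interior P, y₀, r, hr, fun y hy => (hb hy).2.2,
    fun j hj => (Finset.mem_filter.1 hj).2, fun y hy η hη hs => ?_⟩
  obtain ⟨U, hU1, hU2⟩ := mem_closure_iff_ultrafilter.1 (interior_subset (hb hy).2.1)
  have hcore : ∀ {p : ℂ}, p ∈ interior P → ∀ g : Gam S,
      ContinuousAt (fun p => g • iota P S p) p := fun hp g =>
    (continuousOn_smul_iota g).continuousAt
      (mem_of_superset (isOpen_interior.mem_nhds hp) hP.out.interior_subset_core)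
  have t1 : Tendsto (fun y' => (iota P S x, η • iota P S y')) U
      (𝓝 (iota P S x, η • iota P S y)) :=
    tendsto_const_nhds.prodMk_nhds ((hcore (hb hy).2.2 η).tendsto.mono_left hU2)
  have e1 : ∀ᶠ y' in (U : Filter ℂ), ∃ j ∈ (δ.2 : Set (Idx S)), Col P x j y' η := by
    filter_upwards [t1.eventually (hs.eventually etale_udev), hU1] with y' a1 a2
    exact a2.2 η hη a1
  obtain ⟨j, hj, e2⟩ := (Ultrafilter.eventually_exists_mem_iff δ.2.finite_toSet).1 e1
  obtain ⟨y₁, ⟨b1, b2, b3, μ, b4, -⟩, b5⟩ := (e2.and (hU2 (isOpen_ball.mem_nhds hy))).exists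
  have hin : ∀ y ∈ ball y₀ r, zpt x j y ∈ interior P := by
    have := hP.out.subset_or_subset ((convex_ball y₀ r).isPreconnected.image _
      (continuous_zpt x j).continuousOn) (Set.disjoint_left.2 (by
        rintro _ ⟨y, hy, rfl⟩
        exact mem_iInter₂.1 (hb hy).1 j (Finset.mem_filter.2 ⟨hj, b1.ne'⟩)))
    rcases this with h | h
    · exact fun y hy => h (mem_image_of_mem _ hy)
    · exact absurd b3.1 (h (mem_image_of_mem _ b5))
  have hc := hP.out.interior_subset_core (hin y hy)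
  refine ⟨j, Finset.mem_filter.2 ⟨hj, b1, b2, hin⟩, b1, b2, hc, μ, b4, ?_⟩
  have hyc := hP.out.interior_subset_core (hb hy).2.2
  have hxc := hP.out.interior_subset_core hx
  obtain ⟨m, m1, m2, -⟩ := hs.split (u := x + ratio j * (y + tr η - x)) (by
    have := mem_segment_add x (y + tr η - x) (s := ratio j) ⟨b1.le, b2.le⟩
    rw [add_sub_cancel] at this
    rwa [Lam.smul_def, udev_iota hxc, udev_smul_iota _ hyc, Lam.apply])
  have t2 : Tendsto (fun y' => μ • j.2.2.2 • iota P S (zpt x j y')) U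
      (𝓝 (μ • j.2.2.2 • iota P S (zpt x j y))) :=
    ((continuous_gsmul (μ : Gam S)).continuousAt.comp ((hcore (hin y hy) j.2.2.2).comp
      (continuous_zpt x j).continuousAt)).tendsto.mono_left hU2
  rw [Seg.eq_of_tendsto etale_udev m2 tendsto_const_nhds t2 ?_ ?_]
  · exact m2
  · rw [m1, Lam.smul_def, udev_smul, udev_smul_iota _ hc, Lam.apply, zpt, Mot.apply_inv_self, b4]
    ring
  · filter_upwards [e2] with y' ⟨_, _, _, μ', c1, c2⟩
    rwa [tr_injective (b4.trans c1.symm)]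

theorem discrete_of_secure (hG : (range (hol : Gam S → Ort)).Finite)
    (hsec : ∀ x ∈ interior P, ∀ y ∈ interior P, x ≠ y → SecurePair P S x y) (R : ℝ) :
    {η : Lam S | ‖tr η‖ ≤ R}.Finite := by
  obtain ⟨x, hx, hxs⟩ := exists_interior_not_sing (P := P) (S := S)
  have hxc := hP.out.interior_subset_core hx
  obtain ⟨Ex, C, y₀, r, hr, hb, hC, hcol⟩ := exists_colours_ball hG hx (hsec x hx)
  set X := psurf P S with hX
  have hq : X.dev (iota P S x) = x := udev_iota hxc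
  set A : Idx S → Set ℂ := fun j => dverts S ∪ {u | (1 - ratio j) * x + ratio j * u ∈ dverts S}
  have hA : ∀ j ∈ C, (A j).Countable := fun j hj =>
    (X.fiber ((1 - ratio j) * x) (hC j hj).1 (hC j hj).2.1.le).sing_countable
  obtain ⟨θ, hθ, g1, g2, g3, o, ho, ho0⟩ := X.exists_generic_line (q := iota P S x)
    (by rwa [hq]) (Z := ⋃ j ∈ C, image2 (fun a b => a - b) (A j) (A j))
    (C.countable_toSet.biUnion fun j hj => (hA j hj).image2 (hA j hj) _)
  rw [hq] at ho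
  obtain ⟨K, hK, hret⟩ := exists_compact_return (P := P) (S := S) hG
  set O : Set (Unf P S) := {q | (∃ η : Lam S, q ∈ Sh (η : Gam S)) ∧ proj q ∈ ball y₀ (r / 2)}
  have hsub : closedBall y₀ (r / 2) ⊆ ball y₀ r := closedBall_subset_ball (by linarith)
  have hOo : IsOpen O := by
    rw [isOpen_iff_mem_nhds]
    rintro q ⟨⟨η, h1⟩, h2⟩
    filter_upwards [Sh.eventually h1 (hb (hsub (ball_subset_closedBall h2))),
      continuous_proj.continuousAt.preimage_mem_nhds (isOpen_ball.mem_nhds h2)] with q' a1 a2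
    exact ⟨⟨η, a1.1⟩, a2⟩
  obtain ⟨M, hM⟩ : ∃ M : ℝ, ∀ a : ℝ, ∃ s ∈ Icc a (a + M), o s ∈ O := by
    by_contra hc
    push Not at hc
    obtain ⟨B, -, hB⟩ := X.generic hK hθ g2 g3 hOo (by
      rintro η q ⟨⟨η', h1⟩, h2⟩
      exact ⟨⟨η * η', Sh.smul h1 η⟩, by rwa [Lam.smul_def, proj_smul]⟩) ho zero_le_one fun M => by
      obtain ⟨a, ha⟩ := hc M
      refine ⟨a, fun s hs => ⟨ha s hs, ?_⟩⟩
      obtain ⟨γ, hγ⟩ := exists_Sh (o s)
      exact hret o x θ ho hθ s γ hγ ⟨γ, rfl⟩ s (left_mem_Icc.2 (by linarith))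
    have hy := hP.out.interior_subset_core (hb (mem_ball_self hr))
    refine (hB (iota P S y₀) (by rw [PreconnectedSpace.connectedComponent_eq_univ]; trivial)).1
      ⟨⟨1, iota_mem hy⟩, ?_⟩
    rw [proj_iota hy]
    exact mem_ball_self (by linarith)
  have hM0 : 0 ≤ M := by
    obtain ⟨s, hs, -⟩ := hM 0
    linarith [hs.1, hs.2]
  obtain ⟨s₀, hs₀⟩ : ∃ s₀ : ℝ, ∀ s ≥ s₀, ∀ η ∈ Ex, o s ∉ Sh (η : Gam S) := by
    rw [← eventually_atTop, eventually_all_finset]
    intro η _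
    obtain ⟨R₀, hR₀⟩ := hP.out.compact.isBounded.exists_norm_le
    filter_upwards [eventually_gt_atTop (R₀ + ‖tr η‖ + ‖x‖)] with s hs h
    have h1 : x + s * θ = proj (o s) + tr η := by rw [← Lam.apply, ← Sh.dev_eq h]; exact (ho.2 s).symm
    have h2 : (s : ℂ) * θ = proj (o s) + tr η - x := by rw [← h1]; ring
    have h3 : ‖(s : ℂ) * θ‖ ≤ ‖proj (o s)‖ + ‖tr η‖ + ‖x‖ := by
      rw [h2]; exact (norm_sub_le _ _).trans (by gcongr; exact norm_add_le _ _)
    rw [norm_mul, hθ, mul_one, norm_real, Real.norm_eq_abs] at h3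
    linarith [hR₀ _ (proj_mem (o s)).1, le_abs_self s]
  obtain ⟨j, hj, L, hL, hvis⟩ := piecewise_syndetic C (fun _ j s => ∃ η : Lam S,
    ∃ y ∈ closedBall y₀ (r / 2), o s = η • iota P S y ∧ Col P x j y η) (fun _ => univ) hM0
    fun M' => Frequently.of_forall fun _ => ⟨s₀, subset_univ _, fun s hs => by
      obtain ⟨s', h1, ⟨η, h2⟩, h3⟩ := hM s
      have h4 := ball_subset_closedBall h3
      obtain ⟨j, hj, h5⟩ := hcol _ (hsub h4) η (fun h => hs₀ s' (hs.1.trans h1.1) η h h2) (by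
        rw [Lam.smul_def, ← Sh.eq h2, ← ho0]; exact ho.seg etale_udev 0 s')
      exact ⟨s', h1, j, hj, η, _, h4, Sh.eq h2, h5⟩⟩
  obtain ⟨t0, t1, hz⟩ := hC j hj
  set t := ratio j with ht
  set c : ℂ := (1 - t) * x with hc
  have hxx : X.dev (iota P S x) = c + t * X.dev (iota P S x) := by rw [hq, hc]; ring
  have hõ : ∀ s : ℝ, X.dev (o (s * t)) = c + t * X.dev (o s) := by
    intro s
    rw [ho.2, ho.2, hc]; push_cast; ring
  set õ : ℝ → X.FibE c t := fun s => ⟨(o (s * t), o s), hõ s⟩ with hõd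
  have hline : IsLine (X.fiber c t0 t1.le).dev õ x θ :=
    ⟨((ho.1.comp (by fun_prop)).prodMk ho.1).subtype_mk _, ho.2⟩
  set φ : ℂ → Unf P S × Unf P S :=
    fun y => (j.2.2.2 • iota P S (zpt x j y), j.2.2.1 • iota P S y) with hφ
  have hc1 : ∀ y ∈ closedBall y₀ (r / 2), zpt x j y ∈ core P S := fun y hy =>
    hP.out.interior_subset_core (hz y (hsub hy))
  have hc2 : ∀ y ∈ closedBall y₀ (r / 2), y ∈ core P S := fun y hy =>
    hP.out.interior_subset_core (hb (hsub hy))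
  have hK' : IsCompact (φ '' closedBall y₀ (r / 2)) :=
    (isCompact_closedBall _ _).image_of_continuousOn
      (((continuousOn_smul_iota _).comp (continuous_zpt x j).continuousOn hc1).prodMk
        ((continuousOn_smul_iota (j.2.2.1 : Gam S)).mono hc2))
  have hK'' : IsCompact ((Subtype.val : X.FibE c t → _) ⁻¹' (φ '' closedBall y₀ (r / 2))) := by
    refine (IsInducing.subtypeVal.isCompact_preimage_iff ?_).2 hK'
    rintro _ ⟨y, hy, rfl⟩
    refine ⟨⟨φ y, ?_⟩, rfl⟩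
    change udev (_ • _) = c + t * udev (((j.2.2.1 : Lam S) : Gam S) • _)
    rw [udev_smul_iota _ (hc1 y hy), udev_smul_iota _ (hc2 y hy), zpt, Mot.apply_inv_self,
      Lam.apply, hc]
    ring
  obtain ⟨B', hB', hcov⟩ := (X.fiber c t0 t1.le).generic hK'' hθ
    (fun a ha b hb s hs => sub_eq_zero.1 (g1 _ (mem_iUnion₂.2 ⟨j, hj, mem_image2_of_mem ha hb⟩) s hs))
    (fun g s hs => g3 g.1.2 s hs) isOpen_empty (fun _ _ h => h.elim) hline hL fun M' => by
      obtain ⟨_, a, -, ha⟩ := (hvis M').exists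
      refine ⟨a, fun s hs => ⟨notMem_empty _, ?_⟩⟩
      obtain ⟨s', h1, η, y, h2, h3, -, -, -, μ, h4, h5⟩ := ha s hs
      have h6 : o (s' * t) = μ • j.2.2.2 • iota P S (zpt x j y) := by
        refine Seg.unique etale_udev (ho0 ▸ ho.seg etale_udev 0 _) h5 ?_
        have h7 : x + s' * θ = y + tr η := by
          rw [← ho.2, h3, ← Lam.apply]; exact udev_smul_iota _ (hc2 y h2)
        rw [Lam.smul_def, udev_smul, udev_smul_iota _ (hc1 y h2), zpt, Mot.apply_inv_self,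
          Lam.apply, h4]
        refine (ho.2 _).trans ?_
        push_cast
        linear_combination (t : ℂ) * h7
      refine ⟨s', h1, ⟨(μ⁻¹, j.2.2.1 * η⁻¹), ?_⟩, y, h2, Prod.ext ?_ ?_⟩
      · change tr μ⁻¹ = t * tr (j.2.2.1 * η⁻¹)
        rw [tr_inv, tr_mul, tr_inv, h4]; ring
      · rw [Surf.fib_smul_fst]
        simp only [hõd, h6, inv_smul_smul, hφ]
      · rw [Surf.fib_smul_snd]
        simp only [hõd, h3, mul_smul, inv_smul_smul, hφ]
  have h0 : õ 0 = ⟨(iota P S x, iota P S x), hxx⟩ := Subtype.ext (by simp [hõd, ho0])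
  rw [h0] at hcov
  have : Finite (hol (S := S)).range := hG
  have : (Lam S).FiniteIndex := Subgroup.finiteIndex_ker _
  have : Group.FG (Lam S) := Subgroup.fg_of_index_ne_zero _
  exact X.discrete_of_comp (X.comp_all (by rwa [hq]) t0 t1 hxx hB' fun p hp => (hcov p hp).2) R

theorem almostIntegrable_of_finite_hol (hG : (range (hol : Gam S → Ort)).Finite)
    (hsec : ∀ x ∈ interior P, ∀ y ∈ interior P, x ≠ y → SecurePair P S x y) :
    AlmostIntegrable P := by
  refine almostIntegrable_of_discrete hP.out (hG.subset ?_) fun R =>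
    ((discrete_of_secure hG hsec R).image tr).subset ?_
  · rintro _ ⟨g, hg, rfl⟩
    exact ⟨⟨g, hg⟩, rfl⟩
  · rintro _ ⟨⟨g, hg, h1, rfl⟩, h2⟩
    exact ⟨⟨⟨g, hg⟩, h1⟩, h2, rfl⟩

end Pool.Agent.Lib.MP_c02c19_gt
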