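import Pool.Agent.Lib.MP_c02c19_gt.Orbit

/-!
A segment of bounded length crosses boundedly many copies of the polygon.
-/

namespace Pool.Agent.Lib.MP_c02c19_gt

open Set Filter Topology Metric Complex EuclideanGeometry Pointwise

variable {P : Set ℂ} {S : Finset (ℂ × ℂ)}

theorem finite_pow_of_finite {G : Type*} [Group G] {A : Set G} (h : A.Finite) (i : ℕ) :
    (A ^ i).Finite := by
  induction i with
  | zero => rw [pow_zero]; exact Set.finite_one
  | succ i ih => rw [pow_succ]; exact ih.mul h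

theorem IsPolygon.exists_far_end (hP : IsPolygon P S) {s : ℂ × ℂ} (hs : s ∈ S) {p a : ℂ}
    (hp : p ∈ ({s.1, s.2} : Set ℂ)) (ha : a ∈ openSegment ℝ s.1 s.2) :
    p ∈ verts S ∧ ∃ a' ∈ verts S, Sbtw ℝ p a a' := by
  have h := sbtw_of_mem_openSegment (hP.side_ne s hs) ha
  rcases hp with rfl | rfl
  · exact ⟨⟨s, hs, Or.inl rfl⟩, s.2, ⟨s, hs, Or.inr rfl⟩, h⟩
  · exact ⟨⟨s, hs, Or.inr rfl⟩, s.1, ⟨s, hs, Or.inl rfl⟩, h.symm⟩

theorem IsPolygon.exists_angle_bound (hP : IsPolygon P S) :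
    ∃ σ > 0, ∀ s ∈ S, ∀ t ∈ S, s ≠ t → ∀ p ∈ segment ℝ s.1 s.2, p ∈ segment ℝ t.1 t.2 →
      ∀ a ∈ openSegment ℝ s.1 s.2, ∀ b ∈ openSegment ℝ t.1 t.2, σ ≤ ∠ a p b := by
  obtain ⟨σ, hσ, h⟩ := exists_gap_of_finite (((verts_finite S).prod
    ((verts_finite S).prod (verts_finite S))).image fun x : ℂ × ℂ × ℂ => ∠ x.1 x.2.1 x.2.2)
  refine ⟨σ, hσ, fun s hs t ht hne p h1 h2 a ha b hb => ?_⟩
  obtain ⟨c1, c2⟩ := hP.side_inter s hs t ht hne ⟨h1, h2⟩
  obtain ⟨hp, a', ha', a1⟩ := hP.exists_far_end hs c1 ha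
  obtain ⟨-, b', hb', b1⟩ := hP.exists_far_end ht c2 hb
  have e : ∠ a p b = ∠ a' p b' := by rw [a1.angle_eq_left, b1.angle_eq_right]
  by_contra hlt
  have h0 := h (∠ a p b) ⟨(a', p, b'), ⟨ha', hp, hb'⟩, e.symm⟩
    (by rw [abs_of_nonneg (angle_nonneg _ _ _)]; exact not_le.1 hlt)
  rcases angle_eq_zero_iff_ne_and_wbtw.1 h0 with ⟨-, h3⟩ | ⟨-, h3⟩
  · exact hne (hP.side_unique hs ht ha ((convex_segment _ _).segment_subset h2
      (openSegment_subset_segment _ _ _ hb) (mem_segment_iff_wbtw.2 h3)))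
  · exact hne (hP.side_unique ht hs hb ((convex_segment _ _).segment_subset h1
      (openSegment_subset_segment _ _ _ ha) (mem_segment_iff_wbtw.2 h3))).symm

theorem IsPolygon.exists_star_radius (hP : IsPolygon P S) :
    ∃ δ > 0, ∀ x ∈ P, ∃ p : ℂ, ∃ ε : ℝ, ball x δ ⊆ ball p ε ∧
      ∀ s ∈ S, ∀ u ∈ ball p ε, u ∈ segment ℝ s.1 s.2 → p ∈ segment ℝ s.1 s.2 := by
  classical
  have key : ∀ p : ℂ, ∃ ε > 0,
      ∀ s ∈ S, ∀ u ∈ ball p ε, u ∈ segment ℝ s.1 s.2 → p ∈ segment ℝ s.1 s.2 := by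
    intro p
    have hcl : IsClosed (⋃ s ∈ S.filter fun s => p ∉ segment ℝ s.1 s.2, segment ℝ s.1 s.2) :=
      isClosed_biUnion_finset fun t _ => (isCompact_segment _ _).isClosed
    obtain ⟨ε, hε, hb⟩ := Metric.mem_nhds_iff.1 (hcl.isOpen_compl.mem_nhds (x := p) (by
      intro h
      obtain ⟨s, hs, hm⟩ := mem_iUnion₂.1 h
      exact (Finset.mem_filter.1 hs).2 hm))
    refine ⟨ε, hε, fun s hs u hu hm => ?_⟩
    by_contra h
    exact hb hu (mem_iUnion₂.2 ⟨s, Finset.mem_filter.2 ⟨hs, h⟩, hm⟩)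
  choose ε hε h using key
  obtain ⟨δ, hδ, hb⟩ := lebesgue_number_lemma_of_metric (c := fun p => ball p (ε p)) hP.compact
    (fun _ => isOpen_ball) fun x _ => mem_iUnion.2 ⟨x, mem_ball_self (hε x)⟩
  refine ⟨δ, hδ, fun x hx => ?_⟩
  obtain ⟨p, hp⟩ := hb x hx
  exact ⟨p, ε p, hp, h p⟩

variable [hP : Fact (IsPolygon P S)]

theorem exists_bounce_bound : ∃ δ > 0, ∃ N : ℕ, ∀ (c : ℝ → Unf P S) (z v : ℂ) (n : ℕ)
    (t : ℕ → ℝ) (γ : ℕ → Gam S), IsPath c z v → v ≠ 0 → ‖v‖ < δ → Cuts c n t γ → γ 0 = 1 →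
    n ≤ N := by
  obtain ⟨σ, hσ, hang⟩ := hP.out.exists_angle_bound
  obtain ⟨δ, hδ, hstar⟩ := hP.out.exists_star_radius
  refine ⟨δ, hδ, ⌈Real.pi / σ⌉₊ + 1, fun c z v n t γ hc hv hvδ h h0 => ?_⟩
  have hz : z ∈ P := by
    have := h.proj_left hc (Nat.zero_le n)
    rw [h0, h.zero] at this
    have h2 := (proj_mem (c 0)).1
    rw [this] at h2
    simpa using h2
  obtain ⟨p, ε, hb, hp⟩ := hstar z hz
  have hu : ∀ i ≤ n + 1, z + t i * v ∈ ball p ε := by
    intro i hi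
    refine hb ?_
    rw [mem_ball, dist_eq_norm, add_sub_cancel_left, norm_mul, norm_real, Real.norm_eq_abs,
      abs_of_nonneg (h.mem i hi).1]
    nlinarith [(h.mem i hi).1, (h.mem i hi).2, norm_nonneg v]
  have hin : ∀ i < n, (γ i : Mot) p = p → ∀ s ∈ S,
      proj (c (t (i + 1))) ∈ openSegment ℝ s.1 s.2 → p ∈ segment ℝ s.1 s.2 := by
    intro i hi hfix s hs hm
    refine hp s hs _ ?_ (openSegment_subset_segment _ _ _ hm)
    rw [h.proj_right hc hi.le, mem_ball, ← Mot.dist_eq (γ i : Mot), Mot.apply_inv_self, hfix]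
    exact hu _ (by omega)
  have hfix : ∀ i ≤ n, (γ i : Mot) p = p := by
    intro i hi
    induction i with
    | zero => rw [h0]; rfl
    | succ i ih =>
      obtain ⟨s, hs, h1, h2⟩ := h.side i hi
      have := hin i hi (ih (by omega)) s hs h1
      rw [h2, Subgroup.coe_mul, Mot.mul_apply]
      change (γ i : Mot) (reflM s.1 s.2 p) = p
      rw [reflM_fix (sd_eq_zero_of_mem this), ih (by omega)]
  have hstep : ∀ i, i + 1 < n → σ ≤ ∠ (z + t (i + 1) * v) p (z + t (i + 2) * v) := by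
    intro i hi
    obtain ⟨s, hs, h1, -⟩ := h.side i (by omega)
    obtain ⟨s', hs', h1', -⟩ := h.side (i + 1) hi
    have hne : s ≠ s' := by
      rintro rfl
      have hm := midpoint_mem_openSegment (𝕜 := ℝ) (proj (c (t (i + 1)))) (proj (c (t (i + 2))))
      have h3 := ((h.isOrbit hc hv).1 (i + 1) hi.le).2 hm
      exact hP.out.not_interior_of_mem_segment hs ((convex_segment _ _).segment_subset
        (openSegment_subset_segment _ _ _ h1) (openSegment_subset_segment _ _ _ h1')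
        (openSegment_subset_segment _ _ _ hm)) h3
    have := hang s hs s' hs' hne p (hin i (by omega) (hfix i (by omega)) s hs h1)
      (hin (i + 1) hi (hfix _ hi.le) s' hs' h1') _ h1 _ h1'
    rw [h.proj_left hc hi.le, h.proj_right hc hi.le,
      ← (γ (i + 1) : Mot).toAffineIsometry.angle_map] at this
    simpa [hfix _ hi.le] using this
  have hmono : ∀ i, i + 1 ≤ n → t 1 ≤ t (i + 1) := by
    intro i hi
    induction i with
    | zero => exact le_rfl
    | succ i ih => exact (ih (by omega)).trans (h.lt (i + 1) (by omega)).le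
  have hsum : ∀ i, i + 1 < n → (i + 1) * σ ≤ ∠ (z + t 1 * v) p (z + t (i + 2) * v) := by
    intro i hi
    induction i with
    | zero => simpa using hstep 0 hi
    | succ i ih =>
      have l1 : t 1 < t (i + 2) := (hmono i (by omega)).trans_lt (h.lt (i + 1) (by omega))
      have l2 : t (i + 2) < t (i + 3) := h.lt (i + 2) (by omega)
      have := angle_add_angle_eq_of_sbtw (p := p) (sbtw_of_mem_openSegment
        (fun he => (l1.trans l2).ne (line_injective z hv he)) (mem_openSegment_line z v ⟨l1, l2⟩))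
      have a1 := ih (by omega)
      have a2 := hstep (i + 1) hi
      push_cast
      linarith
  by_contra hlt
  have h1 := (hsum ⌈Real.pi / σ⌉₊ (by omega)).trans (angle_le_pi _ _ _)
  have h2 := Nat.le_ceil (Real.pi / σ)
  rw [div_le_iff₀ hσ] at h2
  linarith

theorem Cuts.mem_pow {c : ℝ → Unf P S} {n : ℕ} {t : ℕ → ℝ} {γ : ℕ → Gam S} (h : Cuts c n t γ)
    (h0 : γ 0 = 1) {i : ℕ} (hi : i ≤ n) : γ i ∈ (range fun s : S => rG s.2) ^ i := by
  induction i with
  | zero => rw [h0, pow_zero]; exact Set.mem_one.2 rfl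
  | succ i ih =>
    obtain ⟨s, hs, -, h2⟩ := h.side i hi
    rw [h2, pow_succ]
    exact mul_mem_mul (ih (by omega)) ⟨⟨s, hs⟩, rfl⟩

theorem reach_small : ∃ δ > 0, ∃ F : Set (Gam S), F.Finite ∧ ∀ (q q' : Unf P S) (γ γ' : Gam S),
    q ∈ Sh γ → q' ∈ Sh γ' → Seg udev q q' → ‖udev q' - udev q‖ < δ → γ⁻¹ * γ' ∈ F := by
  obtain ⟨δ, hδ, N, hN⟩ := exists_bounce_bound (P := P) (S := S)
  refine ⟨δ, hδ, ⋃ i ∈ Iic N, (range fun s : S => rG s.2) ^ i,
    (finite_Iic N).biUnion fun i _ => finite_pow_of_finite (finite_range _) i, ?_⟩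
  have key : ∀ (q q' : Unf P S) (γ' : Gam S), q ∈ Sh (1 : Gam S) → q' ∈ Sh γ' →
      proj q ∈ interior P → proj q' ∈ interior P → Seg udev q q' → ‖udev q' - udev q‖ < δ →
      γ' ∈ ⋃ i ∈ Iic N, (range fun s : S => rG s.2) ^ i := by
    intro q q' γ' h1 h2 i1 i2 hs hl
    by_cases he : udev q = udev q'
    · obtain rfl := hs.eq_of_dev etale_udev he
      rw [Sh.unique h1 h2 i1]
      exact mem_iUnion₂.2 ⟨0, Nat.zero_le N, by rw [pow_zero]; exact Set.mem_one.2 rfl⟩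
    · obtain ⟨c, c1, c2, c3, -⟩ := hs.exists_path
      obtain ⟨n, t, g, hcut⟩ := c1.exists_cuts (by rwa [c2])
      have g0 : g 0 = 1 := by
        have := hcut.sh 0 (Nat.zero_le n) _ (left_mem_Icc.2 (hcut.lt 0 (Nat.zero_le n)).le)
        rw [hcut.zero, c2] at this
        exact Sh.unique h1 this i1
      have g1 : γ' = g n := by
        have := hcut.sh n le_rfl _ (right_mem_Icc.2 (hcut.lt n le_rfl).le)
        rw [hcut.last, c3] at this
        exact Sh.unique this h2 i2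
      rw [g1]
      exact mem_iUnion₂.2 ⟨n, hN c _ _ n t g c1 (sub_ne_zero.2 (Ne.symm he)) hl hcut g0,
        hcut.mem_pow g0 le_rfl⟩
  intro q q' γ γ' h1 h2 hs hl
  have hc : Continuous fun p : Unf P S × Unf P S => ‖udev p.2 - udev p.1‖ :=
    ((continuous_udev.comp continuous_snd).sub (continuous_udev.comp continuous_fst)).norm
  have hev := (hs.eventually etale_udev).and
    (hc.continuousAt.eventually (gt_mem_nhds (show (fun p : Unf P S × Unf P S =>
      ‖udev p.2 - udev p.1‖) (q, q') < δ from hl)))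
  rw [nhds_prod_eq, eventually_prod_iff] at hev
  obtain ⟨pa, ha, pb, hb, hab⟩ := hev
  obtain ⟨m, m1, m2, m3⟩ := Sh.exists_interior h1 ha
  obtain ⟨m', m1', m2', m3'⟩ := Sh.exists_interior h2 hb
  obtain ⟨b1, b2⟩ := hab m1 m1'
  have := Sh.smul m2 γ⁻¹
  rw [inv_mul_cancel] at this
  exact key _ _ _ this (Sh.smul m2' γ⁻¹) (by rwa [proj_smul]) (by rwa [proj_smul])
    (seg_gsmul b1 _) (by rwa [udev_smul, udev_smul, Mot.norm_sub])

theorem reach_finite (L : ℝ) : ∃ F : Set (Gam S), F.Finite ∧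
    ∀ (q q' : Unf P S) (γ γ' : Gam S), q ∈ Sh γ → q' ∈ Sh γ' → Seg udev q q' →
      ‖udev q' - udev q‖ ≤ L → γ⁻¹ * γ' ∈ F := by
  obtain ⟨δ, hδ, F, hF, h⟩ := reach_small (P := P) (S := S)
  have key : ∀ k : ℕ, ∃ F : Set (Gam S), F.Finite ∧
      ∀ (q q' : Unf P S) (γ γ' : Gam S), q ∈ Sh γ → q' ∈ Sh γ' → Seg udev q q' →
        ‖udev q' - udev q‖ < δ * 2 ^ k → γ⁻¹ * γ' ∈ F := by
    intro k
    induction k with
    | zero => exact ⟨F, hF, by simpa using h⟩
    | succ k ih =>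
      obtain ⟨F', hF', h'⟩ := ih
      refine ⟨F' * F', hF'.mul hF', fun q q' γ γ' h1 h2 hs hl => ?_⟩
      obtain ⟨m, m1, m2, m3⟩ := hs.split (midpoint_mem_segment (𝕜 := ℝ) _ _)
      obtain ⟨g, hg⟩ := exists_Sh m
      have e : γ⁻¹ * γ' = γ⁻¹ * g * (g⁻¹ * γ') := by group
      rw [e]
      rw [← dist_eq_norm, pow_succ] at hl
      refine mul_mem_mul (h' _ _ _ _ h1 hg m2 ?_) (h' _ _ _ _ hg h2 m3 ?_)
      · rw [← dist_eq_norm, m1, dist_midpoint_left, dist_comm]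
        simp only [Real.norm_ofNat]
        linarith
      · rw [← dist_eq_norm, m1, dist_right_midpoint, dist_comm]
        simp only [Real.norm_ofNat]
        linarith
  obtain ⟨k, hk⟩ := pow_unbounded_of_one_lt (L / δ) (one_lt_two (α := ℝ))
  obtain ⟨F', hF', h'⟩ := key k
  rw [div_lt_iff₀ hδ, mul_comm] at hk
  exact ⟨F', hF', fun q q' γ γ' h1 h2 hs hl => h' q q' γ γ' h1 h2 hs (hl.trans_lt hk)⟩

end Pool.Agent.Lib.MP_c02c19_gt
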