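import Pool.Agent.Lib.MP_c02c19_gt.Rat

/-!
A recurrent ray with unbounded holonomy contradicts security.
-/

namespace Pool.Agent.Lib.MP_c02c19_gt

open Set Filter Topology Metric Complex Pointwise

theorem Ort.finite_fibre (v : ℂ) {θ : ℂ} (hθ : θ ≠ 0) : {g : Ort | g v = θ}.Finite := by
  have h1 : {g : Ort | ∀ z, g z = θ / v * z}.Subsingleton := fun g h g' h' =>
    LinearIsometryEquiv.ext fun z => (h z).trans (h' z).symm
  have h2 : {g : Ort | ∀ z, g z = θ / (starRingEnd ℂ) v * (starRingEnd ℂ) z}.Subsingleton :=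
    fun g h g' h' => LinearIsometryEquiv.ext fun z => (h z).trans (h' z).symm
  refine (h1.finite.union h2.finite).subset fun g hg => ?_
  have hg' : g v = θ := hg
  have hv : v ≠ 0 := by rintro rfl; exact hθ (by rw [← hg', map_zero])
  obtain ⟨a, -, h | h⟩ := Ort.exists_form g
  · left
    intro z
    rw [h z, ← hg', h v, mul_div_cancel_right₀ _ hv]
  · right
    intro z
    rw [h z, ← hg', h v, mul_div_cancel_right₀ _ (by simpa using hv)]

theorem Ort.finite_fibre_inv {Θ : Set ℂ} (hΘ : Θ.Finite) {θ : ℂ} (hθ : θ ≠ 0) :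
    {g : Ort | g⁻¹ θ ∈ Θ}.Finite :=
  (hΘ.biUnion fun v _ => Ort.finite_fibre v hθ).subset fun g hg =>
    mem_iUnion₂.2 ⟨_, hg, Ort.apply_inv_self g θ⟩

variable {P : Set ℂ} {S : Finset (ℂ × ℂ)} [hP : Fact (IsPolygon P S)]

theorem continuousAt_smul_iota {p : ℂ} (hp : p ∈ interior P) (g : Gam S) :
    ContinuousAt (fun p => g • iota P S p) p :=
  (continuousOn_smul_iota g).continuousAt
    (mem_of_superset (isOpen_interior.mem_nhds hp) hP.out.interior_subset_core)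

theorem not_secure_of_rec {R : Set (Unf P S)} {θ : ℂ} (hθ : ‖θ‖ = 1) {W : Set ℂ} (hW : IsOpen W)
    (hWP : W ⊆ interior P) (hseg : ∀ q ∈ R, ∀ q' ∈ R, Seg udev q q')
    (hfwd : ∀ q ∈ R, ∀ r : ℝ, 0 ≤ r → ∃ q' ∈ R, udev q' = udev q + r * θ)
    (hne : ∃ q ∈ R, proj q ∈ W)
    (hrec : ∀ q ∈ R, proj q ∈ W → ∀ N ∈ 𝓝 (proj q), ∀ F : Set Ort, F.Finite →
      ∃ q' ∈ R, proj q' ∈ N ∧ ∃ γ, q' ∈ Sh γ ∧ hol γ ∉ F)
    (hsec : ∀ x ∈ interior P, ∀ y ∈ interior P, x ≠ y → SecurePair P S x y) : False := by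
  classical
  have hθ0 : θ ≠ 0 := by rintro rfl; simp at hθ
  set D : Set ℂ := {p | p ∈ W ∧ ∃ q ∈ R, proj q = p} with hD
  have vanish : ∀ f : ℂ → ℝ, PolyL f → ∀ d ∈ D, ∀ N ∈ 𝓝 d, (∀ p ∈ D ∩ N, f p = 0) →
      ∀ p, f p = 0 := by
    rintro f hf _ ⟨hd, q, hq, rfl⟩ N hN h0
    have hN' : interior N ∩ W ∈ 𝓝 (proj q) := inter_mem (interior_mem_nhds.2 hN) (hW.mem_nhds hd)
    refine hf.eq_zero_of_lines (Θ := {v | ∃ q' ∈ R, proj q' ∈ interior N ∩ W ∧
      ∃ γ, q' ∈ Sh γ ∧ v = (hol γ)⁻¹ θ}) (fun hfin => ?_) ?_ ?_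
    · obtain ⟨q', h1, h2, γ, h3, h4⟩ := hrec q hq hd _ hN' _ (Ort.finite_fibre_inv hfin hθ0)
      exact h4 ⟨q', h1, h2, γ, h3, rfl⟩
    · rintro _ ⟨q', -, -, γ, -, rfl⟩
      rw [LinearIsometryEquiv.norm_map, hθ]
    · rintro _ ⟨q', h1, h2, γ, h3, rfl⟩
      obtain ⟨ε, hε, hb⟩ := Metric.mem_nhds_iff.1 ((isOpen_interior.inter hW).mem_nhds h2)
      refine ⟨proj q', ε, hε, fun s hs => ?_⟩
      have hm : proj q' + s * (hol γ)⁻¹ θ ∈ ball (proj q') ε := by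
        rw [mem_ball, dist_eq_norm, add_sub_cancel_left, norm_mul, LinearIsometryEquiv.norm_map,
          hθ, mul_one, norm_real, Real.norm_eq_abs, abs_of_pos hs.1]
        exact hs.2
      have hc : ball (proj q') ε ⊆ core P S := fun z hz =>
        hP.out.interior_subset_core (hWP (hb hz).2)
      obtain ⟨q'', a1, a2⟩ := hfwd q' h1 s hs.1.le
      have a3 := seg_gsmul ((isSec_iota hc).seg
        ((convex_ball _ _).segment_subset (mem_ball_self hε) hm)) γ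
      rw [← Sh.eq h3] at a3
      have a4 := Seg.unique etale_udev (hseg q' h1 q'' a1) a3 (by
        rw [a2, udev_smul_iota _ (hc hm), Mot.apply_line, ← Sh.dev_eq h3, ← hol_apply,
          Ort.apply_inv_self])
      exact h0 _ ⟨⟨(hb hm).2, q'', a1, by rw [a4, proj_smul_iota _ (hc hm)]⟩,
        interior_subset (hb hm).1⟩
  obtain ⟨ι, _, f, f1, f2, f3, f4, f5⟩ := exists_tests (Gam S)
  obtain ⟨⟨x, y⟩, -, hxy⟩ := baire_in_closure (D := D ×ˢ D) (ι := ι ⊕ Finset (Gam S)) isOpen_univ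
    (by
      obtain ⟨q, h1, h2⟩ := hne
      exact ⟨(proj q, proj q), ⟨⟨h2, q, h1, rfl⟩, ⟨h2, q, h1, rfl⟩⟩, trivial⟩)
    (Sum.elim (fun i => {p | f i p.1 p.2 ≠ 0}) fun δ => {p | p.1 ∈ interior P ∧ p.2 ∈ interior P ∧
      ∃ γ : Gam S, hol γ ∉ hol '' (δ : Set (Gam S)) ∧
        Seg udev (iota P S p.1) (γ • iota P S p.2)})
    (by
      rintro (i | δ)
      · exact isOpen_ne_fun (f1 i) continuous_const
      · rw [isOpen_iff_mem_nhds]
        rintro ⟨x, y⟩ ⟨h1, h2, γ, h3, h4⟩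
        have t1 : ContinuousAt (fun p : ℂ × ℂ => (iota P S p.1, γ • iota P S p.2)) (x, y) := by
          refine ContinuousAt.prodMk ?_ ((continuousAt_smul_iota h2 γ).comp continuousAt_snd)
          have := (continuousAt_smul_iota h1 (1 : Gam S)).comp (continuousAt_fst (p := (x, y)))
          simpa [Function.comp_def] using this
        filter_upwards [t1.eventually (h4.eventually etale_udev),
          prod_mem_nhds (isOpen_interior.mem_nhds h1) (isOpen_interior.mem_nhds h2)] with p a1 a2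
        exact ⟨a2.1, a2.2, γ, h3, a1⟩)
    (by
      rintro (i | δ) ⟨x, y⟩ ⟨hx, hy⟩ N hN
      · obtain ⟨N₁, h1, N₂, h2, h3⟩ := mem_nhds_prod_iff.1 hN
        by_contra hc
        obtain ⟨x₀, y₀, h4⟩ := f4 i
        refine h4 (vanish _ (f3 i x₀) y hy N₂ h2 (fun y' hy' => ?_) y₀)
        refine vanish _ (f2 i y') x hx N₁ h1 (fun x' hx' => ?_) x₀
        by_contra h5
        exact hc ⟨(x', y'), ⟨⟨hx'.1, hy'.1⟩, h3 ⟨hx'.2, hy'.2⟩⟩, h5⟩
      · obtain ⟨x1, q₁, x2, x3⟩ := hx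
        obtain ⟨y1, q₂, y2, y3⟩ := hy
        simp only at x1 x3 y1 y3
        subst x3 y3
        obtain ⟨γ₁, h1⟩ := exists_Sh q₁
        have hN₂ : (fun y => (proj q₁, y)) ⁻¹' N ∈ 𝓝 (proj q₂) :=
          (Continuous.prodMk_right (proj q₁)).continuousAt hN
        obtain ⟨q', a1, a2, γ', a3, a4⟩ := hrec q₂ y2 y1 _ (inter_mem hN₂ (hW.mem_nhds y1)) _
          (δ.finite_toSet.image fun g => hol (γ₁ * g))
        refine ⟨(proj q₁, proj q'), ⟨⟨⟨x1, q₁, x2, rfl⟩, a2.2, q', a1, rfl⟩, a2.1⟩, hWP x1,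
          hWP a2.2, γ₁⁻¹ * γ', ?_, ?_⟩
        · rintro ⟨g, g1, g2⟩
          exact a4 ⟨g, g1, by simp [g2]⟩
        · have := seg_gsmul (hseg q₁ x2 q' a1) γ₁⁻¹
          rw [Sh.eq h1, Sh.eq a3, inv_smul_smul, smul_smul] at this
          simpa only [proj_smul_iota _ (proj_mem _)] using this)
  obtain ⟨hne, hfin⟩ := f5 x y fun i => hxy (Sum.inl i)
  obtain ⟨hx, hy, -⟩ := hxy (Sum.inr ∅)
  obtain ⟨Z, hZ⟩ := blocked_of_secure hx hy (hsec x hx y hy hne)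
  obtain ⟨-, -, γ, h1, h2⟩ := hxy (Sum.inr
    ((Z.finite_toSet.biUnion fun z _ => hfin z).image (Function.invFun hol)).toFinset)
  have hxc := hP.out.interior_subset_core hx
  have hyc := hP.out.interior_subset_core hy
  have h3 : x ≠ (γ : Mot) y := fun h => hne (by
    have := congrArg proj (h2.eq_of_dev etale_udev (by
      rw [udev_iota hxc, udev_smul_iota _ hyc]; exact h))
    rwa [proj_iota hxc, proj_smul_iota _ hyc] at this)
  obtain ⟨w, w1, -, g, τ, w2, w3, -⟩ := hZ γ h2 h3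
  have h4 : (γ : Mot) y - x ≠ 0 := sub_ne_zero.2 h3.symm
  have h5 : w = (g : Mot)⁻¹ (x + τ * ((γ : Mot) y - x)) := by rw [← w3, Mot.inv_apply_self]
  refine h1 ⟨Function.invFun hol (hol γ), ?_, Function.invFun_eq ⟨γ, rfl⟩⟩
  rw [Finite.coe_toFinset]
  refine mem_image_of_mem _ (mem_iUnion₂.2 ⟨w, w1, (g : Mot)⁻¹, (g⁻¹).2, (g : Mot)⁻¹ * γ,
    (g⁻¹ * γ).2, by simp [hol_apply], ?_, ?_, ?_⟩)
  · rw [h5, Mot.mul_apply]
    refine Mot.image_segment _ ?_
    have := mem_segment_add x ((γ : Mot) y - x) (Ioo_subset_Icc_self w2)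
    rwa [add_sub_cancel] at this
  · rw [h5]
    intro h
    exact w2.1.ne' (line_injective x h4 (b := 0) (by simpa using ((g : Mot)⁻¹).injective h))
  · rw [h5, Mot.mul_apply]
    intro h
    exact w2.2.ne (line_injective x h4 (b := 1) (by simpa using ((g : Mot)⁻¹).injective h))

theorem not_secure_of_tame {o : ℝ → Unf P S} {z θ : ℂ} (hθ : ‖θ‖ = 1) (ho : IsLine udev o z θ)
    {g : ℕ → Gam S} (hg : ∀ a : ℕ, o a ∈ Sh (g a)) {F : Set Ort} (hF : F.Finite)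
    (hT : ∀ n : ℕ, ∀ F' : Set Ort, F'.Finite → ∃ a, hol (g a) ∉ F' ∧
      ∀ i ≤ n, hol ((g a)⁻¹ * g (a + i)) ∈ F)
    (hsec : ∀ x ∈ interior P, ∀ y ∈ interior P, x ≠ y → SecurePair P S x y) : False := by
  have hθ0 : θ ≠ 0 := by rintro rfl; simp at hθ
  choose a ha1 ha2 using fun n => hT n _ ((finite_Iic n).image fun b => hol (g b))
  have tend : ∀ F' : Set Ort, F'.Finite → ∀ᶠ n in atTop, hol (g (a n)) ∉ F' := by
    intro F' hF'
    have : ∀ᶠ n in atTop, ∀ h ∈ F', hol (g (a n)) ≠ h := by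
      rw [eventually_all_finite hF']
      intro h _
      by_cases hb : ∃ b, hol (g b) = h
      · obtain ⟨b, rfl⟩ := hb
        filter_upwards [eventually_ge_atTop b] with n hn he using ha1 n ⟨b, hn, he.symm⟩
      · exact Eventually.of_forall fun n he => hb ⟨_, he⟩
    filter_upwards [this] with n hn h using hn _ h rfl
  have hn : ∀ n, ‖(hol (g (a n)))⁻¹ θ‖ = 1 := fun n => by rw [LinearIsometryEquiv.norm_map, hθ]
  obtain ⟨θ₀, h0, φ, hφ, hlim⟩ := (isCompact_sphere (0 : ℂ) 1).tendsto_subseq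
    (x := fun n => (hol (g (a n)))⁻¹ θ) fun n => mem_sphere_zero_iff_norm.2 (hn n)
  obtain ⟨K, hK, hret⟩ := exists_compact_return (P := P) (S := S) hF
  have hσ : ∀ n, IsLine udev (fun s => (g (a (φ n)))⁻¹ • o (a (φ n) + s)) _
      ((hol (g (a (φ n))))⁻¹ θ) := fun n => by
    have := isLine_gsmul (ho.shift (a (φ n))) (g (a (φ n)))⁻¹
    rwa [← hol_apply, map_inv] at this
  obtain ⟨Ω, o1, ⟨q₀, o2⟩, o3⟩ := (psurf P S).tame hK (mem_sphere_zero_iff_norm.1 h0) hσ hlim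
    (fun n => hn _) (hφ.tendsto_atTop.eventually
      (tend _ (Ort.finite_fibre_inv (finite_singleton θ₀) hθ0))) zero_le_one fun n s hs => by
      have h1 : ⌊s⌋₊ ≤ φ n := (Nat.floor_le_of_le hs.2).trans (hφ.id_le n)
      refine hret _ _ _ (hσ n) (hn _) ⌊s⌋₊ _ ?_ (ha2 _ _ h1) s
        ⟨Nat.floor_le hs.1, (Nat.lt_floor_add_one s).le⟩
      have := hg (a (φ n) + ⌊s⌋₊)
      rw [Nat.cast_add] at this
      exact Sh.smul this _
  obtain ⟨γ, hγ⟩ := exists_Sh q₀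
  obtain ⟨q₁, b1, b2, b3⟩ := Sh.exists_interior hγ (o1.mem_nhds o2)
  set W : Set ℂ := interior P ∩ (fun p => γ • iota P S p) ⁻¹' Ω with hWd
  have hW : IsOpen W := ((continuousOn_smul_iota γ).mono
    hP.out.interior_subset_core).isOpen_inter_preimage isOpen_interior o1
  have key : ∀ y ∈ W, ∀ N ∈ 𝓝 y, ∀ F' : Set Ort, F'.Finite →
      ∃ q' ∈ range o, proj q' ∈ N ∧ ∃ γ, q' ∈ Sh γ ∧ hol γ ∉ F' := by
    intro y hy N hN F' hF'
    have hyc := hP.out.interior_subset_core hy.1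
    obtain ⟨n, ⟨s, η, c1⟩, c2⟩ := ((o3 (Ω ∩ {q | q ∈ Sh γ ∧ proj q ∈ interior P} ∩
      proj ⁻¹' interior N) (inter_subset_left.trans inter_subset_left)
      ((o1.inter (isOpen_Sh γ)).inter (isOpen_interior.preimage continuous_proj))
      ⟨γ • iota P S y, ⟨hy.2, smul_iota_mem γ hyc, by rw [proj_smul_iota γ hyc]; exact hy.1⟩, by
        rw [mem_preimage, proj_smul_iota γ hyc]; exact mem_interior_iff_mem_nhds.2 hN⟩).and_eventually
      (hφ.tendsto_atTop.eventually (tend _ (hF'.image fun h => h * (hol γ)⁻¹)))).exists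
    have c3 := Sh.smul c1.1.2.1 (g (a (φ n)) * (η : Gam S)⁻¹)
    have c4 := interior_subset c1.2
    rw [Lam.smul_def, proj_smul, proj_smul] at c4
    rw [Lam.smul_def, smul_smul, smul_smul, inv_mul_cancel_right, mul_inv_cancel, one_smul] at c3
    refine ⟨_, ⟨_, rfl⟩, c4, _, c3, fun h => c2 ⟨_, h, ?_⟩⟩
    simp [show hol (η : Gam S) = 1 from η.2]
  have hq₁ : proj q₁ ∈ W := ⟨b3, by rw [mem_preimage, ← Sh.eq b2]; exact b1⟩
  refine not_secure_of_rec (R := range o) hθ hW inter_subset_left ?_ ?_ ?_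
    (fun q _ hq => key _ hq) hsec
  · rintro _ ⟨s, rfl⟩ _ ⟨s', rfl⟩
    exact ho.seg etale_udev s s'
  · rintro _ ⟨s, rfl⟩ r -
    exact ⟨_, ⟨s + r, rfl⟩, by rw [ho.2, ho.2]; push_cast; ring⟩
  · obtain ⟨q', c1, c2, -⟩ := key _ hq₁ W (hW.mem_nhds hq₁) ∅ finite_empty
    exact ⟨q', c1, c2⟩

theorem exists_interior_on_seg : ∃ L : ℝ, ∀ q q' : Unf P S, q ∈ Sh (1 : Gam S) → Seg udev q q' →
    L < ‖udev q' - udev q‖ → ∃ m, Seg udev q m ∧ udev m ∈ segment ℝ (udev q) (udev q') ∧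
      proj m ∈ interior P := by
  obtain ⟨R, hR⟩ := hP.out.compact.isBounded.exists_norm_le
  refine ⟨R + R, fun q q' hq hs hL => ?_⟩
  obtain ⟨c, c1, c2, c3, c4⟩ := hs.exists_path
  by_contra hc
  have hni : ∀ τ ∈ Icc (0 : ℝ) 1, proj (c τ) ∉ interior P := fun τ hτ hi =>
    hc ⟨c τ, c4 τ hτ, by
      have := mem_segment_add (udev q) (udev q' - udev q) hτ
      rwa [add_sub_cancel, ← c1.2 τ hτ] at this, hi⟩
  have key : Icc (0 : ℝ) 1 ⊆ c ⁻¹' Sh (1 : Gam S) := by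
    refine IsClosed.Icc_subset_of_forall_mem_nhdsWithin ?_ (by rwa [mem_preimage, c2])
      fun τ₀ h => ?_
    · rw [inter_comm]
      exact c1.1.preimage_isClosed_of_isClosed isClosed_Icc (isClosed_Sh 1)
    · have h0 := Ico_subset_Icc_self h.2
      obtain ⟨s, hs, hm⟩ := (hP.out.core_cases (proj_mem (c τ₀))).resolve_left (hni τ₀ h0)
      obtain ⟨ε, hε, κ, hκ, hb⟩ := hP.out.half_disc hs hm
      have hle : 𝓝[>] τ₀ ≤ 𝓝[Icc 0 1] τ₀ :=
        nhdsWithin_le_iff.2 (mem_of_superset (Ioc_mem_nhdsGT h.2.2) fun τ hτ =>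
          ⟨h0.1.trans hτ.1.le, hτ.2⟩)
      have t1 := (c1.1 τ₀ h0).tendsto
      refine hle ?_
      filter_upwards [t1.eventually (eventually_Sh (c τ₀)),
        (continuous_proj.continuousAt.tendsto.comp t1) (ball_mem_nhds _ hε),
        self_mem_nhdsWithin] with τ a1 a2 a3
      obtain ⟨-, b1, b2, b3⟩ := hb _ a2
      have hκ0 : κ ≠ 0 := by rcases hκ with rfl | rfl <;> norm_num
      have b4 := b3 ((mul_eq_zero.1 (le_antisymm (not_lt.1 fun h' => hni τ a3 (b2.2 h'))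
        (b1.1 (proj_mem _).1))).resolve_left hκ0)
      obtain ⟨γ, hγ⟩ := exists_Sh (c τ)
      rcases (Sh.iff h.1).1 (a1 γ hγ) with h1 | h1
      · exact h1 ▸ hγ
      · refine (Sh.iff hγ).2 (Or.inr ?_)
        rw [h1, hP.out.rho_eq_of_side hs hm, one_mul]
        exact ((congrArg _ (hP.out.rho_eq_of_side hs b4)).trans (rG_mul_self hs)).symm
  have h1 : q' ∈ Sh (1 : Gam S) := c3 ▸ key (right_mem_Icc.2 zero_le_one)
  have h2 : udev q = proj q := Sh.dev_eq hq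
  have h3 : udev q' = proj q' := Sh.dev_eq h1
  rw [h2, h3] at hL
  linarith [norm_sub_le (proj q') (proj q), hR _ (proj_mem q).1, hR _ (proj_mem q').1]

end Pool.Agent.Lib.MP_c02c19_gt
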