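import Pool.Agent.Lib.MP_c02c19_gt.Mot

/-!
Algebraic part of the rigidity of concurrent lines.
-/

namespace Pool.Agent.Lib.MP_c02c19_gt

open Complex Set

theorem rigid_par {v w : ℂ} (hv : v ≠ 0) (h : cross v w = 0) : ∃ r : ℝ, w = r * v := by
  refine ⟨(w / v).re, ?_⟩
  have h1 : (w / v).im = 0 := by
    rw [Complex.div_im, ← sub_div]
    simp only [cross] at h
    rw [show w.im * v.re - w.re * v.im = 0 by linarith, zero_div]
  have h2 : ((w / v).re : ℂ) = w / v := Complex.ext (by simp) (by simp [h1])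
  rw [h2, div_mul_cancel₀ _ hv]

theorem rigid_cross_I {a : ℂ} (ha : a ≠ 0) : cross a (I * a) ≠ 0 := by
  have : cross a (I * a) = normSq a := by simp [cross, normSq_apply]
  rw [this]
  exact (normSq_pos.2 ha).ne'

theorem rigid_entire {F : ℂ → ℂ} (hF : Differentiable ℂ F) (h : ∀ s : ℝ, F s = 0) (z : ℂ) :
    F z = 0 := by
  have hfr : ∃ᶠ w in nhdsWithin (0 : ℂ) {0}ᶜ, F w = 0 := by
    have ht : Filter.Tendsto (fun s : ℝ => (s : ℂ)) (nhdsWithin 0 {0}ᶜ)
        (nhdsWithin (0 : ℂ) {0}ᶜ) := by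
      refine tendsto_nhdsWithin_iff.2 ⟨?_, ?_⟩
      · exact (by simpa using Complex.continuous_ofReal.tendsto 0 :
          Filter.Tendsto (fun s : ℝ => (s : ℂ)) (nhds 0) (nhds 0)).mono_left nhdsWithin_le_nhds
      · filter_upwards [self_mem_nhdsWithin] with s hs
        simpa using hs
    exact ht.frequently (Filter.Frequently.of_forall h)
  exact (hF.differentiableOn.analyticOnNhd isOpen_univ).eqOn_zero_of_preconnected_of_frequently_eq_zero
    isPreconnected_univ (mem_univ _) hfr (mem_univ z)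

theorem rigid_complexify {F : ℂ → ℂ → ℂ} (hF : Differentiable ℂ fun p : ℂ × ℂ => F p.1 p.2)
    (h : ∀ x, F x ((starRingEnd ℂ) x) = 0) (x u : ℂ) : F x u = 0 := by
  have hd : ∀ {f g : ℂ → ℂ}, Differentiable ℂ f → Differentiable ℂ g →
      Differentiable ℂ fun t => F (f t) (g t) := fun hf hg => hF.comp (hf.prodMk hg)
  have h1 : ∀ (b : ℝ) (a : ℂ), F (a + b * I) (a - b * I) = 0 := fun b =>
    rigid_entire (hd (by fun_prop) (by fun_prop)) fun a => by
      have := h (a + b * I)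
      simpa [sub_eq_add_neg] using this
  have h2 : ∀ a b : ℂ, F (a + b * I) (a - b * I) = 0 := fun a =>
    rigid_entire (hd (by fun_prop) (by fun_prop)) fun b => h1 b a
  have h3 := h2 ((x + u) / 2) ((u - x) / 2 * I)
  have e1 : (x + u) / 2 + (u - x) / 2 * I * I = x := by linear_combination (u - x) / 2 * I_mul_I
  have e2 : (x + u) / 2 - (u - x) / 2 * I * I = u := by linear_combination -(u - x) / 2 * I_mul_I
  rwa [e1, e2] at h3

/-- complex form of the concurrency determinant -/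
def rigidDet (P P' Q Q' : Fin 3 → ℂ) : ℂ :=
  (P' 0 * Q 0 - P 0 * Q' 0) * ((Q' 1 - P' 1) * (Q 2 - P 2) - (Q 1 - P 1) * (Q' 2 - P' 2)) +
  (P' 1 * Q 1 - P 1 * Q' 1) * ((Q' 2 - P' 2) * (Q 0 - P 0) - (Q 2 - P 2) * (Q' 0 - P' 0)) +
  (P' 2 * Q 2 - P 2 * Q' 2) * ((Q' 0 - P' 0) * (Q 1 - P 1) - (Q 0 - P 0) * (Q' 1 - P' 1))

/-- the concurrency determinant -/
def rigidConc (P Q : Fin 3 → ℂ) : ℝ :=
  cross (P 0) (Q 0) * cross (Q 1 - P 1) (Q 2 - P 2) +
  cross (P 1) (Q 1) * cross (Q 2 - P 2) (Q 0 - P 0) +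
  cross (P 2) (Q 2) * cross (Q 0 - P 0) (Q 1 - P 1)

theorem rigid_cross_eq (u v : ℂ) :
    (starRingEnd ℂ) u * v - u * (starRingEnd ℂ) v = 2 * I * (cross u v : ℝ) := by
  apply Complex.ext
  · simp [cross]
  · simp [cross]
    ring

theorem rigidDet_conj (P Q : Fin 3 → ℂ) :
    rigidDet P (fun i => (starRingEnd ℂ) (P i)) Q (fun i => (starRingEnd ℂ) (Q i)) =
      (2 * I) ^ 2 * (rigidConc P Q : ℝ) := by
  simp only [rigidDet, rigidConc, ← map_sub, rigid_cross_eq]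
  push_cast
  ring

theorem rigidDet_swap (P P' Q Q' : Fin 3 → ℂ) : rigidDet Q Q' P P' = -rigidDet P P' Q Q' := by
  simp only [rigidDet]
  ring

theorem rigidConc_eq_zero {P Q : Fin 3 → ℂ} {z : ℂ} (h : ∀ i, z ∈ segment ℝ (P i) (Q i)) :
    rigidConc P Q = 0 := by
  have h1 : ∀ i, cross (P i) (Q i) = cross z (Q i - P i) := by
    intro i
    obtain ⟨a, b, -, -, hab, rfl⟩ := h i
    obtain rfl : a = 1 - b := by linarith
    simp [cross]
    ring
  rw [rigidConc, h1, h1, h1]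
  simp only [cross]
  ring

/-- determinant of three columns -/
def rigidD3 (a b c : Fin 3 → ℂ) : ℂ :=
  a 0 * (b 1 * c 2 - b 2 * c 1) + a 1 * (b 2 * c 0 - b 0 * c 2) + a 2 * (b 0 * c 1 - b 1 * c 0)

section coeff

variable {α α' β β' p p' q q' : Fin 3 → ℂ}
  (h : ∀ x u y v : ℂ, rigidDet (fun i => α i * x + p i) (fun i => α' i * u + p' i)
    (fun i => β i * y + q i) (fun i => β' i * v + q' i) = 0)

include h

theorem rigid_coeff1 : rigidD3 β' α (fun i => α i * β' i) = 0 := by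
  simp only [rigidDet] at h
  simp only [rigidD3]
  linear_combination (1 / 4 : ℂ) * (h 1 0 0 1 + h 1 0 0 (-1) + h (-1) 0 0 1 + h (-1) 0 0 (-1)
    - 2 * h 0 0 0 1 - 2 * h 0 0 0 (-1) - 2 * h 1 0 0 0 - 2 * h (-1) 0 0 0 + 4 * h 0 0 0 0)

theorem rigid_coeff2 : rigidD3 α' α (fun i => α' i * β i) = 0 := by
  simp only [rigidDet] at h
  simp only [rigidD3]
  linear_combination (1 / 8 : ℂ) * (h 1 1 1 0 + h 1 (-1) 1 0 - 2 * h 1 0 1 0
    - h (-1) 1 1 0 - h (-1) (-1) 1 0 + 2 * h (-1) 0 1 0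
    - h 1 1 (-1) 0 - h 1 (-1) (-1) 0 + 2 * h 1 0 (-1) 0
    + h (-1) 1 (-1) 0 + h (-1) (-1) (-1) 0 - 2 * h (-1) 0 (-1) 0)

theorem rigid_coeff3 : rigidD3 α' β (fun i => α' i * q i) +
    rigidD3 α' (fun i => q i - p i) (fun i => α' i * β i) = 0 := by
  simp only [rigidDet] at h
  simp only [rigidD3]
  linear_combination (-1 / 4 : ℂ) * (h 0 1 1 0 + h 0 (-1) 1 0 - 2 * h 0 0 1 0
    - h 0 1 (-1) 0 - h 0 (-1) (-1) 0 + 2 * h 0 0 (-1) 0)

theorem rigid_coeff4 : rigidD3 α' α (fun i => α' i * q i) = 0 := by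
  simp only [rigidDet] at h
  simp only [rigidD3]
  linear_combination (1 / 4 : ℂ) * (h 1 1 0 0 + h 1 (-1) 0 0 - 2 * h 1 0 0 0
    - h (-1) 1 0 0 - h (-1) (-1) 0 0 + 2 * h (-1) 0 0 0)

theorem rigid_q_const (hα : ∀ i, α' i = (α i)⁻¹) (hα0 : ∀ i, α i ≠ 0) {b : ℂ} (hb : b ≠ 0)
    (hβ : ∀ i, β i = b) (h12 : α 1 ≠ α 2) (h20 : α 2 ≠ α 0) : q 0 = q 1 := by
  have h3 := rigid_coeff3 h
  have h4 := rigid_coeff4 h
  simp only [rigidD3, hα, hβ] at h3 h4
  have a0 := hα0 0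
  have a1 := hα0 1
  have a2 := hα0 2
  have k3 : (α 1 - α 0) * (q 2 - q 0) = (α 2 - α 0) * (q 1 - q 0) := by
    apply mul_left_cancel₀ hb
    field_simp at h3
    linear_combination h3
  have k4 : (α 1 ^ 2 - α 0 ^ 2) * (q 2 - q 0) = (α 2 ^ 2 - α 0 ^ 2) * (q 1 - q 0) := by
    field_simp at h4
    linear_combination h4
  have k5 : (α 1 - α 2) * ((α 2 - α 0) * (q 1 - q 0)) = 0 := by
    linear_combination k4 - (α 1 + α 0) * k3
  have k6 := (mul_eq_zero.1 k5).resolve_left (sub_ne_zero.2 h12)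
  have k7 := (mul_eq_zero.1 k6).resolve_left (sub_ne_zero.2 h20)
  exact (sub_eq_zero.1 k7).symm

theorem rigid_two_dets (hα : ∀ i, α' i = (α i)⁻¹) (hα0 : ∀ i, α i ≠ 0)
    (hβ : ∀ i, β' i = (β i)⁻¹) (hβ0 : ∀ i, β i ≠ 0) :
    ((α 2)⁻¹ - (α 0)⁻¹) * (β 1 - β 0) = ((α 1)⁻¹ - (α 0)⁻¹) * (β 2 - β 0) ∧
      (α 2 ^ 2 - α 0 ^ 2) * (β 1 - β 0) = (α 1 ^ 2 - α 0 ^ 2) * (β 2 - β 0) := by
  have h1 := rigid_coeff1 h
  have h2 := rigid_coeff2 h
  simp only [rigidD3, hα, hβ] at h1 h2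
  have a0 := hα0 0
  have a1 := hα0 1
  have a2 := hα0 2
  have b0 := hβ0 0
  have b1 := hβ0 1
  have b2 := hβ0 2
  constructor
  · field_simp at h1 ⊢
    linear_combination -h1
  · field_simp at h2
    linear_combination -h2

end coeff

/-- four pairs with different ratios: one of the two coefficients is constant -/
theorem rigid_const {α β : ℕ → ℂ} (hα0 : ∀ i, α i ≠ 0)
    (hne : ∀ i j, α i = α j → β i = β j → i = j)
    (h : ∀ i j k, ((α k)⁻¹ - (α i)⁻¹) * (β j - β i) = ((α j)⁻¹ - (α i)⁻¹) * (β k - β i) ∧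
      (α k ^ 2 - α i ^ 2) * (β j - β i) = (α j ^ 2 - α i ^ 2) * (β k - β i)) :
    (∀ i, α i = α 0) ∨ ∀ i, β i = β 0 := by
  by_contra hcon
  push Not at hcon
  obtain ⟨⟨i, hi⟩, j, hj⟩ := hcon
  have hb : β j - β 0 ≠ 0 := sub_ne_zero.2 hj
  have hc : (α j)⁻¹ - (α 0)⁻¹ ≠ 0 := by
    intro e
    have h1 := (h 0 j i).1
    rw [e, zero_mul] at h1
    exact hi (inv_injective (sub_eq_zero.1 ((mul_eq_zero.1 h1).resolve_right hb)))
  have hinj : Function.Injective fun k => (α k)⁻¹ := by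
    intro k l e
    have e' : (α k)⁻¹ = (α l)⁻¹ := e
    refine hne k l (inv_injective e') ?_
    have h1 := (h 0 j k).1
    have h2 := (h 0 j l).1
    rw [e', h2] at h1
    have h3 := mul_left_cancel₀ hc h1
    linear_combination -h3
  set c := (α j)⁻¹ - (α 0)⁻¹ with hcd
  set d := α j ^ 2 - α 0 ^ 2 with hdd
  let f : Polynomial ℂ := Polynomial.X ^ 2 * (Polynomial.C d * (Polynomial.X - Polynomial.C (α 0)⁻¹)
    + Polynomial.C (c * α 0 ^ 2)) - Polynomial.C c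
  have hf : f = 0 := by
    refine Polynomial.eq_zero_of_infinite_isRoot f ((Set.infinite_range_of_injective hinj).mono ?_)
    rintro _ ⟨k, rfl⟩
    have h1 := (h 0 j k).1
    have h2 := (h 0 j k).2
    rw [← hcd] at h1
    rw [← hdd] at h2
    have h3 : d * ((α k)⁻¹ - (α 0)⁻¹) = c * (α k ^ 2 - α 0 ^ 2) := by
      apply mul_right_cancel₀ hb
      linear_combination d * h1 - c * h2
    have h4 := hα0 k
    simp only [mem_ofPred_eq, Polynomial.IsRoot.def, f, Polynomial.eval_sub, Polynomial.eval_mul,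
      Polynomial.eval_pow, Polynomial.eval_X, Polynomial.eval_add, Polynomial.eval_C, h3]
    field_simp
    ring
  have h5 := congrArg (Polynomial.eval 0) hf
  simp only [f, Polynomial.eval_sub, Polynomial.eval_mul, Polynomial.eval_pow, Polynomial.eval_X,
    Polynomial.eval_C, Polynomial.eval_zero] at h5
  exact hc (by linear_combination -h5)

end Pool.Agent.Lib.MP_c02c19_gt
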