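import Pool.Agent.Lib.MP_c02c19_gt.Irr
import Pool.Agent.Lib.MP_c02c19_gt.Myc

/-!
Perfect sets of pairwise insecure points: polygons with infinite holonomy.
-/

set_option autoImplicit false

namespace Pool.Agent.Lib.MP_c02c19_gt

open Set Filter Topology Metric Complex Pointwise

/-- countably many continuous functions, polynomial on lines in each variable, none zero -/
def Tests (T : ℕ → ℂ → ℂ → ℝ) : Prop :=
  ∀ n, (Continuous fun p : ℂ × ℂ => T n p.1 p.2) ∧ (∀ y, PolyL fun x => T n x y) ∧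
    (∀ x, PolyL fun y => T n x y) ∧ ∃ x y, T n x y ≠ 0

/-- there is no perfect set of pairwise insecure points off the zero sets of some tests -/
def NoScr (P : Set ℂ) (S : Finset (ℂ × ℂ)) : Prop :=
  ∃ T, Tests T ∧ ¬ ∃ C : Set ℂ, Perfect C ∧ C.Nonempty ∧ C ⊆ interior P ∧
    ∀ x ∈ C, ∀ y ∈ C, x ≠ y → ¬ SecurePair P S x y ∧ ∀ n, T n x y ≠ 0

theorem dense_test {D : Set ℂ}
    (vanish : ∀ f : ℂ → ℝ, PolyL f → ∀ d ∈ D, ∀ N ∈ 𝓝 d, (∀ p ∈ D ∩ N, f p = 0) → ∀ p, f p = 0)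
    {f : ℂ → ℂ → ℝ} (f2 : ∀ y, PolyL fun x => f x y) (f3 : ∀ x, PolyL fun y => f x y)
    (f4 : ∃ x y, f x y ≠ 0) :
    ∀ d ∈ D ×ˢ D, ∀ N ∈ 𝓝 d, (D ×ˢ D ∩ N ∩ {p | f p.1 p.2 ≠ 0}).Nonempty := by
  rintro ⟨x, y⟩ ⟨hx, hy⟩ N hN
  obtain ⟨N₁, h1, N₂, h2, h3⟩ := mem_nhds_prod_iff.1 hN
  by_contra hc
  obtain ⟨x₀, y₀, h4⟩ := f4
  refine h4 (vanish _ (f3 x₀) y hy N₂ h2 (fun y' hy' => ?_) y₀)
  refine vanish _ (f2 y') x hx N₁ h1 (fun x' hx' => ?_) x₀
  by_contra h5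
  exact hc ⟨(x', y'), ⟨⟨hx'.1, hy'.1⟩, h3 ⟨hx'.2, hy'.2⟩⟩, h5⟩

theorem NoScr.false {P : Set ℂ} {S : Finset (ℂ × ℂ)} (h : NoScr P S) {ι : Type} [Countable ι]
    {D : Set ℂ} (hD : D.Nonempty)
    (vanish : ∀ f : ℂ → ℝ, PolyL f → ∀ d ∈ D, ∀ N ∈ 𝓝 d, (∀ p ∈ D ∩ N, f p = 0) → ∀ p, f p = 0)
    (U : ι → Set (ℂ × ℂ)) (hU : ∀ i, IsOpen (U i))
    (hd : ∀ i, ∀ d ∈ D ×ˢ D, ∀ N ∈ 𝓝 d, (D ×ˢ D ∩ N ∩ U i).Nonempty)
    (hs : ∀ x y, (∀ i, (x, y) ∈ U i) → x ∈ interior P ∧ x ≠ y ∧ ¬ SecurePair P S x y) :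
    False := by
  obtain ⟨T, hT, hn⟩ := h
  obtain ⟨C, c1, c2, c3⟩ := mycielski (ι := ι ⊕ ℕ) hD
    (Sum.elim U fun n => {p | T n p.1 p.2 ≠ 0})
    (by
      rintro (i | n)
      exacts [hU i, isOpen_ne_fun (hT n).1 continuous_const])
    (by
      rintro (i | n)
      exacts [hd i, dense_test vanish (hT n).2.1 (hT n).2.2.1 (hT n).2.2.2])
    fun x hx => (hs x x fun i => hx (Sum.inl i)).2.1 rfl
  refine hn ⟨C, c1, c2, fun x hx => ?_, fun x hx y hy hxy =>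
    ⟨(hs x y fun i => c3 x hx y hy hxy (Sum.inl i)).2.2, fun n => c3 x hx y hy hxy (Sum.inr n)⟩⟩
  obtain ⟨y, y1, y2⟩ := accPt_iff_nhds.1 (c1.acc x hx) univ univ_mem
  exact (hs x y fun i => c3 x hx y y1.2 y2.symm (Sum.inl i)).1

variable {P : Set ℂ} {S : Finset (ℂ × ℂ)} [hP : Fact (IsPolygon P S)]

theorem not_secure_of_rec₂ {R : Set (Unf P S)} {θ : ℂ} (hθ : ‖θ‖ = 1) {W : Set ℂ} (hW : IsOpen W)
    (hWP : W ⊆ interior P) (hseg : ∀ q ∈ R, ∀ q' ∈ R, Seg udev q q')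
    (hfwd : ∀ q ∈ R, ∀ r : ℝ, 0 ≤ r → ∃ q' ∈ R, udev q' = udev q + r * θ)
    (hne : ∃ q ∈ R, proj q ∈ W)
    (hrec : ∀ q ∈ R, proj q ∈ W → ∀ N ∈ 𝓝 (proj q), ∀ F : Set Ort, F.Finite →
      ∃ q' ∈ R, proj q' ∈ N ∧ ∃ γ, q' ∈ Sh γ ∧ hol γ ∉ F)
    (hsec : NoScr P S) : False := by
  classical
  have hθ0 : θ ≠ 0 := by rintro rfl; simp at hθ
  set D : Set ℂ := {p | p ∈ W ∧ ∃ q ∈ R, proj q = p} with hD
  have vanish : ∀ f : ℂ → ℝ, PolyL f → ∀ d ∈ D, ∀ N ∈ 𝓝 d, (∀ p ∈ D ∩ N, f p = 0) →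
      ∀ p, f p = 0 := by
    rintro f hf _ ⟨hd, q, hq, rfl⟩ N hN h0
    have hN' : interior N ∩ W ∈ 𝓝 (proj q) := inter_mem (interior_mem_nhds.2 hN) (hW.mem_nhds hd)
    refine hf.eq_zero_of_lines (Θ := {v | ∃ q' ∈ R, proj q' ∈ interior N ∩ W ∧
      ∃ γ, q' ∈ Sh γ ∧ v = (hol γ)⁻¹ θ}) (fun hfin => ?_) ?_ ?_
    · obtain ⟨q', h1, h2, γ, h3, h4⟩ := hrec q hq hd _ hN' _ (Ort.finite_fibre_inv hfin hθ0)
      exact h4 ⟨q', h1, h2, γ, h3, rfl⟩
    · rintro _ ⟨q', -, -, γ, -, rfl⟩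
      rw [LinearIsometryEquiv.norm_map, hθ]
    · rintro _ ⟨q', h1, h2, γ, h3, rfl⟩
      obtain ⟨ε, hε, hb⟩ := Metric.mem_nhds_iff.1 ((isOpen_interior.inter hW).mem_nhds h2)
      refine ⟨proj q', ε, hε, fun s hs => ?_⟩
      have hm : proj q' + s * (hol γ)⁻¹ θ ∈ ball (proj q') ε := by
        rw [mem_ball, dist_eq_norm, add_sub_cancel_left, norm_mul, LinearIsometryEquiv.norm_map,
          hθ, mul_one, norm_real, Real.norm_eq_abs, abs_of_pos hs.1]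
        exact hs.2
      have hc : ball (proj q') ε ⊆ core P S := fun z hz =>
        hP.out.interior_subset_core (hWP (hb hz).2)
      obtain ⟨q'', a1, a2⟩ := hfwd q' h1 s hs.1.le
      have a3 := seg_gsmul ((isSec_iota hc).seg
        ((convex_ball _ _).segment_subset (mem_ball_self hε) hm)) γ
      rw [← Sh.eq h3] at a3
      have a4 := Seg.unique etale_udev (hseg q' h1 q'' a1) a3 (by
        rw [a2, udev_smul_iota _ (hc hm), Mot.apply_line, ← Sh.dev_eq h3, ← hol_apply,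
          Ort.apply_inv_self])
      exact h0 _ ⟨⟨(hb hm).2, q'', a1, by rw [a4, proj_smul_iota _ (hc hm)]⟩,
        interior_subset (hb hm).1⟩
  obtain ⟨ι, _, f, f1, f2, f3, f4, f5⟩ := exists_tests (Gam S)
  refine hsec.false (D := D) (ι := ι ⊕ Finset (Gam S))
    (by
      obtain ⟨q, h1, h2⟩ := hne
      exact ⟨proj q, h2, q, h1, rfl⟩) vanish
    (Sum.elim (fun i => {p | f i p.1 p.2 ≠ 0}) fun δ => {p | p.1 ∈ interior P ∧ p.2 ∈ interior P ∧
      ∃ γ : Gam S, hol γ ∉ hol '' (δ : Set (Gam S)) ∧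
        Seg udev (iota P S p.1) (γ • iota P S p.2)})
    (by
      rintro (i | δ)
      · exact isOpen_ne_fun (f1 i) continuous_const
      · rw [isOpen_iff_mem_nhds]
        rintro ⟨x, y⟩ ⟨h1, h2, γ, h3, h4⟩
        have t1 : ContinuousAt (fun p : ℂ × ℂ => (iota P S p.1, γ • iota P S p.2)) (x, y) := by
          refine ContinuousAt.prodMk ?_ ((continuousAt_smul_iota h2 γ).comp continuousAt_snd)
          have := (continuousAt_smul_iota h1 (1 : Gam S)).comp (continuousAt_fst (p := (x, y)))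
          simpa [Function.comp_def] using this
        filter_upwards [t1.eventually (h4.eventually etale_udev),
          prod_mem_nhds (isOpen_interior.mem_nhds h1) (isOpen_interior.mem_nhds h2)] with p a1 a2
        exact ⟨a2.1, a2.2, γ, h3, a1⟩)
    (by
      rintro (i | δ) ⟨x, y⟩ ⟨hx, hy⟩ N hN
      · exact dense_test vanish (f2 i) (f3 i) (f4 i) _ ⟨hx, hy⟩ N hN
      · obtain ⟨x1, q₁, x2, x3⟩ := hx
        obtain ⟨y1, q₂, y2, y3⟩ := hy
        simp only at x1 x3 y1 y3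
        subst x3 y3
        obtain ⟨γ₁, h1⟩ := exists_Sh q₁
        have hN₂ : (fun y => (proj q₁, y)) ⁻¹' N ∈ 𝓝 (proj q₂) :=
          (Continuous.prodMk_right (proj q₁)).continuousAt hN
        obtain ⟨q', a1, a2, γ', a3, a4⟩ := hrec q₂ y2 y1 _ (inter_mem hN₂ (hW.mem_nhds y1)) _
          (δ.finite_toSet.image fun g => hol (γ₁ * g))
        refine ⟨(proj q₁, proj q'), ⟨⟨⟨x1, q₁, x2, rfl⟩, a2.2, q', a1, rfl⟩, a2.1⟩, hWP x1,
          hWP a2.2, γ₁⁻¹ * γ', ?_, ?_⟩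
        · rintro ⟨g, g1, g2⟩
          exact a4 ⟨g, g1, by simp [g2]⟩
        · have := seg_gsmul (hseg q₁ x2 q' a1) γ₁⁻¹
          rw [Sh.eq h1, Sh.eq a3, inv_smul_smul, smul_smul] at this
          simpa only [proj_smul_iota _ (proj_mem _)] using this) fun x y hxy => ?_
  obtain ⟨hne, hfin⟩ := f5 x y fun i => hxy (Sum.inl i)
  obtain ⟨hx, hy, -⟩ := hxy (Sum.inr ∅)
  refine ⟨hx, hne, fun hsp => ?_⟩
  obtain ⟨Z, hZ⟩ := blocked_of_secure hx hy hsp
  obtain ⟨-, -, γ, h1, h2⟩ := hxy (Sum.inr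
    ((Z.finite_toSet.biUnion fun z _ => hfin z).image (Function.invFun hol)).toFinset)
  have hxc := hP.out.interior_subset_core hx
  have hyc := hP.out.interior_subset_core hy
  have h3 : x ≠ (γ : Mot) y := fun h => hne (by
    have := congrArg proj (h2.eq_of_dev etale_udev (by
      rw [udev_iota hxc, udev_smul_iota _ hyc]; exact h))
    rwa [proj_iota hxc, proj_smul_iota _ hyc] at this)
  obtain ⟨w, w1, -, g, τ, w2, w3, -⟩ := hZ γ h2 h3
  have h4 : (γ : Mot) y - x ≠ 0 := sub_ne_zero.2 h3.symm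
  have h5 : w = (g : Mot)⁻¹ (x + τ * ((γ : Mot) y - x)) := by rw [← w3, Mot.inv_apply_self]
  refine h1 ⟨Function.invFun hol (hol γ), ?_, Function.invFun_eq ⟨γ, rfl⟩⟩
  rw [Finite.coe_toFinset]
  refine mem_image_of_mem _ (mem_iUnion₂.2 ⟨w, w1, (g : Mot)⁻¹, (g⁻¹).2, (g : Mot)⁻¹ * γ,
    (g⁻¹ * γ).2, by simp [hol_apply], ?_, ?_, ?_⟩)
  · rw [h5, Mot.mul_apply]
    refine Mot.image_segment _ ?_
    have := mem_segment_add x ((γ : Mot) y - x) (Ioo_subset_Icc_self w2)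
    rwa [add_sub_cancel] at this
  · rw [h5]
    intro h
    exact w2.1.ne' (line_injective x h4 (b := 0) (by simpa using ((g : Mot)⁻¹).injective h))
  · rw [h5, Mot.mul_apply]
    intro h
    exact w2.2.ne (line_injective x h4 (b := 1) (by simpa using ((g : Mot)⁻¹).injective h))

theorem not_secure_of_tame₂ {o : ℝ → Unf P S} {z θ : ℂ} (hθ : ‖θ‖ = 1) (ho : IsLine udev o z θ)
    {g : ℕ → Gam S} (hg : ∀ a : ℕ, o a ∈ Sh (g a)) {F : Set Ort} (hF : F.Finite)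
    (hT : ∀ n : ℕ, ∀ F' : Set Ort, F'.Finite → ∃ a, hol (g a) ∉ F' ∧
      ∀ i ≤ n, hol ((g a)⁻¹ * g (a + i)) ∈ F)
    (hsec : NoScr P S) : False := by
  have hθ0 : θ ≠ 0 := by rintro rfl; simp at hθ
  choose a ha1 ha2 using fun n => hT n _ ((finite_Iic n).image fun b => hol (g b))
  have tend : ∀ F' : Set Ort, F'.Finite → ∀ᶠ n in atTop, hol (g (a n)) ∉ F' := by
    intro F' hF'
    have : ∀ᶠ n in atTop, ∀ h ∈ F', hol (g (a n)) ≠ h := by
      rw [eventually_all_finite hF']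
      intro h _
      by_cases hb : ∃ b, hol (g b) = h
      · obtain ⟨b, rfl⟩ := hb
        filter_upwards [eventually_ge_atTop b] with n hn he using ha1 n ⟨b, hn, he.symm⟩
      · exact Eventually.of_forall fun n he => hb ⟨_, he⟩
    filter_upwards [this] with n hn h using hn _ h rfl
  have hn : ∀ n, ‖(hol (g (a n)))⁻¹ θ‖ = 1 := fun n => by rw [LinearIsometryEquiv.norm_map, hθ]
  obtain ⟨θ₀, h0, φ, hφ, hlim⟩ := (isCompact_sphere (0 : ℂ) 1).tendsto_subseq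
    (x := fun n => (hol (g (a n)))⁻¹ θ) fun n => mem_sphere_zero_iff_norm.2 (hn n)
  obtain ⟨K, hK, hret⟩ := exists_compact_return (P := P) (S := S) hF
  have hσ : ∀ n, IsLine udev (fun s => (g (a (φ n)))⁻¹ • o (a (φ n) + s)) _
      ((hol (g (a (φ n))))⁻¹ θ) := fun n => by
    have := isLine_gsmul (ho.shift (a (φ n))) (g (a (φ n)))⁻¹
    rwa [← hol_apply, map_inv] at this
  obtain ⟨Ω, o1, ⟨q₀, o2⟩, o3⟩ := (psurf P S).tame hK (mem_sphere_zero_iff_norm.1 h0) hσ hlim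
    (fun n => hn _) (hφ.tendsto_atTop.eventually
      (tend _ (Ort.finite_fibre_inv (finite_singleton θ₀) hθ0))) zero_le_one fun n s hs => by
      have h1 : ⌊s⌋₊ ≤ φ n := (Nat.floor_le_of_le hs.2).trans (hφ.id_le n)
      refine hret _ _ _ (hσ n) (hn _) ⌊s⌋₊ _ ?_ (ha2 _ _ h1) s
        ⟨Nat.floor_le hs.1, (Nat.lt_floor_add_one s).le⟩
      have := hg (a (φ n) + ⌊s⌋₊)
      rw [Nat.cast_add] at this
      exact Sh.smul this _
  obtain ⟨γ, hγ⟩ := exists_Sh q₀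
  obtain ⟨q₁, b1, b2, b3⟩ := Sh.exists_interior hγ (o1.mem_nhds o2)
  set W : Set ℂ := interior P ∩ (fun p => γ • iota P S p) ⁻¹' Ω with hWd
  have hW : IsOpen W := ((continuousOn_smul_iota γ).mono
    hP.out.interior_subset_core).isOpen_inter_preimage isOpen_interior o1
  have key : ∀ y ∈ W, ∀ N ∈ 𝓝 y, ∀ F' : Set Ort, F'.Finite →
      ∃ q' ∈ range o, proj q' ∈ N ∧ ∃ γ, q' ∈ Sh γ ∧ hol γ ∉ F' := by
    intro y hy N hN F' hF'
    have hyc := hP.out.interior_subset_core hy.1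
    obtain ⟨n, ⟨s, η, c1⟩, c2⟩ := ((o3 (Ω ∩ {q | q ∈ Sh γ ∧ proj q ∈ interior P} ∩
      proj ⁻¹' interior N) (inter_subset_left.trans inter_subset_left)
      ((o1.inter (isOpen_Sh γ)).inter (isOpen_interior.preimage continuous_proj))
      ⟨γ • iota P S y, ⟨hy.2, smul_iota_mem γ hyc, by rw [proj_smul_iota γ hyc]; exact hy.1⟩, by
        rw [mem_preimage, proj_smul_iota γ hyc]; exact mem_interior_iff_mem_nhds.2 hN⟩).and_eventually
      (hφ.tendsto_atTop.eventually (tend _ (hF'.image fun h => h * (hol γ)⁻¹)))).exists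
    have c3 := Sh.smul c1.1.2.1 (g (a (φ n)) * (η : Gam S)⁻¹)
    have c4 := interior_subset c1.2
    rw [Lam.smul_def, proj_smul, proj_smul] at c4
    rw [Lam.smul_def, smul_smul, smul_smul, inv_mul_cancel_right, mul_inv_cancel, one_smul] at c3
    refine ⟨_, ⟨_, rfl⟩, c4, _, c3, fun h => c2 ⟨_, h, ?_⟩⟩
    simp [show hol (η : Gam S) = 1 from η.2]
  have hq₁ : proj q₁ ∈ W := ⟨b3, by rw [mem_preimage, ← Sh.eq b2]; exact b1⟩
  refine not_secure_of_rec₂ (R := range o) hθ hW inter_subset_left ?_ ?_ ?_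
    (fun q _ hq => key _ hq) hsec
  · rintro _ ⟨s, rfl⟩ _ ⟨s', rfl⟩
    exact ho.seg etale_udev s s'
  · rintro _ ⟨s, rfl⟩ r -
    exact ⟨_, ⟨s + r, rfl⟩, by rw [ho.2, ho.2]; push_cast; ring⟩
  · obtain ⟨q', c1, c2, -⟩ := key _ hq₁ W (hW.mem_nhds hq₁) ∅ finite_empty
    exact ⟨q', c1, c2⟩

theorem not_secure_of_ray₂ {k : Itin S} {F : Set (Gam S)} (hF : F.Finite)
    (h0 : ∀ i, (k i).2.2 ∈ F ∧ ‖(k i).2.1‖ = 1 ∧ (k i).1 ∈ core P S)
    (h1 : ∀ i, (k i).2.2.1 (k (i + 1)).1 = (k i).1 + (k i).2.1)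
    (h2 : ∀ i, hol (k i).2.2 (k (i + 1)).2.1 = (k i).2.1)
    (h3 : ∀ G : Set Ort, G.Finite → ∃ i, hol (cum k i) ∉ G)
    (h4 : ∀ i, Seg udev (iota P S (k i).1) ((k i).2.2 • iota P S (k (i + 1)).1))
    (h5 : ∀ U : Set (Itin S), IsOpen U → k ∈ U → ∃ L : ℕ, ∀ a, ∃ j ≤ L, shift^[a + j] k ∈ U)
    (hsec : NoScr P S) : False := by
  set p := (k 0).1 with hp
  set θ := (k 0).2.1 with hθ
  set q : ℕ → Unf P S := fun i => cum k i • iota P S (k i).1 with hq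
  have hd : ∀ i, udev (q i) = p + (i : ℝ) * θ := fun i => by
    rw [hq, udev_smul_iota _ (h0 i).2.2, (cum_dev h1 h2 i).1]
  have hd0 : udev (q 0) = p + (0 : ℝ) * θ := by simpa using hd 0
  have hmem : ∀ {a b : ℝ}, 0 ≤ a → a ≤ b → p + a * θ ∈ segment ℝ (udev (q 0)) (p + b * θ) := by
    intro a b ha hb
    rw [hd0, segment_line, uIcc_of_le (ha.trans hb)]
    exact ⟨a, ⟨ha, hb⟩, rfl⟩
  have hs : ∀ i, Seg udev (q 0) (q i) := by
    intro i
    induction i with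
    | zero => exact Seg.refl _
    | succ i ih =>
      refine Seg.trans etale_udev ih ?_ ?_
      · have := seg_gsmul (h4 i) (cum k i)
        rwa [smul_smul] at this
      · rw [hd i, hd (i + 1)]
        exact hmem (Nat.cast_nonneg i) (by push_cast; linarith)
  set R : Set (Unf P S) := {m | Seg udev (q 0) m ∧ ∃ r : ℝ, 0 ≤ r ∧ udev m = p + r * θ} with hR
  have hex : ∀ r : ℝ, 0 ≤ r → ∃ m ∈ R, udev m = p + r * θ := by
    intro r hr
    obtain ⟨m, m1, m2, -⟩ := (hs ⌈r⌉₊).split (u := p + r * θ) (by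
      rw [hd ⌈r⌉₊]; exact hmem hr (Nat.le_ceil r))
    exact ⟨m, ⟨m2, r, hr, m1⟩, m1⟩
  have hle : ∀ m m' : Unf P S, ∀ r r' : ℝ, Seg udev (q 0) m → Seg udev (q 0) m' → 0 ≤ r → r ≤ r' →
      udev m = p + r * θ → udev m' = p + r' * θ → Seg udev m m' := by
    intro m m' r r' a1 a2 a3 a4 a5 a6
    obtain ⟨m₁, m1, m2, m3⟩ := a2.split (u := p + r * θ) (by rw [a6]; exact hmem a3 a4)
    rwa [Seg.unique etale_udev a1 m2 (a5.trans m1.symm)]
  have hq0 : q 0 = iota P S p := one_smul _ _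
  refine not_secure_of_rec₂ (R := R) (h0 0).2.1 isOpen_interior Subset.rfl ?_ ?_ ?_ ?_ hsec
  · rintro m ⟨a1, r, a2, a3⟩ m' ⟨b1, r', b2, b3⟩
    rcases le_total r r' with h | h
    · exact hle m m' r r' a1 b1 a2 h a3 b3
    · exact (hle m' m r' r b1 a1 b2 h b3 a3).symm
  · rintro m ⟨-, r, a2, a3⟩ r' hr'
    obtain ⟨m', b1, b2⟩ := hex (r + r') (by linarith)
    exact ⟨m', b1, by rw [b2, a3]; push_cast; ring⟩
  · obtain ⟨L, hL⟩ := exists_interior_on_seg (P := P) (S := S)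
    obtain ⟨n, hn⟩ := exists_nat_gt L
    obtain ⟨m, m1, m2, m3⟩ := hL (q 0) (q n) (hq0 ▸ iota_mem (h0 0).2.2) (hs n) (by
      rw [hd n, hd0, add_sub_add_left_eq_sub, ← sub_mul, norm_mul, (h0 0).2.1]
      simpa using hn)
    rw [hd n, hd0, segment_line, uIcc_of_le (Nat.cast_nonneg n)] at m2
    obtain ⟨r, r1, r2⟩ := m2
    exact ⟨m, ⟨m1, r, r1.1, r2.symm⟩, m3⟩
  · rintro m ⟨a1, r, a2, a3⟩ hi N hN G hG
    obtain ⟨γ, hγ⟩ := exists_Sh m
    obtain ⟨ε, hε, χ, c1, c2, c3⟩ := etale_udev.exists_chart_subset m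
      (inter_mem (Sh.eventually hγ hi) (continuous_proj.continuousAt.preimage_mem_nhds hN))
    have t1 : Tendsto (fun x : ℂ × ℂ => x.1 + r * x.2) (𝓝 (p, θ)) (𝓝 (udev m)) := by
      rw [a3]; exact Continuous.tendsto (by fun_prop) (p, θ)
    have t2 : Tendsto (fun x : ℂ × ℂ => χ (x.1 + r * x.2)) (𝓝 (p, θ)) (𝓝 m) := by
      have := (c1.1.continuousAt (ball_mem_nhds _ hε)).tendsto
      rw [c2] at this
      exact this.comp t1
    have t3 : Tendsto (fun x : ℂ × ℂ => iota P S x.1) (𝓝[Prod.fst ⁻¹' core P S] (p, θ))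
        (𝓝 (q 0)) := by
      rw [hq0]
      exact (continuousOn_iota p (h0 0).2.2).tendsto.comp
        (continuous_fst.continuousWithinAt.tendsto_nhdsWithin (mapsTo_preimage _ _))
    have e1 := eventually_nhdsWithin_iff.1 ((t3.prodMk_nhds
      (t2.mono_left nhdsWithin_le_nhds)).eventually (a1.eventually etale_udev))
    obtain ⟨V, v1, v2, v3⟩ := _root_.eventually_nhds_iff.1 (e1.and (t1 (ball_mem_nhds _ hε)))
    obtain ⟨L, hL⟩ := h5 {k' | ((k' 0).1, (k' 0).2.1) ∈ V} (v2.preimage (by fun_prop)) v3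
    obtain ⟨a, ha⟩ := h3 _ (hG.image2 (fun g (h : Gam S) => g * (hol (h * γ))⁻¹)
      ((finite_Iic L).biUnion fun j _ => finite_pow_of_finite hF j))
    obtain ⟨j, j1, j2⟩ := hL a
    rw [mem_ofPred_eq, shift_iterate, add_zero] at j2
    obtain ⟨w1, w2⟩ := v1 _ j2
    obtain ⟨e2, e3⟩ := cum_dev h1 h2 (a + j)
    have w3 := seg_gsmul (w1 (h0 _).2.2) (cum k (a + j))
    have w4 : udev (cum k (a + j) • χ ((k (a + j)).1 + r * (k (a + j)).2.1)) =
        p + (((a + j : ℕ) : ℝ) + r : ℝ) * θ := by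
      rw [udev_smul, c1.2 _ w2, Mot.apply_line, e2, ← hol_apply, e3]
      push_cast; ring
    refine ⟨_, ⟨Seg.trans etale_udev (hs (a + j)) w3 ?_, _, by positivity, w4⟩, ?_, _,
      Sh.smul (c3 _ w2).1.1 _, fun h => ha ⟨_, h, cum (shift^[a] k) j, cum_mem (fun i => ?_) j1, ?_⟩⟩
    · rw [hd (a + j), w4]
      exact hmem (Nat.cast_nonneg (a + j)) (le_add_of_nonneg_right a2)
    · rw [proj_smul]; exact (c3 _ w2).2
    · rw [shift_iterate]; exact (h0 _).1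
    · simp [cum_add]

theorem not_secure_of_wild₂ {o : ℝ → Unf P S} {z θ : ℂ} (hθ : ‖θ‖ = 1) (ho : IsLine udev o z θ)
    {g : ℕ → Gam S} (hg : ∀ a : ℕ, o a ∈ Sh (g a))
    (hU : ∀ F : Set Ort, F.Finite → ∃ a, hol (g a) ∉ F)
    (hW : ∀ F : Set Ort, F.Finite → ∃ n : ℕ, ∃ F' : Set Ort, F'.Finite ∧ ∀ a, hol (g a) ∉ F' →
      ∃ i ≤ n, hol ((g a)⁻¹ * g (a + i)) ∉ F)
    (hsec : NoScr P S) : False := by
  obtain ⟨Fr, hFr, hr⟩ := reach_finite (P := P) (S := S) 1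
  obtain ⟨Fd, hFd, hFd1, hdeath⟩ := alive_of_avoid_verts (P := P) (S := S) 1
  set ω : ℕ → Itin S := fun a i => (proj (o (a + i : ℕ)), (hol (g (a + i)))⁻¹ θ,
    (g (a + i))⁻¹ * g (a + i + 1)) with hω
  have hstep : ∀ a : ℕ, udev (o (a + 1 : ℕ)) = udev (o a) + θ := fun a => by
    rw [ho.2, ho.2]; push_cast; ring
  have hst : ∀ a : ℕ, (g a)⁻¹ * g (a + 1) ∈ Fr := fun a =>
    hr _ _ _ _ (hg a) (hg (a + 1)) (ho.seg etale_udev _ _) (by
      rw [hstep, add_sub_cancel_left, hθ])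
  have hsh : ∀ a, shift (ω a) = ω (a + 1) := fun a => funext fun i => by
    simp only [shift, hω, show a + (i + 1) = a + 1 + i by omega]
  have hcum : ∀ a i, cum (ω a) i = (g a)⁻¹ * g (a + i) := by
    intro a i
    induction i with
    | zero => simp [cum]
    | succ i ih => rw [cum, ih, hω]; simp only; group
  set Φ : Filter ℕ := comap (fun a => hol (g a)) cofinite with hΦ
  have hΦe : ∀ F : Set Ort, F.Finite → ∀ᶠ a in Φ, hol (g a) ∉ F := fun F hF =>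
    preimage_mem_comap hF.compl_mem_cofinite
  have : Φ.NeBot := comap_neBot fun t ht => by
    obtain ⟨a, ha⟩ := hU _ (mem_cofinite.1 ht)
    exact ⟨a, not_not.1 ha⟩
  have hsucc : Tendsto (fun a => a + 1) Φ Φ := by
    rw [hΦ, tendsto_comap_iff]
    intro t ht
    rw [mem_map]
    filter_upwards [hΦe _ ((mem_cofinite.1 ht).image2 (fun h (f : Gam S) => h * (hol f)⁻¹) hFr)]
      with a ha
    by_contra hc
    exact ha ⟨_, hc, _, hst a, by simp⟩
  set K : Set (Itin S) := {k | MapClusterPt k Φ ω} with hK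
  set K₁ : Set (Itin S) := univ.pi fun _ => P ×ˢ sphere 0 1 ×ˢ Fr with hK₁
  have hK₁c : IsCompact K₁ := isCompact_univ_pi fun _ =>
    hP.out.compact.prod ((isCompact_sphere _ _).prod hFr.isCompact)
  have hω₁ : ∀ a, ω a ∈ K₁ := fun a i _ => ⟨(proj_mem _).1, by
    rw [mem_sphere_zero_iff_norm, LinearIsometryEquiv.norm_map, hθ], hst _⟩
  have hKK : K ⊆ K₁ := fun k hk => hK₁c.isClosed.mem_of_mapClusterPt hk (Eventually.of_forall hω₁)
  have hKc : IsCompact K := hK₁c.of_isClosed_subset isClosed_setOfPred_clusterPt hKK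
  have hKn : K.Nonempty := by
    obtain ⟨k, -, hk⟩ := hK₁c.exists_mapClusterPt (f := Φ) (u := ω)
      (le_principal_iff.2 (mem_map.2 (Eventually.of_forall hω₁)))
    exact ⟨k, hk⟩
  have hinv : MapsTo shift K K := fun k hk => MapClusterPt.of_comp hsucc (by
    have := MapClusterPt.continuousAt_comp continuous_shift.continuousAt hk
    rwa [show shift ∘ ω = ω ∘ fun a => a + 1 from funext hsh] at this)
  have c1 : Continuous fun x : Gam S × ℂ => x.1.1 x.2 :=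
    continuous_prod_of_discrete_left.2 fun γ => γ.1.continuous
  have c2 : Continuous fun x : Gam S × ℂ => hol x.1 x.2 :=
    continuous_prod_of_discrete_left.2 fun γ => (hol γ).continuous
  have h1 : ∀ k ∈ K, ∀ i, (k i).2.2.1 (k (i + 1)).1 = (k i).1 + (k i).2.1 := by
    intro k hk i
    refine IsClosed.mem_of_mapClusterPt (s := {k : Itin S |
      (k i).2.2.1 (k (i + 1)).1 = (k i).1 + (k i).2.1}) (isClosed_eq (c1.comp
        (f := fun k : Itin S => ((k i).2.2, (k (i + 1)).1)) (by fun_prop)) (by fun_prop)) hk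
      (Eventually.of_forall fun a => ?_)
    simp only [hω, mem_ofPred_eq, ← add_assoc]
    rw [Subgroup.coe_mul, Mot.mul_apply, ← Sh.dev_eq (hg _), hstep, Subgroup.coe_inv,
      Mot.apply_add, ← Sh.proj_eq (hg _), map_inv, hol_apply]
  have h2 : ∀ k ∈ K, ∀ i, hol (k i).2.2 (k (i + 1)).2.1 = (k i).2.1 := by
    intro k hk i
    refine IsClosed.mem_of_mapClusterPt (s := {k : Itin S |
      hol (k i).2.2 (k (i + 1)).2.1 = (k i).2.1}) (isClosed_eq (c2.comp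
        (f := fun k : Itin S => ((k i).2.2, (k (i + 1)).2.1)) (by fun_prop)) (by fun_prop)) hk
      (Eventually.of_forall fun a => ?_)
    simp only [hω, mem_ofPred_eq, ← add_assoc]
    rw [map_mul, Ort.mul_apply, Ort.apply_inv_self, map_inv]
  have h3 : ∀ k ∈ K, ∀ G : Set Ort, G.Finite → ∃ i, hol (cum k i) ∉ G := by
    intro k hk G hG
    obtain ⟨n, F', hF', h⟩ := hW G hG
    have := IsClosed.mem_of_mapClusterPt (s := ⋃ i ∈ Iic n,
      (fun k : Itin S => cum k i) ⁻¹' {γ | hol γ ∉ G}) ((finite_Iic n).isClosed_biUnion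
        fun i _ => (isClosed_discrete _).preimage (continuous_cum i)) hk (by
      filter_upwards [hΦe F' hF'] with a ha
      obtain ⟨i, i1, i2⟩ := h a ha
      exact mem_iUnion₂.2 ⟨i, i1, by rwa [mem_preimage, hcum]⟩)
    obtain ⟨i, -, hi⟩ := mem_iUnion₂.1 this
    exact ⟨i, hi⟩
  have hC : (image2 (fun (γ : Gam S) v => γ.1 v) Fd (verts S)).Finite :=
    hFd.image2 _ (verts_finite S)
  set C := image2 (fun (γ : Gam S) v => γ.1 v) Fd (verts S) with hCd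
  set T : Set (Itin S) := {k | ∃ c ∈ C, c ∈ segment ℝ (k 0).1 ((k 0).1 + (k 0).2.1)} with hT
  have hTc : IsClosed T := by
    have : T = ⋃ c ∈ C, {k : Itin S | dist (k 0).1 c + dist c ((k 0).1 + (k 0).2.1) =
        dist (k 0).1 ((k 0).1 + (k 0).2.1)} := by
      ext k
      simp only [hT, mem_ofPred_eq, mem_iUnion, exists_prop, mem_segment_iff_wbtw]
      exact exists_congr fun c => and_congr_right fun _ => dist_add_dist_eq_iff.symm
    rw [this]
    exact hC.isClosed_biUnion fun c _ => isClosed_eq (by fun_prop) (by fun_prop)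
  have hcore : ∀ k ∈ K, k ∉ T → (k 0).1 ∈ core P S := fun k hk hT' =>
    ⟨(hKK hk 0 trivial).1, fun hv => hT' ⟨_, ⟨1, hFd1, _, hv, rfl⟩, left_mem_segment _ _ _⟩⟩
  have h4 : ∀ k ∈ K, k ∉ T → (k 1).1 ∈ core P S →
      Seg udev (iota P S (k 0).1) ((k 0).2.2 • iota P S (k 1).1) := by
    intro k hk hT' hc1
    have hc0 := hcore k hk hT'
    obtain ⟨m, m1, m2⟩ := hdeath _ 1 (k 0).2.1 (iota_mem hc0)
      (mem_sphere_zero_iff_norm.1 (hKK hk 0 trivial).2.1).le fun s hs γ hγ w hw he => by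
        rw [udev_iota hc0, one_mul] at he
        exact hT' ⟨_, ⟨γ, hγ, w, hw, he.symm⟩, mem_segment_add _ _ (Ioc_subset_Icc_self hs)⟩
    obtain ⟨U, u1, u2⟩ := mapClusterPt_iff_ultrafilter.1 hk
    have t : ∀ i, (k i).1 ∈ core P S → ∀ γ : Gam S, Tendsto (fun a => γ • iota P S (ω a i).1) U
        (𝓝 (γ • iota P S (k i).1)) := fun i hi γ =>
      (continuousOn_smul_iota γ _ hi).tendsto.comp (tendsto_nhdsWithin_iff.2
        ⟨((show Continuous fun k : Itin S => (k i).1 by fun_prop).tendsto k).comp u2,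
          Eventually.of_forall fun a => proj_mem _⟩)
    have t0 := t 0 hc0 1
    simp only [one_smul] at t0
    have t2 : ∀ᶠ a in (U : Filter ℕ), (ω a 0).2.2 = (k 0).2.2 := by
      have : Tendsto (fun a => (ω a 0).2.2) U (𝓝 (k 0).2.2) :=
        ((show Continuous fun k : Itin S => (k 0).2.2 by fun_prop).tendsto k).comp u2
      rwa [nhds_discrete, tendsto_pure] at this
    rw [Seg.eq_of_tendsto etale_udev m1 t0 (t 1 hc1 (k 0).2.2) ?_ ?_]
    · exact m1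
    · rw [m2, udev_smul_iota _ hc1, udev_iota hc0]; exact h1 k hk 0
    · filter_upwards [t2] with a ha
      rw [← ha]
      have := seg_gsmul (ho.seg etale_udev (a : ℕ) (a + 1 : ℕ)) (g a)⁻¹
      rw [Sh.eq (hg a), Sh.eq (hg (a + 1)), inv_smul_smul, smul_smul] at this
      simpa only [proj_smul_iota _ (proj_mem _), hω, add_zero] using this
  obtain ⟨K₀, k1, k2, k3, k4, k5⟩ := exists_minimal_set continuous_shift hKc hKn hinv hTc
  have h0 : ∀ k ∈ K, ∀ i, (k i).2.2 ∈ Fr ∧ ‖(k i).2.1‖ = 1 := fun k hk i =>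
    ⟨(hKK hk i trivial).2.2, mem_sphere_zero_iff_norm.1 (hKK hk i trivial).2.1⟩
  rcases k5 with ⟨L, hL⟩ | ⟨k, hk, hk'⟩
  · refine false_of_syndetic_hits k2 k3 hFr (fun k hk => h0 k (k1 hk)) (fun k hk => h1 k (k1 hk))
      (fun k hk => h2 k (k1 hk)) (fun k hk => h3 k (k1 hk)) hC (L := L) fun k hk => ?_
    obtain ⟨i, i1, i2⟩ := hL k hk
    rw [hT, mem_ofPred_eq, shift_iterate, add_zero] at i2
    exact ⟨i, i1, i2⟩
  · have hc : ∀ i, (k i).1 ∈ core P S := fun i => by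
      have := hcore _ (hinv.iterate i (k1 hk)) (hk' i)
      rwa [shift_iterate, add_zero] at this
    refine not_secure_of_ray₂ hFr (fun i => ⟨(h0 k (k1 hk) i).1, (h0 k (k1 hk) i).2, hc i⟩)
      (h1 k (k1 hk)) (h2 k (k1 hk)) (h3 k (k1 hk)) (fun i => ?_) (fun U hU hkU => ?_) hsec
    · have := h4 _ (hinv.iterate i (k1 hk)) (hk' i) (by rw [shift_iterate]; exact hc _)
      simpa only [shift_iterate, add_zero] using this
    · obtain ⟨L, hL⟩ := k4 U hU ⟨k, hkU, hk⟩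
      refine ⟨L, fun a => ?_⟩
      obtain ⟨j, j1, j2⟩ := hL _ (k3.iterate a hk)
      exact ⟨j, j1, by rwa [add_comm, Function.iterate_add_apply]⟩

theorem finite_hol_of_secure₂
    (hsec : NoScr P S) :
    (range (hol : Gam S → Ort)).Finite := by
  by_contra hG
  obtain ⟨x, hx, hxs⟩ := exists_interior_not_sing (P := P) (S := S)
  have hq : (psurf P S).dev (iota P S x) = x := udev_iota (hP.out.interior_subset_core hx)
  obtain ⟨θ, hθ, -, g2, g3, o, ho, -⟩ := (psurf P S).exists_generic_line (q := iota P S x)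
    (by rwa [hq]) countable_empty
  choose g hg using fun a : ℕ => exists_Sh (o a)
  have hU : ∀ F : Set Ort, F.Finite → ∃ a, hol (g a) ∉ F := by
    intro F hF
    by_contra hc
    push Not at hc
    obtain ⟨K, hK, hret⟩ := exists_compact_return (P := P) (S := S) hF
    obtain ⟨B, hB, h⟩ := (psurf P S).generic hK hθ g2 g3 isOpen_empty (fun _ _ h => h.elim) ho
      zero_le_one fun M => ⟨0, fun s hs => ⟨notMem_empty _, hret o _ θ ho hθ ⌊s⌋₊ _ (hg _) (hc _) s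
        ⟨Nat.floor_le hs.1, (Nat.lt_floor_add_one s).le⟩⟩⟩
    exact hG (finite_hol_of_cover hB fun q =>
      (h q (by rw [PreconnectedSpace.connectedComponent_eq_univ]; trivial)).2)
  by_cases hT : ∃ F : Set Ort, F.Finite ∧ ∀ n : ℕ, ∀ F' : Set Ort, F'.Finite →
      ∃ a, hol (g a) ∉ F' ∧ ∀ i ≤ n, hol ((g a)⁻¹ * g (a + i)) ∈ F
  · obtain ⟨F, hF, h⟩ := hT
    exact not_secure_of_tame₂ hθ ho hg hF h hsec
  · push Not at hT
    exact not_secure_of_wild₂ hθ ho hg hU hT hsec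

end Pool.Agent.Lib.MP_c02c19_gt
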