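import Pool.Agent.Lib.MP_c02c19_gt.Scr

/-!
Perfect sets of pairwise insecure points: polygons with finite holonomy; the main theorem.
-/

set_option autoImplicit false

namespace Pool.Agent.Lib.MP_c02c19_gt

open Set Filter Topology Metric Complex

variable {P : Set ℂ} {S : Finset (ℂ × ℂ)}

theorem dense_diff {s : Set ℂ} (hs : Dense s) : Dense {p : ℂ × ℂ | p.2 - p.1 ∈ s} :=
  hs.preimage ((ContinuousLinearMap.snd ℂ ℂ ℂ - ContinuousLinearMap.fst ℂ ℂ ℂ).isOpenMap
    fun z => ⟨(0, z), by simp⟩)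

theorem continuous_zpt₂ (j : Idx S) : Continuous fun p : ℂ × ℂ => zpt p.1 j p.2 :=
  ((j.2.2.2 : Mot)⁻¹).continuous.comp (by fun_prop)

variable [hP : Fact (IsPolygon P S)]

theorem exists_colours_pair (hG : (range (hol : Gam S → Ort)).Finite) (hsec : NoScr P S) :
    ∃ δ : Finset (Lam S) × Finset (Idx S), (interior (closure {p : ℂ × ℂ |
      p ∈ interior P ×ˢ interior P ∧ ∀ η ∉ δ.1, Seg udev (iota P S p.1) (η • iota P S p.2) →
        ∃ j ∈ δ.2, Col P p.1 j p.2 η})).Nonempty := by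
  obtain ⟨ι, _, f, f1, f2, f3, f4⟩ := exists_tests_transl (trGroup S) 0
  by_contra hc
  push Not at hc
  have hO : IsOpen (interior P ×ˢ interior P) := isOpen_interior.prod isOpen_interior
  have dn : ∀ {U : Set (ℂ × ℂ)}, Dense U → ∀ d ∈ interior P ×ˢ interior P, ∀ N ∈ 𝓝 d,
      (interior P ×ˢ interior P ∩ N ∩ U).Nonempty := fun hU d hd N hN => by
    rw [inter_comm]
    exact hU.inter_nhds_nonempty (inter_mem (hO.mem_nhds hd) hN)
  refine hsec.false (D := interior P) (ι := ι ⊕ (Finset (Lam S) × Finset (Idx S)) ⊕ Unit)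
    hP.out.connected.nonempty
    (fun g hg d hd N hN h0 => hg.eq_zero_of_open (isOpen_interior.inter isOpen_interior)
      ⟨d, hd, mem_interior_iff_mem_nhds.2 hN⟩ fun z hz => h0 z ⟨hz.1, interior_subset hz.2⟩)
    (Sum.elim (fun i => {p | f i (p.2 - p.1) ≠ 0}) (Sum.elim (fun δ => (closure {p : ℂ × ℂ |
      p ∈ interior P ×ˢ interior P ∧ ∀ η ∉ δ.1, Seg udev (iota P S p.1) (η • iota P S p.2) →
        ∃ j ∈ δ.2, Col P p.1 j p.2 η})ᶜ) fun _ => interior P ×ˢ interior P ∩ {p | p.1 ≠ p.2}))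
    ?_ ?_ fun x y hxy => ?_
  · rintro (i | δ | _)
    · exact isOpen_ne_fun ((f1 i).comp (by fun_prop)) continuous_const
    · exact isClosed_closure.isOpen_compl
    · exact hO.inter (isOpen_ne_fun continuous_fst continuous_snd)
  · rintro (i | δ | _)
    · exact dn (dense_diff ((f2 i).dense_ne (f3 i)))
    · exact dn (interior_eq_empty_iff_dense_compl.1 (hc δ))
    · intro d hd N hN
      obtain ⟨p, p1, p2⟩ := dn (dense_diff (dense_compl_singleton 0)) d hd N hN
      exact ⟨p, p1, p1.1, fun h => p2 (sub_eq_zero.2 h.symm)⟩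
  obtain ⟨⟨hx, hy⟩, hne⟩ := hxy (Sum.inr (Sum.inr ()))
  refine ⟨hx, hne, fun hsp => ?_⟩
  obtain ⟨δ, hδ⟩ := exists_colours hG hx hy hsp fun ζ l m s hl hm hi he =>
    f4 (y - x) (fun i => hxy (Sum.inl i)) (ζ - x) l m s hl hm hi fun i => by
      linear_combination he i
  exact hxy (Sum.inr (Sum.inl δ)) (subset_closure ⟨⟨hx, hy⟩, hδ⟩)

theorem exists_colours_ball₂ (hG : (range (hol : Gam S → Ort)).Finite) (hsec : NoScr P S) :
    ∃ x ∈ interior P, x ∉ dverts S ∧
      ∃ (Ex : Finset (Lam S)) (C : Finset (Idx S)) (y₀ : ℂ) (r : ℝ), 0 < r ∧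
      ball y₀ r ⊆ interior P ∧
      (∀ j ∈ C, 0 < ratio j ∧ ratio j < 1 ∧ ∀ y ∈ ball y₀ r, zpt x j y ∈ interior P) ∧
      ∀ y ∈ ball y₀ r, ∀ η ∉ Ex, Seg udev (iota P S x) (η • iota P S y) →
        ∃ j ∈ C, Col P x j y η := by
  classical
  obtain ⟨δ, hδ⟩ := exists_colours_pair hG hsec
  set Y : Set (ℂ × ℂ) := {p : ℂ × ℂ |
      p ∈ interior P ×ˢ interior P ∧ ∀ η ∉ δ.1, Seg udev (iota P S p.1) (η • iota P S p.2) →
        ∃ j ∈ δ.2, Col P p.1 j p.2 η} with hY
  set O : Set (ℂ × ℂ) := interior (closure Y) ∩ interior P ×ˢ interior P with hO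
  have hOo : IsOpen O := isOpen_interior.inter (isOpen_interior.prod isOpen_interior)
  obtain ⟨p, hp⟩ : O.Nonempty := by
    obtain ⟨y, hy⟩ := hδ
    obtain ⟨y', h1, h2⟩ := mem_closure_iff.1 (interior_subset hy) _ isOpen_interior hy
    exact ⟨y', h1, h2.1⟩
  obtain ⟨x, hxs, hxO⟩ := ((dverts_countable (S := S)).dense_compl ℝ).exists_mem_open
    (hOo.preimage (Continuous.prodMk_left p.2)) ⟨p.1, hp⟩
  have hx : x ∈ interior P := hxO.2.1
  have hV : IsOpen ((fun y => (x, y)) ⁻¹' O) := hOo.preimage (Continuous.prodMk_right x)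
  set C₀ := δ.2.filter fun j => ratio j ≠ 0 with hC₀
  have o1 : ∀ j, IsOpen (zpt x j ⁻¹' (frontier P)ᶜ) := fun j : Idx S =>
    isClosed_frontier.isOpen_compl.preimage (continuous_zpt x j)
  have d5 : Dense (⋂ j ∈ C₀, zpt x j ⁻¹' (frontier P)ᶜ) :=
    dense_biInter_of_isOpen (fun j _ => o1 j) C₀.countable_toSet fun j hj =>
      (interior_eq_empty_iff_dense_compl.1 (interior_frontier hP.out.isClosed)).preimage
        (isOpenMap_zpt x (Finset.mem_filter.1 hj).2)
  obtain ⟨y₀, h1, h2⟩ := d5.exists_mem_open hV ⟨p.2, hxO⟩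
  obtain ⟨r, hr, hb⟩ := Metric.mem_nhds_iff.1 (((isOpen_biInter_finset fun j _ => o1 j).inter
    hV).mem_nhds ⟨h1, h2⟩)
  refine ⟨x, hx, hxs, δ.1, δ.2.filter fun j => 0 < ratio j ∧ ratio j < 1 ∧
    ∀ y ∈ ball y₀ r, zpt x j y ∈ interior P, y₀, r, hr, fun y hy => (hb hy).2.2.2,
    fun j hj => (Finset.mem_filter.1 hj).2, fun y hy η hη hs => ?_⟩
  obtain ⟨U, hU1, hU2⟩ := mem_closure_iff_ultrafilter.1 (interior_subset (hb hy).2.1)
  have hyi : y ∈ interior P := (hb hy).2.2.2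
  have t0 : Tendsto (fun p : ℂ × ℂ => iota P S p.1) U (𝓝 (iota P S x)) := by
    have := ((continuousAt_smul_iota hx (1 : Gam S)).comp
      (continuousAt_fst (p := (x, y)))).tendsto.mono_left hU2
    simpa [Function.comp_def] using this
  have t1 : Tendsto (fun p : ℂ × ℂ => (iota P S p.1, η • iota P S p.2)) U
      (𝓝 (iota P S x, η • iota P S y)) :=
    t0.prodMk_nhds ((continuousAt_smul_iota hyi (η : Gam S)).tendsto.comp
      ((continuous_snd.tendsto (x, y)).mono_left hU2))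
  have e1 : ∀ᶠ p in (U : Filter (ℂ × ℂ)), ∃ j ∈ (δ.2 : Set (Idx S)), Col P p.1 j p.2 η := by
    filter_upwards [t1.eventually (hs.eventually etale_udev), hU1] with y' a1 a2
    exact a2.2 η hη a1
  obtain ⟨j, hj, e2⟩ := (Ultrafilter.eventually_exists_mem_iff δ.2.finite_toSet).1 e1
  obtain ⟨y₁, b1, b2, -, μ, b4, -⟩ := e2.exists
  have t3 : Tendsto (fun p : ℂ × ℂ => zpt p.1 j p.2) U (𝓝 (zpt x j y)) :=
    ((continuous_zpt₂ j).tendsto (x, y)).mono_left hU2
  have b3 : zpt x j y ∈ P := hP.out.isClosed.mem_of_tendsto t3 (e2.mono fun p hp => hp.2.2.1.1)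
  have hin : ∀ y ∈ ball y₀ r, zpt x j y ∈ interior P := by
    have := hP.out.subset_or_subset ((convex_ball y₀ r).isPreconnected.image _
      (continuous_zpt x j).continuousOn) (Set.disjoint_left.2 (by
        rintro _ ⟨y, hy, rfl⟩
        exact mem_iInter₂.1 (hb hy).1 j (Finset.mem_filter.2 ⟨hj, b1.ne'⟩)))
    rcases this with h | h
    · exact fun y hy => h (mem_image_of_mem _ hy)
    · exact absurd b3 (h (mem_image_of_mem _ hy))
  have hc := hP.out.interior_subset_core (hin y hy)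
  refine ⟨j, Finset.mem_filter.2 ⟨hj, b1, b2, hin⟩, b1, b2, hc, μ, b4, ?_⟩
  have hyc := hP.out.interior_subset_core hyi
  have hxc := hP.out.interior_subset_core hx
  obtain ⟨m, m1, m2, -⟩ := hs.split (u := x + ratio j * (y + tr η - x)) (by
    have := mem_segment_add x (y + tr η - x) (s := ratio j) ⟨b1.le, b2.le⟩
    rw [add_sub_cancel] at this
    rwa [Lam.smul_def, udev_iota hxc, udev_smul_iota _ hyc, Lam.apply])
  have t2 : Tendsto (fun p : ℂ × ℂ => μ • j.2.2.2 • iota P S (zpt p.1 j p.2)) U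
      (𝓝 (μ • j.2.2.2 • iota P S (zpt x j y))) :=
    ((continuous_gsmul (μ : Gam S)).continuousAt.comp
      (continuousAt_smul_iota (hin y hy) j.2.2.2)).tendsto.comp t3
  rw [Seg.eq_of_tendsto etale_udev m2 t0 t2 ?_ ?_]
  · exact m2
  · rw [m1, Lam.smul_def, udev_smul, udev_smul_iota _ hc, Lam.apply, zpt, Mot.apply_inv_self, b4]
    ring
  · filter_upwards [e2] with y' ⟨_, _, _, μ', c1, c2⟩
    rwa [tr_injective (b4.trans c1.symm)]

theorem discrete_of_secure₂ (hG : (range (hol : Gam S → Ort)).Finite)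
    (hsec : NoScr P S) (R : ℝ) :
    {η : Lam S | ‖tr η‖ ≤ R}.Finite := by
  obtain ⟨x, hx, hxs, Ex, C, y₀, r, hr, hb, hC, hcol⟩ := exists_colours_ball₂ hG hsec
  have hxc := hP.out.interior_subset_core hx
  set X := psurf P S with hX
  have hq : X.dev (iota P S x) = x := udev_iota hxc
  set A : Idx S → Set ℂ := fun j => dverts S ∪ {u | (1 - ratio j) * x + ratio j * u ∈ dverts S}
  have hA : ∀ j ∈ C, (A j).Countable := fun j hj =>
    (X.fiber ((1 - ratio j) * x) (hC j hj).1 (hC j hj).2.1.le).sing_countable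
  obtain ⟨θ, hθ, g1, g2, g3, o, ho, ho0⟩ := X.exists_generic_line (q := iota P S x)
    (by rwa [hq]) (Z := ⋃ j ∈ C, image2 (fun a b => a - b) (A j) (A j))
    (C.countable_toSet.biUnion fun j hj => (hA j hj).image2 (hA j hj) _)
  rw [hq] at ho
  obtain ⟨K, hK, hret⟩ := exists_compact_return (P := P) (S := S) hG
  set O : Set (Unf P S) := {q | (∃ η : Lam S, q ∈ Sh (η : Gam S)) ∧ proj q ∈ ball y₀ (r / 2)}
  have hsub : closedBall y₀ (r / 2) ⊆ ball y₀ r := closedBall_subset_ball (by linarith)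
  have hOo : IsOpen O := by
    rw [isOpen_iff_mem_nhds]
    rintro q ⟨⟨η, h1⟩, h2⟩
    filter_upwards [Sh.eventually h1 (hb (hsub (ball_subset_closedBall h2))),
      continuous_proj.continuousAt.preimage_mem_nhds (isOpen_ball.mem_nhds h2)] with q' a1 a2
    exact ⟨⟨η, a1.1⟩, a2⟩
  obtain ⟨M, hM⟩ : ∃ M : ℝ, ∀ a : ℝ, ∃ s ∈ Icc a (a + M), o s ∈ O := by
    by_contra hc
    push Not at hc
    obtain ⟨B, -, hB⟩ := X.generic hK hθ g2 g3 hOo (by
      rintro η q ⟨⟨η', h1⟩, h2⟩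
      exact ⟨⟨η * η', Sh.smul h1 η⟩, by rwa [Lam.smul_def, proj_smul]⟩) ho zero_le_one fun M => by
      obtain ⟨a, ha⟩ := hc M
      refine ⟨a, fun s hs => ⟨ha s hs, ?_⟩⟩
      obtain ⟨γ, hγ⟩ := exists_Sh (o s)
      exact hret o x θ ho hθ s γ hγ ⟨γ, rfl⟩ s (left_mem_Icc.2 (by linarith))
    have hy := hP.out.interior_subset_core (hb (mem_ball_self hr))
    refine (hB (iota P S y₀) (by rw [PreconnectedSpace.connectedComponent_eq_univ]; trivial)).1
      ⟨⟨1, iota_mem hy⟩, ?_⟩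
    rw [proj_iota hy]
    exact mem_ball_self (by linarith)
  have hM0 : 0 ≤ M := by
    obtain ⟨s, hs, -⟩ := hM 0
    linarith [hs.1, hs.2]
  obtain ⟨s₀, hs₀⟩ : ∃ s₀ : ℝ, ∀ s ≥ s₀, ∀ η ∈ Ex, o s ∉ Sh (η : Gam S) := by
    rw [← eventually_atTop, eventually_all_finset]
    intro η _
    obtain ⟨R₀, hR₀⟩ := hP.out.compact.isBounded.exists_norm_le
    filter_upwards [eventually_gt_atTop (R₀ + ‖tr η‖ + ‖x‖)] with s hs h
    have h1 : x + s * θ = proj (o s) + tr η := by rw [← Lam.apply, ← Sh.dev_eq h]; exact (ho.2 s).symm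
    have h2 : (s : ℂ) * θ = proj (o s) + tr η - x := by rw [← h1]; ring
    have h3 : ‖(s : ℂ) * θ‖ ≤ ‖proj (o s)‖ + ‖tr η‖ + ‖x‖ := by
      rw [h2]; exact (norm_sub_le _ _).trans (by gcongr; exact norm_add_le _ _)
    rw [norm_mul, hθ, mul_one, norm_real, Real.norm_eq_abs] at h3
    linarith [hR₀ _ (proj_mem (o s)).1, le_abs_self s]
  obtain ⟨j, hj, L, hL, hvis⟩ := piecewise_syndetic C (fun _ j s => ∃ η : Lam S,
    ∃ y ∈ closedBall y₀ (r / 2), o s = η • iota P S y ∧ Col P x j y η) (fun _ => univ) hM0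
    fun M' => Frequently.of_forall fun _ => ⟨s₀, subset_univ _, fun s hs => by
      obtain ⟨s', h1, ⟨η, h2⟩, h3⟩ := hM s
      have h4 := ball_subset_closedBall h3
      obtain ⟨j, hj, h5⟩ := hcol _ (hsub h4) η (fun h => hs₀ s' (hs.1.trans h1.1) η h h2) (by
        rw [Lam.smul_def, ← Sh.eq h2, ← ho0]; exact ho.seg etale_udev 0 s')
      exact ⟨s', h1, j, hj, η, _, h4, Sh.eq h2, h5⟩⟩
  obtain ⟨t0, t1, hz⟩ := hC j hj
  set t := ratio j with ht
  set c : ℂ := (1 - t) * x with hc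
  have hxx : X.dev (iota P S x) = c + t * X.dev (iota P S x) := by rw [hq, hc]; ring
  have hõ : ∀ s : ℝ, X.dev (o (s * t)) = c + t * X.dev (o s) := by
    intro s
    rw [ho.2, ho.2, hc]; push_cast; ring
  set õ : ℝ → X.FibE c t := fun s => ⟨(o (s * t), o s), hõ s⟩ with hõd
  have hline : IsLine (X.fiber c t0 t1.le).dev õ x θ :=
    ⟨((ho.1.comp (by fun_prop)).prodMk ho.1).subtype_mk _, ho.2⟩
  set φ : ℂ → Unf P S × Unf P S :=
    fun y => (j.2.2.2 • iota P S (zpt x j y), j.2.2.1 • iota P S y) with hφ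
  have hc1 : ∀ y ∈ closedBall y₀ (r / 2), zpt x j y ∈ core P S := fun y hy =>
    hP.out.interior_subset_core (hz y (hsub hy))
  have hc2 : ∀ y ∈ closedBall y₀ (r / 2), y ∈ core P S := fun y hy =>
    hP.out.interior_subset_core (hb (hsub hy))
  have hK' : IsCompact (φ '' closedBall y₀ (r / 2)) :=
    (isCompact_closedBall _ _).image_of_continuousOn
      (((continuousOn_smul_iota _).comp (continuous_zpt x j).continuousOn hc1).prodMk
        ((continuousOn_smul_iota (j.2.2.1 : Gam S)).mono hc2))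
  have hK'' : IsCompact ((Subtype.val : X.FibE c t → _) ⁻¹' (φ '' closedBall y₀ (r / 2))) := by
    refine (IsInducing.subtypeVal.isCompact_preimage_iff ?_).2 hK'
    rintro _ ⟨y, hy, rfl⟩
    refine ⟨⟨φ y, ?_⟩, rfl⟩
    change udev (_ • _) = c + t * udev (((j.2.2.1 : Lam S) : Gam S) • _)
    rw [udev_smul_iota _ (hc1 y hy), udev_smul_iota _ (hc2 y hy), zpt, Mot.apply_inv_self,
      Lam.apply, hc]
    ring
  obtain ⟨B', hB', hcov⟩ := (X.fiber c t0 t1.le).generic hK'' hθ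
    (fun a ha b hb s hs => sub_eq_zero.1 (g1 _ (mem_iUnion₂.2 ⟨j, hj, mem_image2_of_mem ha hb⟩) s hs))
    (fun g s hs => g3 g.1.2 s hs) isOpen_empty (fun _ _ h => h.elim) hline hL fun M' => by
      obtain ⟨_, a, -, ha⟩ := (hvis M').exists
      refine ⟨a, fun s hs => ⟨notMem_empty _, ?_⟩⟩
      obtain ⟨s', h1, η, y, h2, h3, -, -, -, μ, h4, h5⟩ := ha s hs
      have h6 : o (s' * t) = μ • j.2.2.2 • iota P S (zpt x j y) := by
        refine Seg.unique etale_udev (ho0 ▸ ho.seg etale_udev 0 _) h5 ?_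
        have h7 : x + s' * θ = y + tr η := by
          rw [← ho.2, h3, ← Lam.apply]; exact udev_smul_iota _ (hc2 y h2)
        rw [Lam.smul_def, udev_smul, udev_smul_iota _ (hc1 y h2), zpt, Mot.apply_inv_self,
          Lam.apply, h4]
        refine (ho.2 _).trans ?_
        push_cast
        linear_combination (t : ℂ) * h7
      refine ⟨s', h1, ⟨(μ⁻¹, j.2.2.1 * η⁻¹), ?_⟩, y, h2, Prod.ext ?_ ?_⟩
      · change tr μ⁻¹ = t * tr (j.2.2.1 * η⁻¹)
        rw [tr_inv, tr_mul, tr_inv, h4]; ring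
      · rw [Surf.fib_smul_fst]
        simp only [hõd, h6, inv_smul_smul, hφ]
      · rw [Surf.fib_smul_snd]
        simp only [hõd, h3, mul_smul, inv_smul_smul, hφ]
  have h0 : õ 0 = ⟨(iota P S x, iota P S x), hxx⟩ := Subtype.ext (by simp [hõd, ho0])
  rw [h0] at hcov
  have : Finite (hol (S := S)).range := hG
  have : (Lam S).FiniteIndex := Subgroup.finiteIndex_ker _
  have : Group.FG (Lam S) := Subgroup.fg_of_index_ne_zero _
  exact X.discrete_of_comp (X.comp_all (by rwa [hq]) t0 t1 hxx hB' fun p hp => (hcov p hp).2) R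

theorem almostIntegrable_of_finite_hol₂ (hG : (range (hol : Gam S → Ort)).Finite)
    (hsec : NoScr P S) :
    AlmostIntegrable P := by
  refine almostIntegrable_of_discrete hP.out (hG.subset ?_) fun R =>
    ((discrete_of_secure₂ hG hsec R).image tr).subset ?_
  · rintro _ ⟨g, hg, rfl⟩
    exact ⟨⟨g, hg⟩, rfl⟩
  · rintro _ ⟨⟨g, hg, h1, rfl⟩, h2⟩
    exact ⟨⟨⟨g, hg⟩, h1⟩, h2, rfl⟩

omit hP in
theorem almostIntegrable_of_noScr (h : IsPolygon P S) (hsec : NoScr P S) : AlmostIntegrable P :=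
  haveI : Fact (IsPolygon P S) := ⟨h⟩
  almostIntegrable_of_finite_hol₂ (finite_hol_of_secure₂ hsec) hsec

theorem polyL_eval {g : Fin 4 → ℂ → ℝ} (hg : ∀ i, PolyL (g i)) (F : MvPolynomial (Fin 4) ℝ) :
    PolyL fun x => MvPolynomial.eval (fun i => g i x) F := by
  intro z v
  choose p hp using fun i => hg i z v
  refine ⟨MvPolynomial.aeval p F, fun s => ?_⟩
  induction F using MvPolynomial.induction_on with
  | C a => simp
  | add F G h1 h2 => simp only [map_add, Polynomial.eval_add] at h1 h2 ⊢; rw [h1, h2]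
  | mul_X F i h1 =>
    simp only [map_mul, Polynomial.eval_mul, MvPolynomial.eval_X, MvPolynomial.aeval_X] at h1 ⊢
    rw [h1, hp]

theorem tests_poly {f : ℕ → MvPolynomial (Fin 4) ℝ} (hf : ∀ n, f n ≠ 0) :
    Tests fun n x y => MvPolynomial.eval ![x.re, x.im, y.re, y.im] (f n) := by
  have a1 : PolyL fun x => x.re := fun z v =>
    ⟨Polynomial.C z.re + Polynomial.X * Polynomial.C v.re, fun s => by simp; ring⟩
  have a2 : PolyL fun x => x.im := fun z v =>
    ⟨Polynomial.C z.im + Polynomial.X * Polynomial.C v.im, fun s => by simp; ring⟩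
  have a3 : ∀ c : ℝ, PolyL fun _ => c := fun c z v => ⟨Polynomial.C c, fun s => by simp⟩
  refine fun n => ⟨(MvPolynomial.continuous_eval (f n)).comp (continuous_pi fun i => ?_),
    fun y => polyL_eval (g := fun i x => ![x.re, x.im, y.re, y.im] i) (fun i => ?_) _,
    fun x => polyL_eval (g := fun i y => ![x.re, x.im, y.re, y.im] i) (fun i => ?_) _, ?_⟩
  · fin_cases i <;> simp <;> fun_prop
  · fin_cases i
    exacts [a1, a2, a3 _, a3 _]
  · fin_cases i
    exacts [a3 _, a3 _, a1, a2]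
  · by_contra hc
    push Not at hc
    refine hf n (MvPolynomial.funext fun w => ?_)
    have := hc ⟨w 0, w 1⟩ ⟨w 2, w 3⟩
    rwa [map_zero, show w = ![w 0, w 1, w 2, w 3] from funext fun i => by fin_cases i <;> rfl]

end Pool.Agent.Lib.MP_c02c19_gt
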