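import Pool.Agent.Lib.MP_c02c19_gt.Etale

/-!
Abstract flat surfaces: an étale space over the plane with a group of translations,
a countable singular set and a notion of bounded set.
-/

namespace Pool.Agent.Lib.MP_c02c19_gt

open Set Filter Topology Metric

/-- flat surface given by its developing map -/
structure Surf (E : Type*) [TopologicalSpace E] (H : Type*) [Group H] [MulAction H E] where
  dev : E → ℂ
  τ : H → ℂ
  Sing : Set ℂ
  Bd : Set E → Prop
  et : Etale dev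
  cont_smul : ∀ η : H, Continuous fun q : E => η • q
  dev_smul : ∀ (η : H) (q : E), dev (η • q) = dev q + τ η
  τ_mul : ∀ η η' : H, τ (η * η') = τ η + τ η'
  τ_inj : ∀ η : H, τ η = 0 → η = 1
  sing_countable : Sing.Countable
  sing_add : ∀ (η : H), ∀ a ∈ Sing, a + τ η ∈ Sing
  bd_empty : Bd ∅
  bd_mono : ∀ A B : Set E, A ⊆ B → Bd B → Bd A
  bd_union : ∀ A B : Set E, Bd A → Bd B → Bd (A ∪ B)
  bd_smul : ∀ (η : H) (B : Set E), Bd B → Bd ((fun q => η • q) '' B)
  bd_nhds : ∀ q : E, ∃ N ∈ 𝓝 q, Bd N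
  bd_reach : ∀ (B : Set E) (L : ℝ), Bd B →
    Bd {q' | ∃ q ∈ B, Seg dev q q' ∧ ‖dev q' - dev q‖ ≤ L}
  bd_proper : ∀ B B' : Set E, Bd B → Bd B' → {η : H | ∃ q ∈ B, η • q ∈ B'}.Finite
  bd_death : ∀ (B : Set E) (L : ℝ), Bd B → ∃ Z ⊆ Sing, Z.Finite ∧ ∀ q ∈ B, ∀ v : ℂ, ‖v‖ ≤ L →
    (∀ s ∈ Ioc (0 : ℝ) 1, dev q + s * v ∉ Z) → Alive dev q v

section general

variable {E : Type*} [TopologicalSpace E] {dev : E → ℂ}

/-- limits of points on converging lines -/
theorem Etale.tendsto_line (h : Etale dev) {A : Type*} {l : Filter A} {σ : A → ℝ → E}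
    {z v : A → ℂ} {t₀ t : A → ℝ} (hσ : ∀ᶠ a in l, IsLine dev (σ a) (z a) (v a)) {q m : E}
    (h0 : Tendsto (fun a => σ a (t₀ a)) l (𝓝 q))
    (hd : Tendsto (fun a => dev (σ a (t a))) l (𝓝 (dev m))) (hs : Seg dev q m) :
    Tendsto (fun a => σ a (t a)) l (𝓝 m) := by
  obtain ⟨ε, hε, χ, hχ, hq⟩ := h.exists_chart m
  have t2 : Tendsto (fun a => χ (dev (σ a (t a)))) l (𝓝 m) := by
    have := (hχ.1.continuousAt (ball_mem_nhds _ hε)).tendsto
    rw [hq] at this
    exact this.comp hd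
  have t3 := h0.prodMk_nhds t2
  refine t2.congr' ?_
  filter_upwards [t3.eventually (hs.eventually h), hd (ball_mem_nhds _ hε), hσ] with a p1 p2 p3
  exact Seg.unique h p1 (p3.seg h _ _) (hχ.2 _ p2)

/-- the vertical strip over a real set -/
def strip (I : Set ℝ) (h : ℝ) : Set ℂ := {z | z.re ∈ I ∧ z.im ∈ Icc 0 h}

theorem convex_strip {I : Set ℝ} (hI : Convex ℝ I) (h : ℝ) : Convex ℝ (strip I h) :=
  (hI.linear_preimage Complex.reLm).inter ((convex_Icc 0 h).linear_preimage Complex.imLm)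

theorem Etale.exists_strip (he : Etale dev) {j : ℝ → E} {I : Set ℝ} (hj : ContinuousOn j I)
    (hd : ∀ u ∈ I, dev (j u) = u) {h : ℝ} (hh : 0 ≤ h)
    (ha : ∀ u ∈ I, Alive dev (j u) (h * Complex.I)) :
    ∃ χ, IsSec dev χ (strip I h) ∧ ∀ u ∈ I, χ u = j u := by
  classical
  have key : ∀ z : ℂ, ∃ m, z ∈ strip I h → Seg dev (j z.re) m ∧ dev m = z := by
    intro z
    by_cases hz : z ∈ strip I h
    · have hs : z.im / h ∈ Icc (0 : ℝ) 1 :=
        ⟨div_nonneg hz.2.1 hh, div_le_one_of_le₀ hz.2.2 hh⟩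
      obtain ⟨m, m1, m2⟩ := (ha _ hz.1).mono hs
      refine ⟨m, fun _ => ⟨m1, ?_⟩⟩
      rw [m2, hd _ hz.1]
      have : z.im / h * h = z.im := by
        rcases hh.eq_or_lt with h0 | h0
        · have h1 := hz.2.1
          have h2 := hz.2.2
          rw [← h0] at h2 ⊢
          rw [mul_zero]; linarith
        · field_simp
      rw [← mul_assoc, ← Complex.ofReal_mul, this, Complex.re_add_im]
    · exact ⟨j 0, fun h => absurd h hz⟩
  choose χ hχ using key
  refine ⟨χ, ⟨?_, fun u hu => (hχ u hu).2⟩, ?_⟩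
  · intro z hz
    obtain ⟨ε, hε, c, hc, hq⟩ := he.exists_chart (χ z)
    rw [(hχ z hz).2] at hc hq
    have t2 : Tendsto c (𝓝[strip I h] z) (𝓝 (χ z)) := by
      have := (hc.1.continuousAt (ball_mem_nhds _ hε)).tendsto
      rw [hq] at this
      exact this.mono_left nhdsWithin_le_nhds
    have t1 : Tendsto (fun z' : ℂ => j z'.re) (𝓝[strip I h] z) (𝓝 (j z.re)) :=
      (hj _ hz.1).tendsto.comp (tendsto_nhdsWithin_iff.2
        ⟨Complex.continuous_re.continuousAt.tendsto.mono_left nhdsWithin_le_nhds,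
          eventually_nhdsWithin_of_forall fun z' hz' => hz'.1⟩)
    refine t2.congr' ?_
    filter_upwards [(t1.prodMk_nhds t2).eventually ((hχ z hz).1.eventually he),
      nhdsWithin_le_nhds (ball_mem_nhds z hε), self_mem_nhdsWithin] with z' p1 p2 p3
    exact Seg.unique he p1 (hχ z' p3).1 (by rw [hc.2 _ p2, (hχ z' p3).2])
  · intro u hu
    have hz : (u : ℂ) ∈ strip I h := ⟨by simpa using hu, by simpa using hh⟩
    have := hχ u hz
    simp only [Complex.ofReal_re] at this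
    exact (this.1.eq_of_dev he (by rw [this.2, hd u hu])).symm

theorem IsSec.affine {χ : ℂ → E} {D : Set ℂ} (h : IsSec dev χ D) {a : ℂ} (ha : a ≠ 0) (b : ℂ) :
    IsSec (fun q => a * dev q + b) (fun u => χ ((u - b) / a)) ((fun u => (u - b) / a) ⁻¹' D) := by
  refine ⟨h.1.comp (by fun_prop) fun u hu => hu, fun u hu => ?_⟩
  simp only
  rw [h.2 _ hu]; field_simp; ring

theorem Seg.affine {q q' : E} (h : Seg dev q q') {a : ℂ} (ha : a ≠ 0) (b : ℂ) :
    Seg (fun q => a * dev q + b) q q' := by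
  obtain ⟨χ, h1, h2, h3⟩ := h
  have e : ∀ u : ℂ, (a * u + b - b) / a = u := by intro u; field_simp; ring
  refine ⟨_, (h1.affine ha b).mono ?_, by simp only [e, h2], by simp only [e, h3]⟩
  intro u hu
  rw [segment_eq_image'] at hu
  obtain ⟨s, hs, rfl⟩ := hu
  rw [mem_preimage, segment_eq_image']
  refine ⟨s, hs, ?_⟩
  simp only [Complex.real_smul]
  field_simp; ring

theorem seg_affine_iff {q q' : E} {a : ℂ} (ha : a ≠ 0) (b : ℂ) :
    Seg (fun q => a * dev q + b) q q' ↔ Seg dev q q' := by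
  refine ⟨fun h => ?_, fun h => h.affine ha b⟩
  have := h.affine (inv_ne_zero ha) (-(a⁻¹ * b))
  have e : (fun q => a⁻¹ * (a * dev q + b) + -(a⁻¹ * b)) = dev := by
    ext q; field_simp; ring
  rwa [e] at this

theorem Etale.affine (h : Etale dev) {a : ℂ} (ha : a ≠ 0) (b : ℂ) :
    Etale fun q => a * dev q + b := by
  constructor
  · exact ((Homeomorph.mulLeft₀ a ha).trans (Homeomorph.addRight b)).isLocalHomeomorph.comp h.loc
  · intro q q' he hne
    exact h.sep q q' (mul_left_cancel₀ ha (add_right_cancel he)) hne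

theorem IsLine.affine {σ : ℝ → E} {z v : ℂ} (h : IsLine dev σ z v) (a b : ℂ) :
    IsLine (fun q => a * dev q + b) σ (a * z + b) (a * v) :=
  ⟨h.1, fun s => by simp only [h.2]; ring⟩

end general

namespace Surf

variable {E : Type*} [TopologicalSpace E] {H : Type*} [Group H] [MulAction H E] (S : Surf E H)

theorem τ_one : S.τ 1 = 0 := by
  have := S.τ_mul 1 1
  rw [one_mul] at this
  exact left_eq_add.1 this

theorem τ_inv (η : H) : S.τ η⁻¹ = - S.τ η := by
  have := S.τ_mul η⁻¹ η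
  rw [inv_mul_cancel, τ_one] at this
  exact eq_neg_of_add_eq_zero_left this.symm

theorem τ_injective : Function.Injective S.τ := by
  intro η η' h
  have := S.τ_inj (η⁻¹ * η') (by rw [S.τ_mul, S.τ_inv, h]; ring)
  exact inv_mul_eq_one.1 this

theorem isSec_smul {χ : ℂ → E} {D : Set ℂ} (h : IsSec S.dev χ D) (η : H) :
    IsSec S.dev (fun u => η • χ (u - S.τ η)) ((fun u => u - S.τ η) ⁻¹' D) :=
  ⟨(S.cont_smul η).comp_continuousOn (h.1.comp (by fun_prop) fun u hu => hu), fun u hu => by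
    rw [S.dev_smul, h.2 _ hu]; ring⟩

theorem seg_smul {q q' : E} (h : Seg S.dev q q') (η : H) : Seg S.dev (η • q) (η • q') := by
  obtain ⟨χ, h1, h2, h3⟩ := h
  refine ⟨_, (S.isSec_smul h1 η).mono ?_, by simp only [S.dev_smul, add_sub_cancel_right, h2],
    by simp only [S.dev_smul, add_sub_cancel_right, h3]⟩
  intro u hu
  rw [segment_eq_image'] at hu
  obtain ⟨s, hs, rfl⟩ := hu
  rw [mem_preimage, segment_eq_image']
  refine ⟨s, hs, ?_⟩
  simp only [S.dev_smul]
  ring_nf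

theorem isLine_smul {σ : ℝ → E} {z v : ℂ} (h : IsLine S.dev σ z v) (η : H) :
    IsLine S.dev (fun s => η • σ s) (z + S.τ η) v :=
  ⟨(S.cont_smul η).comp h.1, fun s => by rw [S.dev_smul, h.2]; ring⟩

theorem bd_biUnion {ι : Type*} {s : Set ι} (hs : s.Finite) {B : ι → Set E}
    (h : ∀ i ∈ s, S.Bd (B i)) : S.Bd (⋃ i ∈ s, B i) := by
  induction s, hs using Set.Finite.induction_on with
  | empty => simpa using S.bd_empty
  | insert _ _ ih =>
    rw [biUnion_insert]
    exact S.bd_union _ _ (h _ (mem_insert _ _)) (ih fun i hi => h i (mem_insert_of_mem _ hi))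

theorem bd_compact {K : Set E} (hK : IsCompact K) : S.Bd K := by
  refine hK.induction_on S.bd_empty (fun s t hst ht => S.bd_mono _ _ hst ht)
    (fun s t hs ht => S.bd_union _ _ hs ht) fun q _ => ?_
  obtain ⟨N, hN, hb⟩ := S.bd_nhds q
  exact ⟨N, mem_nhdsWithin_of_mem_nhds hN, hb⟩

theorem bd_singleton (q : E) : S.Bd {q} := S.bd_compact isCompact_singleton

theorem alive_of_avoid {q : E} {v : ℂ} (h : ∀ s ∈ Ioc (0 : ℝ) 1, S.dev q + s * v ∉ S.Sing) :
    Alive S.dev q v := by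
  obtain ⟨Z, hZ, -, hd⟩ := S.bd_death {q} ‖v‖ (S.bd_singleton q)
  exact hd q rfl v le_rfl fun s hs hm => h s hs (hZ hm)

theorem finite_types {B B' : Set E} (hB : S.Bd B) (hB' : S.Bd B') (L : ℝ) :
    {η : H | ∃ q ∈ B, ∃ q' ∈ B', Seg S.dev q (η • q') ∧
      ‖S.dev (η • q') - S.dev q‖ ≤ L}.Finite := by
  refine (S.bd_proper _ _ hB' (S.bd_reach B L hB)).subset ?_
  rintro η ⟨q, hq, q', hq', h1, h2⟩
  exact ⟨q', hq', q, hq, h1, h2⟩

/-- change of coordinates in the plane -/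
def affine (a b : ℂ) (ha : ‖a‖ = 1) : Surf E H where
  dev q := a * S.dev q + b
  τ η := a * S.τ η
  Sing := (fun u => a * u + b) '' S.Sing
  Bd := S.Bd
  et := S.et.affine (by rintro rfl; simp at ha) b
  cont_smul := S.cont_smul
  dev_smul η q := by rw [S.dev_smul]; ring
  τ_mul η η' := by rw [S.τ_mul]; ring
  τ_inj η h := S.τ_inj η ((mul_eq_zero.1 h).resolve_left (by rintro rfl; simp at ha))
  sing_countable := S.sing_countable.image _
  sing_add η := by
    rintro _ ⟨u, hu, rfl⟩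
    exact ⟨u + S.τ η, S.sing_add η u hu, by ring⟩
  bd_empty := S.bd_empty
  bd_mono := S.bd_mono
  bd_union := S.bd_union
  bd_smul := S.bd_smul
  bd_nhds := S.bd_nhds
  bd_reach B L hB := by
    have ha' : a ≠ 0 := by rintro rfl; simp at ha
    refine S.bd_mono _ _ ?_ (S.bd_reach B L hB)
    rintro q' ⟨q, hq, h1, h2⟩
    refine ⟨q, hq, (seg_affine_iff ha' b).1 h1, ?_⟩
    rwa [add_sub_add_right_eq_sub, ← mul_sub, norm_mul, ha, one_mul] at h2
  bd_proper := S.bd_proper
  bd_death B L hB := by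
    have ha' : a ≠ 0 := by rintro rfl; simp at ha
    obtain ⟨Z, h1, h2, h3⟩ := S.bd_death B L hB
    refine ⟨(fun u => a * u + b) '' Z, image_mono h1, h2.image _, fun q hq v hv hs => ?_⟩
    obtain ⟨q', a1, a2⟩ := h3 q hq (v / a) (by rwa [norm_div, ha, div_one]) fun s hs' hm =>
      hs s hs' ⟨_, hm, by field_simp; ring⟩
    exact ⟨q', a1.affine ha' b, by simp only [a2]; field_simp; ring⟩

end Surf

end Pool.Agent.Lib.MP_c02c19_gt
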