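import Pool.Agent.Lib.MP_c02c19_gt.Poly
import Pool.Agent.Lib.MP_c02c19_gt.Fiber

/-!
The unfolding of a polygon: copies of the polygon (vertices removed), one for each element of the
reflection group, glued along sides.
-/

namespace Pool.Agent.Lib.MP_c02c19_gt

open Set Filter Topology Metric Complex

variable (P : Set ℂ) (S : Finset (ℂ × ℂ))

/-- the gluing relation -/
def unfSetoid : Setoid (Gam S × core P S) where
  r a b := a.2 = b.2 ∧ (b.1 = a.1 ∨ b.1 = a.1 * rho S a.2)
  iseqv := by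
    refine ⟨fun a => ⟨rfl, Or.inl rfl⟩, ?_, ?_⟩
    · rintro a b ⟨h1, h2 | h2⟩
      · exact ⟨h1.symm, Or.inl h2.symm⟩
      · exact ⟨h1.symm, Or.inr (by rw [h2, ← h1, mul_assoc, rho_mul_self, mul_one])⟩
    · rintro a b c ⟨h1, h2⟩ ⟨h3, h4⟩
      refine ⟨h1.trans h3, ?_⟩
      rw [← h1] at h4
      rcases h2 with h2 | h2 <;> rcases h4 with h4 | h4
      · exact Or.inl (h4.trans h2)
      · exact Or.inr (by rw [h4, h2])
      · exact Or.inr (h4.trans h2)
      · exact Or.inl (by rw [h4, h2, mul_assoc, rho_mul_self, mul_one])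

/-- the unfolded surface -/
def Unf : Type := Quotient (unfSetoid P S)

variable {P S}

/-- a copy of the polygon -/
def sheet (γ : Gam S) (p : core P S) : Unf P S := Quotient.mk (unfSetoid P S) (γ, p)

theorem sheet_eq_iff {γ γ' : Gam S} {p p' : core P S} :
    sheet γ p = sheet γ' p' ↔ p = p' ∧ (γ' = γ ∨ γ' = γ * rho S p) := Quotient.eq

theorem exists_sheet (q : Unf P S) : ∃ γ p, q = sheet γ p := by
  obtain ⟨⟨γ, p⟩, rfl⟩ := Quotient.exists_rep q
  exact ⟨γ, p, rfl⟩

noncomputable instance : TopologicalSpace (Unf P S) :=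
  ⨆ γ : Gam S, TopologicalSpace.coinduced (sheet γ) inferInstance

theorem isOpen_unf {U : Set (Unf P S)} : IsOpen U ↔ ∀ γ : Gam S, IsOpen (sheet γ ⁻¹' U) :=
  isOpen_iSup_iff

theorem continuous_sheet (γ : Gam S) : Continuous (sheet γ : core P S → Unf P S) :=
  continuous_def.2 fun _ hU => isOpen_unf.1 hU γ

theorem continuous_unf {X : Type*} [TopologicalSpace X] {f : Unf P S → X}
    (h : ∀ γ : Gam S, Continuous fun p => f (sheet γ p)) : Continuous f :=
  continuous_def.2 fun _ hU => isOpen_unf.2 fun γ => hU.preimage (h γ)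

noncomputable instance : MulAction (Gam S) (Unf P S) where
  smul g := Quotient.map (fun a => (g * a.1, a.2)) (by
    rintro a b ⟨h1, h2⟩
    refine ⟨h1, ?_⟩
    rcases h2 with h2 | h2
    · exact Or.inl (by rw [h2])
    · exact Or.inr (by rw [h2, mul_assoc]))
  one_smul q := by
    obtain ⟨γ, p, rfl⟩ := exists_sheet q
    change sheet (1 * γ) p = _
    rw [one_mul]
  mul_smul g h q := by
    obtain ⟨γ, p, rfl⟩ := exists_sheet q
    change sheet (g * h * γ) p = sheet (g * (h * γ)) p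
    rw [mul_assoc]

theorem smul_sheet (g γ : Gam S) (p : core P S) : g • sheet γ p = sheet (g * γ) p := rfl

/-- the developing map -/
noncomputable def udev : Unf P S → ℂ :=
  Quotient.lift (fun a => (a.1 : Mot) a.2) (by
    rintro a b ⟨h1, h2 | h2⟩
    · rw [h1, h2]
    · rw [h2, ← h1, Subgroup.coe_mul, Mot.mul_apply, rho_apply_self])

/-- the folding map -/
def proj : Unf P S → ℂ := Quotient.lift (fun a => (a.2 : ℂ)) (by rintro a b ⟨h1, -⟩; rw [h1])

theorem udev_sheet (γ : Gam S) (p : core P S) : udev (sheet γ p) = (γ : Mot) p := rfl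

theorem proj_sheet (γ : Gam S) (p : core P S) : proj (sheet γ p) = p := rfl

theorem udev_smul (g : Gam S) (q : Unf P S) : udev (g • q) = (g : Mot) (udev q) := by
  obtain ⟨γ, p, rfl⟩ := exists_sheet q
  rfl

theorem proj_smul (g : Gam S) (q : Unf P S) : proj (g • q) = proj q := by
  obtain ⟨γ, p, rfl⟩ := exists_sheet q
  rfl

theorem proj_mem (q : Unf P S) : proj q ∈ core P S := by
  obtain ⟨γ, p, rfl⟩ := exists_sheet q
  exact p.2

theorem continuous_udev : Continuous (udev : Unf P S → ℂ) :=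
  continuous_unf fun γ => (γ : Mot).continuous.comp continuous_subtype_val

theorem continuous_proj : Continuous (proj : Unf P S → ℂ) :=
  continuous_unf fun _ => continuous_subtype_val

theorem continuous_gsmul (g : Gam S) : Continuous fun q : Unf P S => g • q :=
  continuous_unf fun γ => continuous_sheet (g * γ)

theorem isSec_gsmul {χ : ℂ → Unf P S} {D : Set ℂ} (h : IsSec udev χ D) (g : Gam S) :
    IsSec udev (fun u => g • χ ((g : Mot)⁻¹ u)) ((fun u => (g : Mot)⁻¹ u) ⁻¹' D) :=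
  ⟨(continuous_gsmul g).comp_continuousOn
    (h.1.comp (g : Mot)⁻¹.continuous.continuousOn fun _ hu => hu), fun u hu => by
    rw [udev_smul, h.2 _ hu, Mot.apply_inv_self]⟩

theorem seg_gsmul {q q' : Unf P S} (h : Seg udev q q') (g : Gam S) :
    Seg udev (g • q) (g • q') := by
  obtain ⟨χ, h1, h2, h3⟩ := h
  refine ⟨_, (isSec_gsmul h1 g).mono ?_, by simp only [udev_smul, Mot.inv_apply_self, h2],
    by simp only [udev_smul, Mot.inv_apply_self, h3]⟩
  intro u hu
  have := Mot.image_segment (g : Mot)⁻¹ hu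
  simpa only [udev_smul, Mot.inv_apply_self, mem_preimage] using this

theorem isLine_gsmul {σ : ℝ → Unf P S} {z v : ℂ} (h : IsLine udev σ z v) (g : Gam S) :
    IsLine udev (fun s => g • σ s) ((g : Mot) z) (lin (g : Mot) v) :=
  ⟨(continuous_gsmul g).comp h.1, fun s => by rw [udev_smul, h.2, Mot.apply_line]⟩

variable [hP : Fact (IsPolygon P S)]

instance : Nonempty (core P S) := hP.out.nonempty_core

variable (P S)

open Classical in
/-- the base copy of the polygon -/
noncomputable def iota (p : ℂ) : Unf P S :=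
  if h : p ∈ core P S then sheet 1 ⟨p, h⟩ else sheet 1 (Classical.arbitrary _)

variable {P S}

theorem smul_iota (γ : Gam S) {p : ℂ} (h : p ∈ core P S) : γ • iota P S p = sheet γ ⟨p, h⟩ := by
  rw [iota, dif_pos h, smul_sheet, mul_one]

theorem iota_eq {p : ℂ} (h : p ∈ core P S) : iota P S p = sheet 1 ⟨p, h⟩ := by
  rw [iota, dif_pos h]

theorem udev_iota {p : ℂ} (h : p ∈ core P S) : udev (iota P S p) = p := by
  rw [iota_eq h]; rfl

theorem proj_iota {p : ℂ} (h : p ∈ core P S) : proj (iota P S p) = p := by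
  rw [iota_eq h]; rfl

theorem udev_smul_iota (γ : Gam S) {p : ℂ} (h : p ∈ core P S) :
    udev (γ • iota P S p) = (γ : Mot) p := by rw [udev_smul, udev_iota h]

theorem proj_smul_iota (γ : Gam S) {p : ℂ} (h : p ∈ core P S) :
    proj (γ • iota P S p) = p := by rw [proj_smul, proj_iota h]

theorem continuousOn_iota : ContinuousOn (iota P S) (core P S) := by
  rw [continuousOn_iff_continuous_domRestrict]
  have : (core P S).domRestrict (iota P S) = sheet 1 := funext fun p => iota_eq p.2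
  rw [this]
  exact continuous_sheet 1

theorem continuousOn_smul_iota (γ : Gam S) :
    ContinuousOn (fun p => γ • iota P S p) (core P S) :=
  (continuous_gsmul γ).comp_continuousOn continuousOn_iota

/-- the points of the copy number `γ` -/
def Sh (γ : Gam S) : Set (Unf P S) := {q | q = γ • iota P S (proj q)}

theorem smul_iota_mem (γ : Gam S) {p : ℂ} (h : p ∈ core P S) : γ • iota P S p ∈ Sh γ := by
  change _ = _
  rw [proj_smul_iota γ h]

theorem iota_mem {p : ℂ} (h : p ∈ core P S) : iota P S p ∈ Sh (1 : Gam S) := by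
  have := smul_iota_mem (1 : Gam S) h
  rwa [one_smul] at this

theorem sheet_mem_iff {γ γ' : Gam S} {p : core P S} :
    sheet γ p ∈ Sh γ' ↔ γ' = γ ∨ γ' = γ * rho S p := by
  change sheet γ p = γ' • iota P S p ↔ _
  rw [smul_iota γ' p.2, sheet_eq_iff]
  simp

theorem exists_Sh (q : Unf P S) : ∃ γ, q ∈ Sh γ := by
  obtain ⟨γ, p, rfl⟩ := exists_sheet q
  exact ⟨γ, sheet_mem_iff.2 (Or.inl rfl)⟩

theorem Sh.eq {q : Unf P S} {γ : Gam S} (h : q ∈ Sh γ) : q = γ • iota P S (proj q) := h

theorem Sh.dev_eq {q : Unf P S} {γ : Gam S} (h : q ∈ Sh γ) : udev q = (γ : Mot) (proj q) := by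
  conv_lhs => rw [Sh.eq h]
  exact udev_smul_iota γ (proj_mem q)

theorem Sh.proj_eq {q : Unf P S} {γ : Gam S} (h : q ∈ Sh γ) :
    proj q = (γ : Mot)⁻¹ (udev q) := by
  rw [Sh.dev_eq h, Mot.inv_apply_self]

theorem Sh.smul {q : Unf P S} {γ : Gam S} (h : q ∈ Sh γ) (g : Gam S) : g • q ∈ Sh (g * γ) := by
  change _ = _
  rw [proj_smul, mul_smul, ← Sh.eq h]

theorem Sh.iff {q : Unf P S} {γ γ' : Gam S} (h : q ∈ Sh γ) :
    q ∈ Sh γ' ↔ γ' = γ ∨ γ' = γ * rho S (proj q) := by
  have := Sh.eq h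
  rw [smul_iota γ (proj_mem q)] at this
  conv_lhs => rw [this]
  exact sheet_mem_iff

theorem Sh.unique {q : Unf P S} {γ γ' : Gam S} (h : q ∈ Sh γ) (h' : q ∈ Sh γ')
    (hi : proj q ∈ interior P) : γ' = γ := by
  rcases (Sh.iff h).1 h' with h1 | h1
  · exact h1
  · rw [h1, hP.out.rho_eq_one hi, mul_one]

theorem Sh.ext {q q' : Unf P S} {γ : Gam S} (h : q ∈ Sh γ) (h' : q' ∈ Sh γ)
    (he : udev q = udev q') : q = q' := by
  rw [Sh.eq h, Sh.eq h', Sh.proj_eq h, Sh.proj_eq h', he]

theorem finite_Sh (q : Unf P S) : {γ | q ∈ Sh γ}.Finite := by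
  obtain ⟨γ, h⟩ := exists_Sh q
  exact (toFinite {γ, γ * rho S (proj q)}).subset fun γ' h' => (Sh.iff h).1 h'

/-- the set of copies containing a point is upper semicontinuous -/
theorem eventually_Sh (q : Unf P S) : ∀ᶠ q' in 𝓝 q, ∀ γ, q' ∈ Sh γ → q ∈ Sh γ := by
  obtain ⟨ε, hε, hb⟩ := hP.out.rho_local (proj_mem q)
  have ho : IsOpen {q' : Unf P S | proj q' ∈ ball (proj q) ε ∧ ∀ γ, q' ∈ Sh γ → q ∈ Sh γ} := by
    refine isOpen_unf.2 fun γ' => ?_
    by_cases h : q ∈ Sh γ'
    · have : sheet γ' ⁻¹' {q' : Unf P S | proj q' ∈ ball (proj q) ε ∧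
          ∀ γ, q' ∈ Sh γ → q ∈ Sh γ} = Subtype.val ⁻¹' ball (proj q) ε := by
        ext p
        refine ⟨fun h => h.1, fun hp => ⟨hp, fun γ hγ => ?_⟩⟩
        rcases sheet_mem_iff.1 hγ with h1 | h1
        · rwa [h1]
        · rcases hb p hp p.2.1 with h2 | h2
          · rwa [h1, h2, mul_one]
          · rw [h1, h2]; exact (Sh.iff h).2 (Or.inr rfl)
      rw [this]
      exact isOpen_ball.preimage continuous_subtype_val
    · have : sheet γ' ⁻¹' {q' : Unf P S | proj q' ∈ ball (proj q) ε ∧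
          ∀ γ, q' ∈ Sh γ → q ∈ Sh γ} = ∅ :=
        eq_empty_of_forall_notMem fun p hp => h (hp.2 γ' (sheet_mem_iff.2 (Or.inl rfl)))
      rw [this]
      exact isOpen_empty
  exact mem_of_superset (ho.mem_nhds ⟨mem_ball_self hε, fun _ h => h⟩) fun _ h => h.2

theorem isClosed_Sh (γ : Gam S) : IsClosed (Sh γ : Set (Unf P S)) := by
  rw [← isOpen_compl_iff, isOpen_iff_mem_nhds]
  intro q hq
  filter_upwards [eventually_Sh q] with q' h h' using hq (h γ h')

theorem Sh.eventually {q : Unf P S} {γ : Gam S} (h : q ∈ Sh γ)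
    (hi : proj q ∈ interior P) :
    ∀ᶠ q' in 𝓝 q, q' ∈ Sh γ ∧ proj q' ∈ interior P := by
  filter_upwards [eventually_Sh q,
    continuous_proj.continuousAt.preimage_mem_nhds (isOpen_interior.mem_nhds hi)] with q' h1 h2
  obtain ⟨γ', h3⟩ := exists_Sh q'
  exact ⟨Sh.unique h (h1 γ' h3) hi ▸ h3, h2⟩

theorem isOpen_Sh (γ : Gam S) : IsOpen {q : Unf P S | q ∈ Sh γ ∧ proj q ∈ interior P} :=
  isOpen_iff_mem_nhds.2 fun _ h => Sh.eventually h.1 h.2

theorem Sh.exists_interior {q : Unf P S} {γ : Gam S} (h : q ∈ Sh γ) {N : Set (Unf P S)}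
    (hN : N ∈ 𝓝 q) : ∃ q' ∈ N, q' ∈ Sh γ ∧ proj q' ∈ interior P := by
  have h1 := continuousOn_smul_iota γ _ (proj_mem q)
  have h2 : (fun p => γ • iota P S p) ⁻¹' N ∈ 𝓝[core P S] (proj q) :=
    h1 (by simp only; rwa [← Sh.eq h])
  have h3 : proj q ∈ closure (interior P) := by
    rw [hP.out.closure_eq]; exact (proj_mem q).1
  have h4 := nhdsWithin_mono _ hP.out.interior_subset_core h2
  have := mem_closure_iff_nhdsWithin_neBot.1 h3
  obtain ⟨p, hp1, hp2⟩ := (eventually_mem_set.2 h4 |>.and self_mem_nhdsWithin).exists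
  have hc := hP.out.interior_subset_core hp2
  exact ⟨_, hp1, smul_iota_mem γ hc, by rwa [proj_smul_iota γ hc]⟩

theorem isSec_iota {D : Set ℂ} (hD : D ⊆ core P S) : IsSec udev (iota P S) D :=
  ⟨continuousOn_iota.mono hD, fun _ hu => udev_iota (hD hu)⟩

theorem exists_unf_chart_one {q : Unf P S} (hq : q ∈ Sh (1 : Gam S)) :
    ∃ ε > 0, ∃ χ, IsSec udev χ (ball (udev q) ε) ∧ ∀ᶠ q' in 𝓝 q, χ (udev q') = q' := by
  have hd : ∀ q' : Unf P S, q' ∈ Sh (1 : Gam S) → udev q' = proj q' := fun q' h => Sh.dev_eq h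
  have he : ∀ q' : Unf P S, q' ∈ Sh (1 : Gam S) → iota P S (udev q') = q' := fun q' h => by
    rw [hd q' h]; exact ((Sh.eq h).trans (one_smul _ _)).symm
  rcases hP.out.core_cases (proj_mem q) with h | ⟨s, hs, h⟩
  · obtain ⟨ε, hε, hb⟩ := Metric.mem_nhds_iff.1 (isOpen_interior.mem_nhds h)
    refine ⟨ε, hε, iota P S, isSec_iota ?_, ?_⟩
    · rw [hd q hq]; exact hb.trans hP.out.interior_subset_core
    · filter_upwards [Sh.eventually hq h] with q' h' using he q' h'.1
  · obtain ⟨ε, hε, κ, hκ, hb⟩ := hP.out.half_disc hs h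
    have hne := hP.out.side_ne s hs
    have hr : ((rG hs : Gam S) : Mot) = reflM s.1 s.2 := rfl
    have hfix : reflM s.1 s.2 (proj q) = proj q :=
      reflM_fix (sd_eq_zero_of_mem (openSegment_subset_segment _ _ _ h))
    have hball : ∀ u ∈ closedBall (proj q) (ε / 2), reflM s.1 s.2 u ∈ closedBall (proj q) (ε / 2) := by
      intro u hu
      rw [mem_closedBall] at hu ⊢
      rwa [← hfix, Mot.dist_eq]
    have hsub : closedBall (proj q) (ε / 2) ⊆ ball (proj q) ε := closedBall_subset_ball (by linarith)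
    set D : Set ℂ := closedBall (proj q) (ε / 2) ∩ {u | 0 ≤ κ * sd s u} with hD
    have hDc : D ⊆ core P S := fun u hu =>
      ⟨(hb u (hsub hu.1)).2.1.2 hu.2, (hb u (hsub hu.1)).1⟩
    have hcl : IsClosed D := isClosed_closedBall.inter
      (isClosed_le continuous_const (continuous_const.mul (continuous_sd s)))
    have h1 : IsSec udev (iota P S) D := isSec_iota hDc
    have h2 := isSec_gsmul h1 (rG hs)
    rw [hr, reflM_inv] at h2
    obtain ⟨χ, c1, c2, c3⟩ := h1.glue h2 hcl (hcl.preimage (reflM s.1 s.2).continuous) (by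
      intro u hu
      have a1 : 0 ≤ κ * sd s u := hu.1.2
      have a2 : 0 ≤ κ * sd s (reflM s.1 s.2 u) := hu.2.2
      rw [sd_reflM hne] at a2
      have hκ0 : κ ≠ 0 := by rcases hκ with rfl | rfl <;> norm_num
      have a3 : sd s u = 0 := (mul_eq_zero.1 (by linarith : κ * sd s u = 0)).resolve_left hκ0
      simp only
      rw [reflM_fix a3, smul_iota _ (hDc hu.1), iota_eq (hDc hu.1), sheet_eq_iff]
      refine ⟨rfl, Or.inr ?_⟩
      rw [one_mul]
      exact (hP.out.rho_eq_of_side hs ((hb u (hsub hu.1.1)).2.2.2 a3)).symm)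
    refine ⟨ε / 2, by linarith, χ, c1.mono ?_, ?_⟩
    · intro u hu
      rw [hd q hq] at hu
      rcases le_total 0 (κ * sd s u) with h0 | h0
      · exact Or.inl ⟨ball_subset_closedBall hu, h0⟩
      · refine Or.inr ⟨hball u (ball_subset_closedBall hu), ?_⟩
        change 0 ≤ κ * sd s (reflM s.1 s.2 u)
        rw [sd_reflM hne]; linarith
    · filter_upwards [eventually_Sh q, continuous_proj.continuousAt.preimage_mem_nhds
        (closedBall_mem_nhds (proj q) (by linarith : 0 < ε / 2))] with q' a1 a2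
      have a3 : proj q' ∈ D := ⟨a2, (hb _ (hsub a2)).2.1.1 (proj_mem q').1⟩
      obtain ⟨γ, hγ⟩ := exists_Sh q'
      rcases (Sh.iff hq).1 (a1 γ hγ) with a4 | a4
      · rw [a4] at hγ
        rw [c2 (by rwa [hd q' hγ]), he q' hγ]
      · rw [a4, one_mul, hP.out.rho_eq_of_side hs h] at hγ
        have a5 : reflM s.1 s.2 (udev q') = proj q' := by rw [Sh.proj_eq hγ, hr, reflM_inv]
        rw [c3 (by rw [mem_preimage, a5]; exact a3)]
        simp only [a5]
        exact (Sh.eq hγ).symm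

theorem etale_udev : Etale (udev : Unf P S → ℂ) := by
  constructor
  · refine isLocalHomeomorph_of_charts continuous_udev fun q => ?_
    obtain ⟨γ, hγ⟩ := exists_Sh q
    have h1 := Sh.smul hγ γ⁻¹
    rw [inv_mul_cancel] at h1
    obtain ⟨ε, hε, χ, c1, c2⟩ := exists_unf_chart_one h1
    refine ⟨ε, hε, _, (isSec_gsmul c1 γ).mono fun u hu => ?_, ?_⟩
    · rw [mem_preimage, udev_smul, mem_ball, Subgroup.coe_inv, Mot.dist_eq]
      exact hu
    · filter_upwards [(continuous_gsmul γ⁻¹).continuousAt.eventually c2] with q' h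
      rw [udev_smul, Subgroup.coe_inv] at h
      rw [h, smul_inv_smul]
  · intro q q' he hne
    obtain ⟨U, hU1, hU2, hU3⟩ := _root_.eventually_nhds_iff.1 (eventually_Sh q)
    obtain ⟨V, hV1, hV2, hV3⟩ := _root_.eventually_nhds_iff.1 (eventually_Sh q')
    refine ⟨U, V, hU2, hV2, hU3, hV3, Set.disjoint_left.2 fun m h1 h2 => hne ?_⟩
    obtain ⟨γ, hγ⟩ := exists_Sh m
    exact Sh.ext (hU1 m h1 γ hγ) (hV1 m h2 γ hγ) he

theorem isPreconnected_Sh (γ : Gam S) : IsPreconnected (Sh γ : Set (Unf P S)) := by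
  have : (Sh γ : Set (Unf P S)) = (fun p => γ • iota P S p) '' core P S := by
    ext q
    exact ⟨fun h => ⟨_, proj_mem q, (Sh.eq h).symm⟩, by
      rintro ⟨p, hp, rfl⟩; exact smul_iota_mem γ hp⟩
  rw [this]
  exact hP.out.isPreconnected_core.image _ (continuousOn_smul_iota γ)

instance : PreconnectedSpace (Unf P S) := by
  obtain ⟨x⟩ : Nonempty (core P S) := inferInstance
  have key : ∀ g ∈ Subgroup.closure (gens S), ∀ hg : g ∈ Gam S,
      (Sh ⟨g, hg⟩ : Set (Unf P S)) ⊆ connectedComponent (iota P S x) := by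
    have step : ∀ (γ : Gam S) (s : ℂ × ℂ) (hs : s ∈ S),
        (Sh γ : Set (Unf P S)) ⊆ connectedComponent (iota P S x) →
        (Sh (γ * rG hs) : Set (Unf P S)) ⊆ connectedComponent (iota P S x) := by
      intro γ s hs h
      have hm := midpoint_mem_openSegment (𝕜 := ℝ) s.1 s.2
      have hc := hP.out.mem_core_of_side hs hm
      have h1 := smul_iota_mem γ hc
      have h2 : γ • iota P S (midpoint ℝ s.1 s.2) ∈ Sh (γ * rG hs) :=
        (Sh.iff h1).2 (Or.inr (by rw [proj_smul_iota γ hc, hP.out.rho_eq_of_side hs hm]))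
      rw [connectedComponent_eq (h h1)]
      exact (isPreconnected_Sh _).subset_connectedComponent h2
    intro g hg
    induction hg using Subgroup.closure_induction_right with
    | one => exact fun _ => (isPreconnected_Sh _).subset_connectedComponent (iota_mem x.2)
    | mul_right g hg r hr ih =>
      obtain ⟨s, hs, rfl⟩ := hr
      exact fun _ => step ⟨g, hg⟩ s hs (ih hg)
    | mul_inv_cancel g hg r hr ih =>
      obtain ⟨s, hs, rfl⟩ := hr
      intro hg'
      have : (⟨_, hg'⟩ : Gam S) = ⟨g, hg⟩ * rG hs := Subtype.ext (by simp [rG, reflM_inv])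
      rw [this]
      exact step ⟨g, hg⟩ s hs (ih hg)
  refine ⟨?_⟩
  have : connectedComponent (iota P S x) = univ := eq_univ_of_forall fun q => by
    obtain ⟨γ, hγ⟩ := exists_Sh q
    exact key γ.1 γ.2 γ.2 hγ
  rw [← this]
  exact isPreconnected_connectedComponent

end Pool.Agent.Lib.MP_c02c19_gt
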